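import Pool.Agent.H57.Cen.Row

/-!
# The map number `true` is Anosov: the splitting
-/

namespace Pool.Agent.H57.Cen

open Filter Topology Set

/-- the model of the stable bundle -/
abbrev Sp : Type := ℝ × E

/-- inclusion of the stable model -/
noncomputable def js : Sp →L[ℝ] V :=
  ((ContinuousLinearMap.inr ℝ ℝ ℝ).comp (ContinuousLinearMap.fst ℝ ℝ E)).prod
    ((ContinuousLinearMap.inr ℝ E E).comp (ContinuousLinearMap.snd ℝ ℝ E))

/-- projection to the stable model -/
noncomputable def pr : V →L[ℝ] Sp :=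
  ((ContinuousLinearMap.snd ℝ ℝ ℝ).comp (ContinuousLinearMap.fst ℝ (ℝ × ℝ) (E × E))).prod pb

/-- linear part on the stable model -/
noncomputable def La : Sp →L[ℝ] Sp :=
  (lami • ContinuousLinearMap.fst ℝ ℝ E).prod (mui • ContinuousLinearMap.snd ℝ ℝ E)

lemma js_apply (s : Sp) : js s = ((0, s.1), (0, s.2)) := by simp [js]
lemma pr_apply (v : V) : pr v = (v.1.2, v.2.2) := rfl
lemma La_apply (s : Sp) : La s = (lami * s.1, mui • s.2) := by simp [La]

lemma js_norm_le : ‖js‖ ≤ 1 := by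
  apply ContinuousLinearMap.opNorm_le_bound _ zero_le_one
  intro s
  rw [js_apply, one_mul]
  refine max_le (max_le ?_ (norm_fst_le s)) (max_le ?_ (norm_snd_le s))
  · simp
  · simp

lemma pr_norm_le (v : V) : ‖pr v‖ ≤ ‖v‖ := by
  rw [pr_apply]
  exact max_le ((norm_snd_le v.1).trans (norm_fst_le v)) ((norm_snd_le v.2).trans (norm_snd_le v))

lemma La_norm_le : ‖La‖ ≤ 1 / 5 := by
  apply ContinuousLinearMap.opNorm_le_bound _ (by norm_num)
  intro s
  have h1 := lami_bounds
  have h2 := mui_lt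
  have h3 := mui_pos
  have a1 := norm_fst_le s
  have a2 := norm_snd_le s
  have a0 := norm_nonneg s
  rw [La_apply]
  refine max_le ?_ ?_
  · simp only [norm_mul]
    rw [Real.norm_of_nonneg (by linarith [h1.1] : (0 : ℝ) ≤ lami)]
    have := norm_nonneg s.1
    nlinarith [h1.2]
  · simp only [norm_smul]
    rw [Real.norm_of_nonneg h3.le]
    have := norm_nonneg s.2
    nlinarith

/-- the block of the derivative on the twisted factor -/
noncomputable def dd (b : Bool) (p : V) : E →L[ℝ] E := pa.comp ((DG b p).comp ia)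
/-- the off-diagonal block -/
noncomputable def de (p : V) : Sp →L[ℝ] E := pa.comp ((DG true p).comp js)

lemma pa_opNorm : ‖pa‖ ≤ 1 := ContinuousLinearMap.opNorm_le_bound _ zero_le_one fun v => by
  rw [one_mul]; exact pa_norm_le v
lemma ia_opNorm : ‖ia‖ ≤ 1 := ContinuousLinearMap.opNorm_le_bound _ zero_le_one fun v => by
  rw [one_mul, ia_norm]

lemma LN_ia (b : Bool) (p : V) (e : E) : pa (LN b p (ia e)) = nu b • NN b p e := by
  unfold LN
  rw [mul_apply_eq_comp, MM_apply, LL_apply]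
  rfl

lemma LN_js (b : Bool) (p : V) (s : Sp) : pa (LN b p (js s)) = 0 := by
  unfold LN
  rw [mul_apply_eq_comp, MM_apply, LL_apply, js_apply, pa_apply]
  unfold Lw
  simp

lemma dd_close (b : Bool) (p : V) : ‖dd b p - nu b • NN b (Hh.symm p)‖ ≤ 1 / 10 ^ 41 := by
  have e : dd b p - nu b • NN b (Hh.symm p) =
      pa.comp ((DG b p - LN b (Hh.symm p)).comp ia) := by
    refine ContinuousLinearMap.ext fun e => ?_
    have h := LN_ia b (Hh.symm p) e
    unfold dd
    simp only [sub_apply, ContinuousLinearMap.comp_apply, smul_apply, map_sub]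
    rw [h]
  rw [e]
  refine (ContinuousLinearMap.opNorm_comp_le _ _).trans ?_
  have h1 := pa_opNorm
  have h2 := ia_opNorm
  have h3 := DG_close b p
  have h4 := ContinuousLinearMap.opNorm_comp_le (DG b p - LN b (Hh.symm p)) ia
  have h5 : ‖DG b p - LN b (Hh.symm p)‖ * ‖ia‖ ≤ 1 / 10 ^ 41 * 1 :=
    mul_le_mul h3 h2 (norm_nonneg _) (by positivity)
  calc ‖pa‖ * ‖(DG b p - LN b (Hh.symm p)).comp ia‖ ≤ 1 * (1 / 10 ^ 41 * 1) :=
        mul_le_mul h1 (h4.trans h5) (norm_nonneg _) zero_le_one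
    _ = _ := by ring

lemma de_small (p : V) : ‖de p‖ ≤ 1 / 10 ^ 41 := by
  have e : de p = pa.comp ((DG true p - LN true (Hh.symm p)).comp js) := by
    refine ContinuousLinearMap.ext fun e => ?_
    have h := LN_js true (Hh.symm p) e
    unfold de
    simp only [sub_apply, ContinuousLinearMap.comp_apply, map_sub]
    rw [h, sub_zero]
  rw [e]
  refine (ContinuousLinearMap.opNorm_comp_le _ _).trans ?_
  have h1 := pa_opNorm
  have h2 := js_norm_le
  have h3 := DG_close true p
  have h4 := ContinuousLinearMap.opNorm_comp_le (DG true p - LN true (Hh.symm p)) js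
  have h5 : ‖DG true p - LN true (Hh.symm p)‖ * ‖js‖ ≤ 1 / 10 ^ 41 * 1 :=
    mul_le_mul h3 h2 (norm_nonneg _) (by positivity)
  calc ‖pa‖ * ‖(DG true p - LN true (Hh.symm p)).comp js‖ ≤ 1 * (1 / 10 ^ 41 * 1) :=
        mul_le_mul h1 (h4.trans h5) (norm_nonneg _) zero_le_one
    _ = _ := by ring

/-- the ratio is close to an invertible matrix with controlled inverse -/
lemma NN_model (b : Bool) (v : V) : ∃ A A' : E →L[ℝ] E, A * A' = 1 ∧ A' * A = 1 ∧ ‖A'‖ ≤ 2600 ∧
    ‖NN b v - A‖ ≤ 1 / 10 ^ 58 := by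
  by_cases h : q v = 0
  · refine ⟨aInf (Jx v.1), aInfi (Jx v.1), aInf_mul_aInfi _, aInfi_mul_aInf _, aInfi_norm_le _, ?_⟩
    rw [NN_of_zero b h, sub_self, norm_zero]; positivity
  · exact ⟨aT (tt v) (Jx v.1), aTi (tt v) (Jx v.1), aT_mul_aTi _ _, aTi_mul_aT _ _,
      aTi_norm_le _ _, NN_close' b h⟩

lemma dd_model (p : V) : ∃ B : E →L[ℝ] E, B * dd true p = 1 ∧ dd true p * B = 1 ∧
    ‖B‖ ≤ 1 / 30 := by
  obtain ⟨A, A', h1, h2, h3, h4⟩ := NN_model true (Hh.symm p)
  have h5 := dd_close true p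
  have hmu := mu_bounds
  have hnu : nu true = mu := rfl
  rw [hnu] at h5
  set X := mui • (A' * (dd true p - mu • A)) with hX
  have hX1 : ‖X‖ ≤ 1 / 2 := by
    have a1 : ‖dd true p - mu • A‖ ≤ 1 / 10 ^ 40 := by
      have e : dd true p - mu • A = (dd true p - mu • NN true (Hh.symm p)) +
          mu • (NN true (Hh.symm p) - A) := by rw [smul_sub]; abel
      rw [e]
      refine (norm_add_le _ _).trans ?_
      rw [norm_smul, Real.norm_of_nonneg mu_pos.le]
      have : mu * ‖NN true (Hh.symm p) - A‖ ≤ 200001 * (1 / 10 ^ 58) := by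
        apply mul_le_mul _ h4 (norm_nonneg _) (by norm_num)
        linarith [hmu.2]
      have e2 : (1 : ℝ) / 10 ^ 41 + 200001 * (1 / 10 ^ 58) ≤ 1 / 10 ^ 40 := by norm_num
      linarith
    rw [hX, norm_smul, Real.norm_of_nonneg mui_pos.le]
    have a2 : ‖A' * (dd true p - mu • A)‖ ≤ 2600 * (1 / 10 ^ 40) :=
      (norm_mul_le _ _).trans (mul_le_mul h3 a1 (norm_nonneg _) (by norm_num))
    have a3 := mui_lt
    have a4 := mui_pos
    have a5 := norm_nonneg (A' * (dd true p - mu • A))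
    have a6 : (2600 : ℝ) * (1 / 10 ^ 40) ≤ 1 / 2 := by norm_num
    nlinarith
  have hd : dd true p = mu • (A * (1 + X)) := by
    rw [hX, mul_add, mul_one, mul_smul_comm, ← mul_assoc, h1, one_mul, smul_add, smul_smul,
      mu_mul_mui, one_smul]
    abel
  have hu : IsUnit (1 + X) := by
    have h2 : ‖-X‖ < 1 := by rw [norm_neg]; linarith
    have := (Units.oneSub (-X) h2).isUnit
    have e : (↑(Units.oneSub (-X) h2) : E →L[ℝ] E) = 1 + X := by
      simp
    rwa [e] at this
  set F := Ring.inverse (1 + X) with hF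
  have hF1 : (1 + X) * F = 1 := Ring.mul_inverse_cancel _ hu
  have hF2 : F * (1 + X) = 1 := Ring.inverse_mul_cancel _ hu
  have hFn : ‖F‖ ≤ 2 := by
    have a1 : ‖F‖ ≤ ‖(1 : E →L[ℝ] E)‖ + ‖X‖ * ‖F‖ := by
      have hF3 : F = 1 - X * F := by
        rw [add_mul, one_mul] at hF1
        rw [← hF1]; abel
      conv_lhs => rw [hF3]
      exact (norm_sub_le _ _).trans (add_le_add le_rfl (norm_mul_le _ _))
    have a3 := norm_one_le
    have a4 := norm_nonneg F
    nlinarith
  refine ⟨mui • (F * A'), ?_, ?_, ?_⟩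
  · rw [hd, smul_mul_smul_comm, mul_comm mui, mu_mul_mui, one_smul, mul_assoc, ← mul_assoc A',
      h2, one_mul, hF2]
  · rw [hd, smul_mul_smul_comm, mu_mul_mui, one_smul, mul_assoc, ← mul_assoc (1 + X), hF1,
      one_mul, h1]
  · rw [norm_smul, Real.norm_of_nonneg mui_pos.le]
    have a1 : ‖F * A'‖ ≤ 2 * 2600 :=
      (norm_mul_le _ _).trans (mul_le_mul hFn h3 (norm_nonneg _) (by norm_num))
    have a2 := mu_mul_mui
    have a3 := mui_pos
    have a4 : mui ≤ 1 / 199999 := by
      rw [le_div_iff₀ (by norm_num)]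
      nlinarith [hmu.1]
    have := norm_nonneg (F * A')
    nlinarith

end Pool.Agent.H57.Cen
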