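import Pool.Agent.H57.Cen.Ano

/-!
# The stable bundle
-/

namespace Pool.Agent.H57.Cen

open Filter Topology Set

/-- inverse of the diagonal block -/
noncomputable def di (p : V) : E →L[ℝ] E := Ring.inverse (dd true p)

lemma dd_isUnit (p : V) : IsUnit (dd true p) := by
  obtain ⟨B, h1, h2, _⟩ := dd_model p
  exact ⟨⟨dd true p, B, h2, h1⟩, rfl⟩

lemma di_norm_le (p : V) : ‖di p‖ ≤ 1 / 30 := by
  obtain ⟨B, h1, h2, h3⟩ := dd_model p
  have e : di p = B := Ring.inverse_unit ⟨dd true p, B, h2, h1⟩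
  rw [e]; exact h3

lemma dd_mul_di (p : V) : dd true p * di p = 1 := Ring.mul_inverse_cancel _ (dd_isUnit p)
lemma di_mul_dd (p : V) : di p * dd true p = 1 := Ring.inverse_mul_cancel _ (dd_isUnit p)

lemma continuous_dd (b : Bool) : Continuous (dd b) := by
  unfold dd
  exact continuous_const.clm_comp ((continuous_DG b).clm_comp continuous_const)

lemma continuous_de : Continuous de := by
  unfold de
  exact continuous_const.clm_comp ((continuous_DG true).clm_comp continuous_const)

lemma continuous_di : Continuous di := by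
  rw [continuous_iff_continuousAt]
  intro p
  have h1 := NormedRing.inverse_continuousAt (dd_isUnit p).unit
  exact ContinuousAt.comp (g := Ring.inverse) (f := dd true) h1 (continuous_dd true).continuousAt

open scoped BoundedContinuousFunction

/-- the graph transform as a function -/
noncomputable def Tf (c : V → (Sp →L[ℝ] E)) (p : V) : Sp →L[ℝ] E :=
  (di p).comp ((c (GG true p)).comp La - de p)

lemma Tf_norm_le {c : V → (Sp →L[ℝ] E)} {C : ℝ} (hC : 0 ≤ C) (h : ∀ p, ‖c p‖ ≤ C) (p : V) :
    ‖Tf c p‖ ≤ (1 / 30) * (C + 1) := by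
  unfold Tf
  refine (ContinuousLinearMap.opNorm_comp_le _ _).trans ?_
  have h1 := di_norm_le p
  have h2 := de_small p
  have h3 : ‖(c (GG true p)).comp La‖ ≤ C * 1 :=
    (ContinuousLinearMap.opNorm_comp_le _ _).trans
      (mul_le_mul (h _) (La_norm_le.trans (by norm_num)) (norm_nonneg _) hC)
  have h4 : ‖(c (GG true p)).comp La - de p‖ ≤ C + 1 := by
    refine (norm_sub_le _ _).trans ?_
    have : (1 : ℝ) / 10 ^ 41 ≤ 1 := by norm_num
    linarith
  exact mul_le_mul h1 h4 (norm_nonneg _) (by norm_num)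

/-- the graph transform -/
noncomputable def TT2 (c : V →ᵇ (Sp →L[ℝ] E)) : V →ᵇ (Sp →L[ℝ] E) :=
  BoundedContinuousFunction.ofNormedAddCommGroup (Tf c)
    (by
      unfold Tf
      exact continuous_di.clm_comp
        (((c.continuous.comp (GG true).continuous).clm_comp continuous_const).sub continuous_de))
    ((1 / 30) * (‖c‖ + 1)) (Tf_norm_le (norm_nonneg c) c.norm_coe_le_norm)

lemma TT2_apply (c : V →ᵇ (Sp →L[ℝ] E)) (p : V) : TT2 c p = Tf c p := rfl

lemma Tf_sub_le (c c' : V → (Sp →L[ℝ] E)) (p : V) :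
    ‖Tf c p - Tf c' p‖ ≤ (1 / 30) * ‖c (GG true p) - c' (GG true p)‖ := by
  have e : Tf c p - Tf c' p = (di p).comp ((c (GG true p) - c' (GG true p)).comp La) := by
    unfold Tf
    refine ContinuousLinearMap.ext fun s => ?_
    simp only [sub_apply, ContinuousLinearMap.comp_apply, map_sub]
    abel
  rw [e]
  refine (ContinuousLinearMap.opNorm_comp_le _ _).trans ?_
  refine mul_le_mul (di_norm_le p) ?_ (norm_nonneg _) (by norm_num)
  refine (ContinuousLinearMap.opNorm_comp_le _ _).trans ?_
  exact mul_le_of_le_one_right (norm_nonneg _) (La_norm_le.trans (by norm_num))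

lemma TT2_contracting : ContractingWith (1 / 30) TT2 := by
  refine ⟨by rw [div_lt_one (by norm_num)]; norm_num, ?_⟩
  apply LipschitzWith.of_dist_le_mul
  intro c c'
  rw [BoundedContinuousFunction.dist_le (by positivity)]
  intro p
  rw [TT2_apply, TT2_apply, dist_eq_norm]
  refine (Tf_sub_le _ _ _).trans ?_
  have h1 : ‖c (GG true p) - c' (GG true p)‖ ≤ dist c c' := by
    rw [← dist_eq_norm]
    exact BoundedContinuousFunction.dist_coe_le_dist _
  have e : ((1 / 30 : NNReal) : ℝ) = 1 / 30 := by norm_num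
  rw [e]
  gcongr

/-- the stable slope as a bounded continuous function -/
noncomputable def gmb : V →ᵇ (Sp →L[ℝ] E) := TT2_contracting.fixedPoint TT2

/-- the stable slope -/
noncomputable def gm (p : V) : Sp →L[ℝ] E := gmb p

lemma continuous_gm : Continuous gm := gmb.continuous

lemma gm_eq (p : V) : gm p = Tf gm p := by
  have h : TT2 gmb = gmb := TT2_contracting.fixedPoint_isFixedPt
  have h2 := congrArg (fun c => c p) h
  exact h2.symm

lemma gm_norm_le (p : V) : ‖gm p‖ ≤ 1 := by
  have h1 : ‖gmb‖ ≤ (1 / 30) * (‖gmb‖ + 1) := by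
    have h2 : ‖gmb‖ ≤ (1 / 30) * (‖gmb‖ + 1) := by
      rw [BoundedContinuousFunction.norm_le (by positivity)]
      intro x
      have h3 := gm_eq x
      have h4 : gmb x = Tf gm x := h3
      rw [h4]
      exact Tf_norm_le (norm_nonneg _) gmb.norm_coe_le_norm x
    exact h2
  have h2 := gmb.norm_coe_le_norm p
  have h3 : ‖gm p‖ ≤ ‖gmb‖ := h2
  linarith

lemma dd_add_Gm (b : Bool) (v : V) (m n : ℤ) (p r : ℤ × ℤ) :
    dd b (v + Gm m n p r) = dd b v := by
  unfold dd; rw [DG_add_Gm]

lemma gm_per_aux (k : ℕ) : ∀ (v : V) (m n : ℤ) (p r : ℤ × ℤ),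
    ‖gm (v + Gm m n p r) - gm v‖ ≤ (1 / 30) ^ k * 2 := by
  induction k with
  | zero =>
    intro v m n p r
    have := norm_sub_le (gm (v + Gm m n p r)) (gm v)
    have := gm_norm_le (v + Gm m n p r)
    have := gm_norm_le v
    simp only [pow_zero]
    linarith
  | succ k ih =>
    intro v m n p r
    obtain ⟨m', n', p', r', h⟩ := LL_Gm true m n p r
    have e1 : gm (v + Gm m n p r) = (di v).comp ((gm (GG true v + Gm m' n' p' r')).comp La - de v) := by
      rw [gm_eq]
      unfold Tf di de
      rw [dd_add_Gm, DG_add_Gm, GG_add_Gm, h]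
    have e2 : gm (v + Gm m n p r) - gm v =
        (di v).comp ((gm (GG true v + Gm m' n' p' r') - gm (GG true v)).comp La) := by
      rw [e1]
      conv_lhs => rhs; rw [gm_eq v]
      unfold Tf
      refine ContinuousLinearMap.ext fun s => ?_
      simp only [sub_apply, ContinuousLinearMap.comp_apply, map_sub]
      abel
    rw [e2]
    refine (ContinuousLinearMap.opNorm_comp_le _ _).trans ?_
    have h5 : ‖(gm (GG true v + Gm m' n' p' r') - gm (GG true v)).comp La‖ ≤
        (1 / 30) ^ k * 2 := by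
      refine (ContinuousLinearMap.opNorm_comp_le _ _).trans ?_
      refine (mul_le_of_le_one_right (norm_nonneg _) (La_norm_le.trans (by norm_num))).trans ?_
      exact ih _ _ _ _ _
    calc _ ≤ (1 / 30) * ((1 / 30) ^ k * 2) :=
          mul_le_mul (di_norm_le v) h5 (norm_nonneg _) (by norm_num)
      _ = _ := by rw [pow_succ]; ring

lemma gm_add_Gm (v : V) (m n : ℤ) (p r : ℤ × ℤ) : gm (v + Gm m n p r) = gm v := by
  have h1 : Tendsto (fun k : ℕ => (1 / 30 : ℝ) ^ k * 2) atTop (𝓝 (0 * 2)) :=
    (tendsto_pow_atTop_nhds_zero_of_lt_one (by norm_num) (by norm_num)).mul_const 2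
  rw [zero_mul] at h1
  have h2 := ge_of_tendsto' h1 fun k => gm_per_aux k v m n p r
  exact sub_eq_zero.1 (norm_le_zero_iff.1 h2)

/-! ### The splitting -/

/-- embedding of the stable model -/
noncomputable def jg (p : V) : Sp →L[ℝ] V := js + ia.comp (gm p)

/-- stable projection -/
noncomputable def Pst (p : V) : V →L[ℝ] V := (jg p).comp pr

lemma pr_js (s : Sp) : pr (js s) = s := by rw [js_apply, pr_apply]
lemma pr_ia (e : E) : pr (ia e) = 0 := by rw [ia_apply, pr_apply]; rfl
lemma pr_jg (p : V) (s : Sp) : pr (jg p s) = s := by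
  unfold jg
  rw [add_apply, ContinuousLinearMap.comp_apply, map_add, pr_js, pr_ia, add_zero]

lemma Pst_apply (p h : V) : Pst p h = jg p (pr h) := rfl

lemma Pst_idem (p : V) : Pst p * Pst p = Pst p := by
  refine ContinuousLinearMap.ext fun h => ?_
  rw [mul_apply_eq_comp, Pst_apply, Pst_apply, pr_jg]

lemma continuous_Pst : Continuous Pst := by
  unfold Pst jg
  exact (continuous_const.add (continuous_const.clm_comp continuous_gm)).clm_comp continuous_const

lemma Pst_add_Gm (v : V) (m n : ℤ) (p r : ℤ × ℤ) : Pst (v + Gm m n p r) = Pst v := by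
  unfold Pst jg; rw [gm_add_Gm]

lemma pr_DG (p h : V) : pr (DG true p h) = La (pr h) := by
  rw [pr_apply, pr_apply, La_apply, DG_fst, DG_snd_snd]
  rfl

lemma DG_jg (p : V) (s : Sp) : DG true p (jg p s) = jg (GG true p) (La s) := by
  have h1 : pr (DG true p (jg p s)) = La s := by rw [pr_DG, pr_jg]
  have h2 : (DG true p (jg p s)).1.1 = 0 := by
    rw [DG_fst]
    have : (jg p s).1.1 = 0 := by
      unfold jg
      rw [add_apply, js_apply]
      simp [ia_apply]
    unfold Ax
    rw [this, mul_zero]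
  have h3 : pa (DG true p (jg p s)) = gm (GG true p) (La s) := by
    have e1 : pa (DG true p (jg p s)) = de p s + dd true p (gm p s) := by
      unfold jg
      rw [add_apply, map_add, map_add]
      rfl
    have e2 : gm p s = di p (gm (GG true p) (La s) - de p s) := by
      have := congrArg (fun f => f s) (gm_eq p)
      exact this
    have e3 : ∀ e, dd true p (di p e) = e := fun e => by
      have := congrArg (fun f => f e) (dd_mul_di p)
      exact this
    rw [e1, e2, e3]
    abel
  have h4 : pr (jg (GG true p) (La s)) = La s := pr_jg _ _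
  have h5 : (jg (GG true p) (La s)).1.1 = 0 := by
    unfold jg
    rw [add_apply, js_apply]
    simp [ia_apply]
  have h6 : pa (jg (GG true p) (La s)) = gm (GG true p) (La s) := by
    unfold jg
    rw [add_apply, js_apply, map_add]
    simp [ia_apply, pa_apply]
  have hA := h1.trans h4.symm
  rw [pr_apply, pr_apply] at hA
  have h7 : (DG true p (jg p s)).1.2 = (jg (GG true p) (La s)).1.2 := (Prod.mk.inj hA).1
  have h8 : (DG true p (jg p s)).2.2 = (jg (GG true p) (La s)).2.2 := (Prod.mk.inj hA).2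
  exact Prod.ext (Prod.ext (h2.trans h5.symm) h7) (Prod.ext (h3.trans h6.symm) h8)

lemma DG_Pst (p : V) : DG true p * Pst p = Pst (GG true p) * DG true p := by
  refine ContinuousLinearMap.ext fun h => ?_
  rw [mul_apply_eq_comp, mul_apply_eq_comp, Pst_apply, Pst_apply, DG_jg, pr_DG]

lemma jg_norm_le (p : V) (s : Sp) : ‖jg p s‖ ≤ ‖s‖ := by
  have h1 : ‖gm p s‖ ≤ ‖s‖ := by
    refine (ContinuousLinearMap.le_opNorm _ _).trans ?_
    exact mul_le_of_le_one_left (norm_nonneg _) (gm_norm_le p)
  have e : jg p s = ((0, s.1), (gm p s, s.2)) := by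
    unfold jg
    rw [add_apply, js_apply, ContinuousLinearMap.comp_apply, ia_apply]
    simp
  rw [e]
  refine max_le (max_le ?_ (norm_fst_le s)) (max_le h1 (norm_snd_le s))
  simp

lemma Dit_jg (n : ℕ) (p : V) (s : Sp) :
    Dit (GG true) (DG true) n p (jg p s) = jg ((GG true)^[n] p) ((La ^ n) s) := by
  induction n generalizing p s with
  | zero => simp [Dit]
  | succ n ih =>
    rw [Dit, mul_apply_eq_comp, DG_jg, ih, Function.iterate_succ, Function.comp_apply, pow_succ,
      mul_apply_eq_comp]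

/-- contraction on the stable bundle -/
lemma stable_bound (n : ℕ) {p h : V} (hh : Pst p h = h) :
    ‖Dit (GG true) (DG true) n p h‖ ≤ (1 / 5) ^ n * ‖h‖ := by
  rw [← hh, Pst_apply, Dit_jg]
  refine (jg_norm_le _ _).trans ?_
  refine (ContinuousLinearMap.le_opNorm _ _).trans ?_
  have h1 : ‖La ^ n‖ ≤ (1 / 5) ^ n := by
    rcases Nat.eq_zero_or_pos n with rfl | hn
    · rw [pow_zero, pow_zero]; exact ContinuousLinearMap.norm_id_le
    · exact (norm_pow_le' _ hn).trans (pow_le_pow_left₀ (norm_nonneg _) La_norm_le n)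
  have h2 : ‖pr h‖ ≤ ‖jg p (pr h)‖ := by
    have := pr_norm_le (jg p (pr h))
    rwa [pr_jg] at this
  gcongr

/-- expansion on the unstable bundle -/
lemma unstable_step {p h : V} (hh : pr h = 0) : 5 * ‖h‖ ≤ ‖DG true p h‖ := by
  have hs : h.1.2 = 0 := congrArg Prod.fst hh
  have hb : h.2.2 = 0 := congrArg Prod.snd hh
  have hn : ‖h‖ = max ‖h.1.1‖ ‖h.2.1‖ := by
    rw [Prod.norm_def, Prod.norm_def, Prod.norm_def, hs, hb, norm_zero, norm_zero,
      max_eq_left (norm_nonneg _), max_eq_left (norm_nonneg _)]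
  have hlam := lam_bounds
  have h1 : 5 * ‖h.1.1‖ ≤ ‖DG true p h‖ := by
    have e : (DG true p h).1.1 = lam * h.1.1 := by rw [DG_fst]; rfl
    have h2 : ‖(DG true p h).1.1‖ ≤ ‖DG true p h‖ := (norm_fst_le _).trans (norm_fst_le _)
    rw [e, norm_mul, Real.norm_of_nonneg lam_pos.le] at h2
    have := norm_nonneg h.1.1
    nlinarith [hlam.1]
  by_cases hc : ‖h.2.1‖ ≤ ‖h.1.1‖
  · rw [hn, max_eq_left hc]; exact h1
  · push Not at hc
    rw [hn, max_eq_right hc.le]
    have e1 : h = ((h.1.1, 0), (0, 0)) + ia h.2.1 := by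
      rw [ia_apply]
      refine Prod.ext (Prod.ext ?_ ?_) (Prod.ext ?_ ?_) <;> simp [hs, hb]
    set k : V := ((h.1.1, 0), (0, 0)) with hk
    have hkn : ‖k‖ ≤ ‖h.1.1‖ := by
      rw [hk]
      refine max_le (max_le le_rfl ?_) (max_le ?_ ?_) <;> simp
    have e2 : pa (DG true p h) = pa ((DG true p - LN true (Hh.symm p)) k) + dd true p h.2.1 := by
      conv_lhs => rw [e1]
      rw [map_add, map_add, sub_apply, map_sub]
      have e3 : pa (LN true (Hh.symm p) k) = 0 := by
        unfold LN
        rw [mul_apply_eq_comp, MM_apply, LL_apply, pa_apply]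
        unfold Lw
        simp [hk]
      rw [e3, sub_zero]
      rfl
    have h2 : ‖pa ((DG true p - LN true (Hh.symm p)) k)‖ ≤ ‖h.2.1‖ := by
      refine (pa_norm_le _).trans ((ContinuousLinearMap.le_opNorm _ _).trans ?_)
      have a1 := DG_close true p
      have a2 : (1 : ℝ) / 10 ^ 41 ≤ 1 := by norm_num
      calc ‖DG true p - LN true (Hh.symm p)‖ * ‖k‖ ≤ 1 * ‖h.2.1‖ :=
            mul_le_mul (a1.trans a2) (hkn.trans hc.le) (norm_nonneg _) zero_le_one
        _ = _ := one_mul _
    have h3 : 30 * ‖h.2.1‖ ≤ ‖dd true p h.2.1‖ := by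
      have b1 : di p (dd true p h.2.1) = h.2.1 := congrArg (fun f => f h.2.1) (di_mul_dd p)
      have b2 : ‖h.2.1‖ ≤ (1 / 30) * ‖dd true p h.2.1‖ := by
        conv_lhs => rw [← b1]
        refine (ContinuousLinearMap.le_opNorm _ _).trans ?_
        have := di_norm_le p
        gcongr
      linarith
    have h4 := pa_norm_le (DG true p h)
    rw [e2] at h4
    have h5 := norm_sub_le_norm_add (dd true p h.2.1) (pa ((DG true p - LN true (Hh.symm p)) k))
    rw [add_comm (dd true p h.2.1)] at h5
    have h6 := norm_nonneg h.2.1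
    linarith

lemma La_injective {s : Sp} (h : La s = 0) : s = 0 := by
  rw [La_apply] at h
  have h1 : lami * s.1 = 0 := congrArg Prod.fst h
  have h2 : mui • s.2 = 0 := congrArg Prod.snd h
  have l1 : lami ≠ 0 := by
    intro h0
    have := lam_mul_lami
    rw [h0, mul_zero] at this
    exact zero_ne_one this
  have l2 : mui ≠ 0 := mui_pos.ne'
  refine Prod.ext ?_ ?_
  · exact (mul_eq_zero.1 h1).resolve_left l1
  · exact (smul_eq_zero.1 h2).resolve_left l2

lemma unstable_inv_step {p h : V} (hh : pr h = 0) :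
    pr (DGi true p h) = 0 ∧ ‖DGi true p h‖ ≤ (1 / 5) * ‖h‖ := by
  have e : DG true ((GG true).symm p) (DGi true p h) = h :=
    congrArg (fun f => f h) (DG_mul_DGi true p)
  have h1 : pr (DGi true p h) = 0 := by
    apply La_injective
    rw [← pr_DG, e, hh]
  refine ⟨h1, ?_⟩
  have h2 := unstable_step (p := (GG true).symm p) h1
  rw [e] at h2
  linarith

lemma unstable_bound (n : ℕ) {p h : V} (hh : pr h = 0) :
    ‖Dit (GG true).symm (DGi true) n p h‖ ≤ (1 / 5) ^ n * ‖h‖ := by
  induction n generalizing p h with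
  | zero => simp [Dit]
  | succ n ih =>
    obtain ⟨h1, h2⟩ := unstable_inv_step (p := p) hh
    rw [Dit, mul_apply_eq_comp]
    refine (ih h1).trans ?_
    calc (1 / 5 : ℝ) ^ n * ‖DGi true p h‖ ≤ (1 / 5) ^ n * ((1 / 5) * ‖h‖) := by gcongr
      _ = _ := by rw [pow_succ]; ring

end Pool.Agent.H57.Cen
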