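import Pool.Agent.H57.Cen.Near

/-!
# The function `Phi` and the phase `J` in the plane
-/

namespace Pool.Agent.H57.Cen

open Filter Topology Set

/-- integer powers of the linear map -/
noncomputable def Aj (j : ℤ) : ℝ × ℝ →L[ℝ] ℝ × ℝ :=
  (lam ^ j • ContinuousLinearMap.fst ℝ ℝ ℝ).prod (lam ^ (-j) • ContinuousLinearMap.snd ℝ ℝ ℝ)

lemma Aj_apply (j : ℤ) (x : ℝ × ℝ) : Aj j x = (lam ^ j * x.1, lam ^ (-j) * x.2) := by
  simp [Aj]

lemma Aj_zero (x : ℝ × ℝ) : Aj 0 x = x := by rw [Aj_apply]; simp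

lemma Aj_add_one (j : ℤ) (x : ℝ × ℝ) : Aj (j + 1) x = Ax (Aj j x) := by
  rw [Aj_apply, Aj_apply, Ax, lami_eq_inv, zpow_add_one₀ lam_ne, neg_add, zpow_add₀ lam_ne,
    zpow_neg_one]
  ext <;> simp <;> ring

lemma Aj_Ax (j : ℤ) (x : ℝ × ℝ) : Aj j (Ax x) = Aj (j + 1) x := by
  rw [Aj_apply, Aj_apply, Ax, lami_eq_inv, zpow_add_one₀ lam_ne, neg_add, zpow_add₀ lam_ne,
    zpow_neg_one]
  ext <;> simp <;> ring

lemma zpow_lam_le (j : ℤ) : lam ^ j ≤ 6 ^ j.natAbs := by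
  have h1 := lam_bounds
  rcases le_or_gt 0 j with hj | hj
  · obtain ⟨n, rfl⟩ := Int.eq_ofNat_of_zero_le hj
    rw [zpow_natCast, Int.natAbs_natCast]
    exact pow_le_pow_left₀ lam_pos.le (by linarith) n
  · have : lam ^ j ≤ 1 := zpow_le_one_of_nonpos₀ (by linarith) hj.le
    exact this.trans (one_le_pow₀ (by norm_num))

lemma Aj_norm_le (j : ℤ) : ‖Aj j‖ ≤ 6 ^ j.natAbs := by
  apply ContinuousLinearMap.opNorm_le_bound _ (by positivity)
  intro x
  have h1 := zpow_lam_le j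
  have h2 := zpow_lam_le (-j)
  rw [Int.natAbs_neg] at h2
  have p1 : 0 ≤ lam ^ j := (zpow_pos lam_pos j).le
  have p2 : 0 ≤ lam ^ (-j) := (zpow_pos lam_pos (-j)).le
  have a1 : ‖x.1‖ ≤ ‖x‖ := norm_fst_le x
  have a2 : ‖x.2‖ ≤ ‖x‖ := norm_snd_le x
  rw [Aj_apply, Prod.norm_def]
  apply max_le
  · rw [norm_mul, Real.norm_of_nonneg p1]
    exact mul_le_mul h1 a1 (norm_nonneg _) (by positivity)
  · rw [norm_mul, Real.norm_of_nonneg p2]
    exact mul_le_mul h2 a2 (norm_nonneg _) (by positivity)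

lemma Ai_gam (m n : ℤ) : Aj (-1) (gam m n) = gam (6 * m + n) (-m) := by
  have h : gam m n = Ax (gam (6 * m + n) (-m)) := by
    rw [Ax_gam]; congr 1 <;> ring
  rw [h, Aj_Ax, neg_add_cancel, Aj_zero]

lemma Aj_sub_one (j : ℤ) (x : ℝ × ℝ) : Aj (j - 1) x = Aj (-1) (Aj j x) := by
  have h := Aj_Ax (-1) (Aj (j - 1) x)
  rw [neg_add_cancel, Aj_zero, ← Aj_add_one, sub_add_cancel] at h
  exact h.symm

lemma Aj_gam (j : ℤ) (m n : ℤ) : ∃ m' n' : ℤ, Aj j (gam m n) = gam m' n' := by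
  induction j with
  | zero => exact ⟨m, n, Aj_zero _⟩
  | succ j ih =>
    obtain ⟨m', n', h⟩ := ih
    exact ⟨-n', m' + 6 * n', by rw [Aj_add_one, h, Ax_gam]⟩
  | pred j ih =>
    obtain ⟨m', n', h⟩ := ih
    exact ⟨6 * m' + n', -m', by rw [Aj_sub_one, h, Ai_gam]⟩

/-- summand -/
noncomputable def ph (j : ℤ) (x : ℝ × ℝ) : ℝ := (1 / 10) ^ j.natAbs * Fu (Aj j x)

/-- the weight function -/
noncomputable def Phi (x : ℝ × ℝ) : ℝ := ∑' j : ℤ, ph j x

lemma summable_int_geom {r : ℝ} (h0 : 0 ≤ r) (h1 : r < 1) :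
    Summable fun j : ℤ => r ^ j.natAbs := by
  apply Summable.of_nat_of_neg
  · simpa using summable_geometric_of_lt_one h0 h1
  · simpa using summable_geometric_of_lt_one h0 h1

lemma ph_nonneg (j : ℤ) (x : ℝ × ℝ) : 0 ≤ ph j x :=
  mul_nonneg (by positivity) (Fu_nonneg _)

lemma ph_le (j : ℤ) (x : ℝ × ℝ) : ph j x ≤ (1 / 10) ^ j.natAbs :=
  mul_le_of_le_one_right (by positivity) (Fu_le_one _)

lemma summable_ph (x : ℝ × ℝ) : Summable fun j => ph j x :=
  Summable.of_nonneg_of_le (fun j => ph_nonneg j x) (fun j => ph_le j x)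
    (summable_int_geom (by norm_num) (by norm_num))

lemma Phi_nonneg (x : ℝ × ℝ) : 0 ≤ Phi x := tsum_nonneg fun j => ph_nonneg j x

lemma ph_congr {x y : ℝ × ℝ} (j : ℤ) (h : pT (Aj j x) = pT (Aj j y)) : ph j x = ph j y := by
  unfold ph; rw [Fu_congr h]

lemma Phi_add_gam (x : ℝ × ℝ) (m n : ℤ) : Phi (x + gam m n) = Phi x := by
  unfold Phi
  congr 1
  funext j
  apply ph_congr
  rw [map_add]
  obtain ⟨m', n', h⟩ := Aj_gam j m n
  rw [h, pT_add_gam]

lemma exists_dFu : ∃ C, 0 ≤ C ∧ ∀ x, ‖fderiv ℝ Fu x‖ ≤ C := by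
  have hc : Continuous (fderiv ℝ Fu) := contDiff_Fu.continuous_fderiv (by norm_num)
  obtain ⟨C, hC⟩ := per_bounded hc (by
    intro x m n
    have h : (fun y => Fu (y + gam m n)) = Fu := by
      funext y; exact Fu_congr (pT_add_gam y m n)
    have h2 := fderiv_comp_add_right (𝕜 := ℝ) (f := Fu) (x := x) (gam m n)
    rw [h] at h2
    exact h2.symm)
  exact ⟨|C|, abs_nonneg _, fun x => (hC x).trans (le_abs_self C)⟩

/-- derivative of the summand -/
noncomputable def dph (j : ℤ) (x : ℝ × ℝ) : ℝ × ℝ →L[ℝ] ℝ :=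
  (1 / 10 : ℝ) ^ j.natAbs • (fderiv ℝ Fu (Aj j x)).comp (Aj j)

lemma hasFDerivAt_ph (j : ℤ) (x : ℝ × ℝ) : HasFDerivAt (ph j) (dph j x) x := by
  have h1 : HasFDerivAt Fu (fderiv ℝ Fu (Aj j x)) (Aj j x) :=
    (contDiff_Fu.differentiable (by norm_num) _).hasFDerivAt
  exact (h1.comp x (Aj j).hasFDerivAt).const_mul _

lemma exists_Phi_deriv : ContDiff ℝ 1 Phi ∧ ∃ C, ∀ x, ‖fderiv ℝ Phi x‖ ≤ C := by
  obtain ⟨C, hC0, hC⟩ := exists_dFu
  have hb : ∀ j x, ‖dph j x‖ ≤ C * (6 / 10) ^ j.natAbs := by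
    intro j x
    unfold dph
    rw [norm_smul, Real.norm_of_nonneg (by positivity)]
    have h1 := ContinuousLinearMap.opNorm_comp_le (fderiv ℝ Fu (Aj j x)) (Aj j)
    have h2 := mul_le_mul (hC (Aj j x)) (Aj_norm_le j) (norm_nonneg _) hC0
    calc (1 / 10 : ℝ) ^ j.natAbs * ‖(fderiv ℝ Fu (Aj j x)).comp (Aj j)‖
        ≤ (1 / 10 : ℝ) ^ j.natAbs * (C * 6 ^ j.natAbs) := by gcongr; exact h1.trans h2
      _ = C * (6 / 10) ^ j.natAbs := by
          rw [show (6 / 10 : ℝ) = (1 / 10) * 6 by norm_num, mul_pow]; ring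
  have hs : Summable fun j : ℤ => C * (6 / 10 : ℝ) ^ j.natAbs :=
    (summable_int_geom (by norm_num) (by norm_num)).mul_left C
  have hd : ∀ x, HasFDerivAt Phi (∑' j, dph j x) x := by
    intro x
    exact hasFDerivAt_tsum hs (fun j x => hasFDerivAt_ph j x) hb (summable_ph 0) x
  have hcont : Continuous fun x => ∑' j, dph j x := by
    apply continuous_tsum _ hs (fun j x => hb j x)
    intro j
    unfold dph
    have hc : Continuous (fderiv ℝ Fu) := contDiff_Fu.continuous_fderiv (by norm_num)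
    have h5 : Continuous fun x => (fderiv ℝ Fu (Aj j x)).comp (Aj j) :=
      (hc.comp (Aj j).continuous).clm_comp continuous_const
    exact h5.const_smul ((1 / 10 : ℝ) ^ j.natAbs)
  refine ⟨contDiff_one_iff_hasFDerivAt.2 ⟨_, hcont, hd⟩,
    ∑' j : ℤ, C * (6 / 10 : ℝ) ^ j.natAbs, fun x => ?_⟩
  rw [(hd x).fderiv]
  exact tsum_of_norm_bounded hs.hasSum fun j => hb j x

lemma Phi_Ax_le (x : ℝ × ℝ) : Phi (Ax x) ≤ 10 * Phi x ∧ Phi x ≤ 10 * Phi (Ax x) := by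
  have key : ∀ (e : ℤ), (e = 1 ∨ e = -1) → ∀ x y : ℝ × ℝ, (∀ j, Aj j y = Aj (j + e) x) →
      Phi y ≤ 10 * Phi x := by
    intro e he x y hxy
    have h1 : Phi y = ∑' j : ℤ, (1 / 10 : ℝ) ^ (j - e).natAbs * Fu (Aj j x) := by
      unfold Phi ph
      rw [← (Equiv.addRight e).tsum_eq (fun j : ℤ => (1 / 10 : ℝ) ^ (j - e).natAbs *
        Fu (Aj j x))]
      congr 1
      funext j
      simp only [Equiv.coe_addRight, add_sub_cancel_right]
      rw [hxy]
    have hle : ∀ j : ℤ, (1 / 10 : ℝ) ^ (j - e).natAbs * Fu (Aj j x) ≤ 10 * ph j x := by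
      intro j
      unfold ph
      have h2 : (1 / 10 : ℝ) ^ (j - e).natAbs ≤ 10 * (1 / 10) ^ j.natAbs := by
        have h3 : j.natAbs ≤ (j - e).natAbs + 1 := by
          rcases he with rfl | rfl <;> omega
        have h4 : (1 / 10 : ℝ) ^ ((j - e).natAbs + 1) ≤ (1 / 10) ^ j.natAbs :=
          pow_le_pow_of_le_one (by norm_num) (by norm_num) h3
        rw [pow_succ] at h4
        linarith
      have := Fu_nonneg (Aj j x)
      nlinarith
    rw [h1]
    have hs := (summable_ph x).mul_left 10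
    unfold Phi
    rw [← tsum_mul_left]
    refine Summable.tsum_le_tsum hle (Summable.of_nonneg_of_le (fun j => ?_) hle hs) hs
    exact mul_nonneg (by positivity) (Fu_nonneg _)
  constructor
  · exact key 1 (Or.inl rfl) x (Ax x) fun j => Aj_Ax j x
  · refine key (-1) (Or.inr rfl) (Ax x) x fun j => ?_
    rw [Aj_Ax, neg_add_cancel_right]

lemma dY_of_Phi_zero {x : ℝ × ℝ} (h : Phi x = 0) : dY (pT x) = 0 := by
  have h1 : ph 0 x ≤ Phi x := (summable_ph x).le_tsum 0 (fun j _ => ph_nonneg j x)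
  have h2 : Fu x = 0 := by
    have h3 : ph 0 x = Fu x := by unfold ph; simp [Aj_zero]
    rw [h, h3] at h1
    exact le_antisymm h1 (Fu_nonneg x)
  rw [Fu_eq_zero_iff] at h2
  obtain ⟨p, hp, he⟩ := h2
  have := dY_le (x := pT x) hp
  rw [he, dist_self] at this
  exact le_antisymm this (dY_nonneg _)

lemma Phi_small {δ : ℝ} (hδ : 0 < δ) : ∃ ε > 0, ∀ x, Phi x < ε → dY (pT x) < δ := by
  have hst : Continuous fun p : ℝ × ℝ => stdi p.1 p.2 := by unfold stdi; fun_prop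
  set K := (fun p : ℝ × ℝ => stdi p.1 p.2) '' (Icc (0 : ℝ) 1 ×ˢ Icc (0 : ℝ) 1) with hKd
  have hK : IsCompact K := (isCompact_Icc.prod isCompact_Icc).image hst
  have hcl : IsClosed {x : ℝ × ℝ | δ ≤ dY (pT x)} :=
    isClosed_le continuous_const (continuous_dY.comp continuous_pT)
  have hK2 := hK.inter_right hcl
  have hc : Continuous Phi := exists_Phi_deriv.1.continuous
  have hred : ∀ x, ∃ y ∈ K, Phi y = Phi x ∧ pT y = pT x := by
    intro x
    have e : x = stdi (Int.fract (ca x)) (Int.fract (cb x)) + gam ⌊ca x⌋ ⌊cb x⌋ := by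
      conv_lhs => rw [← stdi_ca x]
      have h1 := Int.fract_add_floor (ca x)
      have h2 := Int.fract_add_floor (cb x)
      unfold stdi gam
      ext
      · simp only [Prod.fst_add]
        linear_combination -h1 - lam * h2
      · simp only [Prod.snd_add]
        linear_combination h1 + lami * h2
    refine ⟨stdi (Int.fract (ca x)) (Int.fract (cb x)), ⟨(_, _),
      ⟨⟨Int.fract_nonneg _, (Int.fract_lt_one _).le⟩,
        ⟨Int.fract_nonneg _, (Int.fract_lt_one _).le⟩⟩, rfl⟩, ?_, ?_⟩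
    · conv_rhs => rw [e]
      rw [Phi_add_gam]
    · conv_rhs => rw [e]
      rw [pT_add_gam]
  rcases (K ∩ {x : ℝ × ℝ | δ ≤ dY (pT x)}).eq_empty_or_nonempty with h0 | h0
  · refine ⟨1, one_pos, fun x _ => ?_⟩
    by_contra hcon
    push Not at hcon
    obtain ⟨y, hy, _, h2⟩ := hred x
    have : y ∈ K ∩ {x : ℝ × ℝ | δ ≤ dY (pT x)} := ⟨hy, by rw [mem_ofPred_eq, h2]; exact hcon⟩
    rw [h0] at this
    exact this
  · obtain ⟨x0, hx0, hmin⟩ := hK2.exists_isMinOn h0 hc.continuousOn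
    have hpos : 0 < Phi x0 := by
      rcases (Phi_nonneg x0).lt_or_eq with h | h
      · exact h
      · exfalso
        have h1 := dY_of_Phi_zero h.symm
        have h2 : δ ≤ dY (pT x0) := hx0.2
        linarith
    refine ⟨Phi x0, hpos, fun x hx => ?_⟩
    by_contra hcon
    push Not at hcon
    obtain ⟨y, hy, h1, h2⟩ := hred x
    have h3 : Phi x0 ≤ Phi y := hmin ⟨hy, by rw [mem_ofPred_eq, h2]; exact hcon⟩
    linarith

/-- the phase -/
noncomputable def Jx (x : ℝ × ℝ) : ℤ_[2] := JT (pT x)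

lemma Jx_add_gam (x : ℝ × ℝ) (m n : ℤ) : Jx (x + gam m n) = Jx x := by
  unfold Jx; rw [pT_add_gam]

lemma Jx_props (N : ℕ) : ∃ δ > 0, ∀ x, Phi x < δ →
    (∀ᶠ y in 𝓝 x, Cg N (Jx y) (Jx x)) ∧ Cg N (Jx (Ax x)) (Jx x + 1) := by
  obtain ⟨δ, hδ, h⟩ := JT_props N
  obtain ⟨ε, hε, h2⟩ := Phi_small hδ
  refine ⟨ε, hε, fun x hx => ?_⟩
  obtain ⟨h3, h4⟩ := h (pT x) (h2 x hx)
  constructor
  · have h5 : ∀ᶠ y in 𝓝 x, dist (pT y) (pT x) < δ :=
      (continuous_pT.tendsto x).eventually (Metric.ball_mem_nhds _ hδ)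
    filter_upwards [h5] with y hy
    exact h3 _ hy
  · unfold Jx
    rw [← AT_pT]
    exact h4

/-- the base point -/
noncomputable def x0 : ℝ × ℝ := code w0

lemma Jx_x0 : Jx x0 = 0 := by
  have h : pT x0 = emb (w0, 0) := rfl
  unfold Jx
  rw [h]
  exact JT_emb (p := (w0, 0)) cmp_w0

lemma orbit_mem (j : ℤ) : pT (Aj j x0) ∈ emb '' CP := by
  induction j with
  | zero => rw [Aj_zero]; exact ⟨(w0, 0), cmp_w0, rfl⟩
  | succ j ih =>
    obtain ⟨p, hp, he⟩ := ih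
    refine ⟨(sh p.1, p.2 + 1), Cmp.sh hp, ?_⟩
    have e : emb (sh p.1, p.2 + 1) = AT (emb p) := emb_sh _ _
    rw [e, he, AT_pT, ← Aj_add_one]
  | pred j ih =>
    obtain ⟨p, hp, he⟩ := ih
    refine ⟨(shi p.1, p.2 - 1), Cmp.shi hp, ?_⟩
    apply AT_injective
    rw [AT_pT, ← Aj_add_one, sub_add_cancel, ← he, ← emb_sh, sh_shi, sub_add_cancel]

lemma Phi_x0 : Phi x0 = 0 := by
  unfold Phi
  have : ∀ j, ph j x0 = 0 := by
    intro j
    unfold ph
    rw [(Fu_eq_zero_iff _).2 (orbit_mem j), mul_zero]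
  simp [this]

end Pool.Agent.H57.Cen
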