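import Pool.Agent.H57.Cen.Geo

/-!
# The twisting map is a homeomorphism
-/

namespace Pool.Agent.H57.Cen

open Filter Topology Set

/-- the bilinear form of `Q0` -/
noncomputable def dQ0 (w : E × E) : E × E →L[ℝ] ℝ :=
  (2 : ℝ) • ((c1 w).1 • (ContinuousLinearMap.fst ℝ ℝ ℝ).comp c1 +
    (c1 w).2 • (ContinuousLinearMap.snd ℝ ℝ ℝ).comp c1 +
    (c2 w).1 • (ContinuousLinearMap.fst ℝ ℝ ℝ).comp c2 +
    (c2 w).2 • (ContinuousLinearMap.snd ℝ ℝ ℝ).comp c2)

lemma dQ0_apply (w h : E × E) : dQ0 w h = 2 * ((c1 w).1 * (c1 h).1 + (c1 w).2 * (c1 h).2 +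
    (c2 w).1 * (c2 h).1 + (c2 w).2 * (c2 h).2) := by
  simp [dQ0]
  ring

lemma hasFDerivAt_Q0 (w : E × E) : HasFDerivAt Q0 (dQ0 w) w := by
  have a1 : HasFDerivAt (fun w : E × E => (c1 w).1) ((ContinuousLinearMap.fst ℝ ℝ ℝ).comp c1) w :=
    ((ContinuousLinearMap.fst ℝ ℝ ℝ).comp c1).hasFDerivAt
  have a2 : HasFDerivAt (fun w : E × E => (c1 w).2) ((ContinuousLinearMap.snd ℝ ℝ ℝ).comp c1) w :=
    ((ContinuousLinearMap.snd ℝ ℝ ℝ).comp c1).hasFDerivAt
  have a3 : HasFDerivAt (fun w : E × E => (c2 w).1) ((ContinuousLinearMap.fst ℝ ℝ ℝ).comp c2) w :=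
    ((ContinuousLinearMap.fst ℝ ℝ ℝ).comp c2).hasFDerivAt
  have a4 : HasFDerivAt (fun w : E × E => (c2 w).2) ((ContinuousLinearMap.snd ℝ ℝ ℝ).comp c2) w :=
    ((ContinuousLinearMap.snd ℝ ℝ ℝ).comp c2).hasFDerivAt
  have h := (((a1.pow 2).add (a2.pow 2)).add (a3.pow 2)).add (a4.pow 2)
  refine h.congr_fderiv ?_
  ext <;> simp [dQ0] <;> ring

lemma dQ0_norm_le (w : E × E) : ‖dQ0 w‖ ≤ 32 * Real.sqrt (Q0 w) := by
  apply ContinuousLinearMap.opNorm_le_bound _ (by positivity)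
  intro h
  rw [dQ0_apply]
  obtain ⟨h1, h2⟩ := c_norm_le w
  obtain ⟨h3, h4⟩ := c_norm_le_norm h
  set r := Real.sqrt (Q0 w)
  have hr : 0 ≤ r := Real.sqrt_nonneg _
  have key : ∀ x y : ℝ, |x| ≤ r → |y| ≤ 4 * ‖h‖ → |x * y| ≤ r * (4 * ‖h‖) := by
    intro x y hx hy
    rw [abs_mul]
    exact mul_le_mul hx hy (abs_nonneg _) hr
  have k1 := key _ _ ((norm_fst_le (c1 w)).trans h1) ((norm_fst_le (c1 h)).trans h3)
  have k2 := key _ _ ((norm_snd_le (c1 w)).trans h1) ((norm_snd_le (c1 h)).trans h3)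
  have k3 := key _ _ ((norm_fst_le (c2 w)).trans h2) ((norm_fst_le (c2 h)).trans h4)
  have k4 := key _ _ ((norm_snd_le (c2 w)).trans h2) ((norm_snd_le (c2 h)).trans h4)
  rw [Real.norm_eq_abs, abs_mul, abs_of_pos (by norm_num : (0 : ℝ) < 2)]
  have := abs_add_le ((c1 w).1 * (c1 h).1 + (c1 w).2 * (c1 h).2 + (c2 w).1 * (c2 h).1)
    ((c2 w).2 * (c2 h).2)
  have := abs_add_le ((c1 w).1 * (c1 h).1 + (c1 w).2 * (c1 h).2) ((c2 w).1 * (c2 h).1)
  have := abs_add_le ((c1 w).1 * (c1 h).1) ((c1 w).2 * (c1 h).2)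
  nlinarith

/-- A function with derivative at least `1/2` has exactly one zero. -/
lemma exists_unique_zero {f f' : ℝ → ℝ} (h : ∀ s, HasDerivAt f (f' s) s)
    (h' : ∀ s, 1 / 2 ≤ f' s) : (∃ s, f s = 0) ∧ Function.Injective f := by
  have hm : StrictMono f := by
    apply strictMono_of_deriv_pos
    intro s; rw [(h s).deriv]; linarith [h' s]
  refine ⟨?_, hm.injective⟩
  have hd2 : ∀ s, HasDerivAt (fun s => f s - s / 2) (f' s - 1 / 2) s := fun s =>
    (h s).sub ((hasDerivAt_id s).div_const 2)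
  have hmono2 : Monotone fun s => f s - s / 2 := by
    apply monotone_of_deriv_nonneg (fun s => (hd2 s).differentiableAt)
    intro s
    rw [(hd2 s).deriv]
    linarith [h' s]
  have hc : Continuous f := continuous_iff_continuousAt.2 fun s => (h s).continuousAt
  set R := 2 * |f 0| + 1 with hR
  have hR0 : 0 ≤ R := by positivity
  have h1 : 0 ≤ f R := by
    have := hmono2 hR0
    simp only at this
    have := neg_abs_le (f 0)
    linarith
  have h2 : f (-R) ≤ 0 := by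
    have := hmono2 (show -R ≤ 0 by linarith)
    simp only at this
    have := le_abs_self (f 0)
    linarith
  obtain ⟨s, _, hs⟩ := intermediate_value_Icc (show -R ≤ R by linarith) hc.continuousOn
    (⟨h2, h1⟩ : (0 : ℝ) ∈ Icc (f (-R)) (f R))
  exact ⟨s, hs⟩

/-- the radial function -/
noncomputable def Th (P : ℝ) (z : ℤ_[2]) (a b : E) (s : ℝ) : ℝ :=
  lf s + Real.log (P ^ 2 + Q0 (Mfi s z a, b))

lemma Mf_Mfi_apply (t : ℝ) (z : ℤ_[2]) (e : E) : Mf t z (Mfi t z e) = e := by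
  have := congrArg (fun f => f e) (Mf_mul_Mfi t z)
  simpa using this
lemma Mfi_Mf_apply (t : ℝ) (z : ℤ_[2]) (e : E) : Mfi t z (Mf t z e) = e := by
  have := congrArg (fun f => f e) (Mfi_mul_Mf t z)
  simpa using this

lemma Q0_pos {a b : E} (h : a ≠ 0) : 0 < Q0 (a, b) := by
  rcases (Q0_nonneg (a, b)).lt_or_eq with h1 | h1
  · exact h1
  · exfalso
    have h2 := w_norm_le (a, b)
    rw [← h1, Real.sqrt_zero, mul_zero] at h2
    have h3 := norm_le_zero_iff.1 h2
    exact h (congrArg Prod.fst h3)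

lemma Th_zero (P : ℝ) (z : ℤ_[2]) {a : E} (ha : a ≠ 0) (b : E) :
    (∃ s, Th P z a b s = 0) ∧ Function.Injective (Th P z a b) := by
  have hne : ∀ s, Mfi s z a ≠ 0 := by
    intro s h
    apply ha
    rw [← Mf_Mfi_apply s z a, h, map_zero]
  have hpos : ∀ s, 0 < P ^ 2 + Q0 (Mfi s z a, b) := fun s => by
    have := Q0_pos (b := b) (hne s); positivity
  have hd : ∀ s, HasDerivAt (Th P z a b)
      (kap s + dQ0 (Mfi s z a, b) (Mdif s z a, 0) / (P ^ 2 + Q0 (Mfi s z a, b))) s := by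
    intro s
    have h1 : HasDerivAt (fun s => Mfi s z a) (Mdif s z a) s := by
      have := (hasDerivAt_Mfi s z).clm_apply (hasDerivAt_const s a)
      simpa using this
    have h2 : HasDerivAt (fun s => ((Mfi s z a, b) : E × E)) (Mdif s z a, 0) s :=
      h1.prodMk (hasDerivAt_const s b)
    have h3 : HasDerivAt (fun s => Q0 (Mfi s z a, b)) (dQ0 (Mfi s z a, b) (Mdif s z a, 0)) s := by
      have h := HasFDerivAt.comp_hasDerivAt s (hasFDerivAt_Q0 (Mfi s z a, b)) h2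
      exact h
    have h4 := ((h3.const_add (P ^ 2)).log (hpos s).ne')
    exact (hasDerivAt_lf s).add h4
  apply exists_unique_zero hd
  intro s
  set K := Kn ⌈s⌉₊ with hK
  have hK1 : 1 ≤ K := one_le_Kn _
  have hkap : 10 ^ 60 * K ^ 2 ≤ kap s := by
    refine le_trans ?_ (Bs_le_kap s)
    unfold Bs
    have h1 : K ≤ Kn (⌈s⌉₊ + 6) := Kn_mono (by omega)
    have h2 : K ^ 2 ≤ Kn (⌈s⌉₊ + 6) ^ 8 := by
      calc K ^ 2 ≤ Kn (⌈s⌉₊ + 6) ^ 2 := by gcongr
        _ ≤ Kn (⌈s⌉₊ + 6) ^ 8 := pow_le_pow_right₀ (one_le_Kn _) (by norm_num)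
    exact mul_le_mul Cb_ge h2 (by positivity) Cb_pos.le
  have hb : |dQ0 (Mfi s z a, b) (Mdif s z a, 0) / (P ^ 2 + Q0 (Mfi s z a, b))| ≤ 10 ^ 7 * K ^ 2 := by
    rw [abs_div, abs_of_pos (hpos s), div_le_iff₀ (hpos s)]
    have h1 := (dQ0 (Mfi s z a, b)).le_opNorm (Mdif s z a, 0)
    have h2 := dQ0_norm_le (Mfi s z a, b)
    set r := Real.sqrt (Q0 (Mfi s z a, b)) with hr
    have hr0 : 0 ≤ r := Real.sqrt_nonneg _
    have hr2 : r ^ 2 = Q0 (Mfi s z a, b) := Real.sq_sqrt (Q0_nonneg _)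
    have h3 : ‖Mdif s z a‖ ≤ K ^ 2 * ‖Mfi s z a‖ := by
      calc ‖Mdif s z a‖ = ‖Mdif s z (Mf s z (Mfi s z a))‖ := by rw [Mf_Mfi_apply]
        _ ≤ ‖Mdif s z‖ * ‖Mf s z (Mfi s z a)‖ := ContinuousLinearMap.le_opNorm _ _
        _ ≤ ‖Mdif s z‖ * (‖Mf s z‖ * ‖Mfi s z a‖) := by
            gcongr; exact ContinuousLinearMap.le_opNorm _ _
        _ ≤ K * (K * ‖Mfi s z a‖) := by
            have b1 := Mdif_norm_le (Nat.le_ceil s) z
            have b2 := Mf_norm_le (Nat.le_ceil s) z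
            gcongr
        _ = K ^ 2 * ‖Mfi s z a‖ := by ring
    have h4 : ‖Mfi s z a‖ ≤ 200001 * r := by
      have h5 := w_norm_le (Mfi s z a, b)
      have h6 := norm_fst_le ((Mfi s z a, b) : E × E)
      have h7 := mu_bounds.2
      simp only at h6
      rw [← hr] at h5
      nlinarith
    have h5 : ‖((Mdif s z a, 0) : E × E)‖ = ‖Mdif s z a‖ := by
      rw [Prod.norm_def]; simp
    rw [h5] at h1
    calc |dQ0 (Mfi s z a, b) (Mdif s z a, 0)| ≤ ‖dQ0 (Mfi s z a, b)‖ * ‖Mdif s z a‖ := h1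
      _ ≤ (32 * r) * (K ^ 2 * (200001 * r)) := by
          gcongr
          refine h3.trans ?_
          gcongr
      _ = 6400032 * K ^ 2 * r ^ 2 := by ring
      _ ≤ 10 ^ 7 * K ^ 2 * (P ^ 2 + Q0 (Mfi s z a, b)) := by
          rw [hr2]
          have := Q0_nonneg (Mfi s z a, b)
          have hP : 0 ≤ P ^ 2 := sq_nonneg P
          have : 0 ≤ K ^ 2 := by positivity
          have : 0 ≤ K ^ 2 * Q0 (Mfi s z a, b) := by positivity
          have : 0 ≤ K ^ 2 * P ^ 2 := by positivity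
          nlinarith
  have h1 := neg_abs_le (dQ0 (Mfi s z a, b) (Mdif s z a, 0) / (P ^ 2 + Q0 (Mfi s z a, b)))
  have h2 : 1 ≤ K ^ 2 := one_le_pow₀ hK1
  nlinarith

lemma Th_tt {v : V} (h : q v ≠ 0) :
    Th (Phi v.1) (Jx v.1) (M v (u v.2).1) (u v.2).2 (tt v) = 0 := by
  unfold Th M
  rw [Mfi_Mf_apply, lf_tt]
  have : Phi v.1 ^ 2 + Q0 ((u v.2).1, (u v.2).2) = q v := rfl
  rw [this]
  ring

lemma Hf_injective : Function.Injective Hf := by
  intro v v' h
  have hx : v.1 = v'.1 := by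
    have h1 := congrArg Prod.fst h
    exact h1
  have h2 : (Hf v).2 = (Hf v').2 := congrArg Prod.snd h
  have hl : lw v.2 = lw v'.2 := by rw [← lw_Hf v, ← lw_Hf v', h2]
  rw [Hf_snd, Hf_snd, hl] at h2
  have h3 := add_left_cancel h2
  rw [Prod.mk.injEq] at h3
  obtain ⟨h4, h5⟩ := h3
  have key : (u v.2).1 = (u v'.2).1 := by
    by_cases ha : M v (u v.2).1 = 0
    · have e1 : (u v.2).1 = 0 := by rw [← Mi_M_apply v (u v.2).1, ha, map_zero]
      rw [ha] at h4
      have e2 : (u v'.2).1 = 0 := by rw [← Mi_M_apply v' (u v'.2).1, ← h4, map_zero]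
      rw [e1, e2]
    · have q1 : q v ≠ 0 := by
        intro h0
        rw [u_eq_zero (Q_of_q_zero h0).1] at ha
        simp at ha
      have q2 : q v' ≠ 0 := by
        intro h0
        rw [h4, u_eq_zero (Q_of_q_zero h0).1] at ha
        simp at ha
      have t1 := Th_tt q1
      have t2 := Th_tt q2
      rw [← h4, ← h5, ← hx] at t2
      have t3 : tt v = tt v' :=
        (Th_zero (Phi v.1) (Jx v.1) ha (u v.2).2).2 (t1.trans t2.symm)
      have e1 : M v = M v' := by unfold M; rw [t3, hx]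
      rw [← Mi_M_apply v (u v.2).1, h4, ← e1]
      unfold Mi
      rw [t3]
      have e2 : Mfi (tt v') (Jx v.1) = Mi v' := by unfold Mi; rw [hx]
      rw [e2, e1, Mi_M_apply]
  have h6 : u v.2 = u v'.2 := Prod.ext key h5
  have h7 : v.2 = v'.2 := by rw [← lw_add_u v.2, ← lw_add_u v'.2, hl, h6]
  exact Prod.ext hx h7

lemma Hf_surjective : Function.Surjective Hf := by
  intro y
  by_cases ha : (u y.2).1 = 0
  · refine ⟨y, ?_⟩
    unfold Hf eta
    rw [ha, map_zero, add_zero]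
  · obtain ⟨s, hs⟩ := (Th_zero (Phi y.1) (Jx y.1) ha (u y.2).2).1
    have hne : Mfi s (Jx y.1) (u y.2).1 ≠ 0 := by
      intro h
      apply ha
      rw [← Mf_Mfi_apply s (Jx y.1) (u y.2).1, h, map_zero]
    set w' : E × E := (Mfi s (Jx y.1) (u y.2).1, (u y.2).2) with hw'
    have hpos : 0 < Phi y.1 ^ 2 + Q0 w' := by
      have := Q0_pos (b := (u y.2).2) hne; positivity
    have hs2 : Real.log (Phi y.1 ^ 2 + Q0 w') = -lf s := by
      unfold Th at hs; linarith
    have hq : Phi y.1 ^ 2 + Q0 w' = Real.exp (-lf s) := by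
      rw [← hs2, Real.exp_log hpos]
    have hSm : Sm (1 / 2) w' ∨ s ≤ 0 := by
      rcases le_or_gt s 0 with h0 | h0
      · exact Or.inr h0
      · left
        apply Sm_of_Q0 (by norm_num)
        have h1 : Q0 w' ≤ Real.exp (-lf s) := by rw [← hq]; have := sq_nonneg (Phi y.1); linarith
        refine h1.trans_lt ?_
        have h2 : lf 0 < lf s := strictMono_lf h0
        have h3 := ls_le_lf 0 (by norm_num)
        rw [Nat.ceil_zero] at h3
        have h4 : 4 * Real.log (Cb * Kn 6) ≤ ls 0 := by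
          unfold ls
          have : 0 ≤ ∑ i ∈ Finset.range (0 + 1), (|2 * Real.log (del (i + 4))| + 1) :=
            Finset.sum_nonneg fun i _ => by positivity
          simp only [zero_add] at this ⊢
          linarith
        have h5 : Real.log 8 ≤ Real.log (Cb * Kn 6) := by
          apply Real.log_le_log (by norm_num)
          have := Cb_ge; have := one_le_Kn 6; nlinarith
        have h6 : Real.exp (-lf s) ≤ Real.exp (-Real.log 8) := by
          rw [Real.exp_le_exp]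
          have : 0 ≤ Real.log 8 := Real.log_nonneg (by norm_num)
          linarith
        rw [Real.exp_neg (Real.log 8), Real.exp_log (by norm_num)] at h6
        refine h6.trans_lt (by norm_num)
    refine ⟨(y.1, lw y.2 + w'), ?_⟩
    have hu : u (lw y.2 + w') = w' ∧ lw (lw y.2 + w') = lw y.2 := by
      rcases hSm with h1 | h1
      · exact ⟨u_of_Sm h1 _ _, lw_of_Sm h1 _ _⟩
      · have e : w' = u y.2 := by
          rw [hw', Mfi_of_nonpos h1]; rfl
        rw [e, lw_add_u]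
        exact ⟨rfl, rfl⟩
    have hqv : q (y.1, lw y.2 + w') = Real.exp (-lf s) := by
      rw [← hq]
      unfold q Q
      simp only
      rw [hu.1]
    have ht : tt (y.1, lw y.2 + w') = s := by
      unfold tt
      rw [hqv, Real.log_exp, neg_neg, psi_lf]
    have h8 := Hf_snd (y.1, lw y.2 + w')
    simp only at h8
    rw [hu.1, hu.2] at h8
    refine Prod.ext rfl ?_
    rw [h8]
    unfold M
    rw [ht]
    simp only [hw']
    rw [Mf_Mfi_apply]
    exact lw_add_u y.2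

end Pool.Agent.H57.Cen
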