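import Pool.Agent.H57.Cen.Dig

/-!
# The matrices `M^t(z)` and the cocycle
-/

namespace Pool.Agent.H57.Cen

open Filter Topology

/-- smooth step -/
noncomputable def rho (x : ℝ) : ℝ := Real.smoothTransition x

lemma rho_of_nonpos {x : ℝ} (h : x ≤ 0) : rho x = 0 := Real.smoothTransition.zero_of_nonpos h
lemma rho_of_one_le {x : ℝ} (h : 1 ≤ x) : rho x = 1 := Real.smoothTransition.one_of_one_le h
lemma rho_nonneg (x : ℝ) : 0 ≤ rho x := Real.smoothTransition.nonneg x
lemma rho_le_one (x : ℝ) : rho x ≤ 1 := Real.smoothTransition.le_one x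

lemma contDiff_rho : ContDiff ℝ 1 rho := Real.smoothTransition.contDiff

lemma exists_rho_bound : ∃ C : ℝ, 0 ≤ C ∧ ∀ x, |deriv rho x| ≤ C := by
  have hc : Continuous (deriv rho) := contDiff_rho.continuous_deriv le_rfl
  obtain ⟨C, hC⟩ := (isCompact_Icc (a := (0 : ℝ)) (b := 1)).exists_bound_of_continuousOn
    hc.continuousOn
  refine ⟨|C|, abs_nonneg _, fun x => ?_⟩
  by_cases hx : x ∈ Set.Icc (0 : ℝ) 1
  · exact (hC x hx).trans (le_abs_self C)
  · have h0 : deriv rho x = 0 := by
      rcases lt_or_ge x 0 with h | h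
      · have : rho =ᶠ[𝓝 x] fun _ => 0 := by
          filter_upwards [eventually_lt_nhds h] with y hy
          exact rho_of_nonpos hy.le
        rw [this.deriv_eq, deriv_const]
      · have h1 : 1 < x := by
          by_contra hcon
          exact hx ⟨h, not_lt.1 hcon⟩
        have : rho =ᶠ[𝓝 x] fun _ => 1 := by
          filter_upwards [eventually_gt_nhds h1] with y hy
          exact rho_of_one_le hy.le
        rw [this.deriv_eq, deriv_const]
    rw [h0, abs_zero]
    exact abs_nonneg _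

lemma hasDerivAt_S (k : ℕ) (θ : ℝ) : HasDerivAt (S k) (Nk k * S k θ) θ := by
  unfold S
  have h1 := ((Real.hasDerivAt_cos θ).smul_const (1 : E →L[ℝ] E)).add
    ((Real.hasDerivAt_sin θ).smul_const (Nk k))
  refine h1.congr_deriv ?_
  rw [mul_add, mul_smul_comm, mul_smul_comm, mul_one, Nk_sq]
  module

lemma S_norm_le (k : ℕ) (θ : ℝ) : ‖S k θ‖ ≤ ‖(1 : E →L[ℝ] E)‖ + ‖Nk k‖ := by
  unfold S
  refine (norm_add_le _ _).trans ?_
  rw [norm_smul, norm_smul]
  have h1 : ‖Real.cos θ‖ ≤ 1 := Real.abs_cos_le_one θ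
  have h2 : ‖Real.sin θ‖ ≤ 1 := Real.abs_sin_le_one θ
  have h3 := norm_nonneg (1 : E →L[ℝ] E)
  have h4 := norm_nonneg (Nk k)
  nlinarith

/-- the angle -/
noncomputable def ang (N : ℕ) (t : ℝ) (z : ℤ_[2]) : ℝ := eps N * (rho (t - N) * dig N z)

/-- partial products -/
noncomputable def Mz : ℕ → ℝ → ℤ_[2] → (E →L[ℝ] E)
  | 0, _, _ => 1
  | N + 1, t, z => Mz N t z * S N (ang N t z)

/-- inverse partial products -/
noncomputable def Mzi : ℕ → ℝ → ℤ_[2] → (E →L[ℝ] E)
  | 0, _, _ => 1
  | N + 1, t, z => S N (-ang N t z) * Mzi N t z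

lemma Mz_mul_Mzi (N : ℕ) (t : ℝ) (z : ℤ_[2]) : Mz N t z * Mzi N t z = 1 := by
  induction N with
  | zero => simp [Mz, Mzi]
  | succ N ih =>
    simp only [Mz, Mzi]
    rw [mul_assoc, ← mul_assoc (S N _) (S N _), S_mul_neg, one_mul, ih]

lemma Mzi_mul_Mz (N : ℕ) (t : ℝ) (z : ℤ_[2]) : Mzi N t z * Mz N t z = 1 := by
  induction N with
  | zero => simp [Mz, Mzi]
  | succ N ih =>
    simp only [Mz, Mzi]
    rw [mul_assoc, ← mul_assoc (Mzi N _ _) (Mz N _ _), ih, one_mul, S_neg_mul]

lemma ang_eq_zero {N : ℕ} {t : ℝ} (h : t ≤ N) (z : ℤ_[2]) : ang N t z = 0 := by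
  unfold ang
  rw [rho_of_nonpos (by linarith)]
  ring

lemma Mz_stable {N N' : ℕ} (hN : N ≤ N') {t : ℝ} (h : t ≤ N) (z : ℤ_[2]) :
    Mz N' t z = Mz N t z := by
  induction N', hN using Nat.le_induction with
  | base => rfl
  | succ N' hN ih =>
    have : t ≤ N' := h.trans (by exact_mod_cast hN)
    simp only [Mz]
    rw [ang_eq_zero this, S_zero, mul_one, ih]

lemma Mzi_stable {N N' : ℕ} (hN : N ≤ N') {t : ℝ} (h : t ≤ N) (z : ℤ_[2]) :
    Mzi N' t z = Mzi N t z := by
  induction N', hN using Nat.le_induction with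
  | base => rfl
  | succ N' hN ih =>
    have : t ≤ N' := h.trans (by exact_mod_cast hN)
    simp only [Mzi]
    rw [ang_eq_zero this, neg_zero, S_zero, one_mul, ih]

lemma ang_congr {N : ℕ} {z z' : ℤ_[2]} (h : Cg (N + 2) z z') (t : ℝ) :
    ang N t z = ang N t z' := by
  unfold ang; rw [dig_congr h]

lemma Mz_congr {N : ℕ} {z z' : ℤ_[2]} (h : Cg (N + 1) z z') (t : ℝ) : Mz N t z = Mz N t z' := by
  induction N with
  | zero => rfl
  | succ N ih =>
    simp only [Mz]
    rw [ih (h.mono (by omega)), ang_congr h]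

lemma Mzi_congr {N : ℕ} {z z' : ℤ_[2]} (h : Cg (N + 1) z z') (t : ℝ) :
    Mzi N t z = Mzi N t z' := by
  induction N with
  | zero => rfl
  | succ N ih =>
    simp only [Mzi]
    rw [ih (h.mono (by omega)), ang_congr h]

/-! ### Derivatives and bounds -/

lemma hasDerivAt_ang (N : ℕ) (t : ℝ) (z : ℤ_[2]) :
    HasDerivAt (fun t => ang N t z) (eps N * (deriv rho (t - N) * dig N z)) t := by
  have h1 : HasDerivAt rho (deriv rho (t - N)) (t - N) :=
    ((contDiff_rho.differentiable (by norm_num)) _).hasDerivAt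
  have h2 : HasDerivAt (fun t => rho (t - N)) (deriv rho (t - N)) t := h1.comp_sub_const t N
  exact (h2.mul_const _).const_mul _

lemma hasDerivAt_S_ang (N : ℕ) (t : ℝ) (z : ℤ_[2]) :
    HasDerivAt (fun t => S N (ang N t z))
      ((eps N * (deriv rho (t - N) * dig N z)) • (Nk N * S N (ang N t z))) t :=
  HasDerivAt.scomp (g₁ := S N) (h := fun t => ang N t z) t (hasDerivAt_S N _)
    (hasDerivAt_ang N t z)

lemma hasDerivAt_S_neg_ang (N : ℕ) (t : ℝ) (z : ℤ_[2]) :
    HasDerivAt (fun t => S N (-ang N t z))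
      ((-(eps N * (deriv rho (t - N) * dig N z))) • (Nk N * S N (-ang N t z))) t :=
  HasDerivAt.scomp (g₁ := S N) (h := fun t => -ang N t z) t (hasDerivAt_S N _)
    (hasDerivAt_ang N t z).fun_neg

/-- derivative of the partial products -/
noncomputable def Md : ℕ → ℝ → ℤ_[2] → (E →L[ℝ] E)
  | 0, _, _ => 0
  | N + 1, t, z => Md N t z * S N (ang N t z) + Mz N t z *
      ((eps N * (deriv rho (t - N) * dig N z)) • (Nk N * S N (ang N t z)))

/-- derivative of the inverse partial products -/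
noncomputable def Mdi : ℕ → ℝ → ℤ_[2] → (E →L[ℝ] E)
  | 0, _, _ => 0
  | N + 1, t, z => ((-(eps N * (deriv rho (t - N) * dig N z))) • (Nk N * S N (-ang N t z))) *
      Mzi N t z + S N (-ang N t z) * Mdi N t z

lemma hasDerivAt_Mz (N : ℕ) (t : ℝ) (z : ℤ_[2]) :
    HasDerivAt (fun t => Mz N t z) (Md N t z) t := by
  induction N with
  | zero => exact hasDerivAt_const t _
  | succ N ih => exact ih.mul (hasDerivAt_S_ang N t z)

lemma hasDerivAt_Mzi (N : ℕ) (t : ℝ) (z : ℤ_[2]) :
    HasDerivAt (fun t => Mzi N t z) (Mdi N t z) t := by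
  induction N with
  | zero => exact hasDerivAt_const t _
  | succ N ih => exact (hasDerivAt_S_neg_ang N t z).mul ih

lemma continuous_drho : Continuous (deriv rho) := contDiff_rho.continuous_deriv le_rfl
lemma continuous_rho : Continuous rho := contDiff_rho.continuous
lemma continuous_S (k : ℕ) : Continuous (S k) :=
  continuous_iff_continuousAt.2 fun θ => (hasDerivAt_S k θ).continuousAt

lemma continuous_ang (N : ℕ) (z : ℤ_[2]) : Continuous (fun t => ang N t z) :=
  continuous_iff_continuousAt.2 fun t => (hasDerivAt_ang N t z).continuousAt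

lemma continuous_Mz (N : ℕ) (z : ℤ_[2]) : Continuous (fun t => Mz N t z) :=
  continuous_iff_continuousAt.2 fun t => (hasDerivAt_Mz N t z).continuousAt

lemma continuous_Md (N : ℕ) (z : ℤ_[2]) : Continuous (fun t => Md N t z) := by
  induction N with
  | zero => exact continuous_const
  | succ N ih =>
    have h1 := continuous_Mz N z
    have h2 := (continuous_S N).comp (continuous_ang N z)
    have h3 : Continuous (fun t : ℝ => deriv rho (t - N)) :=
      continuous_drho.comp (continuous_id.sub continuous_const)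
    simp only [Md]
    exact (ih.mul h2).add (h1.mul
      ((continuous_const.mul (h3.mul continuous_const)).smul (continuous_const.mul h2)))

lemma Md_congr {N : ℕ} {z z' : ℤ_[2]} (h : Cg (N + 1) z z') (t : ℝ) : Md N t z = Md N t z' := by
  induction N with
  | zero => rfl
  | succ N ih =>
    simp only [Md]
    rw [ih (h.mono (by omega)), ang_congr h, Mz_congr (h.mono (by omega)), dig_congr h]

/-- all quantities are bounded by a constant depending on `N` only -/
def BoundedBy (N : ℕ) (C : ℝ) : Prop :=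
  1 ≤ C ∧ ∀ t z, ‖Mz N t z‖ ≤ C ∧ ‖Mzi N t z‖ ≤ C ∧ ‖Md N t z‖ ≤ C ∧ ‖Mdi N t z‖ ≤ C

lemma norm_one_le : ‖(1 : E →L[ℝ] E)‖ ≤ 1 := ContinuousLinearMap.norm_id_le

lemma dig_abs_le (k : ℕ) (z : ℤ_[2]) : |dig k z| ≤ 1 := by
  rcases dig_cases k z with h | h <;> rw [h] <;> norm_num

lemma exists_bound (N : ℕ) : ∃ C, BoundedBy N C := by
  induction N with
  | zero =>
    refine ⟨1, le_rfl, fun t z => ?_⟩
    simp only [Mz, Mzi, Md, Mdi, norm_zero]
    exact ⟨norm_one_le, norm_one_le, zero_le_one, zero_le_one⟩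
  | succ N ih =>
    obtain ⟨C, hC1, hC⟩ := ih
    obtain ⟨R, hR0, hR⟩ := exists_rho_bound
    set s : ℝ := 1 + ‖Nk N‖ with hs
    have hs1 : 1 ≤ s := by have := norm_nonneg (Nk N); linarith
    have hS : ∀ θ, ‖S N θ‖ ≤ s := fun θ =>
      (S_norm_le N θ).trans (by have := norm_one_le; linarith)
    have hN : ‖Nk N‖ ≤ s := by linarith
    have he := (eps_pos N).le
    set e : ℝ := eps N * R with hed
    have he0 : 0 ≤ e := by positivity
    have hcoef : ∀ t z, ‖eps N * (deriv rho (t - N) * dig N z)‖ ≤ e := by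
      intro t z
      rw [norm_mul, norm_mul, Real.norm_eq_abs, Real.norm_eq_abs, Real.norm_eq_abs,
        abs_of_nonneg he, hed]
      have h1 := hR (t - N)
      have h2 := dig_abs_le N z
      have h3 := abs_nonneg (dig N z)
      have h4 := abs_nonneg (deriv rho (t - N))
      gcongr
      nlinarith
    have hbig : 0 ≤ C * (e * (s * s)) := by positivity
    refine ⟨C * s + C * (e * (s * s)) + 1, by nlinarith, fun t z => ?_⟩
    obtain ⟨h1, h2, h3, h4⟩ := hC t z
    have hC0 : 0 ≤ C := by linarith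
    have hs0 : 0 ≤ s := by linarith
    have hpos : 0 ≤ C * (e * (s * s)) := by positivity
    have hD : ∀ θ, ‖(eps N * (deriv rho (t - N) * dig N z)) • (Nk N * S N θ)‖ ≤ e * (s * s) := by
      intro θ
      rw [norm_smul]
      refine mul_le_mul (hcoef t z) ((norm_mul_le _ _).trans ?_) (norm_nonneg _) he0
      exact mul_le_mul hN (hS _) (norm_nonneg _) hs0
    have hD' : ∀ θ, ‖(-(eps N * (deriv rho (t - N) * dig N z))) • (Nk N * S N θ)‖ ≤
        e * (s * s) := by
      intro θ
      rw [norm_smul, norm_neg, ← norm_smul]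
      exact hD θ
    simp only [Mz, Mzi, Md, Mdi]
    refine ⟨?_, ?_, ?_, ?_⟩
    · refine (norm_mul_le _ _).trans ?_
      have := mul_le_mul h1 (hS (ang N t z)) (norm_nonneg _) hC0
      linarith
    · refine (norm_mul_le _ _).trans ?_
      have := mul_le_mul (hS (-ang N t z)) h2 (norm_nonneg _) hs0
      linarith
    · refine (norm_add_le _ _).trans ?_
      have a1 := (norm_mul_le (Md N t z) (S N (ang N t z))).trans
        (mul_le_mul h3 (hS (ang N t z)) (norm_nonneg _) hC0)
      have a2 := (norm_mul_le (Mz N t z)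
        ((eps N * (deriv rho (t - N) * dig N z)) • (Nk N * S N (ang N t z)))).trans
        (mul_le_mul h1 (hD _) (norm_nonneg _) hC0)
      linarith
    · refine (norm_add_le _ _).trans ?_
      have a1 := (norm_mul_le (S N (-ang N t z)) (Mdi N t z)).trans
        (mul_le_mul (hS (-ang N t z)) h4 (norm_nonneg _) hs0)
      have a2 := (norm_mul_le
        ((-(eps N * (deriv rho (t - N) * dig N z))) • (Nk N * S N (-ang N t z)))
        (Mzi N t z)).trans (mul_le_mul (hD' _) h2 (norm_nonneg _) (by positivity))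
      linarith

/-- the bounding constants -/
noncomputable def Kn (N : ℕ) : ℝ := ∑ i ∈ Finset.range (N + 1), (exists_bound i).choose

lemma Kn_mono : Monotone Kn := by
  apply monotone_nat_of_le_succ
  intro N
  unfold Kn
  rw [Finset.sum_range_succ _ (N + 1)]
  have := (exists_bound (N + 1)).choose_spec.1
  linarith

lemma choose_le_Kn (N : ℕ) : (exists_bound N).choose ≤ Kn N := by
  unfold Kn
  apply Finset.single_le_sum (f := fun i => (exists_bound i).choose)
  · intro i _
    have := (exists_bound i).choose_spec.1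
    linarith
  · exact Finset.self_mem_range_succ N

lemma one_le_Kn (N : ℕ) : 1 ≤ Kn N := (exists_bound N).choose_spec.1.trans (choose_le_Kn N)

lemma Mz_norm_le (N : ℕ) (t : ℝ) (z : ℤ_[2]) : ‖Mz N t z‖ ≤ Kn N :=
  ((exists_bound N).choose_spec.2 t z).1.trans (choose_le_Kn N)
lemma Mzi_norm_le (N : ℕ) (t : ℝ) (z : ℤ_[2]) : ‖Mzi N t z‖ ≤ Kn N :=
  ((exists_bound N).choose_spec.2 t z).2.1.trans (choose_le_Kn N)
lemma Md_norm_le (N : ℕ) (t : ℝ) (z : ℤ_[2]) : ‖Md N t z‖ ≤ Kn N :=
  ((exists_bound N).choose_spec.2 t z).2.2.1.trans (choose_le_Kn N)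
lemma Mdi_norm_le (N : ℕ) (t : ℝ) (z : ℤ_[2]) : ‖Mdi N t z‖ ≤ Kn N :=
  ((exists_bound N).choose_spec.2 t z).2.2.2.trans (choose_le_Kn N)

/-- The matrices vary slowly. -/
lemma Mz_sub_norm_le (N : ℕ) (t t' : ℝ) (z : ℤ_[2]) : ‖Mz N t z - Mz N t' z‖ ≤ Kn N * |t - t'| := by
  have := Convex.norm_image_sub_le_of_norm_hasDerivWithin_le (s := Set.univ)
    (f := fun t => Mz N t z) (f' := fun t => Md N t z) (C := Kn N) (x := t') (y := t)
    (fun x _ => (hasDerivAt_Mz N x z).hasDerivWithinAt) (fun x _ => Md_norm_le N x z)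
    convex_univ (Set.mem_univ _) (Set.mem_univ _)
  rwa [Real.norm_eq_abs] at this

end Pool.Agent.H57.Cen
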