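import Pool.Agent.H57.Cen.Coc

/-!
# The cocycle relation, its limit and its growth
-/

namespace Pool.Agent.H57.Cen

open Filter Topology

/-- the value of the cocycle -/
noncomputable def aform (k : ℕ) (r D : ℝ) : E →L[ℝ] E :=
  if k = 0 then S 0 (eps 0 * (r * (1 - 2 * D))) else rot (eps k * (r * (1 - 2 * D)))

lemma aform_zero (k : ℕ) (D : ℝ) : aform k 0 D = 1 := by
  unfold aform
  split_ifs <;> simp [S_zero, rot_zero]

/-- inverse value -/
noncomputable def aformi (k : ℕ) (r D : ℝ) : E →L[ℝ] E :=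
  if k = 0 then S 0 (-(eps 0 * (r * (1 - 2 * D)))) else rot (-(eps k * (r * (1 - 2 * D))))

lemma aform_mul_aformi (k : ℕ) (r D : ℝ) : aform k r D * aformi k r D = 1 := by
  unfold aform aformi
  split_ifs
  · rw [S_mul_neg]
  · rw [rot_add, add_neg_cancel, rot_zero]

lemma aformi_mul_aform (k : ℕ) (r D : ℝ) : aformi k r D * aform k r D = 1 := by
  unfold aform aformi
  split_ifs
  · rw [S_neg_mul]
  · rw [rot_add, neg_add_cancel, rot_zero]

lemma S_zero_norm_le (θ : ℝ) : ‖S 0 θ‖ ≤ 2600 := by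
  refine (S_norm_le 0 θ).trans ?_
  have h1 : ‖Nk 0‖ ≤ 2501 := by
    unfold Nk
    refine (mat_norm_le _ _ _ _).trans ?_
    simp only [ent]
    norm_num
  have := norm_one_le
  linarith

lemma aform_norm_le (k : ℕ) (r D : ℝ) : ‖aform k r D‖ ≤ 2600 := by
  unfold aform
  split_ifs
  · exact S_zero_norm_le _
  · exact (rot_norm_le _).trans (by norm_num)

lemma aformi_norm_le (k : ℕ) (r D : ℝ) : ‖aformi k r D‖ ≤ 2600 := by
  unfold aformi
  split_ifs
  · exact S_zero_norm_le _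
  · exact (rot_norm_le _).trans (by norm_num)

lemma Mz_eq_one_of_flip {z : ℤ_[2]} {k : ℕ} (h : Flip z k) {N : ℕ} (hN : N + 1 ≤ k) (t : ℝ) :
    Mz N t z = 1 ∧ Mz N t (z + 1) = 1 := by
  induction N with
  | zero => exact ⟨rfl, rfl⟩
  | succ N ih =>
    obtain ⟨h1, h2⟩ := ih (by omega)
    obtain ⟨h3, h4⟩ := h.lt N (by omega)
    simp only [Mz, ang]
    rw [h1, h2, h3, h4]
    simp [S_zero]

lemma Mz_self {z : ℤ_[2]} {k : ℕ} (h : Flip z k) (t : ℝ) : Mz k t (z + 1) = Mz k t z := by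
  rcases Nat.eq_zero_or_pos k with rfl | hk
  · rfl
  · obtain ⟨m, rfl⟩ : ∃ m, k = m + 1 := ⟨k - 1, by omega⟩
    obtain ⟨h1, h2⟩ := Mz_eq_one_of_flip h (N := m) le_rfl t
    obtain ⟨h3, h4⟩ := h.pred m rfl
    simp only [Mz, ang]
    rw [h1, h2, h3, h4]

/-- The cocycle relation. -/
lemma Mz_add_one {z : ℤ_[2]} {k : ℕ} (h : Flip z k) {N : ℕ} (hN : k + 1 ≤ N) (t : ℝ) :
    Mz N t (z + 1) = aform k (rho (t - k)) (dig k z) * Mz N t z := by
  induction N, hN using Nat.le_induction with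
  | base =>
    simp only [Mz]
    rw [Mz_self h]
    have e1 : ang k t (z + 1) = eps k * (rho (t - k) * (1 - 2 * dig k z)) + ang k t z := by
      unfold ang; rw [h.self]; ring
    rw [e1, ← S_add]
    rcases Nat.eq_zero_or_pos k with rfl | hk
    · simp only [Mz, aform, if_true, one_mul]
    · obtain ⟨m, rfl⟩ : ∃ m, k = m + 1 := ⟨k - 1, by omega⟩
      rcases le_or_gt t ((m + 1 : ℕ) : ℝ) with ht | ht
      · rw [rho_of_nonpos (by linarith), aform_zero, zero_mul, mul_zero, S_zero, one_mul, one_mul]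
      · have h3 := (h.pred m rfl).1
        have h1 := (Mz_eq_one_of_flip h (N := m) le_rfl t).1
        have e2 : Mz (m + 1) t z = W (m + 1) := by
          simp only [Mz, ang]
          rw [h1, h3, one_mul, W_succ]
          rw [rho_of_one_le (by push_cast at ht; linarith)]
          norm_num
        rw [e2, ← mul_assoc (W (m + 1)) (S (m + 1) _) (S (m + 1) _), W_mul_S,
          mul_assoc (rot _) (W _) (S _ _), aform, if_neg (by omega)]
  | succ N hN ih =>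
    simp only [Mz]
    rw [ih, mul_assoc]
    congr 2
    unfold ang
    rw [h.gt N (by omega)]

lemma dig_neg_one (k : ℕ) : dig k (-1) = 0 := by
  have h1 : Cg (k + 2) (-1) ((2 ^ (k + 2) - 1 : ℕ) : ℤ_[2]) := by
    rw [cg_iff_dvd]
    refine ⟨-1, ?_⟩
    have : 1 ≤ 2 ^ (k + 2) := Nat.one_le_two_pow
    push_cast [Nat.cast_sub this]
    ring
  rw [dig_congr h1, dig_natCast]
  have hP : 0 < 2 ^ k := by positivity
  have e0 : 2 ^ (k + 2) = 4 * 2 ^ k := by ring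
  unfold gN
  rw [Nat.mod_eq_of_lt (by omega), if_neg]
  push Not
  intro _
  omega

lemma Mz_zero_arg (N : ℕ) (t : ℝ) : Mz N t 0 = 1 := by
  induction N with
  | zero => rfl
  | succ N ih => simp only [Mz, ang]; rw [ih, dig_zero]; simp [S_zero]

lemma Mz_neg_one (N : ℕ) (t : ℝ) : Mz N t (-1) = 1 := by
  induction N with
  | zero => rfl
  | succ N ih => simp only [Mz, ang]; rw [ih, dig_neg_one]; simp [S_zero]

/-- the matrix `M^t(z)` -/
noncomputable def Mf (t : ℝ) (z : ℤ_[2]) : E →L[ℝ] E := Mz ⌈t⌉₊ t z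
/-- its inverse -/
noncomputable def Mfi (t : ℝ) (z : ℤ_[2]) : E →L[ℝ] E := Mzi ⌈t⌉₊ t z

lemma Mf_eq {N : ℕ} {t : ℝ} (h : t ≤ N) (z : ℤ_[2]) : Mf t z = Mz N t z :=
  (Mz_stable (Nat.ceil_le.2 h) (Nat.le_ceil t) z).symm
lemma Mfi_eq {N : ℕ} {t : ℝ} (h : t ≤ N) (z : ℤ_[2]) : Mfi t z = Mzi N t z :=
  (Mzi_stable (Nat.ceil_le.2 h) (Nat.le_ceil t) z).symm

lemma Mf_mul_Mfi (t : ℝ) (z : ℤ_[2]) : Mf t z * Mfi t z = 1 := Mz_mul_Mzi _ _ _
lemma Mfi_mul_Mf (t : ℝ) (z : ℤ_[2]) : Mfi t z * Mf t z = 1 := Mzi_mul_Mz _ _ _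

lemma Mf_of_nonpos {t : ℝ} (h : t ≤ 0) (z : ℤ_[2]) : Mf t z = 1 := by
  rw [Mf_eq (N := 0) (by exact_mod_cast h)]; rfl
lemma Mfi_of_nonpos {t : ℝ} (h : t ≤ 0) (z : ℤ_[2]) : Mfi t z = 1 := by
  rw [Mfi_eq (N := 0) (by exact_mod_cast h)]; rfl

/-- the cocycle at time `t` -/
noncomputable def aT (t : ℝ) (z : ℤ_[2]) : E →L[ℝ] E := Mf t (z + 1) * Mfi t z
/-- its inverse -/
noncomputable def aTi (t : ℝ) (z : ℤ_[2]) : E →L[ℝ] E := Mf t z * Mfi t (z + 1)

lemma aTi_mul_aT (t : ℝ) (z : ℤ_[2]) : aTi t z * aT t z = 1 := by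
  unfold aT aTi
  rw [mul_assoc, ← mul_assoc (Mfi t (z + 1)), Mfi_mul_Mf, one_mul, Mf_mul_Mfi]

lemma aT_mul_aTi (t : ℝ) (z : ℤ_[2]) : aT t z * aTi t z = 1 := by
  unfold aT aTi
  rw [mul_assoc, ← mul_assoc (Mfi t z), Mfi_mul_Mf, one_mul, Mf_mul_Mfi]

lemma aT_of_flip {z : ℤ_[2]} {k : ℕ} (h : Flip z k) (t : ℝ) :
    aT t z = aform k (rho (t - k)) (dig k z) := by
  set N := max ⌈t⌉₊ (k + 1) with hN
  have ht : t ≤ N := (Nat.le_ceil t).trans (by exact_mod_cast le_max_left _ _)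
  unfold aT
  rw [Mf_eq ht, Mfi_eq ht, Mz_add_one h (le_max_right _ _), mul_assoc, Mz_mul_Mzi, mul_one]

lemma aT_neg_one (t : ℝ) : aT t (-1) = 1 := by
  unfold aT
  have h2 : Mfi t (-1) = 1 := by
    have := Mf_mul_Mfi t (-1)
    rwa [Mf, Mz_neg_one, one_mul] at this
  rw [h2, neg_add_cancel, Mf, Mz_zero_arg, one_mul]

lemma eq_neg_one_or_flip (z : ℤ_[2]) :
    z = -1 ∨ (z ≠ -1 ∧ ∃ b, z + 1 = 2 ^ (z + 1).valuation * (2 * b + 1)) := by
  by_cases h : z = -1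
  · exact Or.inl h
  · refine Or.inr ⟨h, exists_odd ?_⟩
    intro h'
    exact h (eq_neg_of_add_eq_zero_left h')

/-- the limit cocycle -/
noncomputable def aInf (z : ℤ_[2]) : E →L[ℝ] E :=
  open Classical in
  if z = -1 then 1 else aform (z + 1).valuation 1 (dig (z + 1).valuation z)

/-- its inverse -/
noncomputable def aInfi (z : ℤ_[2]) : E →L[ℝ] E :=
  open Classical in
  if z = -1 then 1 else aformi (z + 1).valuation 1 (dig (z + 1).valuation z)

lemma aInf_mul_aInfi (z : ℤ_[2]) : aInf z * aInfi z = 1 := by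
  unfold aInf aInfi
  split_ifs
  · rw [one_mul]
  · exact aform_mul_aformi _ _ _

lemma aInfi_mul_aInf (z : ℤ_[2]) : aInfi z * aInf z = 1 := by
  unfold aInf aInfi
  split_ifs
  · rw [one_mul]
  · exact aformi_mul_aform _ _ _

lemma aInf_norm_le (z : ℤ_[2]) : ‖aInf z‖ ≤ 2600 := by
  unfold aInf
  split_ifs
  · exact norm_one_le.trans (by norm_num)
  · exact aform_norm_le _ _ _

lemma aInfi_norm_le (z : ℤ_[2]) : ‖aInfi z‖ ≤ 2600 := by
  unfold aInfi
  split_ifs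
  · exact norm_one_le.trans (by norm_num)
  · exact aformi_norm_le _ _ _

lemma aT_norm_le (t : ℝ) (z : ℤ_[2]) : ‖aT t z‖ ≤ 2600 := by
  rcases eq_neg_one_or_flip z with rfl | ⟨_, b, hb⟩
  · rw [aT_neg_one]; exact norm_one_le.trans (by norm_num)
  · rw [aT_of_flip (flip_of_eq hb)]; exact aform_norm_le _ _ _

lemma aTi_norm_le (t : ℝ) (z : ℤ_[2]) : ‖aTi t z‖ ≤ 2600 := by
  rcases eq_neg_one_or_flip z with rfl | ⟨_, b, hb⟩
  · have h := aTi_mul_aT t (-1)
    rw [aT_neg_one, mul_one] at h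
    rw [h]; exact norm_one_le.trans (by norm_num)
  · have h := aTi_mul_aT t z
    rw [aT_of_flip (flip_of_eq hb)] at h
    have h2 : aTi t z = aformi (z + 1).valuation (rho (t - (z + 1).valuation))
        (dig (z + 1).valuation z) := by
      rw [← one_mul (aformi _ _ _), ← h, mul_assoc, aform_mul_aformi, mul_one]
    rw [h2]; exact aformi_norm_le _ _ _

/-! ### Convergence -/

lemma eps_anti {m n : ℕ} (h : m ≤ n) : eps n ≤ eps m := by
  unfold eps
  apply div_le_div_of_nonneg_left Real.pi_pos.le (by positivity)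
  exact pow_le_pow_right₀ (by norm_num) (by omega)

lemma val_ge_of_cg {x b : ℤ_[2]} {k m : ℕ} (hx : x = 2 ^ k * (2 * b + 1)) (h : Cg m x 0) :
    m ≤ k := by
  rw [cg_iff_norm, sub_zero, hx, norm_odd] at h
  rw [zpow_neg, zpow_natCast, ← inv_pow] at h
  by_contra hcon
  push Not at hcon
  have : (2 : ℝ)⁻¹ ^ m < (2 : ℝ)⁻¹ ^ k := pow_lt_pow_right_of_lt_one₀ (by norm_num) (by norm_num) hcon
  linarith

lemma near_one {k m : ℕ} (hm : 1 ≤ m) (hk : m ≤ k) {r D : ℝ} (hr : 0 ≤ r) (hr1 : r ≤ 1)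
    (hD : D = 0 ∨ D = 1) : ‖aform k r D - 1‖ ≤ 4 * eps m := by
  unfold aform
  rw [if_neg (by omega)]
  refine (rot_sub_one_norm_le _).trans ?_
  have h1 := eps_pos k
  have h2 := eps_anti hk
  rw [abs_mul, abs_of_pos h1, abs_mul, abs_of_nonneg hr]
  have h3 : |1 - 2 * D| = 1 := by rcases hD with h | h <;> rw [h] <;> norm_num
  rw [h3, mul_one]
  nlinarith

lemma aT_near_one {z : ℤ_[2]} {m : ℕ} (hm : 1 ≤ m) (h : Cg m (z + 1) 0) (t : ℝ) :
    ‖aT t z - 1‖ ≤ 4 * eps m := by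
  rcases eq_neg_one_or_flip z with rfl | ⟨_, b, hb⟩
  · rw [aT_neg_one, sub_self, norm_zero]
    have := eps_pos m
    positivity
  · rw [aT_of_flip (flip_of_eq hb)]
    exact near_one hm (val_ge_of_cg hb h) (rho_nonneg _) (rho_le_one _) (dig_cases _ _)

lemma aInf_near_one {z : ℤ_[2]} {m : ℕ} (hm : 1 ≤ m) (h : Cg m (z + 1) 0) :
    ‖aInf z - 1‖ ≤ 4 * eps m := by
  rcases eq_neg_one_or_flip z with rfl | ⟨hz, b, hb⟩
  · rw [aInf, if_pos rfl, sub_self, norm_zero]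
    have := eps_pos m
    positivity
  · rw [aInf, if_neg hz]
    exact near_one hm (val_ge_of_cg hb h) zero_le_one le_rfl (dig_cases _ _)

/-- far from `-1`, the cocycles agree with their limit -/
lemma aT_eq_aInf {z z' : ℤ_[2]} {n : ℕ} {t : ℝ} (ht : n ≤ t) (h : Cg n z z')
    (hfar : ¬ Cg (n - 1) (z' + 1) 0) : aT t z = aInf z' := by
  have hz' : z' ≠ -1 := by
    rintro rfl
    apply hfar
    rw [neg_add_cancel]
    exact Cg.refl _ _
  rcases eq_neg_one_or_flip z' with h0 | ⟨_, b, hb⟩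
  · exact absurd h0 hz'
  set k := (z' + 1).valuation with hk
  have hkn : k + 1 < n := by
    by_contra hcon
    apply hfar
    rw [cg_iff_dvd]
    refine ⟨2 ^ (k - (n - 1)) * (2 * b + 1), ?_⟩
    rw [sub_zero, ← mul_assoc, ← pow_add, show n - 1 + (k - (n - 1)) = k by omega]
    exact hb
  obtain ⟨c, hc⟩ := cg_iff_dvd.1 h
  have e1 : z + 1 = 2 ^ k * (2 * (b + 2 ^ (n - k - 1) * c) + 1) := by
    have h3 : (2 : ℤ_[2]) ^ n = 2 ^ k * (2 * 2 ^ (n - k - 1)) := by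
      rw [← pow_succ', ← pow_add]; congr 1; omega
    rw [h3] at hc
    linear_combination hc + hb
  rw [aT_of_flip (flip_of_eq e1), aInf, if_neg hz', ← hk]
  rw [dig_congr (h.mono (show k + 2 ≤ n by omega))]
  rw [rho_of_one_le]
  have : ((k : ℝ) + 1) ≤ n := by exact_mod_cast hkn.le
  linarith

lemma aT_close {z z' : ℤ_[2]} {n : ℕ} (hn : 2 ≤ n) {t : ℝ} (ht : n ≤ t) (h : Cg n z z') :
    ‖aT t z - aInf z'‖ ≤ 8 * eps (n - 1) := by
  have he := eps_pos (n - 1)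
  by_cases hfar : Cg (n - 1) (z' + 1) 0
  · have h1 := aInf_near_one (z := z') (m := n - 1) (by omega) hfar
    have h2 : Cg (n - 1) (z + 1) 0 :=
      ((h.mono (by omega)).add (Cg.refl (n - 1) 1)).trans hfar
    have h3 := aT_near_one (z := z) (m := n - 1) (by omega) h2 t
    calc ‖aT t z - aInf z'‖ = ‖(aT t z - 1) - (aInf z' - 1)‖ := by congr 1; abel
      _ ≤ ‖aT t z - 1‖ + ‖aInf z' - 1‖ := norm_sub_le _ _
      _ ≤ 8 * eps (n - 1) := by linarith
  · rw [aT_eq_aInf ht h hfar, sub_self, norm_zero]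
    positivity

lemma aInf_close {z z' : ℤ_[2]} {n : ℕ} (hn : 2 ≤ n) (h : Cg n z z') :
    ‖aInf z - aInf z'‖ ≤ 16 * eps (n - 1) := by
  have h1 := aT_close hn (t := n) le_rfl h
  have h2 := aT_close hn (t := n) le_rfl (Cg.refl n z)
  calc ‖aInf z - aInf z'‖ = ‖(aT n z - aInf z') - (aT n z - aInf z)‖ := by congr 1; abel
    _ ≤ _ := norm_sub_le _ _
    _ ≤ 16 * eps (n - 1) := by linarith

lemma tendsto_eps : Tendsto (fun n : ℕ => eps (n - 1)) atTop (𝓝 0) := by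
  have h1 : Tendsto (fun n : ℕ => eps n) atTop (𝓝 0) := by
    have h2 : Tendsto (fun n : ℕ => 4 / (2 : ℝ) ^ (n + 1)) atTop (𝓝 0) := by
      have h3 : Tendsto (fun n : ℕ => (4 : ℝ) * ((1 / 2) ^ (n + 1))) atTop (𝓝 (4 * 0)) := by
        apply Tendsto.const_mul
        exact (tendsto_pow_atTop_nhds_zero_of_lt_one (by norm_num) (by norm_num)).comp
          (tendsto_add_atTop_nat 1)
      rw [mul_zero] at h3
      refine h3.congr fun n => ?_
      rw [one_div, inv_pow]; rfl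
    exact squeeze_zero (fun n => (eps_pos n).le) eps_le h2
  exact h1.comp (tendsto_sub_atTop_nat 1)

end Pool.Agent.H57.Cen
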