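import Pool.Agent.H57.Cen.Coc2

/-!
# Growth of the limit cocycle along the orbit of `0`
-/

namespace Pool.Agent.H57.Cen

open Filter Topology

lemma eventually_aT (z : ℤ_[2]) : ∀ᶠ t : ℝ in atTop, aT t z = aInf z := by
  rcases eq_neg_one_or_flip z with rfl | ⟨hz, b, hb⟩
  · exact Eventually.of_forall fun t => by rw [aT_neg_one, aInf, if_pos rfl]
  · filter_upwards [eventually_ge_atTop (((z + 1).valuation : ℝ) + 1)] with t ht
    rw [aT_of_flip (flip_of_eq hb), aInf, if_neg hz, rho_of_one_le (by linarith)]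

lemma eventually_aTi (z : ℤ_[2]) : ∀ᶠ t : ℝ in atTop, aTi t z = aInfi z := by
  filter_upwards [eventually_aT z] with t ht
  have h1 := aTi_mul_aT t z
  rw [ht] at h1
  rw [← mul_one (aTi t z), ← aInf_mul_aInfi z, ← mul_assoc, h1, one_mul]

/-- forward products -/
noncomputable def prodF : ℕ → (E →L[ℝ] E)
  | 0 => 1
  | m + 1 => aInf (m : ℤ_[2]) * prodF m

/-- backward products -/
noncomputable def prodB : ℕ → (E →L[ℝ] E)
  | 0 => 1
  | m + 1 => aInfi (-((m : ℤ_[2]) + 1)) * prodB m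

lemma Mf_zero_arg (t : ℝ) : Mf t 0 = 1 := Mz_zero_arg _ _

lemma eventually_prodF (m : ℕ) : ∀ᶠ t : ℝ in atTop, prodF m = Mf t (m : ℤ_[2]) := by
  induction m with
  | zero => exact Eventually.of_forall fun t => by simp [prodF, Mf_zero_arg]
  | succ m ih =>
    filter_upwards [ih, eventually_aT (m : ℤ_[2])] with t h1 h2
    rw [prodF, h1, ← h2]
    unfold aT
    rw [mul_assoc, Mfi_mul_Mf, mul_one]
    push_cast
    rfl

lemma eventually_prodB (m : ℕ) : ∀ᶠ t : ℝ in atTop, prodB m = Mf t (-(m : ℤ_[2])) := by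
  induction m with
  | zero => exact Eventually.of_forall fun t => by simp [prodB, Mf_zero_arg]
  | succ m ih =>
    filter_upwards [ih, eventually_aTi (-((m : ℤ_[2]) + 1))] with t h1 h2
    rw [prodB, h1, ← h2]
    unfold aTi
    rw [show -((m : ℤ_[2]) + 1) + 1 = -(m : ℤ_[2]) by ring, mul_assoc, Mfi_mul_Mf, mul_one]
    push_cast
    rfl

lemma Mz_of_dig_zero {z : ℤ_[2]} {n : ℕ} (h : ∀ i < n, dig i z = 0) (t : ℝ) : Mz n t z = 1 := by
  induction n with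
  | zero => rfl
  | succ n ih =>
    simp only [Mz, ang]
    rw [ih (fun i hi => h i (by omega)), h n (by omega)]
    simp [S_zero]

lemma Mz_of_dig_zero_ge {z : ℤ_[2]} {n : ℕ} (h : ∀ i, n ≤ i → dig i z = 0) (t : ℝ) {N : ℕ}
    (hN : n ≤ N) : Mz N t z = Mz n t z := by
  induction N, hN using Nat.le_induction with
  | base => rfl
  | succ N hN ih =>
    simp only [Mz, ang]
    rw [ih, h N hN]
    simp [S_zero]

lemma Mf_pow {k : ℕ} (hk : 1 ≤ k) {t : ℝ} (ht : (k : ℝ) + 1 ≤ t) :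
    Mf t ((2 ^ k : ℕ) : ℤ_[2]) = rot (eps k) * W k := by
  obtain ⟨m, rfl⟩ : ∃ m, k = m + 1 := ⟨k - 1, by omega⟩
  have d0 : ∀ i, i < m → dig i ((2 ^ (m + 1) : ℕ) : ℤ_[2]) = 0 := by
    intro i hi
    rw [dig_natCast]
    have hP : 0 < 2 ^ i := by positivity
    have h1 : 2 ^ (m + 1) % 2 ^ (i + 2) = 0 :=
      Nat.mod_eq_zero_of_dvd (pow_dvd_pow 2 (by omega))
    unfold gN
    rw [h1, if_neg]
    push Not
    intro _; omega
  have d1 : dig m ((2 ^ (m + 1) : ℕ) : ℤ_[2]) = 1 := by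
    rw [dig_natCast]
    have hP : 0 < 2 ^ m := by positivity
    have e0 : 2 ^ (m + 2) = 4 * 2 ^ m := by ring
    have e1 : 2 ^ (m + 1) = 2 * 2 ^ m := by ring
    unfold gN
    rw [Nat.mod_eq_of_lt (by omega), if_pos (by omega)]
  have d2 : dig (m + 1) ((2 ^ (m + 1) : ℕ) : ℤ_[2]) = 1 := by
    rw [dig_natCast]
    have hP : 0 < 2 ^ m := by positivity
    have e0 : 2 ^ (m + 1 + 2) = 8 * 2 ^ m := by ring
    have e1 : 2 ^ (m + 1) = 2 * 2 ^ m := by ring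
    unfold gN
    rw [Nat.mod_eq_of_lt (by omega), if_pos (by omega)]
  have d3 : ∀ i, m + 2 ≤ i → dig i ((2 ^ (m + 1) : ℕ) : ℤ_[2]) = 0 := by
    intro i hi
    rw [dig_natCast]
    have h1 : 2 ^ (m + 1) < 2 ^ i := Nat.pow_lt_pow_right (by norm_num) (by omega)
    have h2 : 2 ^ i ≤ 2 ^ (i + 2) := Nat.pow_le_pow_right (by norm_num) (by omega)
    unfold gN
    rw [Nat.mod_eq_of_lt (by omega), if_neg]
    push Not
    intro h; omega
  set N := max ⌈t⌉₊ (m + 2) with hN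
  have ht' : t ≤ N := (Nat.le_ceil t).trans (by exact_mod_cast le_max_left _ _)
  rw [Mf_eq ht', Mz_of_dig_zero_ge d3 t (le_max_right _ _)]
  simp only [Mz]
  rw [Mz_of_dig_zero d0, one_mul]
  unfold ang
  rw [d1, d2, rho_of_one_le (by push_cast at ht ⊢; linarith),
    rho_of_one_le (by push_cast at ht ⊢; linarith)]
  simp only [mul_one]
  rw [← W_succ, W_mul_S]

lemma Mf_neg_pow {k : ℕ} (hk : 1 ≤ k) {t : ℝ} (ht : (k : ℝ) + 1 ≤ t) :
    Mf t (-((2 ^ k : ℕ) : ℤ_[2])) = W k := by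
  obtain ⟨m, rfl⟩ : ∃ m, k = m + 1 := ⟨k - 1, by omega⟩
  have hcg : ∀ n, m + 1 ≤ n → Cg n (-((2 ^ (m + 1) : ℕ) : ℤ_[2]))
      ((2 ^ n - 2 ^ (m + 1) : ℕ) : ℤ_[2]) := by
    intro n hn
    rw [cg_iff_dvd]
    refine ⟨-1, ?_⟩
    have : 2 ^ (m + 1) ≤ 2 ^ n := Nat.pow_le_pow_right (by norm_num) hn
    push_cast [Nat.cast_sub this]
    ring
  have d0 : ∀ i, i < m → dig i (-((2 ^ (m + 1) : ℕ) : ℤ_[2])) = 0 := by
    intro i hi
    have h3 : Cg (i + 2) (-((2 ^ (m + 1) : ℕ) : ℤ_[2])) ((0 : ℕ) : ℤ_[2]) := by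
      rw [cg_iff_dvd]
      obtain ⟨e, he⟩ : ∃ e, m + 1 = (i + 2) + e := ⟨m + 1 - (i + 2), by omega⟩
      refine ⟨-(2 ^ e), ?_⟩
      rw [he, pow_add]
      push_cast
      ring
    rw [dig_congr h3, Nat.cast_zero, dig_zero]
  have d1 : dig m (-((2 ^ (m + 1) : ℕ) : ℤ_[2])) = 1 := by
    rw [dig_congr (hcg (m + 2) (by omega)), dig_natCast]
    have hP : 0 < 2 ^ m := by positivity
    have e0 : 2 ^ (m + 2) = 4 * 2 ^ m := by ring
    have e1 : 2 ^ (m + 1) = 2 * 2 ^ m := by ring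
    unfold gN
    rw [Nat.mod_eq_of_lt (by omega), if_pos (by omega)]
  have d3 : ∀ i, m + 1 ≤ i → dig i (-((2 ^ (m + 1) : ℕ) : ℤ_[2])) = 0 := by
    intro i hi
    rw [dig_congr (hcg (i + 2) (by omega)), dig_natCast]
    have h1 : 2 ^ (m + 1) ≤ 2 ^ i := Nat.pow_le_pow_right (by norm_num) hi
    have hP : 0 < 2 ^ (m + 1) := by positivity
    have e0 : 2 ^ (i + 2) = 4 * 2 ^ i := by ring
    unfold gN
    rw [Nat.mod_eq_of_lt (by omega), if_neg]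
    push Not
    intro h; omega
  set N := max ⌈t⌉₊ (m + 1) with hN
  have ht' : t ≤ N := (Nat.le_ceil t).trans (by exact_mod_cast le_max_left _ _)
  rw [Mf_eq ht', Mz_of_dig_zero_ge d3 t (le_max_right _ _)]
  simp only [Mz]
  rw [Mz_of_dig_zero d0, one_mul]
  unfold ang
  rw [d1, rho_of_one_le (by push_cast at ht ⊢; linarith)]
  simp only [mul_one]
  rw [← W_succ]

lemma prodF_pow {k : ℕ} (hk : 1 ≤ k) : prodF (2 ^ k) = rot (eps k) * W k := by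
  obtain ⟨t, h1, h2⟩ := ((eventually_prodF (2 ^ k)).and
    (eventually_ge_atTop ((k : ℝ) + 1))).exists
  rw [h1, Mf_pow hk h2]

lemma prodB_pow {k : ℕ} (hk : 1 ≤ k) : prodB (2 ^ k) = W k := by
  obtain ⟨t, h1, h2⟩ := ((eventually_prodB (2 ^ k)).and
    (eventually_ge_atTop ((k : ℝ) + 1))).exists
  rw [h1, Mf_neg_pow hk h2]

/-- Forward growth. -/
lemma prodF_large {k : ℕ} (hk : 1 ≤ k) :
    ∃ v : E, ‖v‖ ≤ 1 ∧ 4 ^ k * 34 ^ (2 ^ k) ≤ ‖prodF (2 ^ k) v‖ ^ 2 := by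
  obtain ⟨v, hv, h⟩ := W_large k
  refine ⟨v, hv, ?_⟩
  rw [prodF_pow hk]
  have h1 := rot_apply_norm_ge (eps k) (W k v)
  have h2 : ‖W k v‖ ^ 2 ≤ 16 * ‖(rot (eps k) * W k) v‖ ^ 2 := by
    have e : (rot (eps k) * W k) v = rot (eps k) (W k v) := rfl
    rw [e]
    nlinarith [norm_nonneg (W k v), norm_nonneg (rot (eps k) (W k v))]
  have e : (4 : ℝ) ^ (k + 2) * 34 ^ (2 ^ k) = 16 * (4 ^ k * 34 ^ (2 ^ k)) := by ring
  rw [e] at h
  linarith

/-- Backward growth. -/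
lemma prodB_large {k : ℕ} (hk : 1 ≤ k) :
    ∃ v : E, ‖v‖ ≤ 1 ∧ 4 ^ k * 34 ^ (2 ^ k) ≤ ‖prodB (2 ^ k) v‖ ^ 2 := by
  obtain ⟨v, hv, h⟩ := W_large k
  refine ⟨v, hv, ?_⟩
  rw [prodB_pow hk]
  have e : (4 : ℝ) ^ (k + 2) * 34 ^ (2 ^ k) = 16 * (4 ^ k * 34 ^ (2 ^ k)) := by ring
  rw [e] at h
  have : (0 : ℝ) ≤ 4 ^ k * 34 ^ (2 ^ k) := by positivity
  linarith

end Pool.Agent.H57.Cen
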