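import Pool.Agent.H57.Cen.Coc3

/-!
# The matrices as functions of a real time
-/

namespace Pool.Agent.H57.Cen

open Filter Topology

lemma drho_zero {x : ℝ} (h : x ≤ 0) : deriv rho x = 0 := by
  have h1 : IsLocalMin rho x := by
    apply Filter.Eventually.of_forall
    intro y
    rw [rho_of_nonpos h]
    exact rho_nonneg y
  exact h1.deriv_eq_zero

lemma Md_stable {N N' : ℕ} (hN : N ≤ N') {t : ℝ} (h : t ≤ N) (z : ℤ_[2]) :
    Md N' t z = Md N t z := by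
  induction N', hN using Nat.le_induction with
  | base => rfl
  | succ N' hN ih =>
    have ht : t ≤ N' := h.trans (by exact_mod_cast hN)
    simp only [Md]
    rw [ang_eq_zero ht, S_zero, mul_one, ih, drho_zero (by linarith)]
    simp

lemma Mdi_stable {N N' : ℕ} (hN : N ≤ N') {t : ℝ} (h : t ≤ N) (z : ℤ_[2]) :
    Mdi N' t z = Mdi N t z := by
  induction N', hN using Nat.le_induction with
  | base => rfl
  | succ N' hN ih =>
    have ht : t ≤ N' := h.trans (by exact_mod_cast hN)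
    simp only [Mdi]
    rw [ang_eq_zero ht, neg_zero, S_zero, one_mul, ih, drho_zero (by linarith)]
    simp

/-- derivative of `Mf` -/
noncomputable def Mdf (t : ℝ) (z : ℤ_[2]) : E →L[ℝ] E := Md ⌈t⌉₊ t z
/-- derivative of `Mfi` -/
noncomputable def Mdif (t : ℝ) (z : ℤ_[2]) : E →L[ℝ] E := Mdi ⌈t⌉₊ t z

lemma Mdf_eq {N : ℕ} {t : ℝ} (h : t ≤ N) (z : ℤ_[2]) : Mdf t z = Md N t z :=
  (Md_stable (Nat.ceil_le.2 h) (Nat.le_ceil t) z).symm
lemma Mdif_eq {N : ℕ} {t : ℝ} (h : t ≤ N) (z : ℤ_[2]) : Mdif t z = Mdi N t z :=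
  (Mdi_stable (Nat.ceil_le.2 h) (Nat.le_ceil t) z).symm

lemma eventually_le_ceil (t : ℝ) : ∀ᶠ s in 𝓝 t, s ≤ ((⌈t⌉₊ + 1 : ℕ) : ℝ) := by
  have : t < ((⌈t⌉₊ + 1 : ℕ) : ℝ) := by
    push_cast
    have := Nat.le_ceil t
    linarith
  filter_upwards [eventually_lt_nhds this] with s hs
  exact hs.le

lemma hasDerivAt_Mf (t : ℝ) (z : ℤ_[2]) : HasDerivAt (fun t => Mf t z) (Mdf t z) t := by
  have h1 := hasDerivAt_Mz (⌈t⌉₊ + 1) t z
  have h2 : (fun t => Mf t z) =ᶠ[𝓝 t] fun s => Mz (⌈t⌉₊ + 1) s z := by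
    filter_upwards [eventually_le_ceil t] with s hs
    exact Mf_eq hs z
  rw [Mdf_eq (eventually_le_ceil t).self_of_nhds]
  exact h1.congr_of_eventuallyEq h2

lemma hasDerivAt_Mfi (t : ℝ) (z : ℤ_[2]) : HasDerivAt (fun t => Mfi t z) (Mdif t z) t := by
  have h1 := hasDerivAt_Mzi (⌈t⌉₊ + 1) t z
  have h2 : (fun t => Mfi t z) =ᶠ[𝓝 t] fun s => Mzi (⌈t⌉₊ + 1) s z := by
    filter_upwards [eventually_le_ceil t] with s hs
    exact Mfi_eq hs z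
  rw [Mdif_eq (eventually_le_ceil t).self_of_nhds]
  exact h1.congr_of_eventuallyEq h2

lemma continuous_Mf (z : ℤ_[2]) : Continuous fun t => Mf t z :=
  continuous_iff_continuousAt.2 fun t => (hasDerivAt_Mf t z).continuousAt

lemma continuous_Mdf (z : ℤ_[2]) : Continuous fun t => Mdf t z := by
  rw [continuous_iff_continuousAt]
  intro t
  have h2 : (fun t => Mdf t z) =ᶠ[𝓝 t] fun s => Md (⌈t⌉₊ + 1) s z := by
    filter_upwards [eventually_le_ceil t] with s hs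
    exact Mdf_eq hs z
  exact (continuous_Md _ z).continuousAt.congr h2.symm

lemma Mf_congr {N : ℕ} {t : ℝ} (ht : t ≤ N) {z z' : ℤ_[2]} (h : Cg (N + 1) z z') :
    Mf t z = Mf t z' := by
  rw [Mf_eq ht, Mf_eq ht, Mz_congr h]

lemma Mdf_congr {N : ℕ} {t : ℝ} (ht : t ≤ N) {z z' : ℤ_[2]} (h : Cg (N + 1) z z') :
    Mdf t z = Mdf t z' := by
  rw [Mdf_eq ht, Mdf_eq ht, Md_congr h]

lemma Mf_norm_le {N : ℕ} {t : ℝ} (ht : t ≤ N) (z : ℤ_[2]) : ‖Mf t z‖ ≤ Kn N := by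
  rw [Mf_eq ht]; exact Mz_norm_le _ _ _
lemma Mfi_norm_le {N : ℕ} {t : ℝ} (ht : t ≤ N) (z : ℤ_[2]) : ‖Mfi t z‖ ≤ Kn N := by
  rw [Mfi_eq ht]; exact Mzi_norm_le _ _ _
lemma Mdf_norm_le {N : ℕ} {t : ℝ} (ht : t ≤ N) (z : ℤ_[2]) : ‖Mdf t z‖ ≤ Kn N := by
  rw [Mdf_eq ht]; exact Md_norm_le _ _ _
lemma Mdif_norm_le {N : ℕ} {t : ℝ} (ht : t ≤ N) (z : ℤ_[2]) : ‖Mdif t z‖ ≤ Kn N := by
  rw [Mdif_eq ht]; exact Mdi_norm_le _ _ _

lemma Mf_sub_norm_le {N : ℕ} {t t' : ℝ} (ht : t ≤ N) (ht' : t' ≤ N) (z : ℤ_[2]) :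
    ‖Mf t z - Mf t' z‖ ≤ Kn N * |t - t'| := by
  rw [Mf_eq ht, Mf_eq ht']; exact Mz_sub_norm_le _ _ _ _

lemma Mdf_of_nonpos {t : ℝ} (h : t ≤ 0) (z : ℤ_[2]) : Mdf t z = 0 := by
  rw [Mdf_eq (N := 0) (by exact_mod_cast h)]; rfl

lemma le_Kn (N : ℕ) : (N : ℝ) + 1 ≤ Kn N := by
  unfold Kn
  have : ∑ i ∈ Finset.range (N + 1), (1 : ℝ) ≤
      ∑ i ∈ Finset.range (N + 1), (exists_bound i).choose :=
    Finset.sum_le_sum fun i _ => (exists_bound i).choose_spec.1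
  simpa using this

end Pool.Agent.H57.Cen
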