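import Pool.Agent.H57.Cen.Coc3

/-!
# Coding of binary sequences by points of the plane
-/

namespace Pool.Agent.H57.Cen

open Filter Topology Set

/-- the expanding eigenvalue -/
noncomputable def lam : ℝ := 3 + 2 * Real.sqrt 2
/-- the contracting eigenvalue -/
noncomputable def lami : ℝ := 3 - 2 * Real.sqrt 2

lemma sqrt_two_bounds : 1.414 < Real.sqrt 2 ∧ Real.sqrt 2 < 1.415 := by
  constructor
  · rw [Real.lt_sqrt (by norm_num)]; norm_num
  · rw [Real.sqrt_lt' (by norm_num)]; norm_num

lemma lam_mul_lami : lam * lami = 1 := by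
  unfold lam lami
  have := Real.sq_sqrt (show (0 : ℝ) ≤ 2 by norm_num)
  nlinarith

lemma lami_mul_lam : lami * lam = 1 := by rw [mul_comm, lam_mul_lami]

lemma lam_add_lami : lam + lami = 6 := by unfold lam lami; ring

lemma lam_bounds : 5.82 < lam ∧ lam < 5.83 := by
  unfold lam; have := sqrt_two_bounds; constructor <;> linarith [this.1, this.2]

lemma lami_bounds : 0.17 < lami ∧ lami < 0.173 := by
  unfold lami; have := sqrt_two_bounds; constructor <;> linarith [this.1, this.2]

lemma lam_pos : 0 < lam := by have := lam_bounds.1; linarith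
lemma lami_pos : 0 < lami := by have := lami_bounds.1; linarith
lemma lam_ne : lam ≠ 0 := lam_pos.ne'
lemma lami_ne : lami ≠ 0 := lami_pos.ne'
lemma lami_eq_inv : lami = lam⁻¹ := eq_inv_of_mul_eq_one_left lami_mul_lam

/-- the hyperbolic linear map in its eigencoordinates -/
noncomputable def Ax (x : ℝ × ℝ) : ℝ × ℝ := (lam * x.1, lami * x.2)

/-- lattice vectors -/
noncomputable def gam (m n : ℤ) : ℝ × ℝ := (m + n * lam, -(m + n * lami))

lemma Ax_gam (m n : ℤ) : Ax (gam m n) = gam (-n) (m + 6 * n) := by
  have h1 := lam_mul_lami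
  have h2 := lam_add_lami
  unfold Ax gam
  ext
  · have : lam ^ 2 = 6 * lam - 1 := by nlinarith
    push_cast
    linear_combination (n : ℝ) * this
  · have : lami ^ 2 = 6 * lami - 1 := by nlinarith
    push_cast
    linear_combination -(n : ℝ) * this

lemma Ax_add (x y : ℝ × ℝ) : Ax (x + y) = Ax x + Ax y := by
  unfold Ax; ext <;> simp <;> ring

/-- bits -/
def bit (b : Bool) : ℝ := if b then 1 else 0

lemma bit_nonneg (b : Bool) : 0 ≤ bit b := by unfold bit; split_ifs <;> norm_num
lemma bit_le_one (b : Bool) : bit b ≤ 1 := by unfold bit; split_ifs <;> norm_num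

/-- value of a binary sequence in base `lami` -/
noncomputable def vl (a : ℕ → Bool) : ℝ := ∑' j : ℕ, lami ^ j * bit (a j)

lemma summable_vl (a : ℕ → Bool) : Summable fun j : ℕ => lami ^ j * bit (a j) := by
  have h := summable_geometric_of_lt_one lami_pos.le (by linarith [lami_bounds.2] : lami < 1)
  refine Summable.of_nonneg_of_le (fun j => mul_nonneg (pow_nonneg lami_pos.le _) (bit_nonneg _))
    (fun j => ?_) h
  exact mul_le_of_le_one_right (pow_nonneg lami_pos.le _) (bit_le_one _)

lemma vl_nonneg (a : ℕ → Bool) : 0 ≤ vl a :=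
  tsum_nonneg fun j => mul_nonneg (pow_nonneg lami_pos.le _) (bit_nonneg _)

lemma vl_le (a : ℕ → Bool) : vl a ≤ 1.21 := by
  have h := summable_geometric_of_lt_one lami_pos.le (by linarith [lami_bounds.2] : lami < 1)
  have h1 : vl a ≤ ∑' j : ℕ, lami ^ j := by
    apply Summable.tsum_le_tsum _ (summable_vl a) h
    intro j
    exact mul_le_of_le_one_right (pow_nonneg lami_pos.le _) (bit_le_one _)
  rw [tsum_geometric_of_lt_one lami_pos.le (by linarith [lami_bounds.2])] at h1
  refine h1.trans ?_
  rw [inv_le_comm₀ (by linarith [lami_bounds.2]) (by norm_num)]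
  have := lami_bounds.2
  norm_num
  linarith

lemma vl_succ (a : ℕ → Bool) : vl a = bit (a 0) + lami * vl (fun j => a (j + 1)) := by
  unfold vl
  rw [(summable_vl a).tsum_eq_zero_add, pow_zero, one_mul, ← tsum_mul_left]
  congr 2
  ext j
  rw [pow_succ]; ring

lemma vl_injective_aux (n : ℕ) : ∀ a b : ℕ → Bool, vl a = vl b → a n = b n := by
  have h0 : ∀ a b : ℕ → Bool, vl a = vl b → a 0 = b 0 := by
    intro a b h
    rw [vl_succ a, vl_succ b] at h
    have h1 := vl_nonneg fun j => a (j + 1)
    have h2 := vl_nonneg fun j => b (j + 1)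
    have h3 := vl_le fun j => a (j + 1)
    have h4 := vl_le fun j => b (j + 1)
    have h5 := lami_bounds
    by_contra hne
    cases ha : a 0 <;> cases hb : b 0 <;> simp only [ha, hb, not_true_eq_false] at hne <;>
      simp only [ha, hb, bit, if_true] at h <;> simp at h <;> nlinarith
  induction n with
  | zero => exact h0
  | succ n ih =>
    intro a b h
    have h1 := h0 a b h
    rw [vl_succ a, vl_succ b, h1] at h
    have h2 : vl (fun j => a (j + 1)) = vl (fun j => b (j + 1)) := by
      have := add_left_cancel h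
      exact mul_left_cancel₀ lami_ne this
    exact ih _ _ h2

lemma vl_injective : Function.Injective vl := fun a b h => funext fun n => vl_injective_aux n a b h

/-- binary sequences -/
abbrev Om : Type := ℤ → Bool

/-- the shift -/
def sh (w : Om) : Om := fun n => w (n + 1)

/-- the coding map -/
noncomputable def code (w : Om) : ℝ × ℝ :=
  (lami * vl (fun j : ℕ => w (j + 1)), vl (fun j : ℕ => w (-j)))

lemma continuous_vl {X : Type*} [TopologicalSpace X] {f : X → ℕ → Bool} (hf : Continuous f) :
    Continuous fun x => vl (f x) := by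
  unfold vl
  have h := summable_geometric_of_lt_one lami_pos.le (by linarith [lami_bounds.2] : lami < 1)
  apply continuous_tsum _ h
  · intro j x
    rw [Real.norm_of_nonneg (mul_nonneg (pow_nonneg lami_pos.le _) (bit_nonneg _))]
    exact mul_le_of_le_one_right (pow_nonneg lami_pos.le _) (bit_le_one _)
  · intro j
    have : Continuous bit := continuous_of_discreteTopology
    exact continuous_const.mul (this.comp ((continuous_apply j).comp hf))

lemma continuous_code : Continuous code := by
  unfold code
  refine (continuous_const.mul (continuous_vl ?_)).prodMk (continuous_vl ?_)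
  · exact continuous_pi fun j => continuous_apply _
  · exact continuous_pi fun j => continuous_apply _

lemma code_sh (w : Om) : ∃ m : ℤ, code (sh w) = Ax (code w) + gam m 0 := by
  have h1 : vl (fun j : ℕ => w (j + 1)) = bit (w 1) + lami * vl (fun j : ℕ => sh w (j + 1)) := by
    rw [vl_succ]
    simp only [sh, Nat.cast_zero, zero_add]
    push_cast
    rfl
  have h2 : vl (fun j : ℕ => sh w (-j)) = bit (w 1) + lami * vl (fun j : ℕ => w (-j)) := by
    rw [vl_succ]
    simp only [sh, Nat.cast_zero, neg_zero, zero_add]
    congr 4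
    ext j
    congr 1
    push_cast; ring
  have h3 := lam_mul_lami
  cases hb : w 1
  · refine ⟨0, ?_⟩
    rw [hb] at h1 h2
    simp only [bit] at h1 h2
    unfold code Ax gam
    ext
    · simp only [Prod.fst_add]
      rw [h1]
      simp
      rw [← mul_assoc, h3, one_mul]
    · simp only [Prod.snd_add]
      rw [h2]
      simp
  · refine ⟨-1, ?_⟩
    rw [hb] at h1 h2
    simp only [bit, if_true] at h1 h2
    unfold code Ax gam
    ext
    · simp only [Prod.fst_add]
      rw [h1]
      push_cast
      linear_combination (-1 - lami * vl (fun j : ℕ => sh w (j + 1))) * h3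
    · simp only [Prod.snd_add]
      rw [h2]
      push_cast
      ring

lemma code_injective_mod {w w' : Om} {m n : ℤ} (h : code w = code w' + gam m n) :
    m = 0 ∧ n = 0 ∧ w = w' := by
  have e1 := congrArg Prod.fst h
  have e2 := congrArg Prod.snd h
  unfold code gam at e1 e2
  simp only [Prod.fst_add, Prod.snd_add] at e1 e2
  have a1 := vl_nonneg fun j : ℕ => w (j + 1)
  have a2 := vl_le fun j : ℕ => w (j + 1)
  have a3 := vl_nonneg fun j : ℕ => w (-j)
  have a4 := vl_le fun j : ℕ => w (-j)
  have b1 := vl_nonneg fun j : ℕ => w' (j + 1)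
  have b2 := vl_le fun j : ℕ => w' (j + 1)
  have b3 := vl_nonneg fun j : ℕ => w' (-j)
  have b4 := vl_le fun j : ℕ => w' (-j)
  have l1 := lami_bounds
  have l2 := lam_bounds
  have hn : n = 0 := by
    have h1 : (n : ℝ) * (lam - lami) = lami * vl (fun j : ℕ => w (j + 1)) -
        lami * vl (fun j : ℕ => w' (j + 1)) + (vl (fun j : ℕ => w (-j)) -
        vl (fun j : ℕ => w' (-j))) := by linear_combination -e1 - e2
    have h2 : |(n : ℝ) * (lam - lami)| ≤ 1.5 := by
      rw [h1, abs_le]
      constructor <;> nlinarith
    rw [abs_mul, abs_of_pos (by linarith : 0 < lam - lami)] at h2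
    have h3 : |(n : ℝ)| < 1 := by nlinarith [abs_nonneg (n : ℝ)]
    have h4 : |n| < 1 := by exact_mod_cast h3
    exact Int.abs_lt_one_iff.1 h4
  subst hn
  have hm : m = 0 := by
    have h2 : |(m : ℝ)| < 1 := by
      have : (m : ℝ) = lami * vl (fun j : ℕ => w (j + 1)) -
        lami * vl (fun j : ℕ => w' (j + 1)) := by
        push_cast at e1
        linear_combination -e1
      rw [this, abs_lt]
      constructor <;> nlinarith
    have h4 : |m| < 1 := by exact_mod_cast h2
    exact Int.abs_lt_one_iff.1 h4
  subst hm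
  refine ⟨rfl, rfl, ?_⟩
  have f1 : vl (fun j : ℕ => w (j + 1)) = vl (fun j : ℕ => w' (j + 1)) := by
    apply mul_left_cancel₀ lami_ne
    push_cast at e1
    linear_combination e1
  have f2 : vl (fun j : ℕ => w (-j)) = vl (fun j : ℕ => w' (-j)) := by
    push_cast at e2
    linear_combination e2
  have g1 := vl_injective f1
  have g2 := vl_injective f2
  funext k
  rcases le_or_gt k 0 with hk | hk
  · have := congrFun g2 k.natAbs
    rwa [show -(k.natAbs : ℤ) = k by omega] at this
  · have := congrFun g1 (k.natAbs - 1)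
    rwa [show ((k.natAbs - 1 : ℕ) : ℤ) + 1 = k by omega] at this

end Pool.Agent.H57.Cen
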