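import Pool.Agent.H57.Cen.Pack

/-!
# Conclusion
-/

namespace Pool.Agent.H57.Cen

open Filter Topology Set

/-- conjugation by the standard coordinates -/
noncomputable def cj (A : V →L[ℝ] V) : TEnd 6 :=
  (Th6 : V →L[ℝ] (Fin 6 → ℝ)).comp (A.comp (Th6.symm : (Fin 6 → ℝ) →L[ℝ] V))

lemma cj_apply (A : V →L[ℝ] V) (y : Fin 6 → ℝ) : cj A y = Th6 (A (Th6.symm y)) := rfl

lemma cj_mul (A B : V →L[ℝ] V) : cj (A * B) = cj A * cj B := by
  refine ContinuousLinearMap.ext fun y => ?_
  rw [mul_apply_eq_comp, cj_apply, cj_apply, cj_apply, Th6.symm_apply_apply]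
  rfl

lemma cj_one : cj 1 = 1 := by
  refine ContinuousLinearMap.ext fun y => ?_
  rw [cj_apply]
  exact Th6.apply_symm_apply y

lemma continuous_cj : Continuous cj := by
  unfold cj
  exact continuous_const.clm_comp (continuous_id.clm_comp continuous_const)

lemma iter_conj (G : V → V) (m : ℕ) (y : Fin 6 → ℝ) :
    (fun y => Th6 (G (Th6.symm y)))^[m] y = Th6 (G^[m] (Th6.symm y)) := by
  induction m generalizing y with
  | zero => exact (Th6.apply_symm_apply y).symm
  | succ m ih => rw [Function.iterate_succ_apply, ih, Th6.symm_apply_apply]; rfl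

lemma TD_D (b : Bool) (m : ℕ) (x : Fin 6 → ℝ) :
    (TD b).D m x = cj (Dit (GG b) (DG b) m (Th6.symm x)) := by
  have h1 : (TD b).lift^[m] = fun y => Th6 ((GG b)^[m] (Th6.symm y)) := by
    funext y
    exact iter_conj (GG b) m y
  unfold TorusDiffeo.D
  rw [h1]
  have h2 := hasFDerivAt_iter (hasFDerivAt_GG b) m (Th6.symm x)
  have h3 : HasFDerivAt (fun y => (GG b)^[m] (Th6.symm y))
      ((Dit (GG b) (DG b) m (Th6.symm x)).comp (Th6.symm : (Fin 6 → ℝ) →L[ℝ] V)) x :=
    HasFDerivAt.comp x h2 Th6.symm.hasFDerivAt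
  have h4 := HasFDerivAt.comp x Th6.hasFDerivAt h3
  exact h4.fderiv

lemma TD_Dinv (b : Bool) (m : ℕ) (x : Fin 6 → ℝ) :
    (TD b).Dinv m x = cj (Dit (GG b).symm (DGi b) m (Th6.symm x)) := by
  have h1 : (TD b).liftInv^[m] = fun y => Th6 ((GG b).symm^[m] (Th6.symm y)) := by
    funext y
    exact iter_conj (GG b).symm m y
  unfold TorusDiffeo.Dinv
  rw [h1]
  have h2 := hasFDerivAt_iter (hasFDerivAt_GG_symm b) m (Th6.symm x)
  have h3 : HasFDerivAt (fun y => (GG b).symm^[m] (Th6.symm y))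
      ((Dit (GG b).symm (DGi b) m (Th6.symm x)).comp (Th6.symm : (Fin 6 → ℝ) →L[ℝ] V)) x :=
    HasFDerivAt.comp x h2 Th6.symm.hasFDerivAt
  have h4 := HasFDerivAt.comp x Th6.hasFDerivAt h3
  exact h4.fderiv

lemma TD_D_one (b : Bool) (x : Fin 6 → ℝ) : (TD b).D 1 x = cj (DG b (Th6.symm x)) := by
  rw [TD_D]
  congr 1

/-- norm constants -/
noncomputable def k1 : ℝ := ‖(Th6 : V →L[ℝ] (Fin 6 → ℝ))‖ + 1
/-- norm constants -/
noncomputable def k2 : ℝ := ‖(Th6.symm : (Fin 6 → ℝ) →L[ℝ] V)‖ + 1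

lemma k1_pos : 0 < k1 := by unfold k1; positivity
lemma k2_pos : 0 < k2 := by unfold k2; positivity

lemma Th6_le (v : V) : ‖Th6 v‖ ≤ k1 * ‖v‖ := by
  have h := ContinuousLinearMap.le_opNorm (Th6 : V →L[ℝ] (Fin 6 → ℝ)) v
  have h2 := norm_nonneg v
  unfold k1
  refine h.trans ?_
  nlinarith

lemma Th6s_le (y : Fin 6 → ℝ) : ‖Th6.symm y‖ ≤ k2 * ‖y‖ := by
  have h := ContinuousLinearMap.le_opNorm (Th6.symm : (Fin 6 → ℝ) →L[ℝ] V) y
  have h2 := norm_nonneg y
  unfold k2
  refine h.trans ?_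
  nlinarith

/-! ### The map number `true` is Anosov -/

/-- stable projection in standard coordinates -/
noncomputable def Qs (x : Fin 6 → ℝ) : TEnd 6 := cj (Pst (Th6.symm x))

lemma Qs_per (x : Fin 6 → ℝ) (k : Fin 6 → ℤ) : Qs (x + zv k) = Qs x := by
  unfold Qs
  rw [map_add, Th6_symm_zv, Pst_add_Gm]

lemma continuous_Qs : Continuous Qs :=
  continuous_cj.comp (continuous_Pst.comp Th6.symm.continuous)

lemma Qs_idem (x : Fin 6 → ℝ) : Qs x * Qs x = Qs x := by
  unfold Qs
  rw [← cj_mul, Pst_idem]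

lemma Qs_inv (x : Fin 6 → ℝ) :
    (TD true).D 1 x * Qs x = Qs ((TD true).lift x) * (TD true).D 1 x := by
  rw [TD_D_one]
  unfold Qs
  have e : Th6.symm ((TD true).lift x) = GG true (Th6.symm x) := Th6.symm_apply_apply _
  rw [e, ← cj_mul, ← cj_mul, DG_Pst]

theorem TD_anosov : IsAnosov (TD true) := by
  refine ⟨![desc Qs, fun θ => 1 - desc Qs θ], ⟨?_, ?_, ?_, ?_⟩, k1 * k2, 1 / 5,
    mul_pos k1_pos k2_pos, by norm_num, by norm_num, ?_⟩
  · intro i
    have h := continuous_desc Qs_per continuous_Qs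
    fin_cases i
    · exact h
    · exact continuous_const.sub h
  · intro θ
    rw [Fin.sum_univ_two]
    simp
  · intro θ i j
    obtain ⟨x, rfl⟩ := cov_surjective θ
    have h := Qs_idem x
    have e := desc_cov Qs_per x
    fin_cases i <;> fin_cases j
    · simp [e, h]
    · simp [e, mul_sub, h]
    · simp [e, sub_mul, h]
    · simp [e, sub_mul, mul_sub, h]
  · intro i x
    have h := Qs_inv x
    have e := desc_cov Qs_per x
    have e' := desc_cov Qs_per ((TD true).lift x)
    fin_cases i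
    · simp only [Fin.zero_eta, Matrix.cons_val_zero]
      rw [e, e', h]
    · simp only [Fin.mk_one, Matrix.cons_val_one, Matrix.cons_val_fin_one]
      rw [e, e', mul_sub, sub_mul, h, mul_one, one_mul]
  · intro m x v hv
    have e := desc_cov Qs_per x
    have hn : ‖Th6.symm v‖ ≤ k2 := by
      have := Th6s_le v
      rwa [hv, mul_one] at this
    have hk1 := k1_pos
    have hk2 := k2_pos
    constructor
    · intro h
      simp only [Matrix.cons_val_zero] at h
      rw [e] at h
      have h1 : Pst (Th6.symm x) (Th6.symm v) = Th6.symm v := by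
        have := congrArg Th6.symm h
        rw [Qs, cj_apply, Th6.symm_apply_apply] at this
        exact this
      rw [TD_D, cj_apply]
      refine (Th6_le _).trans ?_
      have h2 := stable_bound m h1
      calc k1 * ‖Dit (GG true) (DG true) m (Th6.symm x) (Th6.symm v)‖
          ≤ k1 * ((1 / 5) ^ m * ‖Th6.symm v‖) := by gcongr
        _ ≤ k1 * ((1 / 5) ^ m * k2) := by gcongr
        _ = k1 * k2 * (1 / 5) ^ m := by ring
    · intro h
      simp only [Matrix.cons_val_one, Matrix.cons_val_fin_one] at h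
      rw [e] at h
      have h0 : Qs x v = 0 := by
        rw [sub_apply, one_apply_eq_self] at h
        have := sub_eq_self.1 h
        exact this
      have h1 : pr (Th6.symm v) = 0 := by
        have := congrArg Th6.symm h0
        rw [Qs, cj_apply, Th6.symm_apply_apply, map_zero] at this
        have h2 := congrArg pr this
        rw [Pst_apply, pr_jg, map_zero] at h2
        exact h2
      rw [TD_Dinv, cj_apply]
      refine (Th6_le _).trans ?_
      have h2 := unstable_bound m (p := Th6.symm x) h1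
      calc k1 * ‖Dit (GG true).symm (DGi true) m (Th6.symm x) (Th6.symm v)‖
          ≤ k1 * ((1 / 5) ^ m * ‖Th6.symm v‖) := by gcongr
        _ ≤ k1 * ((1 / 5) ^ m * k2) := by gcongr
        _ = k1 * k2 * (1 / 5) ^ m := by ring

end Pool.Agent.H57.Cen
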