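import Pool.Agent.H57.Cen.Concl

/-!
# The map number `false` does not satisfy the definition
-/

namespace Pool.Agent.H57.Cen

open Filter Topology Set

/-- conjugation back -/
noncomputable def cji (A : TEnd 6) : V →L[ℝ] V :=
  (Th6.symm : (Fin 6 → ℝ) →L[ℝ] V).comp (A.comp (Th6 : V →L[ℝ] (Fin 6 → ℝ)))

lemma cji_apply (A : TEnd 6) (v : V) : cji A v = Th6.symm (A (Th6 v)) := rfl

lemma cji_mul (A B : TEnd 6) : cji (A * B) = cji A * cji B := by
  refine ContinuousLinearMap.ext fun y => ?_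
  rw [mul_apply_eq_comp, cji_apply, cji_apply, cji_apply, Th6.apply_symm_apply]
  rfl

lemma cji_one : cji 1 = 1 := by
  refine ContinuousLinearMap.ext fun y => ?_
  rw [cji_apply]
  exact Th6.symm_apply_apply y

lemma cji_add (A B : TEnd 6) : cji (A + B) = cji A + cji B := by
  refine ContinuousLinearMap.ext fun y => ?_
  rw [add_apply, cji_apply, cji_apply, cji_apply, add_apply, map_add]

lemma cji_cj (A : V →L[ℝ] V) : cji (cj A) = A := by
  refine ContinuousLinearMap.ext fun y => ?_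
  rw [cji_apply, cj_apply, Th6.symm_apply_apply, Th6.symm_apply_apply]

lemma continuous_cji : Continuous cji := by
  unfold cji
  exact continuous_const.clm_comp (continuous_id.clm_comp continuous_const)

lemma cji_eq_zero {A : TEnd 6} (h : cji A = 0) : A = 0 := by
  refine ContinuousLinearMap.ext fun y => ?_
  have h1 := congrArg (fun f => f (Th6.symm y)) h
  have h2 : Th6.symm (A y) = 0 := by
    have h3 : cji A (Th6.symm y) = Th6.symm (A y) := by
      rw [cji_apply, Th6.apply_symm_apply]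
    rw [← h3]; exact h1
  have h4 := congrArg Th6 h2
  rw [Th6.apply_symm_apply, map_zero] at h4
  exact h4

/-- the homogeneous form of an estimate on unit vectors -/
lemma homog {A B : TEnd 6} {c : ℝ} {P : (Fin 6 → ℝ) → Prop} (hP : ∀ (a : ℝ) v, P v → P (a • v))
    {R : (Fin 6 → ℝ) → Prop} (hR : ∀ (a : ℝ) v, R v → R (a • v))
    (h : ∀ v w, ‖v‖ = 1 → ‖w‖ = 1 → P v → R w → ‖A v‖ ≤ c * ‖B w‖) {v w : Fin 6 → ℝ}
    (hv : P v) (hw : R w) : ‖A v‖ * ‖w‖ ≤ c * ‖B w‖ * ‖v‖ := by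
  by_cases h1 : v = 0
  · rw [h1]; simp
  by_cases h2 : w = 0
  · rw [h2]; simp
  have n1 : 0 < ‖v‖ := norm_pos_iff.2 h1
  have n2 : 0 < ‖w‖ := norm_pos_iff.2 h2
  have a1 : ‖‖v‖⁻¹ • v‖ = 1 := by
    rw [norm_smul, norm_inv, norm_norm, inv_mul_cancel₀ n1.ne']
  have a2 : ‖‖w‖⁻¹ • w‖ = 1 := by
    rw [norm_smul, norm_inv, norm_norm, inv_mul_cancel₀ n2.ne']
  have h3 := h _ _ a1 a2 (hP _ _ hv) (hR _ _ hw)
  rw [map_smul, map_smul, norm_smul, norm_smul, norm_inv, norm_inv, norm_norm, norm_norm] at h3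
  calc ‖A v‖ * ‖w‖ = (‖v‖⁻¹ * ‖A v‖) * (‖v‖ * ‖w‖) := by field_simp
    _ ≤ (c * (‖w‖⁻¹ * ‖B w‖)) * (‖v‖ * ‖w‖) := by gcongr
    _ = c * ‖B w‖ * ‖v‖ := by field_simp

lemma homog1 {A : TEnd 6} {c : ℝ} {P : (Fin 6 → ℝ) → Prop} (hP : ∀ (a : ℝ) v, P v → P (a • v))
    (h : ∀ v, ‖v‖ = 1 → P v → ‖A v‖ ≤ c) {v : Fin 6 → ℝ} (hv : P v) : ‖A v‖ ≤ c * ‖v‖ := by
  by_cases h1 : v = 0
  · rw [h1]; simp
  have n1 : 0 < ‖v‖ := norm_pos_iff.2 h1
  have a1 : ‖‖v‖⁻¹ • v‖ = 1 := by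
    rw [norm_smul, norm_inv, norm_norm, inv_mul_cancel₀ n1.ne']
  have h3 := h _ a1 (hP _ _ hv)
  rw [map_smul, norm_smul, norm_inv, norm_norm] at h3
  calc ‖A v‖ = (‖v‖⁻¹ * ‖A v‖) * ‖v‖ := by field_simp
    _ ≤ c * ‖v‖ := by gcongr

theorem TD_not_ph : ¬ IsPartiallyHyperbolic (TD false) := by
  rintro ⟨P, ⟨hcont, hsum, hproj, hinv⟩, hne, C, r, hC, hr0, hr1, hb⟩
  set Q : Fin 3 → V → V →L[ℝ] V := fun i v => cji (P i (cov 6 (Th6 v))) with hQ
  have hQc : ∀ i, Continuous (Q i) := fun i =>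
    continuous_cji.comp ((hcont i).comp (cov_open.continuous.comp Th6.continuous))
  have hQsum : ∀ p, Q 0 p + Q 1 p + Q 2 p = 1 := by
    intro p
    have h := hsum (cov 6 (Th6 p))
    rw [Fin.sum_univ_three] at h
    simp only [hQ]
    rw [← cji_add, ← cji_add, h, cji_one]
  have hQi : ∀ i p, Q i p * Q i p = Q i p := by
    intro i p
    simp only [hQ]
    rw [← cji_mul, hproj, if_pos rfl]
  have hQinv : ∀ i p, DG false p * Q i p = Q i (GG false p) * DG false p := by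
    intro i p
    have h := hinv i (Th6 p)
    rw [TD_D_one, Th6.symm_apply_apply] at h
    have e : (TD false).lift (Th6 p) = Th6 (GG false p) := by
      change Th6 (GG false (Th6.symm (Th6 p))) = _
      rw [Th6.symm_apply_apply]
    rw [e] at h
    have h2 := congrArg cji h
    rw [cji_mul, cji_mul, cji_cj] at h2
    exact h2
  have hfix : ∀ i p h, Q i p h = h → P i (cov 6 (Th6 p)) (Th6 h) = Th6 h := by
    intro i p h hh
    have h2 := congrArg Th6 hh
    simp only [hQ] at h2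
    rw [cji_apply, Th6.apply_symm_apply] at h2
    exact h2
  have hhom : ∀ i x (a : ℝ) v, P i x v = v → P i x (a • v) = a • v := by
    intro i x a v h
    rw [map_smul, h]
  have hk1 := k1_pos
  have hk2 := k2_pos
  set K := C * (k1 * k2 * (k1 * k2) + k1 * k2) with hK
  have hK0 : 0 ≤ K := by positivity
  have hD : ∀ m p (h : V), ‖Df m p h‖ ≤ k2 * ‖(TD false).D m (Th6 p) (Th6 h)‖ := by
    intro m p h
    rw [TD_D, cj_apply, Th6.symm_apply_apply, Th6.symm_apply_apply]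
    have := Th6s_le (Th6 (Dit (GG false) (DG false) m p h))
    rwa [Th6.symm_apply_apply] at this
  have hDi : ∀ m p (h : V), ‖Db m p h‖ ≤ k2 * ‖(TD false).Dinv m (Th6 p) (Th6 h)‖ := by
    intro m p h
    rw [TD_Dinv, cj_apply, Th6.symm_apply_apply, Th6.symm_apply_apply]
    have := Th6s_le (Th6 (Dit (GG false).symm (DGi false) m p h))
    rwa [Th6.symm_apply_apply] at this
  have hD' : ∀ m p (h : V), ‖(TD false).D m (Th6 p) (Th6 h)‖ ≤ k1 * ‖Df m p h‖ := by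
    intro m p h
    rw [TD_D, cj_apply, Th6.symm_apply_apply, Th6.symm_apply_apply]
    exact Th6_le _
  have hn : ∀ h : V, ‖h‖ ≤ k2 * ‖Th6 h‖ := by
    intro h
    have := Th6s_le (Th6 h)
    rwa [Th6.symm_apply_apply] at this
  have hrm : ∀ m : ℕ, 0 ≤ r ^ m := fun m => pow_nonneg hr0.le m
  have hone : ∀ (m : ℕ) (x y t : ℝ), 0 ≤ t → x ≤ k2 * y → y ≤ C * r ^ m * (k1 * t) →
      x ≤ K * r ^ m * t := by
    intro m x y t ht h1 h2
    have h3 := hrm m
    calc x ≤ k2 * (C * r ^ m * (k1 * t)) := h1.trans (by gcongr)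
      _ = C * (k1 * k2) * r ^ m * t := by ring
      _ ≤ K * r ^ m * t := by
        rw [hK]
        gcongr
        have : 0 ≤ k1 * k2 * (k1 * k2) := by positivity
        linarith
  have htwo : ∀ (m : ℕ) (i j : Fin 3) (p h k : V),
      (∀ v w, ‖v‖ = 1 → ‖w‖ = 1 → P i (cov 6 (Th6 p)) v = v → P j (cov 6 (Th6 p)) w = w →
        ‖(TD false).D m (Th6 p) v‖ ≤ C * r ^ m * ‖(TD false).D m (Th6 p) w‖) →
      Q i p h = h → Q j p k = k → ‖Df m p h‖ * ‖k‖ ≤ K * r ^ m * ‖Df m p k‖ * ‖h‖ := by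
    intro m i j p h k hyp hh hk
    have h1 := homog (hhom i (cov 6 (Th6 p))) (hhom j (cov 6 (Th6 p))) hyp
      (hfix i p h hh) (hfix j p k hk)
    have h3 := hrm m
    calc ‖Df m p h‖ * ‖k‖ ≤ (k2 * ‖(TD false).D m (Th6 p) (Th6 h)‖) * (k2 * ‖Th6 k‖) :=
          mul_le_mul (hD m p h) (hn k) (norm_nonneg _) (by positivity)
      _ = k2 * k2 * (‖(TD false).D m (Th6 p) (Th6 h)‖ * ‖Th6 k‖) := by ring
      _ ≤ k2 * k2 * (C * r ^ m * ‖(TD false).D m (Th6 p) (Th6 k)‖ * ‖Th6 h‖) := by gcongr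
      _ ≤ k2 * k2 * (C * r ^ m * (k1 * ‖Df m p k‖) * (k1 * ‖h‖)) := by
          have a1 := hD' m p k
          have a2 := Th6_le h
          gcongr
      _ = C * (k1 * k2 * (k1 * k2)) * r ^ m * ‖Df m p k‖ * ‖h‖ := by ring
      _ ≤ K * r ^ m * ‖Df m p k‖ * ‖h‖ := by
          rw [hK]
          gcongr
          have : 0 ≤ k1 * k2 := by positivity
          linarith
  have key := no_ph (Ps := Q 0) (Pc := Q 1) (Pu := Q 2) (hQc 0) (hQc 2) hQsum (hQi 0) (hQi 1)
    (hQi 2) (hQinv 0) (hQinv 1) hK0 hr0 hr1 ?_ ?_ ?_ ?_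
  · rcases hne with ⟨θ, h⟩ | ⟨θ, h⟩
    · apply h
      obtain ⟨x, rfl⟩ := cov_surjective θ
      have h2 := key.1 (Th6.symm x)
      simp only [hQ] at h2
      rw [Th6.apply_symm_apply] at h2
      exact cji_eq_zero h2
    · apply h
      obtain ⟨x, rfl⟩ := cov_surjective θ
      have h2 := key.2 (Th6.symm x)
      simp only [hQ] at h2
      rw [Th6.apply_symm_apply] at h2
      exact cji_eq_zero h2
  · intro m p h hh
    have h1 := homog1 (hhom 0 (cov 6 (Th6 p))) (hb m (Th6 p)).1 (hfix 0 p h hh)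
    refine hone m _ _ _ (norm_nonneg h) (hD m p h) (h1.trans ?_)
    have := Th6_le h
    have h3 := hrm m
    gcongr
  · intro m p h hh
    have h1 := homog1 (hhom 2 (cov 6 (Th6 p))) (hb m (Th6 p)).2.1 (hfix 2 p h hh)
    refine hone m _ _ _ (norm_nonneg h) (hDi m p h) (h1.trans ?_)
    have := Th6_le h
    have h3 := hrm m
    gcongr
  · intro m p h k hh hk
    exact htwo m 0 1 p h k (hb m (Th6 p)).2.2.1 hh hk
  · intro m p h k hh hk
    exact htwo m 1 2 p h k (hb m (Th6 p)).2.2.2 hh hk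

/-- The final statement. -/
theorem main : ∃ f g : TorusDiffeo 6, IsAnosov f ∧
    (∀ θ, g.toHomeo (f.toHomeo θ) = f.toHomeo (g.toHomeo θ)) ∧ 0 < g.entropy ∧
    ¬ IsPartiallyHyperbolic g :=
  ⟨TD true, TD false, TD_anosov, fun θ => (TD_comm θ).symm, TD_entropy, TD_not_ph⟩

end Pool.Agent.H57.Cen
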