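import Mathlib

/-!
# Diffeomorphisms of tori of class `C^1`

The notions used in the statement on centralizers of Anosov diffeomorphisms of tori.
-/

namespace Pool.Agent.H57.Cen

/-- The `n`-dimensional torus `ℝ^n / ℤ^n`. -/
abbrev Torus (n : ℕ) : Type := Fin n → UnitAddCircle

/-- The covering map `ℝ^n → ℝ^n / ℤ^n`. -/
def cov (n : ℕ) (x : Fin n → ℝ) : Torus n := fun i => (x i : UnitAddCircle)

/-- Linear endomorphisms of `ℝ^n`, the tangent space of the torus at each of its points. -/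
abbrev TEnd (n : ℕ) : Type := (Fin n → ℝ) →L[ℝ] (Fin n → ℝ)

/-- A `C^1` diffeomorphism of the torus: a homeomorphism, together with lifts to `ℝ^n` of the
map and of its inverse, both of class `C^1`. -/
structure TorusDiffeo (n : ℕ) where
  /-- the homeomorphism of the torus -/
  toHomeo : Torus n ≃ₜ Torus n
  /-- a lift of the homeomorphism -/
  lift : (Fin n → ℝ) → (Fin n → ℝ)
  /-- a lift of the inverse homeomorphism -/
  liftInv : (Fin n → ℝ) → (Fin n → ℝ)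
  contDiff_lift : ContDiff ℝ 1 lift
  contDiff_liftInv : ContDiff ℝ 1 liftInv
  cov_lift : ∀ x, cov n (lift x) = toHomeo (cov n x)
  cov_liftInv : ∀ x, cov n (liftInv x) = toHomeo.symm (cov n x)

/-- The differential of `g^m`, for `m ≥ 0`, at the point of the torus covered by `x`. -/
noncomputable def TorusDiffeo.D {n : ℕ} (g : TorusDiffeo n) (m : ℕ) (x : Fin n → ℝ) : TEnd n :=
  fderiv ℝ (g.lift^[m]) x

/-- The differential of `g^(-m)`, for `m ≥ 0`, at the point of the torus covered by `x`. -/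
noncomputable def TorusDiffeo.Dinv {n : ℕ} (g : TorusDiffeo n) (m : ℕ) (x : Fin n → ℝ) : TEnd n :=
  fderiv ℝ (g.liftInv^[m]) x

/-- `P` is the family of projections of a continuous `Dg`-invariant splitting of the tangent
bundle. The bundle number `i` of the splitting has fibre `{v | P i θ v = v}` at the point `θ`. -/
def IsInvariantSplitting {n k : ℕ} (g : TorusDiffeo n) (P : Fin k → Torus n → TEnd n) : Prop :=
  (∀ i, Continuous (P i)) ∧ (∀ θ, ∑ i, P i θ = 1) ∧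
    (∀ θ i j, P i θ * P j θ = if i = j then P i θ else 0) ∧
    (∀ i x, g.D 1 x * P i (cov n x) = P i (cov n (g.lift x)) * g.D 1 x)

/-- `g` is an Anosov diffeomorphism: there are a continuous `Dg`-invariant splitting
`E^s ⊕ E^u` (numbers `0` and `1`) and constants `C > 0`, `0 < r < 1` such that `Dg^m` contracts
`E^s` and `Dg^(-m)` contracts `E^u` at the rate `C r^m`. -/
def IsAnosov {n : ℕ} (g : TorusDiffeo n) : Prop :=
  ∃ P : Fin 2 → Torus n → TEnd n, IsInvariantSplitting g P ∧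
    ∃ C r : ℝ, 0 < C ∧ 0 < r ∧ r < 1 ∧ ∀ (m : ℕ) (x v : Fin n → ℝ), ‖v‖ = 1 →
      (P 0 (cov n x) v = v → ‖g.D m x v‖ ≤ C * r ^ m) ∧
      (P 1 (cov n x) v = v → ‖g.Dinv m x v‖ ≤ C * r ^ m)

/-- `g` is a weakly (relative to bundles) hyperbolic diffeomorphism in the sense of the problem:
there are a continuous `Dg`-invariant splitting `E^s ⊕ E^c ⊕ E^u` (numbers `0`, `1`, `2`) with
`E^s` or `E^u` nonzero, and constants `C > 0`, `0 < r < 1`, such that for all `m ≥ 0`, all points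
and all unit vectors `v^s`, `v^c`, `v^u` of the three bundles,
`‖Dg^m v^s‖ ≤ C r^m`, `‖Dg^(-m) v^u‖ ≤ C r^m`, `‖Dg^m v^s‖ ≤ C r^m ‖Dg^m v^c‖` and
`‖Dg^m v^c‖ ≤ C r^m ‖Dg^m v^u‖`. -/
def IsPartiallyHyperbolic {n : ℕ} (g : TorusDiffeo n) : Prop :=
  ∃ P : Fin 3 → Torus n → TEnd n, IsInvariantSplitting g P ∧
    ((∃ θ, P 0 θ ≠ 0) ∨ ∃ θ, P 2 θ ≠ 0) ∧
    ∃ C r : ℝ, 0 < C ∧ 0 < r ∧ r < 1 ∧ ∀ (m : ℕ) (x : Fin n → ℝ),
      (∀ v, ‖v‖ = 1 → P 0 (cov n x) v = v → ‖g.D m x v‖ ≤ C * r ^ m) ∧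
      (∀ v, ‖v‖ = 1 → P 2 (cov n x) v = v → ‖g.Dinv m x v‖ ≤ C * r ^ m) ∧
      (∀ v w, ‖v‖ = 1 → ‖w‖ = 1 → P 0 (cov n x) v = v → P 1 (cov n x) w = w →
        ‖g.D m x v‖ ≤ C * r ^ m * ‖g.D m x w‖) ∧
      (∀ v w, ‖v‖ = 1 → ‖w‖ = 1 → P 1 (cov n x) v = v → P 2 (cov n x) w = w →
        ‖g.D m x v‖ ≤ C * r ^ m * ‖g.D m x w‖)

/-- The topological entropy of `g`. -/
noncomputable def TorusDiffeo.entropy {n : ℕ} (g : TorusDiffeo n) : EReal :=
  Dynamics.coverEntropy g.toHomeo Set.univ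

end Pool.Agent.H57.Cen
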