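import Pool.Agent.H57.Cen.Bij

/-!
# The derivative of the twisting map
-/

namespace Pool.Agent.H57.Cen

open Filter Topology Set

/-- inclusion of the twisted factor -/
noncomputable def ia : E →L[ℝ] V :=
  (ContinuousLinearMap.inr ℝ (ℝ × ℝ) (E × E)).comp (ContinuousLinearMap.inl ℝ E E)
/-- projection to the twisted factor -/
noncomputable def pa : V →L[ℝ] E :=
  (ContinuousLinearMap.fst ℝ E E).comp (ContinuousLinearMap.snd ℝ (ℝ × ℝ) (E × E))

lemma ia_apply (e : E) : ia e = ((0, (e, 0)) : V) := rfl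
lemma pa_apply (v : V) : pa v = v.2.1 := rfl

lemma ia_norm (e : E) : ‖ia e‖ = ‖e‖ := by
  rw [ia_apply, Prod.norm_def, Prod.norm_def]; simp

lemma pa_norm_le (v : V) : ‖pa v‖ ≤ ‖v‖ := (norm_fst_le v.2).trans (norm_snd_le v)

/-- block diagonal maps -/
noncomputable def MM (m : E →L[ℝ] E) : V →L[ℝ] V := 1 + ia.comp ((m - 1).comp pa)

lemma MM_apply (m : E →L[ℝ] E) (v : V) : MM m v = (v.1, (m v.2.1, v.2.2)) := by
  unfold MM
  simp only [add_apply, ContinuousLinearMap.comp_apply,
    sub_apply, one_apply_eq_self, pa_apply, ia_apply]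
  refine Prod.ext ?_ (Prod.ext ?_ ?_)
  · simp
  · simp
  · simp

lemma MM_mul (m m' : E →L[ℝ] E) : MM m * MM m' = MM (m * m') := by
  refine ContinuousLinearMap.ext fun v => ?_
  rw [mul_apply_eq_comp, MM_apply, MM_apply, MM_apply]
  rfl

lemma MM_one : MM 1 = 1 := by
  refine ContinuousLinearMap.ext fun v => ?_
  rw [MM_apply]; rfl

lemma MM_norm_le {m : E →L[ℝ] E} {C : ℝ} (h : ‖m‖ ≤ C) (h1 : 1 ≤ C) : ‖MM m‖ ≤ C := by
  apply ContinuousLinearMap.opNorm_le_bound _ (by linarith)
  intro v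
  have hv := norm_nonneg v
  have a1 := norm_fst_le v
  have a2 := norm_snd_le v
  have a3 := (norm_fst_le v.2).trans a2
  have a4 := (norm_snd_le v.2).trans a2
  rw [MM_apply]
  have b1 : ‖v.1‖ ≤ C * ‖v‖ := by nlinarith
  have b2 : ‖m v.2.1‖ ≤ C * ‖v‖ := by
    refine (ContinuousLinearMap.le_opNorm _ _).trans ?_
    exact mul_le_mul h a3 (norm_nonneg _) (by linarith)
  have b3 : ‖v.2.2‖ ≤ C * ‖v‖ := by nlinarith
  exact max_le b1 (max_le b2 b3)

/-- differential of `q` -/
noncomputable def dq (v : V) : V →L[ℝ] ℝ :=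
  (2 * Phi v.1) • (fderiv ℝ Phi v.1).comp (ContinuousLinearMap.fst ℝ (ℝ × ℝ) (E × E)) +
    (dQ0 (u v.2)).comp (ContinuousLinearMap.snd ℝ (ℝ × ℝ) (E × E))

/-- differential of the time -/
noncomputable def dtt (v : V) : V →L[ℝ] ℝ := (-((kap (tt v))⁻¹ * (q v)⁻¹)) • dq v

/-- derivative of the displacement with respect to the time -/
noncomputable def cc (v : V) : E := Mdf (tt v) (Jx v.1) (u v.2).1

/-- rank one part -/
noncomputable def R (v : V) : V →L[ℝ] V := (dtt v).smulRight (ia (cc v))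

/-- the derivative -/
noncomputable def DH (v : V) : V →L[ℝ] V := MM (M v) + R v

lemma continuousAt_tt {v : V} (h : q v ≠ 0) : ContinuousAt tt v := by
  unfold tt
  exact continuous_psi.continuousAt.comp ((continuous_q.continuousAt.log h).neg)

lemma Q_le_q (v : V) : Q v.2 ≤ q v := by unfold q; have := sq_nonneg (Phi v.1); linarith

/-- local form -/
structure Loc (v : V) : Prop where
  hu : ∀ᶠ v' in 𝓝 v, u v'.2 = v'.2 - lw v.2
  hM : ∀ᶠ v' in 𝓝 v, M v' = Mf (tt v') (Jx v.1)
  hMd : ∀ᶠ v' in 𝓝 v, Mdf (tt v') (Jx v'.1) = Mdf (tt v') (Jx v.1)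

lemma loc {v : V} (h : q v ≠ 0) (ht : -1 ≤ tt v) : Loc v := by
  have h1 := q_lt_of_le h ht
  have h2 := Q_le_q v
  have hQ : Q v.2 < 1 / 16 := by
    have : (1 : ℝ) / 10 ^ 14 < 1 / 16 := by norm_num
    linarith
  have hev : ∀ᶠ v' in 𝓝 v, tt v' ≤ ((⌈tt v⌉₊ + 1 : ℕ) : ℝ) :=
    (continuousAt_tt h).eventually (eventually_le_ceil (tt v))
  have hJ : ∀ᶠ v' : V in 𝓝 v, Cg (⌈tt v⌉₊ + 4) (Jx v'.1) (Jx v.1) :=
    (continuous_fst.tendsto v).eventually (del_spec _ _ (Phi_lt_del h ht)).1
  refine ⟨(continuous_snd.tendsto v).eventually (eventually_u hQ), ?_, ?_⟩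
  · filter_upwards [hev, hJ] with v' a1 a2
    exact Mf_congr a1 (a2.mono (by omega))
  · filter_upwards [hev, hJ] with v' a1 a2
    exact Mdf_congr a1 (a2.mono (by omega))

lemma hasFDerivAt_q {v : V} (hl : Loc v) : HasFDerivAt q (dq v) v := by
  have h1 : HasFDerivAt (fun v' : V => Phi v'.1 ^ 2 + Q0 (v'.2 - lw v.2)) (dq v) v := by
    have a1 : HasFDerivAt (fun v' : V => Phi v'.1)
        ((fderiv ℝ Phi v.1).comp (ContinuousLinearMap.fst ℝ (ℝ × ℝ) (E × E))) v :=
      ((exists_Phi_deriv.1.differentiable (by norm_num) v.1).hasFDerivAt).comp v hasFDerivAt_fst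
    have a2 : HasFDerivAt (fun v' : V => v'.2 - lw v.2)
        (ContinuousLinearMap.snd ℝ (ℝ × ℝ) (E × E)) v := hasFDerivAt_snd.sub_const _
    have a3 : HasFDerivAt (fun v' : V => Q0 (v'.2 - lw v.2))
        ((dQ0 (v.2 - lw v.2)).comp (ContinuousLinearMap.snd ℝ (ℝ × ℝ) (E × E))) v := by
      have h := HasFDerivAt.comp v (hasFDerivAt_Q0 (v.2 - lw v.2)) a2
      exact h
    have a4 := (a1.pow 2).add a3
    refine a4.congr_fderiv ?_
    unfold dq u
    refine ContinuousLinearMap.ext fun h => ?_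
    simp
  refine h1.congr_of_eventuallyEq ?_
  filter_upwards [hl.hu] with v' h'
  unfold q Q
  rw [h']

lemma hasFDerivAt_tt {v : V} (h : q v ≠ 0) (hl : Loc v) : HasFDerivAt tt (dtt v) v := by
  have h1 : HasFDerivAt (fun v => -Real.log (q v)) (-((q v)⁻¹ • dq v)) v :=
    ((hasFDerivAt_q hl).log h).neg
  have h2 := (hasDerivAt_psi (-Real.log (q v))).comp_hasFDerivAt v h1
  refine h2.congr_fderiv ?_
  unfold dtt tt
  rw [smul_neg, smul_smul]
  exact (neg_smul _ _).symm

lemma Hf_eq (v : V) : Hf v = v + ia (eta v) := by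
  unfold Hf
  rw [ia_apply]
  refine Prod.ext ?_ (Prod.ext ?_ ?_) <;> simp

lemma hasFDerivAt_Hf_of_loc {v : V} (h : q v ≠ 0) (hl : Loc v) : HasFDerivAt Hf (DH v) v := by
  set z := Jx v.1 with hz
  set g := (lw v.2).1 with hg
  have h1 := hasFDerivAt_tt h hl
  have h2 : HasFDerivAt (fun v' => Mf (tt v') z - 1)
      ((dtt v).smulRight (Mdf (tt v) z)) v := by
    have h := HasFDerivAt.comp v (hasDerivAt_Mf (tt v) z).hasFDerivAt h1
    have h' := h.sub_const 1
    refine h'.congr_fderiv ?_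
    refine ContinuousLinearMap.ext fun y => ?_
    simp
  have h3 : HasFDerivAt (fun v' : V => pa v' - g) pa v := pa.hasFDerivAt.sub_const _
  have h4 := h2.clm_apply h3
  have h5 : HasFDerivAt (fun v' : V => v' + ia ((Mf (tt v') z - 1) (pa v' - g)))
      (ContinuousLinearMap.id ℝ V + ia.comp ((Mf (tt v) z - 1).comp pa +
        ((dtt v).smulRight (Mdf (tt v) z)).flip (pa v - g))) v :=
    (hasFDerivAt_id v).add (ia.hasFDerivAt.comp v h4)
  have h6 : ContinuousLinearMap.id ℝ V + ia.comp ((Mf (tt v) z - 1).comp pa +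
        ((dtt v).smulRight (Mdf (tt v) z)).flip (pa v - g)) = DH v := by
    unfold DH MM R
    have e1 : M v = Mf (tt v) z := rfl
    have e2 : pa v - g = (u v.2).1 := rfl
    rw [e1, e2]
    refine ContinuousLinearMap.ext fun h => ?_
    simp only [add_apply, ContinuousLinearMap.comp_apply,
      ContinuousLinearMap.flip_apply, ContinuousLinearMap.smulRight_apply, map_add, map_smul,
      smul_apply, ContinuousLinearMap.id_apply, one_apply_eq_self]
    unfold cc
    rw [← hz]
    abel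
  rw [h6] at h5
  refine h5.congr_of_eventuallyEq ?_
  filter_upwards [hl.hu, hl.hM] with v' a1 a2
  rw [Hf_eq]
  unfold eta
  rw [a2, a1]
  rfl

lemma R_of_nonpos {v : V} (h : tt v ≤ 0) : R v = 0 := by
  unfold R cc
  rw [Mdf_of_nonpos h]
  refine ContinuousLinearMap.ext fun h' => ?_
  simp

lemma DH_of_nonpos {v : V} (h : tt v ≤ 0) : DH v = 1 := by
  unfold DH
  rw [R_of_nonpos h, M_of_nonpos h, MM_one, add_zero]

lemma hasFDerivAt_Hf {v : V} (h : q v ≠ 0) : HasFDerivAt Hf (DH v) v := by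
  rcases le_or_gt (-1) (tt v) with ht | ht
  · exact hasFDerivAt_Hf_of_loc h (loc h ht)
  · rw [DH_of_nonpos (by linarith)]
    have h1 : Hf =ᶠ[𝓝 v] fun v' => v' := by
      filter_upwards [(continuousAt_tt h).eventually (eventually_lt_nhds
        (show tt v < 0 by linarith))] with v' hv'
      exact Hf_of_nonpos hv'.le
    exact (hasFDerivAt_id v).congr_of_eventuallyEq h1

lemma continuousAt_DH {v : V} (h : q v ≠ 0) : ContinuousAt DH v := by
  rcases le_or_gt (-1) (tt v) with ht | ht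
  · have hl := loc h ht
    set z := Jx v.1 with hz
    have hc := continuousAt_tt h
    have e : DH =ᶠ[𝓝 v] fun v' => (1 + ia.comp ((Mf (tt v') z - 1).comp pa)) +
        ((-((kap (tt v'))⁻¹ * (q v')⁻¹)) • ((2 * Phi v'.1) • (fderiv ℝ Phi v'.1).comp
          (ContinuousLinearMap.fst ℝ (ℝ × ℝ) (E × E)) +
          (dQ0 (v'.2 - lw v.2)).comp (ContinuousLinearMap.snd ℝ (ℝ × ℝ) (E × E)))).smulRight
          (ia (Mdf (tt v') z (v'.2 - lw v.2).1)) := by
      filter_upwards [hl.hu, hl.hM, hl.hMd] with v' a1 a2 a3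
      unfold DH MM R cc dtt dq
      rw [a1, a2, a3]
    refine ContinuousAt.congr ?_ e.symm
    have b1 : ContinuousAt (fun v' => Mf (tt v') z) v :=
      (continuous_Mf z).continuousAt.comp hc
    have b2 : ContinuousAt (fun v' => Mdf (tt v') z) v :=
      (continuous_Mdf z).continuousAt.comp hc
    have b3 : ContinuousAt (fun v' => kap (tt v')) v := continuous_kap.continuousAt.comp hc
    have b4 : kap (tt v) ≠ 0 := by have := one_le_kap (tt v); linarith
    have b5 : ContinuousAt (fun v' => (kap (tt v'))⁻¹ * (q v')⁻¹) v :=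
      (b3.inv₀ b4).mul (continuous_q.continuousAt.inv₀ h)
    have b6 : Continuous (fderiv ℝ Phi) := exists_Phi_deriv.1.continuous_fderiv (by norm_num)
    have b7 : Continuous dQ0 := by unfold dQ0; fun_prop
    have b8 : ContinuousAt (fun v' : V => (2 * Phi v'.1) • (fderiv ℝ Phi v'.1).comp
          (ContinuousLinearMap.fst ℝ (ℝ × ℝ) (E × E)) +
          (dQ0 (v'.2 - lw v.2)).comp (ContinuousLinearMap.snd ℝ (ℝ × ℝ) (E × E))) v := by
      apply Continuous.continuousAt
      refine Continuous.add ?_ ?_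
      · exact (continuous_const.mul (continuous_Phi.comp continuous_fst)).smul
          ((b6.comp continuous_fst).clm_comp continuous_const)
      · exact (b7.comp (continuous_snd.sub continuous_const)).clm_comp continuous_const
    have b9 : ContinuousAt (fun v' : V => ia (Mdf (tt v') z (v'.2 - lw v.2).1)) v := by
      refine ia.continuous.continuousAt.comp (f := fun v' : V => Mdf (tt v') z (v'.2 - lw v.2).1) ?_
      exact b2.clm_apply (continuous_fst.comp (continuous_snd.sub continuous_const)).continuousAt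
    refine ContinuousAt.add ?_ ?_
    · refine continuousAt_const.add ?_
      exact continuousAt_const.clm_comp ((b1.sub continuousAt_const).clm_comp continuousAt_const)
    · have b10 := (b5.neg).smul b8
      have b11 : Continuous fun p : (V →L[ℝ] ℝ) × V => p.1.smulRight p.2 :=
        (ContinuousLinearMap.smulRightL ℝ V V).continuous₂
      exact ContinuousAt.comp (g := fun p : (V →L[ℝ] ℝ) × V => p.1.smulRight p.2)
        b11.continuousAt (b10.prodMk b9)
  · have e : DH =ᶠ[𝓝 v] fun _ => 1 := by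
      filter_upwards [(continuousAt_tt h).eventually (eventually_lt_nhds
        (show tt v < 0 by linarith))] with v' hv'
      exact DH_of_nonpos hv'.le
    exact continuousAt_const.congr e.symm

end Pool.Agent.H57.Cen
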