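import Pool.Agent.H57.Cen.Hom

/-!
# Bounds for the derivative of the twisting map
-/

namespace Pool.Agent.H57.Cen

open Filter Topology Set

lemma sqrt_q_facts (v : V) : 0 ≤ Real.sqrt (q v) ∧ Real.sqrt (q v) ^ 2 = q v ∧
    Phi v.1 ≤ Real.sqrt (q v) ∧ Real.sqrt (Q0 (u v.2)) ≤ Real.sqrt (q v) := by
  refine ⟨Real.sqrt_nonneg _, Real.sq_sqrt (q_nonneg v), ?_, ?_⟩
  · apply Real.le_sqrt_of_sq_le
    unfold q; have := Q_nonneg v.2; linarith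
  · apply Real.sqrt_le_sqrt
    have e : Q0 (u v.2) = Q v.2 := rfl
    rw [e]; exact Q_le_q v

lemma u_norm_le (v : V) : ‖u v.2‖ ≤ 200001 * Real.sqrt (q v) := by
  obtain ⟨h1, h2, h3, h4⟩ := sqrt_q_facts v
  refine (w_norm_le (u v.2)).trans ?_
  have h5 := mu_bounds.2
  have h6 := Real.sqrt_nonneg (Q0 (u v.2))
  nlinarith [mu_pos]

lemma dq_norm_le (v : V) : ‖dq v‖ ≤ 34 * CF * Real.sqrt (q v) := by
  obtain ⟨h1, h2, h3, h4⟩ := sqrt_q_facts v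
  have hC := one_le_CF
  have hP := Phi_nonneg v.1
  unfold dq
  have a1 : ‖(2 * Phi v.1) • (fderiv ℝ Phi v.1).comp (ContinuousLinearMap.fst ℝ (ℝ × ℝ) (E × E))‖ ≤
      2 * Real.sqrt (q v) * CF := by
    rw [norm_smul, Real.norm_of_nonneg (by positivity)]
    have b1 : ‖(fderiv ℝ Phi v.1).comp (ContinuousLinearMap.fst ℝ (ℝ × ℝ) (E × E))‖ ≤ CF := by
      refine (ContinuousLinearMap.opNorm_comp_le _ _).trans ?_
      have := dPhi_le v.1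
      have h := ContinuousLinearMap.norm_fst_le ℝ (ℝ × ℝ) (E × E)
      have h' := norm_nonneg (fderiv ℝ Phi v.1)
      have h'' := norm_nonneg (ContinuousLinearMap.fst ℝ (ℝ × ℝ) (E × E))
      nlinarith
    gcongr
  have a2 : ‖(dQ0 (u v.2)).comp (ContinuousLinearMap.snd ℝ (ℝ × ℝ) (E × E))‖ ≤
      32 * Real.sqrt (q v) := by
    refine (ContinuousLinearMap.opNorm_comp_le _ _).trans ?_
    have b1 := dQ0_norm_le (u v.2)
    have h := ContinuousLinearMap.norm_snd_le ℝ (ℝ × ℝ) (E × E)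
    have h' := norm_nonneg (dQ0 (u v.2))
    have h'' := norm_nonneg (ContinuousLinearMap.snd ℝ (ℝ × ℝ) (E × E))
    nlinarith
  refine (norm_add_le _ _).trans ?_
  nlinarith

lemma cc_norm_le (v : V) : ‖cc v‖ ≤ Kn ⌈tt v⌉₊ * (200001 * Real.sqrt (q v)) := by
  unfold cc
  refine (ContinuousLinearMap.le_opNorm _ _).trans ?_
  have h1 := Mdf_norm_le (Nat.le_ceil (tt v)) (Jx v.1)
  have h2 := (norm_fst_le (u v.2)).trans (u_norm_le v)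
  have := Kn_pos ⌈tt v⌉₊
  gcongr

lemma R_norm_le {v : V} (h : q v ≠ 0) : ‖R v‖ ≤ 1 / (10 ^ 50 * Kn (⌈tt v⌉₊ + 6) ^ 7) := by
  have hK1 : 1 ≤ Kn (⌈tt v⌉₊ + 6) := one_le_Kn _
  obtain ⟨h1, h2, h3, h4⟩ := sqrt_q_facts v
  set r := Real.sqrt (q v) with hr
  have hq : 0 < q v := lt_of_le_of_ne (q_nonneg v) h.symm
  have hr0 : 0 < r := Real.sqrt_pos.2 hq
  have hk := Bs_le_kap (tt v)
  have hC := one_le_CF
  set K := Kn (⌈tt v⌉₊ + 6) with hK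
  have hB : Bs ⌈tt v⌉₊ = 10 ^ 60 * CF * K ^ 8 := rfl
  have hBpos : 0 < Bs ⌈tt v⌉₊ := by rw [hB]; positivity
  have a1 : ‖dtt v‖ ≤ (Bs ⌈tt v⌉₊)⁻¹ * (34 * CF) * r⁻¹ := by
    unfold dtt
    rw [norm_smul, norm_neg, norm_mul, norm_inv, norm_inv, Real.norm_of_nonneg hq.le,
      Real.norm_of_nonneg (by linarith [one_le_kap (tt v)])]
    have b1 := dq_norm_le v
    rw [← hr] at b1
    have b2 : (kap (tt v))⁻¹ ≤ (Bs ⌈tt v⌉₊)⁻¹ := inv_anti₀ hBpos hk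
    calc (kap (tt v))⁻¹ * (q v)⁻¹ * ‖dq v‖ ≤ (Bs ⌈tt v⌉₊)⁻¹ * (q v)⁻¹ * (34 * CF * r) := by
          gcongr
      _ = (Bs ⌈tt v⌉₊)⁻¹ * (34 * CF) * r⁻¹ := by
          rw [← h2]; field_simp
  have a2 : ‖cc v‖ ≤ K * (200001 * r) := by
    refine (cc_norm_le v).trans ?_
    have := Kn_mono (show ⌈tt v⌉₊ ≤ ⌈tt v⌉₊ + 6 by omega)
    gcongr
  have a3 : ‖R v‖ ≤ ‖dtt v‖ * ‖cc v‖ := by
    unfold R
    rw [ContinuousLinearMap.norm_smulRight_apply, ia_norm]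
  calc ‖R v‖ ≤ ((Bs ⌈tt v⌉₊)⁻¹ * (34 * CF) * r⁻¹) * (K * (200001 * r)) := by
        refine a3.trans ?_
        gcongr
    _ = (34 * 200001 / 10 ^ 60) * (1 / K ^ 7) := by
        rw [hB]; field_simp
    _ ≤ (1 / 10 ^ 50) * (1 / K ^ 7) :=
        mul_le_mul_of_nonneg_right (by norm_num) (by positivity)
    _ = _ := by rw [one_div_mul_one_div]

/-- the relative error on the left -/
noncomputable def El (v : V) : V →L[ℝ] V := R v * MM (Mi v)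
/-- the relative error on the right -/
noncomputable def Er (v : V) : V →L[ℝ] V := MM (Mi v) * R v

lemma DH_eq_l (v : V) : DH v = (1 + El v) * MM (M v) := by
  unfold DH El
  rw [add_mul, one_mul, mul_assoc, MM_mul, Mi_mul_M, MM_one, mul_one]

lemma DH_eq_r (v : V) : DH v = MM (M v) * (1 + Er v) := by
  unfold DH Er
  rw [mul_add, mul_one, ← mul_assoc, MM_mul, M_mul_Mi, MM_one, one_mul]

lemma MMM_norm_le (v : V) : ‖MM (M v)‖ ≤ Kn ⌈tt v⌉₊ := MM_norm_le (M_norm_le v) (one_le_Kn _)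
lemma MMMi_norm_le (v : V) : ‖MM (Mi v)‖ ≤ Kn ⌈tt v⌉₊ := MM_norm_le (Mi_norm_le v) (one_le_Kn _)

lemma E_bound_aux {K a b : ℝ} (hK : 1 ≤ K) (ha : a ≤ 1 / (10 ^ 50 * K ^ 7)) (hb : b ≤ K)
    (hb0 : 0 ≤ b) : a * b ≤ 1 / (10 ^ 50 * K ^ 6) := by
  calc a * b ≤ (1 / (10 ^ 50 * K ^ 7)) * K := by gcongr
    _ = 1 / (10 ^ 50 * K ^ 6) := by field_simp

lemma El_norm_le {v : V} (h : q v ≠ 0) : ‖El v‖ ≤ 1 / (10 ^ 50 * Kn (⌈tt v⌉₊ + 6) ^ 6) := by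
  unfold El
  refine (norm_mul_le _ _).trans ?_
  exact E_bound_aux (one_le_Kn _) (R_norm_le h)
    ((MMMi_norm_le v).trans (Kn_mono (by omega))) (norm_nonneg _)

lemma Er_norm_le {v : V} (h : q v ≠ 0) : ‖Er v‖ ≤ 1 / (10 ^ 50 * Kn (⌈tt v⌉₊ + 6) ^ 6) := by
  unfold Er
  refine (norm_mul_le _ _).trans ?_
  rw [mul_comm]
  exact E_bound_aux (one_le_Kn _) (R_norm_le h)
    ((MMMi_norm_le v).trans (Kn_mono (by omega))) (norm_nonneg _)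

lemma Er_small {v : V} (h : q v ≠ 0) : ‖Er v‖ ≤ 1 / 2 := by
  refine (Er_norm_le h).trans ?_
  have hK : (1 : ℝ) ≤ Kn (⌈tt v⌉₊ + 6) ^ 6 := one_le_pow₀ (one_le_Kn _)
  rw [div_le_div_iff₀ (by positivity) (by norm_num)]
  nlinarith

lemma one_add_isUnit {X : V →L[ℝ] V} (h : ‖X‖ ≤ 1 / 2) : IsUnit (1 + X) := by
  have h2 : ‖-X‖ < 1 := by rw [norm_neg]; linarith
  have := (Units.oneSub (-X) h2).isUnit
  have e : (↑(Units.oneSub (-X) h2) : V →L[ℝ] V) = 1 + X := by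
    simp
  rwa [e] at this

lemma isUnit_MM {m m' : E →L[ℝ] E} (h : m * m' = 1) (h' : m' * m = 1) : IsUnit (MM m) :=
  ⟨⟨MM m, MM m', by rw [MM_mul, h, MM_one], by rw [MM_mul, h', MM_one]⟩, rfl⟩

lemma isUnit_DH {v : V} (h : q v ≠ 0) : IsUnit (DH v) := by
  rw [DH_eq_r]
  exact (isUnit_MM (M_mul_Mi v) (Mi_mul_M v)).mul (one_add_isUnit (Er_small h))

end Pool.Agent.H57.Cen
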