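import Pool.Agent.H57.Cen.Defs

/-!
# Descending maps to the torus
-/

namespace Pool.Agent.H57.Cen

open Filter Topology Set

/-- integer vectors -/
def zv {n : ℕ} (k : Fin n → ℤ) : Fin n → ℝ := fun i => (k i : ℝ)

lemma zv_neg {n : ℕ} (k : Fin n → ℤ) : zv (-k) = -zv k := by
  funext i; simp [zv]

lemma coe_eq_coe' {a b : ℝ} : (a : UnitAddCircle) = b ↔ ∃ m : ℤ, a = b + m := by
  rw [QuotientAddGroup.eq, AddSubgroup.mem_zmultiples_iff]
  constructor
  · rintro ⟨k, hk⟩
    refine ⟨-k, ?_⟩
    simp at hk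
    push_cast
    linarith
  · rintro ⟨m, hm⟩
    refine ⟨-m, ?_⟩
    simp
    linarith

lemma cov_eq_iff {n : ℕ} {x y : Fin n → ℝ} : cov n x = cov n y ↔ ∃ k : Fin n → ℤ, x = y + zv k := by
  unfold cov
  rw [funext_iff]
  simp only [coe_eq_coe']
  constructor
  · intro h
    choose k hk using h
    exact ⟨k, funext hk⟩
  · rintro ⟨k, rfl⟩ i
    exact ⟨k i, rfl⟩

lemma cov_add_zv {n : ℕ} (x : Fin n → ℝ) (k : Fin n → ℤ) : cov n (x + zv k) = cov n x :=
  cov_eq_iff.2 ⟨k, rfl⟩

lemma cov_open {n : ℕ} : IsOpenQuotientMap (cov n) := by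
  have h : ∀ _ : Fin n, IsOpenQuotientMap ((↑) : ℝ → UnitAddCircle) := fun _ =>
    QuotientAddGroup.isOpenQuotientMap_mk
  exact IsOpenQuotientMap.piMap h

lemma cov_surjective {n : ℕ} : Function.Surjective (cov n) := cov_open.surjective

/-- a section of the covering -/
noncomputable def sec {n : ℕ} (θ : Torus n) : Fin n → ℝ := (cov_surjective θ).choose

lemma cov_sec {n : ℕ} (θ : Torus n) : cov n (sec θ) = θ := (cov_surjective θ).choose_spec

lemma sec_cov {n : ℕ} (x : Fin n → ℝ) : ∃ k : Fin n → ℤ, sec (cov n x) = x + zv k :=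
  cov_eq_iff.1 (cov_sec _)

/-- descent of a periodic function -/
noncomputable def desc {n : ℕ} {X : Type*} (F : (Fin n → ℝ) → X) (θ : Torus n) : X := F (sec θ)

lemma desc_cov {n : ℕ} {X : Type*} {F : (Fin n → ℝ) → X} (h : ∀ x k, F (x + zv k) = F x)
    (x : Fin n → ℝ) : desc F (cov n x) = F x := by
  obtain ⟨k, hk⟩ := sec_cov x
  unfold desc
  rw [hk, h]

lemma continuous_desc {n : ℕ} {X : Type*} [TopologicalSpace X] {F : (Fin n → ℝ) → X}
    (h : ∀ x k, F (x + zv k) = F x) (hc : Continuous F) : Continuous (desc F) := by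
  rw [← cov_open.continuous_comp_iff]
  have : desc F ∘ cov n = F := funext fun x => desc_cov h x
  rw [this]; exact hc

/-- A homeomorphism of `ℝ^n` of class `C^1` in both directions which moves integer translates to
integer translates gives a diffeomorphism of the torus. -/
noncomputable def mkDiffeo {n : ℕ} (G : (Fin n → ℝ) ≃ₜ (Fin n → ℝ)) (h1 : ContDiff ℝ 1 G)
    (h2 : ContDiff ℝ 1 G.symm) (p1 : ∀ x k, cov n (G (x + zv k)) = cov n (G x))
    (p2 : ∀ x k, cov n (G.symm (x + zv k)) = cov n (G.symm x)) : TorusDiffeo n where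
  toHomeo :=
    { toFun := desc fun x => cov n (G x)
      invFun := desc fun x => cov n (G.symm x)
      left_inv := fun θ => by
        obtain ⟨x, rfl⟩ := cov_surjective θ
        rw [desc_cov p1, desc_cov p2, G.symm_apply_apply]
      right_inv := fun θ => by
        obtain ⟨x, rfl⟩ := cov_surjective θ
        rw [desc_cov p2, desc_cov p1, G.apply_symm_apply]
      continuous_toFun := continuous_desc p1 (cov_open.continuous.comp G.continuous)
      continuous_invFun := continuous_desc p2 (cov_open.continuous.comp G.symm.continuous) }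
  lift := G
  liftInv := G.symm
  contDiff_lift := h1
  contDiff_liftInv := h2
  cov_lift := fun x => (desc_cov (F := fun x => cov n (G x)) p1 x).symm
  cov_liftInv := fun x => (desc_cov (F := fun x => cov n (G.symm x)) p2 x).symm

lemma mkDiffeo_apply {n : ℕ} {G : (Fin n → ℝ) ≃ₜ (Fin n → ℝ)} {h1 : ContDiff ℝ 1 G}
    {h2 : ContDiff ℝ 1 G.symm} {p1 : ∀ x k, cov n (G (x + zv k)) = cov n (G x)}
    {p2 : ∀ x k, cov n (G.symm (x + zv k)) = cov n (G.symm x)} (x : Fin n → ℝ) :
    (mkDiffeo G h1 h2 p1 p2).toHomeo (cov n x) = cov n (G x) :=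
  desc_cov (F := fun x => cov n (G x)) p1 x

end Pool.Agent.H57.Cen
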