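import Pool.Agent.H57.Cen.Mat

/-!
# The Gray code digits of a 2-adic integer
-/

namespace Pool.Agent.H57.Cen

/-- Gray code digit number `k` of the natural number `j` -/
noncomputable def gN (k j : ℕ) : ℝ :=
  if 2 ^ k ≤ j % 2 ^ (k + 2) ∧ j % 2 ^ (k + 2) < 3 * 2 ^ k then 1 else 0

/-- residue of a 2-adic integer modulo `2 ^ n` -/
noncomputable def res (n : ℕ) (z : ℤ_[2]) : ℕ := (PadicInt.toZModPow n z).val

/-- Gray code digit number `k` of the 2-adic integer `z` -/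
noncomputable def dig (k : ℕ) (z : ℤ_[2]) : ℝ := gN k (res (k + 2) z)

lemma gN_cases (k j : ℕ) : gN k j = 0 ∨ gN k j = 1 := by
  unfold gN; split_ifs <;> simp

lemma dig_cases (k : ℕ) (z : ℤ_[2]) : dig k z = 0 ∨ dig k z = 1 := gN_cases _ _

lemma gN_mod (k j : ℕ) : gN k (j % 2 ^ (k + 2)) = gN k j := by
  unfold gN; rw [Nat.mod_mod]

lemma res_natCast (n j : ℕ) : res n (j : ℤ_[2]) = j % 2 ^ n := by
  unfold res
  rw [map_natCast, ZMod.val_natCast]

/-- being congruent modulo `2 ^ n` -/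
def Cg (n : ℕ) (z z' : ℤ_[2]) : Prop := PadicInt.toZModPow n z = PadicInt.toZModPow n z'

lemma Cg.refl (n : ℕ) (z : ℤ_[2]) : Cg n z z := rfl
lemma Cg.symm {n : ℕ} {z z' : ℤ_[2]} (h : Cg n z z') : Cg n z' z := Eq.symm h
lemma Cg.trans {n : ℕ} {z z' z'' : ℤ_[2]} (h : Cg n z z') (h' : Cg n z' z'') : Cg n z z'' :=
  Eq.trans h h'
lemma Cg.add {n : ℕ} {z z' y y' : ℤ_[2]} (h : Cg n z z') (h' : Cg n y y') :
    Cg n (z + y) (z' + y') := by
  unfold Cg at *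
  rw [map_add, map_add, h, h']

lemma Cg.mono {m n : ℕ} (hmn : m ≤ n) {z z' : ℤ_[2]} (h : Cg n z z') : Cg m z z' := by
  unfold Cg at *
  rw [← PadicInt.cast_toZModPow m n hmn z, ← PadicInt.cast_toZModPow m n hmn z', h]

lemma cg_iff_dvd {n : ℕ} {z z' : ℤ_[2]} : Cg n z z' ↔ ∃ c : ℤ_[2], z - z' = 2 ^ n * c := by
  unfold Cg
  rw [← sub_eq_zero, ← map_sub, ← RingHom.mem_ker, PadicInt.ker_toZModPow,
    Ideal.mem_span_singleton]
  rfl

lemma cg_iff_norm {n : ℕ} {z z' : ℤ_[2]} : Cg n z z' ↔ ‖z - z'‖ ≤ (2 : ℝ) ^ (-(n : ℤ)) := by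
  have := PadicInt.norm_le_pow_iff_mem_span_pow (p := 2) (z - z') n
  unfold Cg
  rw [← sub_eq_zero, ← map_sub, ← RingHom.mem_ker, PadicInt.ker_toZModPow]
  rw [← this]
  norm_num

lemma cg_res (n : ℕ) (z : ℤ_[2]) : Cg n z (res n z : ℤ_[2]) := by
  unfold Cg res
  rw [map_natCast, ZMod.natCast_zmod_val]

lemma dig_congr {k : ℕ} {z z' : ℤ_[2]} (h : Cg (k + 2) z z') : dig k z = dig k z' := by
  unfold dig res
  unfold Cg at h
  rw [h]

lemma dig_natCast (k j : ℕ) : dig k (j : ℤ_[2]) = gN k j := by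
  unfold dig
  rw [res_natCast, gN_mod]

lemma dig_zero (k : ℕ) : dig k 0 = 0 := by
  have := dig_natCast k 0
  rw [Nat.cast_zero] at this
  rw [this]
  unfold gN
  rw [Nat.zero_mod, if_neg]
  push Not
  intro h
  have : 0 < 2 ^ k := by positivity
  omega

/-! ### Adding one -/

lemma gN_lt {i j k b : ℕ} (hj : j + 1 = 2 ^ k * (2 * b + 1)) (h : i + 2 ≤ k) :
    gN i j = 0 ∧ gN i (j + 1) = 0 := by
  have hP : 0 < 2 ^ i := by positivity
  have e0 : 2 ^ (i + 2) = 4 * 2 ^ i := by ring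
  obtain ⟨c, hc⟩ : 2 ^ (i + 2) ∣ j + 1 := by
    rw [hj]
    exact Dvd.dvd.mul_right (pow_dvd_pow 2 h) _
  have h1 : (j + 1) % 2 ^ (i + 2) = 0 := by rw [hc]; exact Nat.mul_mod_right _ _
  have hc0 : 0 < c := by
    rcases Nat.eq_zero_or_pos c with rfl | h'
    · simp at hc
    · exact h'
  obtain ⟨c', rfl⟩ : ∃ c', c = c' + 1 := ⟨c - 1, by omega⟩
  have h2 : j % 2 ^ (i + 2) = 2 ^ (i + 2) - 1 := by
    have : j = 2 ^ (i + 2) * c' + (2 ^ (i + 2) - 1) := by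
      have e1 : 2 ^ (i + 2) * (c' + 1) = 2 ^ (i + 2) * c' + 2 ^ (i + 2) := by ring
      omega
    rw [this, Nat.mul_add_mod, Nat.mod_eq_of_lt (by omega)]
  unfold gN
  rw [h1, h2]
  constructor
  · rw [if_neg]; push Not; intro _; omega
  · rw [if_neg]; push Not; intro _; omega

lemma gN_pred {i j b : ℕ} (hj : j + 1 = 2 ^ (i + 1) * (2 * b + 1)) :
    gN i j = 1 ∧ gN i (j + 1) = 1 := by
  have hP : 0 < 2 ^ i := by positivity
  have e0 : 2 ^ (i + 2) = 4 * 2 ^ i := by ring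
  have e1 : j + 1 = 2 ^ (i + 2) * b + 2 * 2 ^ i := by rw [hj]; ring
  have h1 : (j + 1) % 2 ^ (i + 2) = 2 * 2 ^ i := by
    rw [e1, Nat.mul_add_mod, Nat.mod_eq_of_lt (by omega)]
  have h2 : j % 2 ^ (i + 2) = 2 * 2 ^ i - 1 := by
    have : j = 2 ^ (i + 2) * b + (2 * 2 ^ i - 1) := by omega
    rw [this, Nat.mul_add_mod, Nat.mod_eq_of_lt (by omega)]
  unfold gN
  rw [h1, h2]
  constructor
  · rw [if_pos]; omega
  · rw [if_pos]; omega

lemma gN_self {j k b : ℕ} (hj : j + 1 = 2 ^ k * (2 * b + 1)) :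
    gN k (j + 1) = 1 - gN k j := by
  have hP : 0 < 2 ^ k := by positivity
  have e0 : 2 ^ (k + 2) = 4 * 2 ^ k := by ring
  rcases Nat.even_or_odd' b with ⟨c, rfl | rfl⟩
  · have e1 : j + 1 = 2 ^ (k + 2) * c + 2 ^ k := by rw [hj]; ring
    have h1 : (j + 1) % 2 ^ (k + 2) = 2 ^ k := by
      rw [e1, Nat.mul_add_mod, Nat.mod_eq_of_lt (by omega)]
    have h2 : j % 2 ^ (k + 2) = 2 ^ k - 1 := by
      have : j = 2 ^ (k + 2) * c + (2 ^ k - 1) := by omega
      rw [this, Nat.mul_add_mod, Nat.mod_eq_of_lt (by omega)]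
    unfold gN
    rw [h1, h2, if_pos (by omega), if_neg (by push Not; intro _; omega)]
    norm_num
  · have e1 : j + 1 = 2 ^ (k + 2) * c + 3 * 2 ^ k := by rw [hj]; ring
    have h1 : (j + 1) % 2 ^ (k + 2) = 3 * 2 ^ k := by
      rw [e1, Nat.mul_add_mod, Nat.mod_eq_of_lt (by omega)]
    have h2 : j % 2 ^ (k + 2) = 3 * 2 ^ k - 1 := by
      have : j = 2 ^ (k + 2) * c + (3 * 2 ^ k - 1) := by omega
      rw [this, Nat.mul_add_mod, Nat.mod_eq_of_lt (by omega)]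
    unfold gN
    rw [h1, h2, if_neg (by push Not; intro _; omega), if_pos (by omega)]
    norm_num

lemma gN_gt {i j k b : ℕ} (hj : j + 1 = 2 ^ k * (2 * b + 1)) (h : k < i) :
    gN i (j + 1) = gN i j := by
  have hP : 0 < 2 ^ k := by positivity
  obtain ⟨e, rfl⟩ : ∃ e, i = k + (e + 1) := ⟨i - k - 1, by omega⟩
  have e0 : 2 ^ (k + (e + 1) + 2) = 2 ^ k * (8 * 2 ^ e) := by ring
  have e0' : 2 ^ (k + (e + 1)) = 2 ^ k * (2 * 2 ^ e) := by ring
  have hr : (j + 1) % 2 ^ (k + (e + 1) + 2) = 2 ^ k * ((2 * b + 1) % (8 * 2 ^ e)) := by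
    rw [hj, e0, Nat.mul_mod_mul_left]
  set r := (2 * b + 1) % (8 * 2 ^ e) with hrd
  have hP2 : 0 < 2 ^ e := by positivity
  have hodd : r % 2 = 1 := by
    rw [hrd, Nat.mod_mod_of_dvd _ ⟨4 * 2 ^ e, by ring⟩]
    omega
  have hrlt : r < 8 * 2 ^ e := Nat.mod_lt _ (by positivity)
  have hr1 : 1 ≤ r := by omega
  have hrpos : 0 < 2 ^ k * r := by positivity
  have h2 : j % 2 ^ (k + (e + 1) + 2) = 2 ^ k * r - 1 := by
    have h3 := Nat.div_add_mod (j + 1) (2 ^ (k + (e + 1) + 2))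
    rw [hr] at h3
    set Q := (j + 1) / 2 ^ (k + (e + 1) + 2) with hQ
    have h4 : j = 2 ^ (k + (e + 1) + 2) * Q + (2 ^ k * r - 1) := by omega
    have h5 : 2 ^ k * r < 2 ^ (k + (e + 1) + 2) := by
      rw [e0]; exact Nat.mul_lt_mul_of_pos_left hrlt hP
    conv_lhs => rw [h4]
    rw [Nat.mul_add_mod, Nat.mod_eq_of_lt (by omega)]
  unfold gN
  rw [hr, h2, e0']
  have k1 : r ≠ 2 * 2 ^ e := by omega
  have k2 : r ≠ 3 * (2 * 2 ^ e) := by omega
  have c1 : (2 ^ k * (2 * 2 ^ e) ≤ 2 ^ k * r) ↔ 2 * 2 ^ e ≤ r := Nat.mul_le_mul_left_iff hP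
  have c2 : (2 ^ k * r < 3 * (2 ^ k * (2 * 2 ^ e))) ↔ r < 3 * (2 * 2 ^ e) := by
    rw [show 3 * (2 ^ k * (2 * 2 ^ e)) = 2 ^ k * (3 * (2 * 2 ^ e)) by ring]
    exact Nat.mul_lt_mul_left hP
  have c3 : (2 ^ k * (2 * 2 ^ e) ≤ 2 ^ k * r - 1) ↔ 2 * 2 ^ e ≤ r := by
    constructor
    · intro h'
      exact c1.1 (by omega)
    · intro h'
      have h'' : 2 * 2 ^ e < r := by omega
      have := Nat.mul_lt_mul_of_pos_left h'' hP
      omega
  have c4 : (2 ^ k * r - 1 < 3 * (2 ^ k * (2 * 2 ^ e))) ↔ r < 3 * (2 * 2 ^ e) := by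
    constructor
    · intro h'
      by_contra hcon
      have h'' : 3 * (2 * 2 ^ e) < r := by omega
      have := Nat.mul_lt_mul_of_pos_left h'' hP
      have e5 : 2 ^ k * (3 * (2 * 2 ^ e)) = 3 * (2 ^ k * (2 * 2 ^ e)) := by ring
      omega
    · intro h'
      have := c2.2 h'
      omega
  exact if_congr (by rw [c1, c2, c3, c4]) rfl rfl

/-- The number `k` of the digit which changes when one is added. -/
structure Flip (z : ℤ_[2]) (k : ℕ) : Prop where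
  lt : ∀ i, i + 2 ≤ k → dig i z = 0 ∧ dig i (z + 1) = 0
  pred : ∀ i, i + 1 = k → dig i z = 1 ∧ dig i (z + 1) = 1
  self : dig k (z + 1) = 1 - dig k z
  gt : ∀ i, k < i → dig i (z + 1) = dig i z

lemma exists_nat_odd {j k n : ℕ} (hk : k < n) {b : ℤ_[2]}
    (h : Cg n (j : ℤ_[2]) (2 ^ k * (2 * b + 1))) : ∃ c, j = 2 ^ k * (2 * c + 1) := by
  have h1 : 2 ^ k ∣ j := by
    have h2 := Cg.mono hk.le h
    unfold Cg at h2
    rw [map_mul, map_pow, map_natCast] at h2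
    have h3 : (PadicInt.toZModPow k) (2 : ℤ_[2]) ^ k = 0 := by
      rw [← map_pow]
      have : (PadicInt.toZModPow k) ((2 : ℤ_[2]) ^ k) = 0 := by
        rw [← RingHom.mem_ker, PadicInt.ker_toZModPow]
        exact Ideal.mem_span_singleton_self _
      exact this
    rw [h3, zero_mul] at h2
    exact (ZMod.natCast_eq_zero_iff _ _).1 h2
  obtain ⟨c, hc⟩ := h1
  rcases Nat.even_or_odd' c with ⟨d, hd | hd⟩
  · exfalso
    have h2 := Cg.mono hk h
    rw [hc, hd, cg_iff_dvd] at h2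
    obtain ⟨e, he⟩ := h2
    have h3 : (2 : ℤ_[2]) ^ k * (2 * (d - b - e)) = 2 ^ k * 1 := by
      push_cast at he
      rw [pow_succ] at he
      linear_combination he
    have h4 := mul_left_cancel₀ (pow_ne_zero k (two_ne_zero : (2 : ℤ_[2]) ≠ 0)) h3
    have h5 : IsUnit (2 : ℤ_[2]) := IsUnit.of_mul_eq_one _ h4
    rw [PadicInt.isUnit_iff] at h5
    have h6 : ‖(2 : ℤ_[2])‖ = (2 : ℝ)⁻¹ := by
      have := PadicInt.norm_p (p := 2)
      simpa using this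
    rw [h6] at h5
    norm_num at h5
  · exact ⟨d, by rw [hc, hd]⟩

lemma flip_of_eq {z b : ℤ_[2]} {k : ℕ} (h : z + 1 = 2 ^ k * (2 * b + 1)) : Flip z k := by
  have key : ∀ n, k < n → ∃ j c : ℕ, Cg n z j ∧ j + 1 = 2 ^ k * (2 * c + 1) := by
    intro n hn
    refine ⟨res n z, ?_⟩
    have h1 := cg_res n z
    have h2 : Cg n ((res n z + 1 : ℕ) : ℤ_[2]) (2 ^ k * (2 * b + 1)) := by
      rw [← h]
      push_cast
      exact h1.symm.add (Cg.refl n 1)
    obtain ⟨c, hc⟩ := exists_nat_odd hn h2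
    exact ⟨c, h1, hc⟩
  have tr : ∀ (i n j : ℕ), i + 2 ≤ n → Cg n z j →
      dig i z = gN i j ∧ dig i (z + 1) = gN i (j + 1) := by
    intro i n j hin hj
    constructor
    · rw [← dig_natCast]; exact dig_congr (hj.mono hin)
    · rw [← dig_natCast]
      push_cast
      exact dig_congr ((hj.add (Cg.refl n 1)).mono hin)
  constructor
  · intro i hi
    obtain ⟨j, c, hj, hc⟩ := key (k + 1) (by omega)
    obtain ⟨e1, e2⟩ := tr i _ j (by omega) hj
    rw [e1, e2]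
    exact gN_lt hc hi
  · intro i hi
    subst hi
    obtain ⟨j, c, hj, hc⟩ := key (i + 1 + 1) (by omega)
    obtain ⟨e1, e2⟩ := tr i _ j (by omega) hj
    rw [e1, e2]
    exact gN_pred hc
  · obtain ⟨j, c, hj, hc⟩ := key (k + 2) (by omega)
    obtain ⟨e1, e2⟩ := tr k _ j (by omega) hj
    rw [e1, e2]
    exact gN_self hc
  · intro i hi
    obtain ⟨j, c, hj, hc⟩ := key (i + 2) (by omega)
    obtain ⟨e1, e2⟩ := tr i _ j (by omega) hj
    rw [e1, e2]
    exact gN_gt hc hi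

lemma exists_odd {x : ℤ_[2]} (hx : x ≠ 0) :
    ∃ b : ℤ_[2], x = 2 ^ x.valuation * (2 * b + 1) := by
  have h1 := PadicInt.unitCoeff_spec hx
  set u := PadicInt.unitCoeff hx with hu
  have h2 : ∃ b : ℤ_[2], (u : ℤ_[2]) = 2 * b + 1 := by
    have h3 := cg_res 1 (u : ℤ_[2])
    have h4 : res 1 (u : ℤ_[2]) < 2 := by
      have := ZMod.val_lt (PadicInt.toZModPow 1 (u : ℤ_[2]))
      simpa [res] using this
    rw [cg_iff_dvd] at h3
    obtain ⟨c, hc⟩ := h3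
    interval_cases h5 : res 1 (u : ℤ_[2])
    · exfalso
      have h6 : (u : ℤ_[2]) = 2 * c := by simpa using hc
      have h7 : ‖(u : ℤ_[2])‖ = 1 := PadicInt.norm_units u
      rw [h6, norm_mul] at h7
      have h8 : ‖(2 : ℤ_[2])‖ = (2 : ℝ)⁻¹ := by
        have := PadicInt.norm_p (p := 2)
        simpa using this
      have h9 := PadicInt.norm_le_one c
      rw [h8] at h7
      linarith
    · refine ⟨c, ?_⟩
      have h6 : (u : ℤ_[2]) - 1 = 2 * c := by simpa using hc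
      linear_combination h6
  obtain ⟨b, hb⟩ := h2
  refine ⟨b, ?_⟩
  rw [← hb]
  rw [mul_comm]
  exact_mod_cast h1

lemma norm_odd (k : ℕ) (b : ℤ_[2]) : ‖(2 : ℤ_[2]) ^ k * (2 * b + 1)‖ = (2 : ℝ)⁻¹ ^ k := by
  have h8 : ‖(2 : ℤ_[2])‖ = (2 : ℝ)⁻¹ := by
    have := PadicInt.norm_p (p := 2)
    simpa using this
  have h9 : ‖2 * b + 1‖ = 1 := by
    rcases (PadicInt.norm_le_one (2 * b + 1)).lt_or_eq with h | h
    · exfalso
      have h1 : ‖2 * b‖ < 1 := by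
        rw [norm_mul, h8]
        have := PadicInt.norm_le_one b
        linarith
      have h2 : ‖(2 * b + 1) - 2 * b‖ < 1 :=
        (PadicInt.nonarchimedean (2 * b + 1) (-(2 * b))).trans_lt (by
          rw [norm_neg]; exact max_lt h h1) |> fun h3 => by rwa [← sub_eq_add_neg] at h3
      rw [add_sub_cancel_left, norm_one] at h2
      exact lt_irrefl _ h2
    · exact h
  rw [norm_mul, norm_pow, h8, h9, mul_one]

end Pool.Agent.H57.Cen
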