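import Pool.Agent.H57.Cen.Toep

/-!
# Positive entropy of the automorphism of the two-torus
-/

namespace Pool.Agent.H57.Cen

open Filter Topology Set Uniformity

/-- the coding map into the torus -/
noncomputable def cT (w : Om) : T2 := pT (code w)

lemma continuous_cT : Continuous cT := continuous_pT.comp continuous_code

lemma cT_injective : Function.Injective cT := by
  intro w w' h
  obtain ⟨m, n, hmn⟩ := pT_eq_iff.1 h
  exact (code_injective_mod hmn).2.2

lemma cT_sh (w : Om) : cT (sh w) = AT (cT w) := by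
  unfold cT
  obtain ⟨m, hm⟩ := code_sh w
  rw [hm, pT_add_gam, AT_pT]

lemma AT_iter_cT (i : ℕ) (w : Om) : AT^[i] (cT w) = cT (sh^[i] w) := by
  induction i generalizing w with
  | zero => rfl
  | succ i ih =>
    rw [Function.iterate_succ_apply, Function.iterate_succ_apply, ← cT_sh, ih]

lemma sh_iter (i : ℕ) (w : Om) (n : ℤ) : (sh^[i] w) n = w (n + i) := by
  induction i generalizing w n with
  | zero => simp
  | succ i ih =>
    rw [Function.iterate_succ_apply, ih]
    unfold sh
    congr 1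
    push_cast; ring

lemma exists_sep_code : ∃ δ > 0, ∀ w w' : Om, w 0 ≠ w' 0 → δ ≤ dist (cT w) (cT w') := by
  set K : Set (Om × Om) := {p | p.1 0 ≠ p.2 0} with hK
  have hcl : IsClosed K := by
    have h1 : Continuous fun p : Om × Om => (p.1 0, p.2 0) :=
      ((continuous_apply 0).comp continuous_fst).prodMk ((continuous_apply 0).comp continuous_snd)
    have h2 : IsClosed {b : Bool × Bool | b.1 ≠ b.2} := isClosed_discrete _
    exact h2.preimage h1
  have hc : IsCompact K := hcl.isCompact
  have hne : K.Nonempty := ⟨(fun _ => true, fun _ => false), by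
    change (true : Bool) ≠ false
    decide⟩
  have hf : Continuous fun p : Om × Om => dist (cT p.1) (cT p.2) :=
    (continuous_cT.comp continuous_fst).dist (continuous_cT.comp continuous_snd)
  obtain ⟨p, hp, hmin⟩ := hc.exists_isMinOn hne hf.continuousOn
  refine ⟨dist (cT p.1) (cT p.2), ?_, fun w w' h => hmin (a := (w, w')) h⟩
  rw [gt_iff_lt, dist_pos]
  intro h
  exact hp (by rw [cT_injective h])

/-- the word with given letters -/
def wrd {n : ℕ} (a : Fin n → Bool) : Om := fun k =>
  if h : 0 ≤ k ∧ k.toNat < n then a ⟨k.toNat, h.2⟩ else false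

lemma wrd_apply {n : ℕ} (a : Fin n → Bool) (i : Fin n) : wrd a (i : ℕ) = a i := by
  unfold wrd
  rw [dif_pos ⟨by positivity, by simp⟩]
  simp

lemma wrd_injective {n : ℕ} : Function.Injective (wrd (n := n)) := by
  intro a a' h
  funext i
  rw [← wrd_apply a i, ← wrd_apply a' i, h]

lemma net_card {δ : ℝ} (hδ : ∀ w w' : Om, w 0 ≠ w' 0 → δ ≤ dist (cT w) (cT w')) (n : ℕ) :
    ((2 ^ n : ℕ) : ℕ∞) ≤ Dynamics.netMaxcard AT univ {p : T2 × T2 | dist p.1 p.2 < δ / 2} n := by
  classical
  set s : Finset T2 := Finset.univ.image fun a : Fin n → Bool => cT (wrd a) with hs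
  have hinj : Function.Injective fun a : Fin n → Bool => cT (wrd a) :=
    cT_injective.comp wrd_injective
  have hcard : s.card = 2 ^ n := by
    rw [hs, Finset.card_image_of_injective _ hinj, Finset.card_univ, Fintype.card_fun,
      Fintype.card_bool, Fintype.card_fin]
  have hnet : Dynamics.IsDynNetIn AT univ {p : T2 × T2 | dist p.1 p.2 < δ / 2} n (s : Set T2) := by
    refine ⟨subset_univ _, ?_⟩
    intro z hz z' hz' hne
    simp only [hs, Finset.coe_image, Finset.coe_univ, image_univ, mem_range] at hz hz'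
    obtain ⟨a, rfl⟩ := hz
    obtain ⟨a', rfl⟩ := hz'
    have haa : a ≠ a' := fun h => hne (by rw [h])
    obtain ⟨i, hi⟩ : ∃ i, a i ≠ a' i := Function.ne_iff.1 haa
    rw [Function.onFun, disjoint_left]
    intro z hz hz'
    rw [Dynamics.mem_ball_dynEntourage] at hz hz'
    have h1 := hz i i.2
    have h2 := hz' i i.2
    rw [AT_iter_cT] at h1 h2
    have h1' : dist (cT (sh^[i] (wrd a))) (AT^[i] z) < δ / 2 := h1
    have h2' : dist (cT (sh^[i] (wrd a'))) (AT^[i] z) < δ / 2 := h2
    have h3 : δ ≤ dist (cT (sh^[i] (wrd a))) (cT (sh^[i] (wrd a'))) := by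
      apply hδ
      rw [sh_iter, sh_iter, zero_add, wrd_apply, wrd_apply]
      exact hi
    have h4 := dist_triangle_right (cT (sh^[i] (wrd a))) (cT (sh^[i] (wrd a'))) (AT^[i] z)
    linarith
  have := hnet.card_le_netMaxcard
  rwa [hcard] at this

lemma entropy_AT : ((Real.log 2 : ℝ) : EReal) ≤ Dynamics.coverEntropy AT univ := by
  obtain ⟨δ, hδ0, hδ⟩ := exists_sep_code
  have hent : {p : T2 × T2 | dist p.1 p.2 < δ / 2} ∈ 𝓤 T2 :=
    Metric.dist_mem_uniformity (by positivity)
  refine le_trans ?_ (Dynamics.netEntropyEntourage_le_coverEntropy AT univ hent)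
  unfold Dynamics.netEntropyEntourage ExpGrowth.expGrowthSup
  apply le_limsup_of_frequently_le
  · rw [frequently_atTop]
    intro n
    refine ⟨n + 1, by omega, ?_⟩
    have h1 := net_card hδ (n + 1)
    have hL : (0 : ℝ) < ((n + 1 : ℕ) : ℝ) := by positivity
    have hN : (0 : ℝ) < ((2 ^ (n + 1) : ℕ) : ℝ) := by positivity
    set c := Dynamics.netMaxcard AT univ {p : T2 × T2 | dist p.1 p.2 < δ / 2} (n + 1) with hc
    have h2 : ((Real.log ((2 ^ (n + 1) : ℕ) : ℝ) : ℝ) : EReal) ≤ ENNReal.log ((c : ℕ∞) : ENNReal) := by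
      have h3 : ((2 ^ (n + 1) : ℕ) : ENNReal) ≤ ((c : ℕ∞) : ENNReal) := by
        exact_mod_cast ENat.toENNReal_mono h1
      refine le_trans ?_ (ENNReal.log_monotone h3)
      have h4 : ((2 ^ (n + 1) : ℕ) : ENNReal) = ENNReal.ofReal ((2 ^ (n + 1) : ℕ) : ℝ) := by simp
      rw [h4, ENNReal.log_ofReal_of_pos hN]
    have h6 : ((Real.log 2 : ℝ) : EReal) ≤
        ((Real.log ((2 ^ (n + 1) : ℕ) : ℝ) : ℝ) : EReal) / (((n + 1 : ℕ) : ℝ) : EReal) := by
      rw [← EReal.coe_div, EReal.coe_le_coe_iff, le_div_iff₀ hL]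
      push_cast
      rw [Real.log_pow]
      push_cast
      rw [mul_comm]
    refine h6.trans ?_
    exact EReal.div_le_div_right_of_nonneg (by positivity) h2
  · exact isBoundedUnder_of ⟨⊤, fun _ => le_top⟩

end Pool.Agent.H57.Cen
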