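import Pool.Agent.H57.Cen.Base

/-!
# The fibre and its lattice
-/

namespace Pool.Agent.H57.Cen

open Filter Topology Set

/-- the trace -/
noncomputable def TT : ℝ := 200000
/-- the large eigenvalue -/
noncomputable def mu : ℝ := (TT + Real.sqrt (TT ^ 2 - 4)) / 2
/-- the small eigenvalue -/
noncomputable def mui : ℝ := (TT - Real.sqrt (TT ^ 2 - 4)) / 2

lemma sqrt_bounds : TT - 1 < Real.sqrt (TT ^ 2 - 4) ∧ Real.sqrt (TT ^ 2 - 4) < TT := by
  unfold TT
  constructor
  · rw [Real.lt_sqrt (by norm_num)]; norm_num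
  · rw [Real.sqrt_lt' (by norm_num)]; norm_num

lemma mu_mul_mui : mu * mui = 1 := by
  unfold mu mui
  have h : Real.sqrt (TT ^ 2 - 4) ^ 2 = TT ^ 2 - 4 := Real.sq_sqrt (by unfold TT; norm_num)
  nlinarith

lemma mu_add_mui : mu + mui = TT := by unfold mu mui; ring

lemma mu_bounds : 199999 < mu ∧ mu < 200000 := by
  obtain ⟨h1, h2⟩ := sqrt_bounds
  have hT : TT = 200000 := rfl
  unfold mu
  constructor <;> linarith

lemma mui_pos : 0 < mui := by
  have := sqrt_bounds
  unfold mui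
  linarith [this.2]

lemma mu_pos : 0 < mu := by linarith [mu_bounds.1]

lemma mui_lt : mui < 1 / 199999 := by
  have h1 := mu_mul_mui
  have h2 := mu_bounds.1
  have h3 := mui_pos
  rw [lt_div_iff₀ (by norm_num)]
  nlinarith

lemma mu_sq : mu ^ 2 = TT * mu - 1 := by
  have h1 := mu_mul_mui
  have h2 := mu_add_mui
  have : mui = TT - mu := by linarith
  rw [this] at h1
  linarith [h1]

lemma mui_sq : mui ^ 2 = TT * mui - 1 := by
  have h1 := mu_mul_mui
  have h2 := mu_add_mui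
  have : mu = TT - mui := by linarith
  rw [this] at h1
  linarith [h1]

lemma mu_sub_pos : 0 < mu - mui := by
  have := mu_bounds.1; have := mui_lt; linarith [mu_bounds.1, mui_lt]

/-- second standard coordinate in the fibre -/
noncomputable def c2 : E × E →L[ℝ] E :=
  (mu - mui)⁻¹ • (ContinuousLinearMap.fst ℝ E E - ContinuousLinearMap.snd ℝ E E)
/-- first standard coordinate in the fibre -/
noncomputable def c1 : E × E →L[ℝ] E := ContinuousLinearMap.fst ℝ E E - mu • c2

lemma c2_apply (w : E × E) : c2 w = (mu - mui)⁻¹ • (w.1 - w.2) := rfl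
lemma c1_apply (w : E × E) : c1 w = w.1 - mu • c2 w := rfl

/-- from standard coordinates -/
noncomputable def wi (a b : E) : E × E := (a + mu • b, a + mui • b)

lemma c_wi (a b : E) : c2 (wi a b) = b ∧ c1 (wi a b) = a := by
  have h := mu_sub_pos.ne'
  have h1 : c2 (wi a b) = b := by
    rw [c2_apply]
    unfold wi
    have : a + mu • b - (a + mui • b) = (mu - mui) • b := by rw [sub_smul]; abel
    simp only
    rw [this, smul_smul, inv_mul_cancel₀ h, one_smul]
  refine ⟨h1, ?_⟩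
  rw [c1_apply, h1]
  unfold wi
  simp

lemma wi_c (w : E × E) : wi (c1 w) (c2 w) = w := by
  have h := mu_sub_pos.ne'
  have h1 : (mu - mui) • c2 w = w.1 - w.2 := by
    rw [c2_apply, smul_smul, mul_inv_cancel₀ h, one_smul]
  unfold wi
  refine Prod.ext ?_ ?_
  · simp only [c1_apply]; abel
  · simp only [c1_apply]
    have : w.1 - mu • c2 w + mui • c2 w = w.1 - (mu - mui) • c2 w := by rw [sub_smul]; abel
    rw [this, h1]; abel

lemma wi_add (a b a' b' : E) : wi (a + a') (b + b') = wi a b + wi a' b' := by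
  unfold wi; ext <;> simp <;> ring

/-- the quadratic form -/
noncomputable def Q0 (w : E × E) : ℝ :=
  (c1 w).1 ^ 2 + (c1 w).2 ^ 2 + (c2 w).1 ^ 2 + (c2 w).2 ^ 2

lemma Q0_nonneg (w : E × E) : 0 ≤ Q0 w := by unfold Q0; positivity

lemma c_norm_le (w : E × E) : ‖c1 w‖ ≤ Real.sqrt (Q0 w) ∧ ‖c2 w‖ ≤ Real.sqrt (Q0 w) := by
  have key : ∀ x : ℝ, x ^ 2 ≤ Q0 w → ‖x‖ ≤ Real.sqrt (Q0 w) := fun x hx => by
    rw [Real.norm_eq_abs]; exact Real.abs_le_sqrt hx
  constructor
  · rw [Prod.norm_def]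
    apply max_le <;> apply key <;> unfold Q0 <;> nlinarith [sq_nonneg (c1 w).1, sq_nonneg (c1 w).2,
      sq_nonneg (c2 w).1, sq_nonneg (c2 w).2]
  · rw [Prod.norm_def]
    apply max_le <;> apply key <;> unfold Q0 <;> nlinarith [sq_nonneg (c1 w).1, sq_nonneg (c1 w).2,
      sq_nonneg (c2 w).1, sq_nonneg (c2 w).2]

lemma w_norm_le (w : E × E) : ‖w‖ ≤ (1 + mu) * Real.sqrt (Q0 w) := by
  obtain ⟨h1, h2⟩ := c_norm_le w
  have h3 := Real.sqrt_nonneg (Q0 w)
  have h4 := mui_lt
  have h5 := mui_pos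
  have h6 := mu_bounds.1
  conv_lhs => rw [← wi_c w]
  unfold wi
  rw [Prod.norm_def]
  apply max_le
  · refine (norm_add_le _ _).trans ?_
    rw [norm_smul, Real.norm_of_nonneg mu_pos.le]
    nlinarith
  · refine (norm_add_le _ _).trans ?_
    rw [norm_smul, Real.norm_of_nonneg h5.le]
    nlinarith [norm_nonneg (c2 w)]

lemma c2_norm_le_norm (w : E × E) : ‖c2 w‖ ≤ 2 / (mu - mui) * ‖w‖ := by
  have h := mu_sub_pos
  rw [c2_apply, norm_smul, norm_inv, Real.norm_of_nonneg h.le]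
  have h1 : ‖w.1 - w.2‖ ≤ 2 * ‖w‖ := by
    have := norm_sub_le w.1 w.2
    have := norm_fst_le w
    have := norm_snd_le w
    linarith
  calc (mu - mui)⁻¹ * ‖w.1 - w.2‖ ≤ (mu - mui)⁻¹ * (2 * ‖w‖) := by gcongr
    _ = _ := by ring

lemma c_norm_le_norm (w : E × E) : ‖c1 w‖ ≤ 4 * ‖w‖ ∧ ‖c2 w‖ ≤ 4 * ‖w‖ := by
  have h := mu_sub_pos
  have h1 := c2_norm_le_norm w
  have hw := norm_nonneg w
  have h5 := mui_lt
  have h6 := mu_bounds.1
  have h7 : 2 / (mu - mui) ≤ 1 := by
    rw [div_le_one h]; linarith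
  have h8 : mu * (2 / (mu - mui)) ≤ 3 := by
    rw [← mul_div_assoc, div_le_iff₀ h]; linarith
  constructor
  · rw [c1_apply]
    refine (norm_sub_le _ _).trans ?_
    rw [norm_smul, Real.norm_of_nonneg mu_pos.le]
    have h9 := norm_fst_le w
    have h10 : mu * ‖c2 w‖ ≤ mu * (2 / (mu - mui) * ‖w‖) := by gcongr
    nlinarith
  · nlinarith

lemma Q0_le_norm (w : E × E) : Q0 w ≤ 64 * ‖w‖ ^ 2 := by
  obtain ⟨h1, h2⟩ := c_norm_le_norm w
  have key : ∀ x : ℝ, |x| ≤ 4 * ‖w‖ → x ^ 2 ≤ 16 * ‖w‖ ^ 2 := fun x hx => by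
    have := abs_le_abs_of_nonneg (abs_nonneg x) hx
    rw [← sq_abs]
    nlinarith [abs_nonneg x]
  have k1 := key _ ((norm_fst_le (c1 w)).trans h1)
  have k2 := key _ ((norm_snd_le (c1 w)).trans h1)
  have k3 := key _ ((norm_fst_le (c2 w)).trans h2)
  have k4 := key _ ((norm_snd_le (c2 w)).trans h2)
  unfold Q0
  linarith

/-! ### The lattice and the reduction -/

/-- the integer vector as a real vector -/
def iv (p : ℤ × ℤ) : E := (p.1, p.2)

/-- lattice vectors in the fibre -/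
noncomputable def lat (p q : ℤ × ℤ) : E × E := wi (iv p) (iv q)

/-- rounding -/
noncomputable def rz (e : E) : ℤ × ℤ := (round e.1, round e.2)

lemma rz_add (e : E) (p : ℤ × ℤ) : rz (e + iv p) = rz e + p := by
  unfold rz iv
  ext <;> simp [round_add_intCast]

lemma iv_add (p q : ℤ × ℤ) : iv (p + q) = iv p + iv q := by unfold iv; ext <;> simp

/-- the nearest lattice vector -/
noncomputable def lw (w : E × E) : E × E := lat (rz (c1 w)) (rz (c2 w))

/-- the reduced vector -/
noncomputable def u (w : E × E) : E × E := w - lw w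

lemma c_lat (p q : ℤ × ℤ) : c2 (lat p q) = iv q ∧ c1 (lat p q) = iv p := c_wi _ _

lemma lw_add (w : E × E) (p q : ℤ × ℤ) : lw (w + lat p q) = lw w + lat p q := by
  unfold lw
  rw [map_add, map_add, (c_lat p q).1, (c_lat p q).2, rz_add, rz_add]
  unfold lat
  rw [iv_add, iv_add, wi_add]

lemma u_add (w : E × E) (p q : ℤ × ℤ) : u (w + lat p q) = u w := by
  unfold u; rw [lw_add]; abel

lemma round_eq_of_abs {x : ℝ} {m : ℤ} (h : |x - m| < 1 / 2) : round x = m := by
  rw [round_eq, Int.floor_eq_iff]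
  rw [abs_lt] at h
  constructor <;> linarith [h.1, h.2]

/-- all standard coordinates are small -/
def Sm (r : ℝ) (w : E × E) : Prop := ‖c1 w‖ < r ∧ ‖c2 w‖ < r

lemma rz_iv_add {p : ℤ × ℤ} {e : E} (h : ‖e‖ < 1 / 2) : rz (iv p + e) = p := by
  have h1 := (norm_fst_le e).trans_lt h
  have h2 := (norm_snd_le e).trans_lt h
  unfold rz iv
  ext
  · simp only [Prod.fst_add]
    apply round_eq_of_abs
    rw [add_sub_cancel_left]; exact h1
  · simp only [Prod.snd_add]
    apply round_eq_of_abs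
    rw [add_sub_cancel_left]; exact h2

lemma lw_of_Sm {w : E × E} (h : Sm (1 / 2) w) (p q : ℤ × ℤ) : lw (lat p q + w) = lat p q := by
  unfold lw
  rw [map_add, map_add, (c_lat p q).1, (c_lat p q).2, rz_iv_add h.1, rz_iv_add h.2]

lemma u_of_Sm {w : E × E} (h : Sm (1 / 2) w) (p q : ℤ × ℤ) : u (lat p q + w) = w := by
  unfold u; rw [lw_of_Sm h]; abel

lemma lw_add_u (w : E × E) : lw w + u w = w := by unfold u; abel

/-- the periodic quadratic function -/
noncomputable def Q (w : E × E) : ℝ := Q0 (u w)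

lemma Q_nonneg (w : E × E) : 0 ≤ Q w := Q0_nonneg _

lemma Sm_of_Q0 {r : ℝ} {w : E × E} (hr : 0 < r) (h : Q0 w < r ^ 2) : Sm r w := by
  obtain ⟨h1, h2⟩ := c_norm_le w
  have : Real.sqrt (Q0 w) < r := by rwa [Real.sqrt_lt' hr]
  exact ⟨h1.trans_lt this, h2.trans_lt this⟩

lemma nrm_eq (x : ℝ) : (x - round x) ^ 2 = ‖(x : UnitAddCircle)‖ ^ 2 := by
  rw [UnitAddCircle.norm_eq, sq_abs]

lemma Q_eq (w : E × E) : Q w = ‖((c1 w).1 : UnitAddCircle)‖ ^ 2 + ‖((c1 w).2 : UnitAddCircle)‖ ^ 2 +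
    ‖((c2 w).1 : UnitAddCircle)‖ ^ 2 + ‖((c2 w).2 : UnitAddCircle)‖ ^ 2 := by
  unfold Q Q0 u lw
  rw [map_sub, map_sub, (c_lat _ _).1, (c_lat _ _).2]
  unfold iv rz
  simp only [Prod.fst_sub, Prod.snd_sub]
  rw [nrm_eq, nrm_eq, nrm_eq, nrm_eq]

lemma continuous_Q : Continuous Q := by
  have e : Q = fun w => ‖((c1 w).1 : UnitAddCircle)‖ ^ 2 + ‖((c1 w).2 : UnitAddCircle)‖ ^ 2 +
    ‖((c2 w).1 : UnitAddCircle)‖ ^ 2 + ‖((c2 w).2 : UnitAddCircle)‖ ^ 2 := funext Q_eq
  rw [e]
  have h : ∀ f : E × E → ℝ, Continuous f → Continuous fun w => ‖(f w : UnitAddCircle)‖ ^ 2 :=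
    fun f hf => ((AddCircle.continuous_mk' 1).comp hf).norm.pow 2
  exact (((h _ (continuous_fst.comp c1.continuous)).add
    (h _ (continuous_snd.comp c1.continuous))).add
    (h _ (continuous_fst.comp c2.continuous))).add (h _ (continuous_snd.comp c2.continuous))

lemma Q_add (w : E × E) (p q : ℤ × ℤ) : Q (w + lat p q) = Q w := by unfold Q; rw [u_add]

lemma eventually_u {w : E × E} (h : Q w < 1 / 16) : ∀ᶠ w' in 𝓝 w, u w' = w' - lw w := by
  have h1 : Sm (1 / 4) (u w) := Sm_of_Q0 (by norm_num) (by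
    have : Q0 (u w) = Q w := rfl
    rw [this]; norm_num; linarith)
  have h2 : ∀ᶠ w' in 𝓝 w, Sm (1 / 2) (w' - lw w) := by
    have c3 : Continuous fun w' : E × E => ‖c1 (w' - lw w)‖ := by fun_prop
    have c4 : Continuous fun w' : E × E => ‖c2 (w' - lw w)‖ := by fun_prop
    have h3 : ‖c1 (w - lw w)‖ < 1 / 2 := h1.1.trans (by norm_num)
    have h4 : ‖c2 (w - lw w)‖ < 1 / 2 := h1.2.trans (by norm_num)
    filter_upwards [c3.continuousAt.eventually (eventually_lt_nhds h3),
      c4.continuousAt.eventually (eventually_lt_nhds h4)] with w' h5 h6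
    exact ⟨h5, h6⟩
  filter_upwards [h2] with w' hw'
  have := u_of_Sm hw' (rz (c1 w)) (rz (c2 w))
  have e : lat (rz (c1 w)) (rz (c2 w)) = lw w := rfl
  rw [e, add_sub_cancel] at this
  exact this

/-! ### The linear maps on the fibre -/

/-- the eigenvalue of the map number `b` -/
noncomputable def nu (b : Bool) : ℝ := if b then mu else 1
/-- its inverse -/
noncomputable def nui (b : Bool) : ℝ := if b then mui else 1

lemma nu_mul_nui (b : Bool) : nu b * nui b = 1 := by
  cases b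
  · simp [nu, nui]
  · simp only [nu, nui, if_true]; exact mu_mul_mui

lemma nu_pos (b : Bool) : 0 < nu b := by
  cases b
  · simp [nu]
  · simp only [nu, if_true]; exact mu_pos

lemma nui_pos (b : Bool) : 0 < nui b := by
  cases b
  · simp [nui]
  · simp only [nui, if_true]; exact mui_pos

/-- the linear map on the fibre -/
noncomputable def Lw (b : Bool) (w : E × E) : E × E := (nu b • w.1, nui b • w.2)

lemma Lw_add (b : Bool) (w w' : E × E) : Lw b (w + w') = Lw b w + Lw b w' := by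
  unfold Lw; ext <;> simp

lemma Lw_wi (b : Bool) (x y : E) :
    Lw b (wi x y) = if b then wi (-y) (x + TT • y) else wi x y := by
  cases b
  · simp [Lw, nu, nui]
  · simp only [Lw, nu, nui, if_true, wi]
    have h1 := mu_sq
    have h2 := mui_sq
    refine Prod.ext ?_ ?_
    · ext
      · simp; linear_combination y.1 * h1
      · simp; linear_combination y.2 * h1
    · ext
      · simp; linear_combination y.1 * h2
      · simp; linear_combination y.2 * h2

lemma c_Lw (b : Bool) (w : E × E) :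
    c1 (Lw b w) = (if b then -c2 w else c1 w) ∧
      c2 (Lw b w) = (if b then c1 w + TT • c2 w else c2 w) := by
  have h := Lw_wi b (c1 w) (c2 w)
  rw [wi_c] at h
  rw [h]
  cases b
  · exact ⟨rfl, rfl⟩
  · exact ⟨(c_wi _ _).2, (c_wi _ _).1⟩

/-- action on the lattice -/
lemma Lw_lat (b : Bool) (p q : ℤ × ℤ) :
    Lw b (lat p q) = if b then lat (-q) (p + 200000 • q) else lat p q := by
  unfold lat
  rw [Lw_wi]
  cases b
  · rfl
  · simp only [if_true]
    congr 1
    · unfold iv; ext <;> simp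
    · unfold iv TT; ext <;> simp

lemma Q_Lw_le (b : Bool) (w : E × E) : Q (Lw b w) ≤ 10 ^ 12 * Q w := by
  rw [Q_eq, Q_eq, (c_Lw b w).1, (c_Lw b w).2]
  cases b
  · simp only [Bool.false_eq_true, if_false]
    have := sq_nonneg ‖((c1 w).1 : UnitAddCircle)‖
    have := sq_nonneg ‖((c1 w).2 : UnitAddCircle)‖
    have := sq_nonneg ‖((c2 w).1 : UnitAddCircle)‖
    have := sq_nonneg ‖((c2 w).2 : UnitAddCircle)‖
    nlinarith
  · simp only [if_true]
    have key : ∀ a b : ℝ, ‖((a + TT * b : ℝ) : UnitAddCircle)‖ ^ 2 ≤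
        2 * ‖(a : UnitAddCircle)‖ ^ 2 + 8 * 10 ^ 10 * ‖(b : UnitAddCircle)‖ ^ 2 := by
      intro a b
      have e : ((a + TT * b : ℝ) : UnitAddCircle) = (a : UnitAddCircle) +
          (200000 : ℕ) • (b : UnitAddCircle) := by
        rw [AddCircle.coe_add]
        congr 1
        rw [← AddCircle.coe_nsmul]
        congr 1
        unfold TT; simp
      rw [e]
      have h1 : ‖(200000 : ℕ) • (b : UnitAddCircle)‖ ≤ 200000 * ‖(b : UnitAddCircle)‖ := by
        have := norm_nsmul_le (n := 200000) (a := (b : UnitAddCircle))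
        simpa using this
      have h2 := (norm_add_le (a : UnitAddCircle) ((200000 : ℕ) • (b : UnitAddCircle))).trans
        (add_le_add le_rfl h1)
      have h3 := norm_nonneg (a : UnitAddCircle)
      have h4 := norm_nonneg (b : UnitAddCircle)
      calc _ ≤ (‖(a : UnitAddCircle)‖ + 200000 * ‖(b : UnitAddCircle)‖) ^ 2 := by gcongr
        _ ≤ _ := by nlinarith [sq_nonneg (‖(a : UnitAddCircle)‖ - 200000 * ‖(b : UnitAddCircle)‖)]
    have k1 := key (c1 w).1 (c2 w).1
    have k2 := key (c1 w).2 (c2 w).2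
    have e1 : (((-c2 w).1 : ℝ) : UnitAddCircle) = -((c2 w).1 : UnitAddCircle) := by simp
    have e2 : (((-c2 w).2 : ℝ) : UnitAddCircle) = -((c2 w).2 : UnitAddCircle) := by simp
    have e3 : (c1 w + TT • c2 w).1 = (c1 w).1 + TT * (c2 w).1 := rfl
    have e4 : (c1 w + TT • c2 w).2 = (c1 w).2 + TT * (c2 w).2 := rfl
    rw [e1, e2, e3, e4, norm_neg, norm_neg]
    have := sq_nonneg ‖((c1 w).1 : UnitAddCircle)‖
    have := sq_nonneg ‖((c1 w).2 : UnitAddCircle)‖
    have := sq_nonneg ‖((c2 w).1 : UnitAddCircle)‖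
    have := sq_nonneg ‖((c2 w).2 : UnitAddCircle)‖
    nlinarith

lemma Q_le_Lw (b : Bool) (w : E × E) : Q w ≤ 10 ^ 12 * Q (Lw b w) := by
  have h1 := c_Lw b w
  rw [Q_eq w, Q_eq (Lw b w)]
  cases b
  · simp only [Bool.false_eq_true, if_false] at h1
    rw [h1.1, h1.2]
    have := sq_nonneg ‖((c1 w).1 : UnitAddCircle)‖
    have := sq_nonneg ‖((c1 w).2 : UnitAddCircle)‖
    have := sq_nonneg ‖((c2 w).1 : UnitAddCircle)‖
    have := sq_nonneg ‖((c2 w).2 : UnitAddCircle)‖
    nlinarith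
  · simp only [if_true] at h1
    have a1 : c2 w = -c1 (Lw true w) := by rw [h1.1, neg_neg]
    have a2 : c1 w = c2 (Lw true w) + TT • c1 (Lw true w) := by
      rw [h1.2, h1.1, smul_neg]; abel
    rw [a1, a2]
    generalize c1 (Lw true w) = y
    generalize c2 (Lw true w) = x
    have key : ∀ a b : ℝ, ‖((a + TT * b : ℝ) : UnitAddCircle)‖ ^ 2 ≤
        2 * ‖(a : UnitAddCircle)‖ ^ 2 + 8 * 10 ^ 10 * ‖(b : UnitAddCircle)‖ ^ 2 := by
      intro a b
      have e : ((a + TT * b : ℝ) : UnitAddCircle) = (a : UnitAddCircle) +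
          (200000 : ℕ) • (b : UnitAddCircle) := by
        rw [AddCircle.coe_add]
        congr 1
        rw [← AddCircle.coe_nsmul]
        congr 1
        unfold TT; simp
      rw [e]
      have h1 : ‖(200000 : ℕ) • (b : UnitAddCircle)‖ ≤ 200000 * ‖(b : UnitAddCircle)‖ := by
        have := norm_nsmul_le (n := 200000) (a := (b : UnitAddCircle))
        simpa using this
      have h2 := (norm_add_le (a : UnitAddCircle) ((200000 : ℕ) • (b : UnitAddCircle))).trans
        (add_le_add le_rfl h1)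
      have h3 := norm_nonneg (a : UnitAddCircle)
      have h4 := norm_nonneg (b : UnitAddCircle)
      calc _ ≤ (‖(a : UnitAddCircle)‖ + 200000 * ‖(b : UnitAddCircle)‖) ^ 2 := by gcongr
        _ ≤ _ := by nlinarith [sq_nonneg (‖(a : UnitAddCircle)‖ - 200000 * ‖(b : UnitAddCircle)‖)]
    have k1 := key x.1 y.1
    have k2 := key x.2 y.2
    have e1 : (((-y).1 : ℝ) : UnitAddCircle) = -(y.1 : UnitAddCircle) := by simp
    have e2 : (((-y).2 : ℝ) : UnitAddCircle) = -(y.2 : UnitAddCircle) := by simp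
    have e3 : (x + TT • y).1 = x.1 + TT * y.1 := rfl
    have e4 : (x + TT • y).2 = x.2 + TT * y.2 := rfl
    rw [e1, e2, e3, e4, norm_neg, norm_neg]
    have := sq_nonneg ‖(x.1 : UnitAddCircle)‖
    have := sq_nonneg ‖(x.2 : UnitAddCircle)‖
    have := sq_nonneg ‖(y.1 : UnitAddCircle)‖
    have := sq_nonneg ‖(y.2 : UnitAddCircle)‖
    nlinarith

/-- near the lattice the reduction commutes with the linear map -/
lemma u_Lw (b : Bool) {w : E × E} (h : Q w < 1 / 10 ^ 13) : u (Lw b w) = Lw b (u w) := by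
  have h0 : Q0 (u w) < (1 / (3 * 10 ^ 6)) ^ 2 := by
    have : Q0 (u w) = Q w := rfl
    rw [this]
    refine h.trans ?_
    norm_num
  have h1 : Sm (1 / (3 * 10 ^ 6)) (u w) := Sm_of_Q0 (by norm_num) h0
  have e : Lw b w = Lw b (lw w) + Lw b (u w) := by rw [← Lw_add, lw_add_u]
  have h2 : Sm (1 / 2) (Lw b (u w)) := by
    obtain ⟨a1, a2⟩ := c_Lw b (u w)
    unfold Sm
    rw [a1, a2]
    obtain ⟨h3, h4⟩ := h1
    cases b
    · simp only [Bool.false_eq_true, if_false]
      exact ⟨h3.trans (by norm_num), h4.trans (by norm_num)⟩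
    · simp only [if_true]
      refine ⟨by rw [norm_neg]; exact h4.trans (by norm_num), ?_⟩
      refine (norm_add_le _ _).trans_lt ?_
      rw [norm_smul]
      have : ‖TT‖ = 200000 := by unfold TT; norm_num
      rw [this]
      have := norm_nonneg (c2 (u w))
      linarith
  rw [e]
  unfold lw
  rw [Lw_lat]
  cases b
  · simp only [Bool.false_eq_true, if_false]
    exact u_of_Sm h2 _ _
  · simp only [if_true]
    exact u_of_Sm h2 _ _

end Pool.Agent.H57.Cen
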