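import Pool.Agent.H57.Cen.Rat

/-!
# The conjugated maps and their derivatives
-/

namespace Pool.Agent.H57.Cen

open Filter Topology Set

/-- the inverse linear maps -/
noncomputable def LLi (b : Bool) : V →L[ℝ] V :=
  ((Aj (-1)).comp (ContinuousLinearMap.fst ℝ (ℝ × ℝ) (E × E))).prod
    ((nui b • pa).prod (nu b •
      (ContinuousLinearMap.snd ℝ E E).comp (ContinuousLinearMap.snd ℝ (ℝ × ℝ) (E × E))))

lemma LLi_apply (b : Bool) (v : V) :
    LLi b v = (Aj (-1) v.1, (nui b • v.2.1, nu b • v.2.2)) := by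
  unfold LLi
  simp [pa_apply]

lemma LL_LLi (b : Bool) (v : V) : LL b (LLi b v) = v := by
  rw [LLi_apply, LL_apply]
  unfold Lw
  simp only
  have h1 : Ax (Aj (-1) v.1) = v.1 := by rw [← Aj_add_one, neg_add_cancel, Aj_zero]
  rw [h1, smul_smul, smul_smul, nu_mul_nui, mul_comm, nu_mul_nui, one_smul, one_smul]

lemma LLi_LL (b : Bool) (v : V) : LLi b (LL b v) = v := by
  rw [LLi_apply, LL_apply]
  unfold Lw
  simp only
  have h1 : Aj (-1) (Ax v.1) = v.1 := by rw [Aj_Ax, neg_add_cancel, Aj_zero]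
  rw [h1, smul_smul, smul_smul, nu_mul_nui, mul_comm, nu_mul_nui, one_smul, one_smul]

lemma LL_mul_LLi (b : Bool) : LL b * LLi b = 1 :=
  ContinuousLinearMap.ext fun v => LL_LLi b v
lemma LLi_mul_LL (b : Bool) : LLi b * LL b = 1 :=
  ContinuousLinearMap.ext fun v => LLi_LL b v

lemma isUnit_LL (b : Bool) : IsUnit (LL b) := ⟨⟨LL b, LLi b, LL_mul_LLi b, LLi_mul_LL b⟩, rfl⟩

/-- the linear map as a homeomorphism -/
noncomputable def LLh (b : Bool) : V ≃ₜ V where
  toFun := LL b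
  invFun := LLi b
  left_inv := LLi_LL b
  right_inv := LL_LLi b
  continuous_toFun := (LL b).continuous
  continuous_invFun := (LLi b).continuous

/-- the conjugated homeomorphism -/
noncomputable def GG (b : Bool) : V ≃ₜ V := (Hh.symm.trans (LLh b)).trans Hh

lemma GG_apply (b : Bool) (p : V) : GG b p = Hf (LL b (Hh.symm p)) := rfl
lemma GG_symm_apply (b : Bool) (p : V) : (GG b).symm p = Hf (LLi b (Hh.symm p)) := rfl

lemma LL_Gm (b : Bool) (m n : ℤ) (p r : ℤ × ℤ) :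
    ∃ m' n' p' r', LL b (Gm m n p r) = Gm m' n' p' r' := by
  unfold Gm
  rw [LL_apply]
  simp only
  rw [Ax_gam, Lw_lat]
  cases b
  · exact ⟨_, _, _, _, rfl⟩
  · exact ⟨_, _, _, _, rfl⟩

lemma GG_add_Gm (b : Bool) (v : V) (m n : ℤ) (p r : ℤ × ℤ) :
    GG b (v + Gm m n p r) = GG b v + LL b (Gm m n p r) := by
  rw [GG_apply, GG_apply, Hh_symm_add_Gm, map_add]
  obtain ⟨m', n', p', r', h⟩ := LL_Gm b m n p r
  rw [h, Hf_add_Gm]

lemma GG_fst (b : Bool) (p : V) : (GG b p).1 = Ax p.1 := by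
  rw [GG_apply, Hf_fst, LL_apply]
  simp only
  rw [Hh_symm_fst]

lemma GG_snd_snd (b : Bool) (p : V) : (GG b p).2.2 = nui b • p.2.2 := by
  rw [GG_apply, Hf_snd_snd, LL_apply]
  unfold Lw
  simp only
  rw [Hh_symm_snd_snd]

lemma GG_comm (b b' : Bool) (p : V) : GG b (GG b' p) = GG b' (GG b p) := by
  rw [GG_apply, GG_apply, GG_apply, GG_apply]
  have e : ∀ v, Hh.symm (Hf v) = v := fun v => Hh.symm_apply_apply v
  rw [e, e, LL_apply, LL_apply, LL_apply, LL_apply]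
  unfold Lw
  simp only
  rw [smul_comm (nu b), smul_comm (nui b)]

/-! ### Algebra of the derivative -/

lemma LL_mul_MM (b : Bool) (m : E →L[ℝ] E) : LL b * MM m = MM m * LL b := by
  refine ContinuousLinearMap.ext fun v => ?_
  rw [mul_apply_eq_comp, mul_apply_eq_comp, MM_apply, MM_apply, LL_apply, LL_apply]
  unfold Lw
  simp

lemma LL_norm_le (b : Bool) : ‖LL b‖ ≤ 200001 := by
  apply ContinuousLinearMap.opNorm_le_bound _ (by norm_num)
  intro v
  have hv := norm_nonneg v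
  have a1 := norm_fst_le v
  have a2 := norm_snd_le v
  have a3 := (norm_fst_le v.2).trans a2
  have a4 := (norm_snd_le v.2).trans a2
  have hmu := mu_bounds
  have hmi := mui_lt
  have hmi' := mui_pos
  rw [LL_apply]
  have b1 : ‖Ax v.1‖ ≤ 200001 * ‖v‖ := by
    rw [← Aj_one]
    refine (ContinuousLinearMap.le_opNorm _ _).trans ?_
    have := Aj_norm_le 1
    have h6 : ‖Aj 1‖ ≤ 6 := by simpa using this
    exact mul_le_mul (h6.trans (by norm_num)) a1 (norm_nonneg _) (by norm_num)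
  have b2 : ‖nu b • v.2.1‖ ≤ 200001 * ‖v‖ := by
    rw [norm_smul, Real.norm_of_nonneg (nu_pos b).le]
    refine mul_le_mul ?_ a3 (norm_nonneg _) (by norm_num)
    cases b
    · simp [nu]
    · simp only [nu, if_true]; linarith
  have b3 : ‖nui b • v.2.2‖ ≤ 200001 * ‖v‖ := by
    rw [norm_smul, Real.norm_of_nonneg (nui_pos b).le]
    refine mul_le_mul ?_ a4 (norm_nonneg _) (by norm_num)
    cases b
    · simp [nui]
    · simp only [nui, if_true]; linarith
  exact max_le b1 (max_le b2 b3)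

/-- the derivative at regular points, as a function of the preimage -/
noncomputable def XX (b : Bool) (v : V) : V →L[ℝ] V :=
  DH (LL b v) * LL b * Ring.inverse (DH v)

/-- the model derivative -/
noncomputable def LN (b : Bool) (v : V) : V →L[ℝ] V := LL b * MM (NN b v)

lemma norm_one_leV : ‖(1 : V →L[ℝ] V)‖ ≤ 1 := ContinuousLinearMap.norm_id_le

lemma ring_aux (e m l r f n : V →L[ℝ] V) (hf : f = 1 - r * f) :
    (1 + e) * m * l * (f * n) - m * l * n = e * (m * l * n) - (1 + e) * m * l * r * f * n := by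
  have h1 : f * n = n - r * f * n := by
    conv_lhs => rw [hf]
    rw [sub_mul, one_mul]
  have h2 : (1 + e) * m * l * (f * n) = (1 + e) * m * l * n - (1 + e) * m * l * r * f * n := by
    rw [h1, mul_sub]
    simp only [mul_assoc]
  rw [h2]
  simp only [add_mul, one_mul, mul_assoc]
  abel

lemma XX_close (b : Bool) {v : V} (h : q v ≠ 0) :
    ‖XX b v - LN b v‖ ≤ 1 / (10 ^ 41 * Kn (⌈tt v⌉₊ + 5) ^ 4) := by
  have h' := (q_LL_ne b).2 h
  obtain ⟨_, _, h3⟩ := tt_LL b h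
  have hK1 : 1 ≤ Kn (⌈tt v⌉₊ + 5) := one_le_Kn _
  have hKa := Kn_mono (show ⌈tt v⌉₊ + 5 ≤ ⌈tt v⌉₊ + 6 by omega)
  have hKb := Kn_mono (show ⌈tt v⌉₊ + 5 ≤ ⌈tt (LL b v)⌉₊ + 6 by omega)
  have hc : ⌈tt (LL b v)⌉₊ ≤ ⌈tt v⌉₊ + 1 := Nat.ceil_le.2 (ceil_LL_le b h)
  have hEr := Er_norm_le h
  have hEl := El_norm_le h'
  set K := Kn (⌈tt v⌉₊ + 5) with hK
  have c1 : ‖Er v‖ ≤ 1 / (10 ^ 50 * K ^ 6) := hEr.trans (by
    apply div_le_div_of_nonneg_left (by norm_num) (by positivity); gcongr)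
  have c2 : ‖El (LL b v)‖ ≤ 1 / (10 ^ 50 * K ^ 6) := hEl.trans (by
    apply div_le_div_of_nonneg_left (by norm_num) (by positivity); gcongr)
  have c3 : ‖MM (M (LL b v))‖ ≤ K := (MMM_norm_le _).trans (Kn_mono (by omega))
  have c4 : ‖MM (Mi v)‖ ≤ K := (MMMi_norm_le _).trans (Kn_mono (by omega))
  have hu := one_add_isUnit (Er_small h)
  set F := Ring.inverse (1 + Er v) with hF
  have hF1 : (1 + Er v) * F = 1 := Ring.mul_inverse_cancel _ hu
  have hF2 : F * (1 + Er v) = 1 := Ring.inverse_mul_cancel _ hu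
  have hF3 : F = 1 - Er v * F := by
    rw [add_mul, one_mul] at hF1
    rw [← hF1]; abel
  have hFn : ‖F‖ ≤ 2 := by
    have a1 : ‖F‖ ≤ ‖(1 : V →L[ℝ] V)‖ + ‖Er v‖ * ‖F‖ := by
      conv_lhs => rw [hF3]
      exact (norm_sub_le _ _).trans (add_le_add le_rfl (norm_mul_le _ _))
    have a2 := Er_small h
    have a3 := norm_one_leV
    have a4 := norm_nonneg F
    nlinarith
  have hinv : Ring.inverse (DH v) = F * MM (Mi v) := by
    have e1 : DH v * (F * MM (Mi v)) = 1 := by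
      rw [DH_eq_r, mul_assoc, ← mul_assoc (1 + Er v), hF1, one_mul, MM_mul, M_mul_Mi, MM_one]
    have e2 : (F * MM (Mi v)) * DH v = 1 := by
      rw [DH_eq_r, mul_assoc, ← mul_assoc (MM (Mi v)), MM_mul, Mi_mul_M, MM_one, one_mul, hF2]
    exact Ring.inverse_unit ⟨DH v, F * MM (Mi v), e1, e2⟩
  have hX : XX b v - LN b v = El (LL b v) * (LL b * MM (NN b v)) -
      (1 + El (LL b v)) * MM (M (LL b v)) * LL b * Er v * F * MM (Mi v) := by
    have e0 : MM (M (LL b v)) * LL b * MM (Mi v) = LL b * MM (NN b v) := by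
      rw [← LL_mul_MM, mul_assoc, MM_mul, NN_of_ne b h]
    unfold XX LN
    rw [hinv, DH_eq_l (LL b v), ← e0]
    exact ring_aux (El (LL b v)) (MM (M (LL b v))) (LL b) (Er v) F (MM (Mi v)) hF3
  have hL := LL_norm_le b
  have hN : ‖MM (NN b v)‖ ≤ 2601 := MM_norm_le (NN_norm_le b v) (by norm_num)
  rw [hX]
  have d0 : ‖1 + El (LL b v)‖ ≤ 2 := by
    refine (norm_add_le _ _).trans ?_
    have a3 := norm_one_leV
    have a4 : ‖El (LL b v)‖ ≤ 1 := c2.trans (by
      rw [div_le_one (by positivity)]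
      have : (1 : ℝ) ≤ K ^ 6 := one_le_pow₀ hK1
      nlinarith)
    linarith
  have d1 : ‖El (LL b v) * (LL b * MM (NN b v))‖ ≤ 1 / (10 ^ 50 * K ^ 6) * (200001 * 2601) := by
    refine (norm_mul_le _ _).trans ?_
    refine mul_le_mul c2 ?_ (norm_nonneg _) (by positivity)
    refine (norm_mul_le _ _).trans ?_
    exact mul_le_mul hL hN (norm_nonneg _) (by norm_num)
  have d2 : ‖(1 + El (LL b v)) * MM (M (LL b v)) * LL b * Er v * F * MM (Mi v)‖ ≤
      2 * K * 200001 * (1 / (10 ^ 50 * K ^ 6)) * 2 * K := by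
    have n1 : ‖(1 + El (LL b v)) * MM (M (LL b v))‖ ≤ 2 * K :=
      (norm_mul_le _ _).trans (mul_le_mul d0 c3 (norm_nonneg _) (by norm_num))
    have n2 : ‖(1 + El (LL b v)) * MM (M (LL b v)) * LL b‖ ≤ 2 * K * 200001 :=
      (norm_mul_le _ _).trans (mul_le_mul n1 hL (norm_nonneg _) (by positivity))
    have n3 : ‖(1 + El (LL b v)) * MM (M (LL b v)) * LL b * Er v‖ ≤
        2 * K * 200001 * (1 / (10 ^ 50 * K ^ 6)) :=
      (norm_mul_le _ _).trans (mul_le_mul n2 c1 (norm_nonneg _) (by positivity))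
    have n4 : ‖(1 + El (LL b v)) * MM (M (LL b v)) * LL b * Er v * F‖ ≤
        2 * K * 200001 * (1 / (10 ^ 50 * K ^ 6)) * 2 :=
      (norm_mul_le _ _).trans (mul_le_mul n3 hFn (norm_nonneg _) (by positivity))
    exact (norm_mul_le _ _).trans (mul_le_mul n4 c4 (norm_nonneg _) (by positivity))
  have hK2 : (1 : ℝ) ≤ K ^ 2 := one_le_pow₀ hK1
  calc _ ≤ _ := norm_sub_le _ _
    _ ≤ 1 / (10 ^ 50 * K ^ 6) * (200001 * 2601) +
        2 * K * 200001 * (1 / (10 ^ 50 * K ^ 6)) * 2 * K := add_le_add d1 d2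
    _ = (200001 * 2601 + 800004 * K ^ 2) * (1 / (10 ^ 50 * K ^ 6)) := by ring
    _ ≤ (10 ^ 9 * K ^ 2) * (1 / (10 ^ 50 * K ^ 6)) := by
        apply mul_le_mul_of_nonneg_right _ (by positivity)
        nlinarith
    _ = 1 / (10 ^ 41 * K ^ 4) := by field_simp

end Pool.Agent.H57.Cen
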