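import Pool.Agent.H57.Cen.Gd

/-!
# The conjugated maps are `C^1` diffeomorphisms
-/

namespace Pool.Agent.H57.Cen

open Filter Topology Set

lemma hasFDerivAt_symm {p : V} (h : q (Hh.symm p) ≠ 0) :
    HasFDerivAt Hh.symm (Ring.inverse (DH (Hh.symm p))) p := by
  have hu := isUnit_DH h
  have h1 := hasFDerivAt_Hf h
  have e1 : ((ContinuousLinearEquiv.unitsEquiv ℝ V hu.unit : V ≃L[ℝ] V) : V →L[ℝ] V) =
      DH (Hh.symm p) := rfl
  rw [← e1] at h1
  have h2 := HasFDerivAt.of_local_left_inverse (g := Hh.symm) (a := p)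
    Hh.symm.continuous.continuousAt h1 (Eventually.of_forall fun y => Hh.apply_symm_apply y)
  refine h2.congr_fderiv ?_
  have e2 : Ring.inverse (DH (Hh.symm p)) = ((hu.unit⁻¹ : (V →L[ℝ] V)ˣ) : V →L[ℝ] V) :=
    Ring.inverse_unit hu.unit
  rw [e2]
  rfl

lemma hasFDerivAt_GG_ne (b : Bool) {p : V} (h : q (Hh.symm p) ≠ 0) :
    HasFDerivAt (GG b) (XX b (Hh.symm p)) p := by
  have h1 := hasFDerivAt_symm h
  have h2 : HasFDerivAt (LL b) (LL b) (Hh.symm p) := (LL b).hasFDerivAt
  have h3 := hasFDerivAt_Hf ((q_LL_ne b).2 h)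
  have h4 : HasFDerivAt (fun p => LL b (Hh.symm p))
      ((LL b).comp (Ring.inverse (DH (Hh.symm p)))) p := h2.comp p h1
  have h5 := HasFDerivAt.comp (g := Hf) p h3 h4
  exact h5

lemma symm_of_zero {p : V} (h : q p = 0) : Hh.symm p = p := by
  apply Hh.injective
  rw [Hh.apply_symm_apply, Hh_apply, Hf_of_q_zero h]

lemma q_symm_eq_zero {p : V} : q (Hh.symm p) = 0 ↔ q p = 0 := by
  constructor
  · intro h
    have h1 := Hf_of_q_zero h
    rw [← Hh_apply, Hh.apply_symm_apply] at h1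
    rwa [← h1] at h
  · intro h
    rw [symm_of_zero h]; exact h

/-- local formula near the singular set -/
lemma GG_local (b : Bool) {v₀ : V} (h : q v₀ = 0) :
    ∀ᶠ p in 𝓝 v₀, GG b p = GG b v₀ + LN b (Hh.symm p) (p - v₀) := by
  have h0 := symm_of_zero h
  have hc : Tendsto Hh.symm (𝓝 v₀) (𝓝 v₀) := by
    have := Hh.symm.continuous.tendsto v₀
    rwa [h0] at this
  have hu0 := u_eq_zero (Q_of_q_zero h).1
  have hlw0 : lw v₀.2 = v₀.2 := by
    have := lw_add_u v₀.2
    rw [hu0, add_zero] at this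
    exact this
  have hQ0 : Q v₀.2 < 1 / 16 := by rw [(Q_of_q_zero h).1]; norm_num
  have h1 : ∀ᶠ p in 𝓝 v₀, u (Hh.symm p).2 = (Hh.symm p).2 - lw v₀.2 :=
    hc.eventually ((continuous_snd.tendsto v₀).eventually (eventually_u hQ0))
  have h2 : ∀ᶠ p in 𝓝 v₀, Q (Hh.symm p).2 < 1 / 10 ^ 13 := by
    have h3 : Tendsto (fun p : V => Q (Hh.symm p).2) (𝓝 v₀) (𝓝 (Q v₀.2)) :=
      ((continuous_Q.comp continuous_snd).tendsto v₀).comp hc
    rw [(Q_of_q_zero h).1] at h3
    exact h3.eventually (eventually_lt_nhds (by norm_num))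
  have hG0 : GG b v₀ = LL b v₀ := by
    rw [GG_apply, h0]
    apply Hf_of_q_zero
    by_contra hcon
    exact (q_LL_ne b).1 hcon h
  have h3 : lw (Lw b v₀.2) = Lw b v₀.2 := by
    rw [← hlw0]
    unfold lw
    rw [Lw_lat]
    cases b
    · simp only [Bool.false_eq_true, if_false]
      have := lw_of_Sm (w := 0) (p := rz (c1 v₀.2)) (q := rz (c2 v₀.2)) (by
        unfold Sm; simp)
      rw [add_zero] at this
      exact this
    · simp only [if_true]
      have := lw_of_Sm (w := 0) (p := -rz (c2 v₀.2)) (q := rz (c1 v₀.2) + 200000 • rz (c2 v₀.2)) (by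
        unfold Sm; simp)
      rw [add_zero] at this
      exact this
  filter_upwards [h1, h2] with p a1 a2
  set v := Hh.symm p with hv
  have hp : p = Hf v := by rw [hv, ← Hh_apply, Hh.apply_symm_apply]
  have hu1 : u (Lw b v.2) = Lw b (u v.2) := u_Lw b a2
  have hlv : lw v.2 = v₀.2 := by
    have := lw_add_u v.2
    rw [a1, hlw0] at this
    have h4 : lw v.2 = v.2 - (v.2 - v₀.2) := by
      conv_rhs => lhs; rw [← this]
      abel
    rw [h4]; abel
  have hlL : lw (Lw b v.2) = Lw b v₀.2 := by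
    have h5 := lw_add_u (Lw b v.2)
    rw [hu1] at h5
    have h6 : Lw b v.2 = Lw b v₀.2 + Lw b (u v.2) := by
      rw [← Lw_add, ← hlv, lw_add_u]
    rw [h6] at h5
    have h7 := add_right_cancel h5
    rw [h6]
    exact h7
  have e1 : (Hf v).2 = v₀.2 + (M v (u v.2).1, (u v.2).2) := by rw [Hf_snd, hlv]
  have e2 : (GG b p).2 = Lw b v₀.2 + (M (LL b v) (nu b • (u v.2).1), nui b • (u v.2).2) := by
    rw [GG_apply, ← hv, Hf_snd]
    have : (LL b v).2 = Lw b v.2 := by rw [LL_apply]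
    rw [this, hlL, hu1]
    rfl
  have e3 : (p - v₀).2 = (M v (u v.2).1, (u v.2).2) := by
    rw [Prod.snd_sub, hp, e1]; abel
  have e4 : NN b v (M v (u v.2).1) = M (LL b v) (u v.2).1 := by
    by_cases hq : q v = 0
    · have hq' : q (LL b v) = 0 := by
        by_contra hcon; exact (q_LL_ne b).1 hcon hq
      rw [u_eq_zero (Q_of_q_zero hq).1]
      simp
    · rw [NN_of_ne b hq, mul_apply_eq_comp, Mi_M_apply]
  refine Prod.ext ?_ ?_
  · rw [GG_fst, Prod.fst_add, GG_fst]
    unfold LN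
    rw [mul_apply_eq_comp, MM_apply, LL_apply]
    rw [← Aj_one, ← Aj_one, ← Aj_one, Prod.fst_sub, map_sub]
    exact (add_sub_cancel _ _).symm
  · rw [Prod.snd_add, e2, hG0]
    have e5 : (LL b v₀).2 = Lw b v₀.2 := by rw [LL_apply]
    rw [e5]
    congr 1
    unfold LN
    have e6 : (p - v₀).2.1 = M v (u v.2).1 := by rw [e3]
    have e7 : (p - v₀).2.2 = (u v.2).2 := by rw [e3]
    have e8 : ∀ (y : ℝ × ℝ) (α β : E), (LL b (y, (α, β))).2 = (nu b • α, nui b • β) := by
      intro y α β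
      rw [LL_apply]; rfl
    rw [mul_apply_eq_comp, MM_apply, e6, e7, e4, e8, map_smul]

lemma continuousAt_LN_zero (b : Bool) {v₀ : V} (h : q v₀ = 0) : ContinuousAt (LN b) v₀ := by
  unfold LN MM
  have h1 := continuousAt_NN_zero b h
  have h2 : ContinuousAt (fun v => 1 + ia.comp ((NN b v - 1).comp pa)) v₀ :=
    continuousAt_const.add
      (continuousAt_const.clm_comp ((h1.sub continuousAt_const).clm_comp continuousAt_const))
  exact continuousAt_const.mul h2

lemma tendsto_symm_zero {v₀ : V} (h : q v₀ = 0) : Tendsto Hh.symm (𝓝 v₀) (𝓝 v₀) := by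
  have := Hh.symm.continuous.tendsto v₀
  rwa [symm_of_zero h] at this

lemma hasFDerivAt_GG_zero (b : Bool) {v₀ : V} (h : q v₀ = 0) :
    HasFDerivAt (GG b) (LN b v₀) v₀ := by
  rw [hasFDerivAt_iff_isLittleO]
  have h1 := (continuousAt_LN_zero b h).tendsto.comp (tendsto_symm_zero h)
  have h2 : (fun p => GG b p - GG b v₀ - LN b v₀ (p - v₀)) =ᶠ[𝓝 v₀]
      fun p => (LN b (Hh.symm p) - LN b v₀) (p - v₀) := by
    filter_upwards [GG_local b h] with p hp
    rw [hp, sub_apply]
    abel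
  refine Asymptotics.IsLittleO.congr' ?_ h2.symm (Eventually.of_forall fun _ => rfl)
  rw [Asymptotics.isLittleO_iff]
  intro ε hε
  have h3 : ∀ᶠ p in 𝓝 v₀, ‖LN b (Hh.symm p) - LN b v₀‖ < ε := by
    have h4 : Tendsto (fun p => ‖LN b (Hh.symm p) - LN b v₀‖) (𝓝 v₀) (𝓝 0) := by
      have := (h1.sub_const (LN b v₀)).norm
      rw [sub_self, norm_zero] at this
      exact this
    exact h4.eventually (eventually_lt_nhds hε)
  filter_upwards [h3] with p hp
  refine (ContinuousLinearMap.le_opNorm _ _).trans ?_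
  gcongr

open Classical in
/-- the derivative field -/
noncomputable def DG (b : Bool) (p : V) : V →L[ℝ] V :=
  if q (Hh.symm p) = 0 then LN b p else XX b (Hh.symm p)

lemma hasFDerivAt_GG (b : Bool) (p : V) : HasFDerivAt (GG b) (DG b p) p := by
  by_cases h : q (Hh.symm p) = 0
  · rw [DG, if_pos h]
    exact hasFDerivAt_GG_zero b (q_symm_eq_zero.1 h)
  · rw [DG, if_neg h]
    exact hasFDerivAt_GG_ne b h

lemma DG_close (b : Bool) (p : V) :
    ‖DG b p - LN b (Hh.symm p)‖ ≤ 1 / 10 ^ 41 := by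
  by_cases h : q (Hh.symm p) = 0
  · rw [DG, if_pos h, symm_of_zero (q_symm_eq_zero.1 h), sub_self, norm_zero]
    norm_num
  · rw [DG, if_neg h]
    refine (XX_close b h).trans ?_
    have hK : (1 : ℝ) ≤ Kn (⌈tt (Hh.symm p)⌉₊ + 5) ^ 4 := one_le_pow₀ (one_le_Kn _)
    apply div_le_div_of_nonneg_left (by norm_num) (by norm_num)
    nlinarith

lemma eventually_DG_close (b : Bool) {v₀ : V} (h : q v₀ = 0) (n : ℕ) :
    ∀ᶠ p in 𝓝 v₀, ‖DG b p - LN b (Hh.symm p)‖ ≤ 1 / (n + 1) := by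
  filter_upwards [(tendsto_symm_zero h).eventually (eventually_tt_ge h n)] with p ht
  by_cases hq : q (Hh.symm p) = 0
  · rw [DG, if_pos hq, symm_of_zero (q_symm_eq_zero.1 hq), sub_self, norm_zero]
    positivity
  · rw [DG, if_neg hq]
    refine (XX_close b hq).trans ?_
    apply div_le_div_of_nonneg_left (by norm_num) (by positivity)
    have b1 := le_Kn (⌈tt (Hh.symm p)⌉₊ + 5)
    have b2 : n ≤ ⌈tt (Hh.symm p)⌉₊ := by
      have := (ht hq).trans (Nat.le_ceil (tt (Hh.symm p)))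
      exact_mod_cast this
    have b3 : (n : ℝ) + 1 ≤ Kn (⌈tt (Hh.symm p)⌉₊ + 5) := by
      refine le_trans ?_ b1
      push_cast
      have : (n : ℝ) ≤ ⌈tt (Hh.symm p)⌉₊ := by exact_mod_cast b2
      linarith
    have b4 : 1 ≤ Kn (⌈tt (Hh.symm p)⌉₊ + 5) := one_le_Kn _
    have b5 : Kn (⌈tt (Hh.symm p)⌉₊ + 5) ≤ Kn (⌈tt (Hh.symm p)⌉₊ + 5) ^ 4 :=
      le_self_pow₀ b4 (by norm_num)
    nlinarith

lemma continuousAt_inverse {v : V} (h : q v ≠ 0) :
    ContinuousAt (fun v => Ring.inverse (DH v)) v := by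
  have h1 := NormedRing.inverse_continuousAt (isUnit_DH h).unit
  exact ContinuousAt.comp (g := Ring.inverse) (f := DH) h1 (continuousAt_DH h)

lemma continuousAt_XX (b : Bool) {v : V} (h : q v ≠ 0) : ContinuousAt (XX b) v := by
  unfold XX
  have h1 : ContinuousAt (fun v => DH (LL b v)) v :=
    ContinuousAt.comp (g := DH) (continuousAt_DH ((q_LL_ne b).2 h)) (LL b).continuous.continuousAt
  exact (h1.mul continuousAt_const).mul (continuousAt_inverse h)

lemma continuous_DG (b : Bool) : Continuous (DG b) := by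
  rw [continuous_iff_continuousAt]
  intro p
  by_cases h : q (Hh.symm p) = 0
  · have hp := q_symm_eq_zero.1 h
    have e0 : DG b p = LN b p := by rw [DG, if_pos h]
    have h1 := (continuousAt_LN_zero b hp).tendsto.comp (tendsto_symm_zero hp)
    have h2 : Tendsto (fun p' => DG b p' - LN b (Hh.symm p')) (𝓝 p) (𝓝 0) := by
      rw [tendsto_zero_iff_norm_tendsto_zero]
      rw [Metric.tendsto_nhds]
      intro ε hε
      obtain ⟨n, hn⟩ := (tendsto_one_div_add_atTop_nhds_zero_nat.eventually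
        (eventually_lt_nhds hε)).exists
      filter_upwards [eventually_DG_close b hp n] with p' h'
      rw [dist_zero_right, norm_norm]
      exact h'.trans_lt hn
    have h3 := h2.add h1
    unfold ContinuousAt
    rw [e0]
    rw [zero_add] at h3
    refine h3.congr fun p' => ?_
    simp only [Function.comp]
    abel
  · have e : DG b =ᶠ[𝓝 p] fun p' => XX b (Hh.symm p') := by
      have : ∀ᶠ p' in 𝓝 p, q (Hh.symm p') ≠ 0 :=
        (continuous_q.comp Hh.symm.continuous).continuousAt.eventually_ne h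
      filter_upwards [this] with p' hp'
      rw [DG, if_neg hp']
    refine ContinuousAt.congr ?_ e.symm
    exact ContinuousAt.comp (g := XX b) (continuousAt_XX b h) Hh.symm.continuous.continuousAt

lemma contDiff_GG (b : Bool) : ContDiff ℝ 1 (GG b) :=
  contDiff_one_iff_hasFDerivAt.2 ⟨DG b, continuous_DG b, hasFDerivAt_GG b⟩

lemma isUnit_DG (b : Bool) (p : V) : IsUnit (DG b p) := by
  by_cases h : q (Hh.symm p) = 0
  · rw [DG, if_pos h, LN, NN_of_zero b (q_symm_eq_zero.1 h)]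
    exact (isUnit_LL b).mul (isUnit_MM (aInf_mul_aInfi _) (aInfi_mul_aInf _))
  · rw [DG, if_neg h, XX]
    refine ((isUnit_DH ((q_LL_ne b).2 h)).mul (isUnit_LL b)).mul ?_
    rw [Ring.inverse_of_isUnit (isUnit_DH h)]
    exact Units.isUnit _

lemma contDiff_GG_symm (b : Bool) : ContDiff ℝ 1 (GG b).symm := by
  refine Homeomorph.contDiff_symm (GG b)
    (f₀' := fun p => ContinuousLinearEquiv.unitsEquiv ℝ V (isUnit_DG b p).unit) ?_ (contDiff_GG b)
  intro p
  exact hasFDerivAt_GG b p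

end Pool.Agent.H57.Cen
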