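import Mathlib

/-!
# Slowly varying functions
-/

namespace Pool.Agent.H57.Cen

open Filter Topology Set

theorem exists_slow (B l : ℕ → ℝ) (hB : Monotone B) (hl : Monotone l) (hl0 : ∀ n, 0 ≤ l n) :
    ∃ κ lf ψ : ℝ → ℝ, Continuous κ ∧ (∀ s, 1 ≤ κ s) ∧ (∀ s, B ⌈s⌉₊ ≤ κ s) ∧
      (∀ s, HasDerivAt lf (κ s) s) ∧ (∀ s, ψ (lf s) = s) ∧ (∀ y, lf (ψ y) = y) ∧
      (∀ s, -1 ≤ s → l ⌈s⌉₊ ≤ lf s) := by
  set Bt : ℕ → ℝ := fun n => max 1 (B n) + l (n + 3) with hBt
  have hBtm : Monotone Bt := fun m n h =>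
    add_le_add (max_le_max le_rfl (hB h)) (hl (by omega))
  obtain ⟨g, hg⟩ := exists_continuous_forall_mem_convex_of_local_const
    (X := ℝ) (E := ℝ) (t := fun s => Ici (Bt ⌈s⌉₊)) (fun s => convex_Ici _) (by
      intro s
      refine ⟨Bt (⌈s⌉₊ + 1), ?_⟩
      filter_upwards [eventually_lt_nhds (show s < s + 1 by linarith)] with y hy
      apply hBtm
      rw [Nat.ceil_le]
      push_cast
      have := Nat.le_ceil s
      linarith)
  have hgb : ∀ s, Bt ⌈s⌉₊ ≤ g s := hg
  have hg1 : ∀ s, 1 ≤ g s := fun s => by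
    have h1 := hgb s
    have h2 : 1 ≤ max 1 (B ⌈s⌉₊) := le_max_left _ _
    have h3 := hl0 (⌈s⌉₊ + 3)
    simp only [hBt] at h1
    linarith
  have hgB : ∀ s, B ⌈s⌉₊ ≤ g s := fun s => by
    have h1 := hgb s
    have h2 : B ⌈s⌉₊ ≤ max 1 (B ⌈s⌉₊) := le_max_right _ _
    have h3 := hl0 (⌈s⌉₊ + 3)
    simp only [hBt] at h1
    linarith
  have hgl : ∀ s, l (⌈s⌉₊ + 3) ≤ g s := fun s => by
    have h1 := hgb s
    have h2 : 1 ≤ max 1 (B ⌈s⌉₊) := le_max_left _ _
    simp only [hBt] at h1
    linarith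
  set L0 : ℝ := l 3 + ∫ x in (-1 : ℝ)..0, g x with hL0
  set lf : ℝ → ℝ := fun s => L0 + ∫ x in (0 : ℝ)..s, g x with hlf
  have hd : ∀ s, HasDerivAt lf (g s) s := fun s =>
    ((g.continuous.integral_hasStrictDerivAt 0 s).hasDerivAt).const_add L0
  have hcont : Continuous lf := continuous_iff_continuousAt.2 fun s => (hd s).continuousAt
  have hmono : StrictMono lf := by
    apply strictMono_of_deriv_pos
    intro s
    rw [(hd s).deriv]
    linarith [hg1 s]
  have hd2 : ∀ s, HasDerivAt (fun s => lf s - s) (g s - 1) s := fun s =>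
    (hd s).sub (hasDerivAt_id s)
  have hmono2 : Monotone fun s => lf s - s := by
    apply monotone_of_deriv_nonneg (fun s => (hd2 s).differentiableAt)
    intro s
    rw [(hd2 s).deriv]
    linarith [hg1 s]
  have htop : Tendsto lf atTop atTop := by
    have h0 : Tendsto (fun s : ℝ => lf 0 + s) atTop atTop :=
      tendsto_atTop_add_const_left atTop (lf 0) tendsto_id
    refine tendsto_atTop_mono' atTop ?_ h0
    filter_upwards [eventually_ge_atTop (0 : ℝ)] with s hs
    have := hmono2 hs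
    simp only at this
    linarith
  have hbot : Tendsto lf atBot atBot := by
    have h0 : Tendsto (fun s : ℝ => lf 0 + s) atBot atBot :=
      tendsto_atBot_add_const_left atBot (lf 0) tendsto_id
    refine tendsto_atBot_mono' atBot ?_ h0
    filter_upwards [eventually_le_atBot (0 : ℝ)] with s hs
    have := hmono2 hs
    simp only at this
    linarith
  have hsurj : Function.Surjective lf := hcont.surjective htop hbot
  have hm1 : lf (-1) = l 3 := by
    simp only [hlf, hL0]
    rw [intervalIntegral.integral_symm (-1) 0]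
    ring
  refine ⟨g, lf, Function.surjInv hsurj, g.continuous, hg1, hgB, hd, fun s => ?_, fun y => ?_,
    fun s hs => ?_⟩
  · exact hmono.injective (Function.surjInv_eq hsurj _)
  · exact Function.surjInv_eq hsurj _
  · rcases le_or_gt s 3 with h3 | h3
    · have h1 : lf (-1) ≤ lf s := hmono.monotone hs
      rw [hm1] at h1
      refine (hl ?_).trans h1
      rw [Nat.ceil_le]
      exact_mod_cast h3
    · obtain ⟨ξ, hξ, he⟩ := exists_hasDerivAt_eq_slope lf g (show s - 1 < s by linarith)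
        hcont.continuousOn (fun x _ => hd x)
      rw [show s - (s - 1) = 1 by ring, div_one] at he
      have h1 : lf (-1) ≤ lf (s - 1) := hmono.monotone (by linarith)
      rw [hm1] at h1
      have h2 := hl0 3
      have h4 := hgl ξ
      have h5 : l ⌈s⌉₊ ≤ l (⌈ξ⌉₊ + 3) := by
        apply hl
        rw [Nat.ceil_le]
        push_cast
        have := Nat.le_ceil ξ
        linarith [hξ.1]
      linarith

end Pool.Agent.H57.Cen
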