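import Pool.Agent.H57.Cen.Fib
import Pool.Agent.H57.Cen.Coc4
import Pool.Agent.H57.Cen.Slow

/-!
# The twisting homeomorphism: definition and basic estimates
-/

namespace Pool.Agent.H57.Cen

open Filter Topology Set

/-- the six-dimensional space -/
abbrev V : Type := (ℝ × ℝ) × (E × E)

/-- bound for the derivative of `Phi` -/
noncomputable def CF : ℝ := max 1 exists_Phi_deriv.2.choose

lemma one_le_CF : 1 ≤ CF := le_max_left _ _

lemma dPhi_le (x : ℝ × ℝ) : ‖fderiv ℝ Phi x‖ ≤ CF :=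
  (exists_Phi_deriv.2.choose_spec x).trans (le_max_right _ _)

/-- radii -/
noncomputable def del (N : ℕ) : ℝ := (Jx_props N).choose

lemma del_pos (N : ℕ) : 0 < del N := (Jx_props N).choose_spec.1
lemma del_spec (N : ℕ) (x : ℝ × ℝ) (h : Phi x < del N) :
    (∀ᶠ y in 𝓝 x, Cg N (Jx y) (Jx x)) ∧ Cg N (Jx (Ax x)) (Jx x + 1) :=
  (Jx_props N).choose_spec.2 x h

/-- big constant -/
noncomputable def Cb : ℝ := 10 ^ 60 * CF

lemma Cb_ge : 10 ^ 60 ≤ Cb := by
  unfold Cb; have := one_le_CF; nlinarith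

lemma Cb_pos : 0 < Cb := lt_of_lt_of_le (by norm_num) Cb_ge

/-- lower bounds for the speed -/
noncomputable def Bs (n : ℕ) : ℝ := Cb * Kn (n + 6) ^ 8

lemma Kn_pos (n : ℕ) : 0 < Kn n := lt_of_lt_of_le one_pos (one_le_Kn n)

lemma Bs_mono : Monotone Bs := by
  intro m n h
  unfold Bs
  have h1 := Kn_mono (show m + 6 ≤ n + 6 by omega)
  have h2 := Cb_pos
  have h3 := Kn_pos (m + 6)
  gcongr

/-- lower bounds for the time change -/
noncomputable def ls (n : ℕ) : ℝ :=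
  ∑ i ∈ Finset.range (n + 1), (|2 * Real.log (del (i + 4))| + 1) + 4 * Real.log (Cb * Kn (n + 6))

lemma one_le_CbKn (n : ℕ) : 1 ≤ Cb * Kn n := by
  have := Cb_ge; have := one_le_Kn n; nlinarith

lemma ls_mono : Monotone ls := by
  intro m n h
  unfold ls
  apply add_le_add
  · apply Finset.sum_le_sum_of_subset_of_nonneg
    · exact Finset.range_mono (by omega)
    · intro i _ _; positivity
  · have h1 := Kn_mono (show m + 6 ≤ n + 6 by omega)
    have h2 := one_le_CbKn (m + 6)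
    have h3 := Cb_pos
    have : Real.log (Cb * Kn (m + 6)) ≤ Real.log (Cb * Kn (n + 6)) := by
      exact Real.log_le_log (by linarith) (mul_le_mul_of_nonneg_left h1 h3.le)
    linarith

lemma ls_nonneg (n : ℕ) : 0 ≤ ls n := by
  unfold ls
  apply add_nonneg
  · exact Finset.sum_nonneg fun i _ => by positivity
  · have := Real.log_nonneg (one_le_CbKn (n + 6)); linarith

/-- speed -/
noncomputable def kap : ℝ → ℝ := (exists_slow Bs ls Bs_mono ls_mono ls_nonneg).choose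
/-- time change -/
noncomputable def lf : ℝ → ℝ := (exists_slow Bs ls Bs_mono ls_mono ls_nonneg).choose_spec.choose
/-- inverse time change -/
noncomputable def psi : ℝ → ℝ :=
  (exists_slow Bs ls Bs_mono ls_mono ls_nonneg).choose_spec.choose_spec.choose

lemma slow_spec : Continuous kap ∧ (∀ s, 1 ≤ kap s) ∧ (∀ s, Bs ⌈s⌉₊ ≤ kap s) ∧
      (∀ s, HasDerivAt lf (kap s) s) ∧ (∀ s, psi (lf s) = s) ∧ (∀ y, lf (psi y) = y) ∧
      (∀ s, -1 ≤ s → ls ⌈s⌉₊ ≤ lf s) :=
  (exists_slow Bs ls Bs_mono ls_mono ls_nonneg).choose_spec.choose_spec.choose_spec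

lemma continuous_kap : Continuous kap := slow_spec.1
lemma one_le_kap (s : ℝ) : 1 ≤ kap s := slow_spec.2.1 s
lemma Bs_le_kap (s : ℝ) : Bs ⌈s⌉₊ ≤ kap s := slow_spec.2.2.1 s
lemma hasDerivAt_lf (s : ℝ) : HasDerivAt lf (kap s) s := slow_spec.2.2.2.1 s
lemma psi_lf (s : ℝ) : psi (lf s) = s := slow_spec.2.2.2.2.1 s
lemma lf_psi (y : ℝ) : lf (psi y) = y := slow_spec.2.2.2.2.2.1 y
lemma ls_le_lf (s : ℝ) (h : -1 ≤ s) : ls ⌈s⌉₊ ≤ lf s := slow_spec.2.2.2.2.2.2 s h

lemma strictMono_lf : StrictMono lf := by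
  apply strictMono_of_deriv_pos
  intro s
  rw [(hasDerivAt_lf s).deriv]
  linarith [one_le_kap s]

lemma strictMono_psi : StrictMono psi := by
  intro a b h
  by_contra hcon
  push Not at hcon
  have := strictMono_lf.monotone hcon
  rw [lf_psi, lf_psi] at this
  linarith

lemma continuous_psi : Continuous psi :=
  strictMono_psi.monotone.continuous_of_surjective fun s => ⟨lf s, psi_lf s⟩

lemma hasDerivAt_psi (y : ℝ) : HasDerivAt psi (kap (psi y))⁻¹ y :=
  HasDerivAt.of_local_left_inverse continuous_psi.continuousAt (hasDerivAt_lf (psi y))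
    (by have := one_le_kap (psi y); linarith) (Eventually.of_forall lf_psi)

/-! ### The function `q` and the time -/

/-- squared distance to the singular set -/
noncomputable def q (v : V) : ℝ := Phi v.1 ^ 2 + Q v.2

lemma q_nonneg (v : V) : 0 ≤ q v := add_nonneg (sq_nonneg _) (Q_nonneg _)

lemma continuous_Phi : Continuous Phi := exists_Phi_deriv.1.continuous

lemma continuous_q : Continuous q :=
  ((continuous_Phi.comp continuous_fst).pow 2).add (continuous_Q.comp continuous_snd)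

/-- the time -/
noncomputable def tt (v : V) : ℝ := psi (-Real.log (q v))

lemma lf_tt (v : V) : lf (tt v) = -Real.log (q v) := lf_psi _

lemma q_eq_exp {v : V} (h : q v ≠ 0) : q v = Real.exp (-lf (tt v)) := by
  rw [lf_tt, neg_neg, Real.exp_log (lt_of_le_of_ne (q_nonneg v) h.symm)]

lemma q_small {v : V} (h : q v ≠ 0) (ht : -1 ≤ tt v) :
    (Cb * Kn (⌈tt v⌉₊ + 6)) ^ 4 * q v ≤ 1 := by
  have h1 := ls_le_lf _ ht
  set n := ⌈tt v⌉₊
  have h2 : 4 * Real.log (Cb * Kn (n + 6)) ≤ lf (tt v) := by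
    refine le_trans ?_ h1
    unfold ls
    have : 0 ≤ ∑ i ∈ Finset.range (n + 1), (|2 * Real.log (del (i + 4))| + 1) :=
      Finset.sum_nonneg fun i _ => by positivity
    linarith
  have hX : 0 < Cb * Kn (n + 6) := lt_of_lt_of_le one_pos (one_le_CbKn _)
  rw [q_eq_exp h]
  have h3 : (Cb * Kn (n + 6)) ^ 4 = Real.exp (4 * Real.log (Cb * Kn (n + 6))) := by
    rw [mul_comm (4 : ℝ), Real.exp_mul, Real.exp_log hX]; norm_cast
  rw [h3, ← Real.exp_add]
  rw [Real.exp_le_one_iff]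
  linarith

lemma Phi_lt_del {v : V} (h : q v ≠ 0) (ht : -1 ≤ tt v) : Phi v.1 < del (⌈tt v⌉₊ + 4) := by
  have h1 := ls_le_lf _ ht
  set n := ⌈tt v⌉₊
  have hd := del_pos (n + 4)
  have h2 : |2 * Real.log (del (n + 4))| + 1 ≤ lf (tt v) := by
    refine le_trans ?_ h1
    unfold ls
    have h3 : |2 * Real.log (del (n + 4))| + 1 ≤
        ∑ i ∈ Finset.range (n + 1), (|2 * Real.log (del (i + 4))| + 1) :=
      Finset.single_le_sum (f := fun i => |2 * Real.log (del (i + 4))| + 1)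
        (fun i _ => by positivity) (Finset.self_mem_range_succ n)
    have h4 := Real.log_nonneg (one_le_CbKn (n + 6))
    linarith
  have h3 : Phi v.1 ^ 2 ≤ q v := by
    unfold q; have := Q_nonneg v.2; linarith
  rw [q_eq_exp h] at h3
  have h4 : Real.exp (-lf (tt v)) < del (n + 4) ^ 2 := by
    have h5 : del (n + 4) ^ 2 = Real.exp (2 * Real.log (del (n + 4))) := by
      rw [mul_comm (2 : ℝ), Real.exp_mul, Real.exp_log hd]; norm_cast
    rw [h5, Real.exp_lt_exp]
    have := neg_abs_le (2 * Real.log (del (n + 4)))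
    linarith
  have h5 := h3.trans_lt h4
  exact lt_of_pow_lt_pow_left₀ 2 hd.le h5

lemma q_lt_of_le {v : V} (h : q v ≠ 0) (ht : -1 ≤ tt v) : q v < 1 / 10 ^ 14 := by
  have h1 := q_small h ht
  have h2 := Cb_ge
  have h3 := one_le_Kn (⌈tt v⌉₊ + 6)
  have h4 : (10 : ℝ) ^ 60 ≤ Cb * Kn (⌈tt v⌉₊ + 6) := by nlinarith
  have h5 : ((10 : ℝ) ^ 60) ^ 4 ≤ (Cb * Kn (⌈tt v⌉₊ + 6)) ^ 4 := by gcongr
  have h6 := q_nonneg v
  have h7 : ((10 : ℝ) ^ 60) ^ 4 * q v ≤ 1 := le_trans (by gcongr) h1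
  rw [lt_div_iff₀ (by norm_num)]
  have h8 : (10 : ℝ) ^ 14 < (10 ^ 60) ^ 4 := by norm_num
  rcases h6.lt_or_eq with h9 | h9
  · nlinarith
  · exact absurd h9.symm h

/-! ### The matrices and the homeomorphism -/

/-- the twisting matrix -/
noncomputable def M (v : V) : E →L[ℝ] E := Mf (tt v) (Jx v.1)
/-- its inverse -/
noncomputable def Mi (v : V) : E →L[ℝ] E := Mfi (tt v) (Jx v.1)

lemma M_mul_Mi (v : V) : M v * Mi v = 1 := Mf_mul_Mfi _ _
lemma Mi_mul_M (v : V) : Mi v * M v = 1 := Mfi_mul_Mf _ _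

lemma M_Mi_apply (v : V) (e : E) : M v (Mi v e) = e := by
  have := congrArg (fun f => f e) (M_mul_Mi v)
  simpa using this
lemma Mi_M_apply (v : V) (e : E) : Mi v (M v e) = e := by
  have := congrArg (fun f => f e) (Mi_mul_M v)
  simpa using this

lemma M_of_nonpos {v : V} (h : tt v ≤ 0) : M v = 1 := Mf_of_nonpos h _

lemma M_norm_le (v : V) : ‖M v‖ ≤ Kn ⌈tt v⌉₊ := Mf_norm_le (Nat.le_ceil _) _
lemma Mi_norm_le (v : V) : ‖Mi v‖ ≤ Kn ⌈tt v⌉₊ := Mfi_norm_le (Nat.le_ceil _) _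

/-- displacement -/
noncomputable def eta (v : V) : E := (M v - 1) (u v.2).1

/-- the twisting map -/
noncomputable def Hf (v : V) : V := (v.1, (v.2.1 + eta v, v.2.2))

lemma u_eq_zero {w : E × E} (h : Q w = 0) : u w = 0 := by
  have h1 := w_norm_le (u w)
  have h2 : Q0 (u w) = 0 := h
  rw [h2, Real.sqrt_zero, mul_zero] at h1
  exact norm_le_zero_iff.1 h1

lemma Q_of_q_zero {v : V} (h : q v = 0) : Q v.2 = 0 ∧ Phi v.1 = 0 := by
  unfold q at h
  have h1 := Q_nonneg v.2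
  have h2 := sq_nonneg (Phi v.1)
  constructor
  · linarith
  · have : Phi v.1 ^ 2 = 0 := by linarith
    exact pow_eq_zero_iff (two_ne_zero) |>.1 this

lemma eta_of_q_zero {v : V} (h : q v = 0) : eta v = 0 := by
  unfold eta
  rw [u_eq_zero (Q_of_q_zero h).1]
  simp

lemma eta_of_nonpos {v : V} (h : tt v ≤ 0) : eta v = 0 := by
  unfold eta
  rw [M_of_nonpos h]
  simp

lemma Hf_of_q_zero {v : V} (h : q v = 0) : Hf v = v := by
  unfold Hf; rw [eta_of_q_zero h, add_zero]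

lemma Hf_of_nonpos {v : V} (h : tt v ≤ 0) : Hf v = v := by
  unfold Hf; rw [eta_of_nonpos h, add_zero]

lemma Hf_snd (v : V) : (Hf v).2 = lw v.2 + (M v (u v.2).1, (u v.2).2) := by
  have h := lw_add_u v.2
  unfold Hf eta
  refine Prod.ext ?_ ?_
  · have h1 := congrArg Prod.fst h
    simp only [Prod.fst_add] at h1 ⊢
    rw [← h1]
    simp
  · have h1 := congrArg Prod.snd h
    simp only [Prod.snd_add] at h1 ⊢
    rw [h1]

/-- key smallness estimate -/
lemma u_small {v : V} (h : q v ≠ 0) (ht : -1 ≤ tt v) :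
    Kn (⌈tt v⌉₊ + 6) * ‖u v.2‖ ≤ 1 / 10 ^ 20 ∧
      (2 * Kn (⌈tt v⌉₊ + 6) * ‖u v.2‖) ^ 4 ≤ q v := by
  set K := Kn (⌈tt v⌉₊ + 6) with hK
  have hK1 : 1 ≤ K := one_le_Kn _
  have h1 := q_small h ht
  rw [← hK] at h1
  have h2 := w_norm_le (u v.2)
  have h3 : Q0 (u v.2) ≤ q v := by
    have e : Q0 (u v.2) = Q v.2 := rfl
    rw [e]; unfold q; have := sq_nonneg (Phi v.1); linarith
  have h4 : Real.sqrt (Q0 (u v.2)) ≤ Real.sqrt (q v) := Real.sqrt_le_sqrt h3
  set r := Real.sqrt (q v) with hr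
  have hr0 : 0 ≤ r := Real.sqrt_nonneg _
  have hr2 : r ^ 2 = q v := Real.sq_sqrt (q_nonneg v)
  have hmu := mu_bounds.2
  have h5 : ‖u v.2‖ ≤ 200001 * r := by
    refine h2.trans ?_
    have := Real.sqrt_nonneg (Q0 (u v.2))
    nlinarith [mu_pos]
  have hC := Cb_ge
  have h6 : ((Cb * K) ^ 2 * r) ^ 2 ≤ 1 := by
    calc ((Cb * K) ^ 2 * r) ^ 2 = (Cb * K) ^ 4 * r ^ 2 := by ring
      _ ≤ 1 := by rw [hr2]; exact h1
  have h7 : (Cb * K) ^ 2 * r ≤ 1 := by
    have := abs_le_one_iff_mul_self_le_one.2 (by nlinarith : ((Cb * K) ^ 2 * r) * ((Cb * K) ^ 2 * r) ≤ 1)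
    exact (le_abs_self _).trans this
  have hCK : 10 ^ 60 * K ≤ Cb * K := by nlinarith
  have h8 : (10 ^ 60 * K) ^ 2 * r ≤ 1 := le_trans (by gcongr) h7
  constructor
  · have h9 : K * r ≤ 1 / 10 ^ 120 := by
      rw [le_div_iff₀ (by norm_num)]
      have e : (10 ^ 60 * K) ^ 2 * r = K * (K * r * 10 ^ 120) := by ring
      rw [e] at h8
      have : 0 ≤ K * r * 10 ^ 120 := by positivity
      nlinarith
    calc K * ‖u v.2‖ ≤ K * (200001 * r) := by gcongr
      _ = 200001 * (K * r) := by ring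
      _ ≤ 200001 * (1 / 10 ^ 120) := by gcongr
      _ ≤ 1 / 10 ^ 20 := by norm_num
  · rw [← hr2]
    have h9 : (2 * K * ‖u v.2‖) ^ 2 ≤ r := by
      have h10 : 2 * K * ‖u v.2‖ ≤ 10 ^ 6 * (K * r) := by
        calc 2 * K * ‖u v.2‖ ≤ 2 * K * (200001 * r) := by gcongr
          _ ≤ 10 ^ 6 * (K * r) := by
            have : 0 ≤ K * r := by positivity
            nlinarith
      calc (2 * K * ‖u v.2‖) ^ 2 ≤ (10 ^ 6 * (K * r)) ^ 2 := by gcongr
        _ = (10 ^ 12 * K ^ 2 * r) * r := by ring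
        _ ≤ 1 * r := by
          gcongr
          refine le_trans ?_ h8
          have : 0 ≤ K ^ 2 * r := by positivity
          nlinarith
        _ = r := one_mul r
    calc (2 * K * ‖u v.2‖) ^ 4 = ((2 * K * ‖u v.2‖) ^ 2) ^ 2 := by ring
      _ ≤ r ^ 2 := by gcongr

lemma eta_bound (v : V) : ‖eta v‖ ^ 4 ≤ q v := by
  by_cases h : q v = 0
  · rw [eta_of_q_zero h, norm_zero, h]; norm_num
  · rcases le_or_gt (tt v) 0 with ht | ht
    · rw [eta_of_nonpos ht, norm_zero]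
      simpa using q_nonneg v
    · refine le_trans ?_ (u_small h (by linarith)).2
      have h1 : ‖eta v‖ ≤ 2 * Kn (⌈tt v⌉₊ + 6) * ‖u v.2‖ := by
        unfold eta
        refine (ContinuousLinearMap.le_opNorm _ _).trans ?_
        have h2 : ‖M v - 1‖ ≤ 2 * Kn (⌈tt v⌉₊ + 6) := by
          refine (norm_sub_le _ _).trans ?_
          have a1 := M_norm_le v
          have a2 := norm_one_le
          have a3 := Kn_mono (show ⌈tt v⌉₊ ≤ ⌈tt v⌉₊ + 6 by omega)
          have a4 := one_le_Kn (⌈tt v⌉₊ + 6)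
          linarith
        have h3 := norm_fst_le (u v.2)
        have h4 := Kn_pos (⌈tt v⌉₊ + 6)
        gcongr
      gcongr

lemma lw_Hf (v : V) : lw (Hf v).2 = lw v.2 := by
  by_cases h : q v = 0
  · rw [Hf_of_q_zero h]
  · rcases le_or_gt (tt v) 0 with ht | ht
    · rw [Hf_of_nonpos ht]
    · rw [Hf_snd]
      apply lw_of_Sm
      have h1 := (u_small h (by linarith)).1
      have hK1 : 1 ≤ Kn (⌈tt v⌉₊ + 6) := one_le_Kn _
      have h2 : ‖((M v (u v.2).1, (u v.2).2) : E × E)‖ ≤ Kn (⌈tt v⌉₊ + 6) * ‖u v.2‖ := by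
        rw [Prod.norm_def]
        apply max_le
        · refine (ContinuousLinearMap.le_opNorm _ _).trans ?_
          have a1 := (M_norm_le v).trans (Kn_mono (show ⌈tt v⌉₊ ≤ ⌈tt v⌉₊ + 6 by omega))
          have := norm_fst_le (u v.2)
          gcongr
        · have := norm_snd_le (u v.2)
          have := norm_nonneg (u v.2)
          simp only
          nlinarith
      obtain ⟨h3, h4⟩ := c_norm_le_norm ((M v (u v.2).1, (u v.2).2) : E × E)
      constructor
      · refine h3.trans_lt ?_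
        have : (1 : ℝ) / 10 ^ 20 < 1 / 8 := by norm_num
        linarith
      · refine h4.trans_lt ?_
        have : (1 : ℝ) / 10 ^ 20 < 1 / 8 := by norm_num
        linarith

end Pool.Agent.H57.Cen
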