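import Pool.Agent.H57.Cen.Der

/-!
# The twisting map as a homeomorphism commuting with the lattice
-/

namespace Pool.Agent.H57.Cen

open Filter Topology Set

/-- lattice vectors in `V` -/
noncomputable def Gm (m n : ℤ) (p r : ℤ × ℤ) : V := (gam m n, lat p r)

lemma q_add_Gm (v : V) (m n : ℤ) (p r : ℤ × ℤ) : q (v + Gm m n p r) = q v := by
  unfold q Gm
  simp only [Prod.fst_add, Prod.snd_add]
  rw [Phi_add_gam, Q_add]

lemma tt_add_Gm (v : V) (m n : ℤ) (p r : ℤ × ℤ) : tt (v + Gm m n p r) = tt v := by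
  unfold tt
  rw [q_add_Gm]

lemma M_add_Gm (v : V) (m n : ℤ) (p r : ℤ × ℤ) : M (v + Gm m n p r) = M v := by
  unfold M
  rw [tt_add_Gm]
  have : (v + Gm m n p r).1 = v.1 + gam m n := rfl
  rw [this, Jx_add_gam]

lemma eta_add_Gm (v : V) (m n : ℤ) (p r : ℤ × ℤ) : eta (v + Gm m n p r) = eta v := by
  unfold eta
  rw [M_add_Gm]
  have : (v + Gm m n p r).2 = v.2 + lat p r := rfl
  rw [this, u_add]

lemma Hf_add_Gm (v : V) (m n : ℤ) (p r : ℤ × ℤ) :
    Hf (v + Gm m n p r) = Hf v + Gm m n p r := by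
  rw [Hf_eq, Hf_eq, eta_add_Gm]
  abel

lemma continuous_eta : Continuous eta := by
  rw [continuous_iff_continuousAt]
  intro v
  by_cases h : q v = 0
  · unfold ContinuousAt
    rw [eta_of_q_zero h, tendsto_zero_iff_norm_tendsto_zero]
    have h1 : Tendsto (fun v' => ‖eta v'‖ ^ 4) (𝓝 v) (𝓝 0) := by
      refine squeeze_zero (fun v' => by positivity) eta_bound ?_
      have := continuous_q.tendsto v
      rwa [h] at this
    have h2 : Tendsto (fun v' => Real.sqrt (Real.sqrt (‖eta v'‖ ^ 4))) (𝓝 v) (𝓝 0) := by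
      have h3 := (Real.continuous_sqrt.tendsto 0).comp h1
      rw [Real.sqrt_zero] at h3
      have h4 := (Real.continuous_sqrt.tendsto 0).comp h3
      rw [Real.sqrt_zero] at h4
      exact h4
    refine h2.congr fun v' => ?_
    have e : ‖eta v'‖ ^ 4 = (‖eta v'‖ ^ 2) ^ 2 := by ring
    rw [e, Real.sqrt_sq (by positivity), Real.sqrt_sq (norm_nonneg _)]
  · have h1 : ContinuousAt Hf v := (hasFDerivAt_Hf h).continuousAt
    have h2 : eta = fun v' => pa (Hf v') - pa v' := by
      funext v'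
      rw [pa_apply, pa_apply]
      unfold Hf
      simp
    rw [h2]
    exact (pa.continuous.continuousAt.comp h1).sub pa.continuous.continuousAt

lemma continuous_Hf : Continuous Hf := by
  have : Hf = fun v => v + ia (eta v) := funext Hf_eq
  rw [this]
  exact continuous_id.add (ia.continuous.comp continuous_eta)

lemma eta_le_one (v : V) : ‖eta v‖ ≤ 1 := by
  by_cases h : q v = 0
  · rw [eta_of_q_zero h, norm_zero]; norm_num
  · rcases le_or_gt (tt v) 0 with ht | ht
    · rw [eta_of_nonpos ht, norm_zero]; norm_num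
    · have h1 := eta_bound v
      have h2 := q_lt_of_le h (by linarith)
      by_contra hcon
      push Not at hcon
      have h3 : 1 ≤ ‖eta v‖ ^ 4 := one_le_pow₀ hcon.le
      have : (1 : ℝ) / 10 ^ 14 < 1 := by norm_num
      linarith

lemma Hf_sub_norm_le (v : V) : ‖Hf v - v‖ ≤ 1 := by
  rw [Hf_eq, add_sub_cancel_left, ia_norm]
  exact eta_le_one v

lemma tendsto_Hf : Tendsto Hf (cocompact V) (cocompact V) := by
  have h1 : Tendsto (fun v : V => ‖v‖) (cocompact V) atTop := tendsto_norm_cocompact_atTop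
  have h2 : Tendsto (fun v : V => ‖Hf v‖) (cocompact V) atTop := by
    refine tendsto_atTop_mono (f := fun v : V => ‖v‖ - 1) (fun v => ?_)
      (tendsto_atTop_add_const_right _ _ h1)
    have := Hf_sub_norm_le v
    have h3 := norm_sub_norm_le v (Hf v)
    rw [norm_sub_rev] at h3
    linarith
  have h3 := tendsto_norm_atTop_iff_cobounded.1 h2
  rwa [← Metric.cobounded_eq_cocompact] at h3 ⊢

lemma isClosedMap_Hf : IsClosedMap Hf :=
  ((isProperMap_iff_tendsto_cocompact).2 ⟨continuous_Hf, tendsto_Hf⟩).isClosedMap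

/-- the twisting homeomorphism -/
noncomputable def Hh : V ≃ₜ V :=
  (Equiv.ofBijective Hf ⟨Hf_injective, Hf_surjective⟩).toHomeomorphOfContinuousClosed
    continuous_Hf isClosedMap_Hf

lemma Hh_apply (v : V) : Hh v = Hf v := rfl

lemma Hh_add_Gm (v : V) (m n : ℤ) (p r : ℤ × ℤ) : Hh (v + Gm m n p r) = Hh v + Gm m n p r :=
  Hf_add_Gm v m n p r

lemma Hh_symm_add_Gm (v : V) (m n : ℤ) (p r : ℤ × ℤ) :
    Hh.symm (v + Gm m n p r) = Hh.symm v + Gm m n p r := by
  apply Hh.injective
  rw [Hh_add_Gm, Hh.apply_symm_apply, Hh.apply_symm_apply]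

lemma Hf_fst (v : V) : (Hf v).1 = v.1 := rfl
lemma Hf_snd_snd (v : V) : (Hf v).2.2 = v.2.2 := rfl

lemma Hh_symm_fst (v : V) : (Hh.symm v).1 = v.1 := by
  have h := congrArg Prod.fst (Hh.apply_symm_apply v)
  exact h

lemma Hh_symm_snd_snd (v : V) : (Hh.symm v).2.2 = v.2.2 := by
  have h := congrArg (fun v : V => v.2.2) (Hh.apply_symm_apply v)
  exact h

end Pool.Agent.H57.Cen
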