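import Mathlib

/-!
# Two by two matrices as continuous linear maps; the words `W k`
-/

namespace Pool.Agent.H57.Cen

open Filter Topology

/-- the plane -/
abbrev E : Type := ℝ × ℝ

/-- the linear map with matrix `(a b; c d)` -/
noncomputable def mat (a b c d : ℝ) : E →L[ℝ] E :=
  ((a • ContinuousLinearMap.fst ℝ ℝ ℝ + b • ContinuousLinearMap.snd ℝ ℝ ℝ).prod
    (c • ContinuousLinearMap.fst ℝ ℝ ℝ + d • ContinuousLinearMap.snd ℝ ℝ ℝ))

lemma mat_apply (a b c d : ℝ) (v : E) :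
    mat a b c d v = (a * v.1 + b * v.2, c * v.1 + d * v.2) := by
  simp [mat]

lemma mat_mul (a b c d a' b' c' d' : ℝ) : mat a b c d * mat a' b' c' d' =
    mat (a * a' + b * c') (a * b' + b * d') (c * a' + d * c') (c * b' + d * d') := by
  ext <;> simp [mat]

lemma mat_one : mat 1 0 0 1 = 1 := by
  ext <;> simp [mat]

lemma mat_add (a b c d a' b' c' d' : ℝ) : mat a b c d + mat a' b' c' d' =
    mat (a + a') (b + b') (c + c') (d + d') := by
  ext <;> simp [mat]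

lemma mat_smul (t a b c d : ℝ) : t • mat a b c d = mat (t * a) (t * b) (t * c) (t * d) := by
  ext <;> simp [mat]

lemma mat_neg (a b c d : ℝ) : -mat a b c d = mat (-a) (-b) (-c) (-d) := by
  ext <;> simp [mat]

lemma mat_norm_le (a b c d : ℝ) : ‖mat a b c d‖ ≤ |a| + |b| + |c| + |d| := by
  apply ContinuousLinearMap.opNorm_le_bound _ (by positivity)
  intro v
  have h1 : |v.1| ≤ ‖v‖ := norm_fst_le v
  have h2 : |v.2| ≤ ‖v‖ := norm_snd_le v
  have hv := norm_nonneg v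
  rw [mat_apply, Prod.norm_def]
  apply max_le
  · calc ‖a * v.1 + b * v.2‖ ≤ |a| * |v.1| + |b| * |v.2| := by
          rw [Real.norm_eq_abs, ← abs_mul, ← abs_mul]; exact abs_add_le _ _
      _ ≤ |a| * ‖v‖ + |b| * ‖v‖ := by gcongr
      _ ≤ (|a| + |b| + |c| + |d|) * ‖v‖ := by
          have := abs_nonneg c; have := abs_nonneg d; nlinarith
  · calc ‖c * v.1 + d * v.2‖ ≤ |c| * |v.1| + |d| * |v.2| := by
          rw [Real.norm_eq_abs, ← abs_mul, ← abs_mul]; exact abs_add_le _ _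
      _ ≤ |c| * ‖v‖ + |d| * ‖v‖ := by gcongr
      _ ≤ (|a| + |b| + |c| + |d|) * ‖v‖ := by
          have := abs_nonneg a; have := abs_nonneg b; nlinarith

/-- rotation by the angle `θ` -/
noncomputable def rot (θ : ℝ) : E →L[ℝ] E :=
  mat (Real.cos θ) (-Real.sin θ) (Real.sin θ) (Real.cos θ)

lemma rot_zero : rot 0 = 1 := by simp [rot, mat_one]

lemma rot_add (θ θ' : ℝ) : rot θ * rot θ' = rot (θ + θ') := by
  unfold rot
  rw [mat_mul, Real.cos_add, Real.sin_add]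
  congr 1 <;> ring

lemma rot_norm_le (θ : ℝ) : ‖rot θ‖ ≤ 4 := by
  refine (mat_norm_le _ _ _ _).trans ?_
  have h1 := Real.abs_cos_le_one θ
  have h2 := Real.abs_sin_le_one θ
  rw [abs_neg]
  linarith

/-- rotations by small angles are close to the identity -/
lemma rot_sub_one_norm_le (θ : ℝ) : ‖rot θ - 1‖ ≤ 4 * |θ| := by
  have e : rot θ - 1 = mat (Real.cos θ - 1) (-Real.sin θ) (Real.sin θ) (Real.cos θ - 1) := by
    rw [sub_eq_add_neg, ← mat_one, mat_neg, rot, mat_add]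
    congr 1 <;> ring
  rw [e]
  refine (mat_norm_le _ _ _ _).trans ?_
  have h1 : |Real.sin θ| ≤ |θ| := Real.abs_sin_le_abs
  have h2 : |Real.cos θ - 1| ≤ |θ| := by
    have := Real.abs_cos_sub_cos_le θ 0
    simpa using this
  rw [abs_neg]
  linarith

lemma rot_apply_norm_ge (θ : ℝ) (v : E) : ‖v‖ ≤ 4 * ‖rot θ v‖ := by
  have h : rot (-θ) (rot θ v) = v := by
    have : (rot (-θ) * rot θ) v = v := by
      rw [rot_add, neg_add_cancel, rot_zero]; rfl
    exact this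
  calc ‖v‖ = ‖rot (-θ) (rot θ v)‖ := by rw [h]
    _ ≤ ‖rot (-θ)‖ * ‖rot θ v‖ := ContinuousLinearMap.le_opNorm _ _
    _ ≤ 4 * ‖rot θ v‖ := by gcongr; exact rot_norm_le _

/-! ### The words -/

/-- the angles -/
noncomputable def eps (k : ℕ) : ℝ := Real.pi / 2 ^ (k + 1)

lemma eps_pos (k : ℕ) : 0 < eps k := by unfold eps; positivity

lemma eps_le (k : ℕ) : eps k ≤ 4 / 2 ^ (k + 1) := by
  unfold eps
  gcongr
  exact Real.pi_le_four

lemma sin_eps_ge (k : ℕ) : 1 / 2 ^ k ≤ Real.sin (eps k) := by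
  have h1 : eps k ≤ Real.pi / 2 := by
    unfold eps
    apply div_le_div_of_nonneg_left Real.pi_pos.le (by norm_num)
    calc (2 : ℝ) = 2 ^ 1 := by norm_num
      _ ≤ 2 ^ (k + 1) := pow_le_pow_right₀ (by norm_num) (by omega)
  have h2 := Real.mul_le_sin (eps_pos k).le h1
  have h3 : 2 / Real.pi * eps k = 1 / 2 ^ k := by
    unfold eps
    have := Real.pi_pos
    field_simp
    ring
  rw [h3] at h2
  exact h2

/-- the entries of the words -/
noncomputable def ent : ℕ → ℝ × ℝ × ℝ × ℝ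
  | 0 => (50, 0, 0, 50⁻¹)
  | k + 1 =>
    (Real.cos (eps k) - Real.sin (eps k) *
        ((ent k).1 * (ent k).2.1 + (ent k).2.2.1 * (ent k).2.2.2),
      -(Real.sin (eps k) * ((ent k).2.1 ^ 2 + (ent k).2.2.2 ^ 2)),
      Real.sin (eps k) * ((ent k).1 ^ 2 + (ent k).2.2.1 ^ 2),
      Real.cos (eps k) + Real.sin (eps k) *
        ((ent k).1 * (ent k).2.1 + (ent k).2.2.1 * (ent k).2.2.2))

lemma ent_det (k : ℕ) : (ent k).1 * (ent k).2.2.2 - (ent k).2.1 * (ent k).2.2.1 = 1 := by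
  induction k with
  | zero => simp [ent]
  | succ k ih =>
    have h := Real.sin_sq_add_cos_sq (eps k)
    simp only [ent]
    generalize (ent k).1 = p at *
    generalize (ent k).2.1 = q at *
    generalize (ent k).2.2.1 = r at *
    generalize (ent k).2.2.2 = s at *
    generalize Real.sin (eps k) = σ at *
    generalize Real.cos (eps k) = c at *
    have e : (c - σ * (p * q + r * s)) * (c + σ * (p * q + r * s)) -
        -(σ * (q ^ 2 + s ^ 2)) * (σ * (p ^ 2 + r ^ 2)) =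
        c ^ 2 + σ ^ 2 * (p * s - q * r) ^ 2 := by ring
    rw [e, ih]
    linarith

/-- the word -/
noncomputable def W (k : ℕ) : E →L[ℝ] E :=
  mat (ent k).1 (ent k).2.1 (ent k).2.2.1 (ent k).2.2.2

/-- the inverse word -/
noncomputable def Wi (k : ℕ) : E →L[ℝ] E :=
  mat (ent k).2.2.2 (-(ent k).2.1) (-(ent k).2.2.1) (ent k).1

/-- the conjugate of the rotation by a right angle -/
noncomputable def Nk (k : ℕ) : E →L[ℝ] E :=
  mat (-((ent k).1 * (ent k).2.1 + (ent k).2.2.1 * (ent k).2.2.2))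
    (-((ent k).2.1 ^ 2 + (ent k).2.2.2 ^ 2)) ((ent k).1 ^ 2 + (ent k).2.2.1 ^ 2)
    ((ent k).1 * (ent k).2.1 + (ent k).2.2.1 * (ent k).2.2.2)

lemma Nk_sq (k : ℕ) : Nk k * Nk k = -1 := by
  have h := ent_det k
  unfold Nk
  rw [mat_mul, ← mat_one, mat_neg]
  generalize (ent k).1 = p at *
  generalize (ent k).2.1 = q at *
  generalize (ent k).2.2.1 = r at *
  generalize (ent k).2.2.2 = s at *
  have e : (p * q + r * s) ^ 2 - (q ^ 2 + s ^ 2) * (p ^ 2 + r ^ 2) = -1 := by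
    have : (p * q + r * s) ^ 2 - (q ^ 2 + s ^ 2) * (p ^ 2 + r ^ 2) = -(p * s - q * r) ^ 2 := by ring
    rw [this, h]; norm_num
  congr 1 <;> nlinarith [e]

/-- conjugated rotation -/
noncomputable def S (k : ℕ) (θ : ℝ) : E →L[ℝ] E := Real.cos θ • 1 + Real.sin θ • Nk k

lemma S_zero (k : ℕ) : S k 0 = 1 := by simp [S]

lemma S_add (k : ℕ) (θ θ' : ℝ) : S k θ * S k θ' = S k (θ + θ') := by
  unfold S
  rw [Real.cos_add, Real.sin_add]
  simp only [mul_add, add_mul, smul_mul_smul_comm, one_mul, mul_one, Nk_sq, smul_neg]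
  module

lemma S_neg_mul (k : ℕ) (θ : ℝ) : S k (-θ) * S k θ = 1 := by
  rw [S_add, neg_add_cancel, S_zero]

lemma S_mul_neg (k : ℕ) (θ : ℝ) : S k θ * S k (-θ) = 1 := by
  rw [S_add, add_neg_cancel, S_zero]

lemma W_mul_S (k : ℕ) (θ : ℝ) : W k * S k θ = rot θ * W k := by
  have h := ent_det k
  have e : S k θ = mat
      (Real.cos θ - Real.sin θ * ((ent k).1 * (ent k).2.1 + (ent k).2.2.1 * (ent k).2.2.2))
      (-(Real.sin θ * ((ent k).2.1 ^ 2 + (ent k).2.2.2 ^ 2)))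
      (Real.sin θ * ((ent k).1 ^ 2 + (ent k).2.2.1 ^ 2))
      (Real.cos θ + Real.sin θ * ((ent k).1 * (ent k).2.1 + (ent k).2.2.1 * (ent k).2.2.2)) := by
    rw [S, Nk, ← mat_one, mat_smul, mat_smul, mat_add]
    congr 1 <;> ring
  rw [e, W, rot, mat_mul, mat_mul]
  generalize (ent k).1 = p at *
  generalize (ent k).2.1 = q at *
  generalize (ent k).2.2.1 = r at *
  generalize (ent k).2.2.2 = s at *
  congr 1
  · linear_combination (-r * Real.sin θ) * h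
  · linear_combination (-s * Real.sin θ) * h
  · linear_combination (p * Real.sin θ) * h
  · linear_combination (q * Real.sin θ) * h

lemma W_succ (k : ℕ) : W (k + 1) = S k (eps k) := by
  rw [S, Nk, ← mat_one, mat_smul, mat_smul, mat_add, W]
  simp only [ent]
  congr 1 <;> ring

/-- the sum of the squares of the entries -/
noncomputable def fr (k : ℕ) : ℝ :=
  (ent k).1 ^ 2 + (ent k).2.1 ^ 2 + (ent k).2.2.1 ^ 2 + (ent k).2.2.2 ^ 2

lemma fr_succ (k : ℕ) :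
    fr (k + 1) = 2 + Real.sin (eps k) ^ 2 * (fr k ^ 2 - 4) := by
  have h := ent_det k
  have h2 := Real.sin_sq_add_cos_sq (eps k)
  unfold fr
  simp only [ent]
  generalize (ent k).1 = p at *
  generalize (ent k).2.1 = q at *
  generalize (ent k).2.2.1 = r at *
  generalize (ent k).2.2.2 = s at *
  generalize Real.sin (eps k) = σ at *
  generalize Real.cos (eps k) = c at *
  linear_combination 2 * h2 - 2 * σ ^ 2 * (p * s - q * r + 1) * h

lemma fr_ge (k : ℕ) : 4 ^ (k + 3) * 34 ^ (2 ^ k) ≤ fr k := by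
  induction k with
  | zero => norm_num [fr, ent]
  | succ k ih =>
    rw [fr_succ]
    have h1 := sin_eps_ge k
    have h2 : (1 / 2 ^ k : ℝ) ^ 2 ≤ Real.sin (eps k) ^ 2 := by gcongr
    have h3 : (1 / 2 ^ k : ℝ) ^ 2 = 1 / 4 ^ k := by
      rw [div_pow, one_pow, ← pow_mul, mul_comm, pow_mul]; norm_num
    rw [h3] at h2
    set A : ℝ := 4 ^ (k + 3) * 34 ^ (2 ^ k) with hA
    have hA1 : (64 : ℝ) ≤ A := by
      rw [hA]
      have e1 : (4 : ℝ) ^ 3 ≤ 4 ^ (k + 3) := pow_le_pow_right₀ (by norm_num) (by omega)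
      have e2 : (1 : ℝ) ≤ 34 ^ (2 ^ k) := one_le_pow₀ (by norm_num)
      nlinarith
    have h4 : A ^ 2 - 4 ≤ fr k ^ 2 - 4 := by nlinarith
    have h5 : (1 / 2) * A ^ 2 ≤ A ^ 2 - 4 := by nlinarith
    have h6 : (4 : ℝ) ^ (k + 1 + 3) * 34 ^ (2 ^ (k + 1)) ≤ 1 / 4 ^ k * ((1 / 2) * A ^ 2) := by
      have e1 : A ^ 2 = 4 ^ k * (4 ^ (k + 1 + 3) * 34 ^ (2 ^ (k + 1))) * 16 := by
        rw [hA]
        have : (34 : ℝ) ^ (2 ^ (k + 1)) = (34 ^ (2 ^ k)) ^ 2 := by
          rw [← pow_mul, pow_succ]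
        rw [this]
        ring
      rw [e1]
      have e2 : (0 : ℝ) < 4 ^ k := by positivity
      have e3 : (0 : ℝ) ≤ 4 ^ (k + 1 + 3) * 34 ^ (2 ^ (k + 1)) := by positivity
      have e4 : 1 / 4 ^ k * (1 / 2 * (4 ^ k * (4 ^ (k + 1 + 3) * 34 ^ (2 ^ (k + 1))) * 16)) =
          8 * (4 ^ (k + 1 + 3) * 34 ^ (2 ^ (k + 1)) : ℝ) := by
        field_simp
        ring
      rw [e4]
      linarith
    have h7 : (0 : ℝ) ≤ fr k ^ 2 - 4 := by nlinarith
    have h8 : (1 / 4 ^ k : ℝ) * ((1 / 2) * A ^ 2) ≤ Real.sin (eps k) ^ 2 * (fr k ^ 2 - 4) := by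
      apply mul_le_mul h2 (h5.trans h4) (by positivity) (by positivity)
    linarith

/-- The words are large. -/
lemma W_large (k : ℕ) : ∃ v : E, ‖v‖ ≤ 1 ∧ 4 ^ (k + 2) * 34 ^ (2 ^ k) ≤ ‖W k v‖ ^ 2 := by
  have h := fr_ge k
  have key : ∀ x : ℝ, fr k / 4 ≤ x ^ 2 → 4 ^ (k + 2) * 34 ^ (2 ^ k) ≤ x ^ 2 := by
    intro x hx
    refine le_trans ?_ hx
    have : (4 : ℝ) ^ (k + 3) * 34 ^ (2 ^ k) = 4 * (4 ^ (k + 2) * 34 ^ (2 ^ k)) := by ring
    linarith
  have hn : ∀ a b : ℝ, |a| ≤ ‖((a, b) : E)‖ ∧ |b| ≤ ‖((a, b) : E)‖ := fun a b =>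
    ⟨norm_fst_le ((a, b) : E), norm_snd_le ((a, b) : E)⟩
  have hcases : fr k / 4 ≤ (ent k).1 ^ 2 ∨ fr k / 4 ≤ (ent k).2.1 ^ 2 ∨
      fr k / 4 ≤ (ent k).2.2.1 ^ 2 ∨ fr k / 4 ≤ (ent k).2.2.2 ^ 2 := by
    by_contra hcon
    push Not at hcon
    unfold fr at hcon
    linarith [hcon.1, hcon.2.1, hcon.2.2.1, hcon.2.2.2]
  have e1 : W k (1, 0) = ((ent k).1, (ent k).2.2.1) := by rw [W, mat_apply]; simp
  have e2 : W k (0, 1) = ((ent k).2.1, (ent k).2.2.2) := by rw [W, mat_apply]; simp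
  have n1 : ‖((1, 0) : E)‖ ≤ 1 := by simp [Prod.norm_def]
  have n2 : ‖((0, 1) : E)‖ ≤ 1 := by simp [Prod.norm_def]
  rcases hcases with h1 | h1 | h1 | h1
  · refine ⟨(1, 0), n1, key _ (h1.trans ?_)⟩
    rw [e1, ← sq_abs (ent k).1]
    gcongr
    exact (hn _ _).1
  · refine ⟨(0, 1), n2, key _ (h1.trans ?_)⟩
    rw [e2, ← sq_abs (ent k).2.1]
    gcongr
    exact (hn _ _).1
  · refine ⟨(1, 0), n1, key _ (h1.trans ?_)⟩
    rw [e1, ← sq_abs (ent k).2.2.1]
    gcongr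
    exact (hn _ _).2
  · refine ⟨(0, 1), n2, key _ (h1.trans ?_)⟩
    rw [e2, ← sq_abs (ent k).2.2.2]
    gcongr
    exact (hn _ _).2

end Pool.Agent.H57.Cen
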