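import Pool.Agent.H57.Cen.Toep

/-!
# The phase of a point near the Toeplitz set
-/

namespace Pool.Agent.H57.Cen

open Filter Topology Set

lemma CP_nonempty : CP.Nonempty := ⟨(w0, 0), cmp_w0⟩

lemma exists_near (x : T2) : ∃ p ∈ CP, ∀ q ∈ CP, dist x (emb p) ≤ dist x (emb q) := by
  have hc : Continuous fun p => dist x (emb p) := continuous_const.dist continuous_emb
  obtain ⟨p, hp, h⟩ := isCompact_CP.exists_isMinOn CP_nonempty hc.continuousOn
  exact ⟨p, hp, fun q hq => h hq⟩

/-- a nearest pair -/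
noncomputable def near (x : T2) : Om × ℤ_[2] := (exists_near x).choose

lemma near_mem (x : T2) : near x ∈ CP := (exists_near x).choose_spec.1

/-- the distance to the Toeplitz set -/
noncomputable def dY (x : T2) : ℝ := dist x (emb (near x))

lemma dY_le {x : T2} {q : Om × ℤ_[2]} (hq : q ∈ CP) : dY x ≤ dist x (emb q) :=
  (exists_near x).choose_spec.2 q hq

lemma dY_nonneg (x : T2) : 0 ≤ dY x := dist_nonneg

lemma dY_le_add (x y : T2) : dY x ≤ dY y + dist x y := by
  refine (dY_le (near_mem y)).trans ?_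
  rw [add_comm]
  exact dist_triangle _ _ _

lemma continuous_dY : Continuous dY := (LipschitzWith.of_le_add dY_le_add).continuous

/-- the phase -/
noncomputable def JT (x : T2) : ℤ_[2] := (near x).2

lemma cg_sub {N : ℕ} {y z : ℤ_[2]} : Cg N y z ↔ Cg N (y - z) 0 := by
  rw [cg_iff_norm, cg_iff_norm, sub_zero]

lemma exists_sep (N : ℕ) : ∃ δ > 0, ∀ p ∈ CP, ∀ q ∈ CP, dist (emb p) (emb q) < δ →
    Cg N p.2 q.2 := by
  set B : Set ((Om × ℤ_[2]) × (Om × ℤ_[2])) := (CP ×ˢ CP) ∩ {pq | ¬ Cg N pq.1.2 pq.2.2} with hB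
  have hcl : IsClosed {pq : (Om × ℤ_[2]) × (Om × ℤ_[2]) | ¬ Cg N pq.1.2 pq.2.2} := by
    rw [← isOpen_compl_iff]
    have h1 : Continuous fun pq : (Om × ℤ_[2]) × (Om × ℤ_[2]) => pq.1.2 - pq.2.2 := by fun_prop
    have h2 := (isOpen_cg N 0).preimage h1
    convert h2 using 1
    ext pq
    simp only [mem_compl_iff, mem_ofPred_eq, not_not, mem_preimage]
    exact cg_sub
  have hBc : IsCompact B := (isCompact_CP.prod isCompact_CP).inter_right hcl
  rcases B.eq_empty_or_nonempty with h0 | h0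
  · refine ⟨1, one_pos, fun p hp q hq _ => ?_⟩
    by_contra hcon
    have : (p, q) ∈ B := ⟨⟨hp, hq⟩, hcon⟩
    rw [h0] at this
    exact this
  · have hc : Continuous fun pq : (Om × ℤ_[2]) × (Om × ℤ_[2]) => dist (emb pq.1) (emb pq.2) :=
      (continuous_emb.comp continuous_fst).dist (continuous_emb.comp continuous_snd)
    obtain ⟨⟨p0, q0⟩, hm, hmin⟩ := hBc.exists_isMinOn h0 hc.continuousOn
    have hpos : 0 < dist (emb p0) (emb q0) := by
      rw [dist_pos]
      intro he
      have h5 : p0 = q0 := emb_injOn hm.1.1 hm.1.2 he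
      apply hm.2
      rw [h5]
      exact Cg.refl _ _
    refine ⟨_, hpos, fun p hp q hq hd => ?_⟩
    by_contra hcon
    have : (p, q) ∈ B := ⟨⟨hp, hq⟩, hcon⟩
    have h5 := hmin this
    simp only [mem_ofPred_eq] at h5
    linarith

lemma JT_props (N : ℕ) : ∃ δ > 0, ∀ x, dY x < δ →
    (∀ y, dist y x < δ → Cg N (JT y) (JT x)) ∧ Cg N (JT (AT x)) (JT x + 1) := by
  obtain ⟨δ, hδ, h⟩ := exists_sep N
  refine ⟨δ / 20, by positivity, fun x hx => ⟨fun y hy => ?_, ?_⟩⟩
  · apply h _ (near_mem y) _ (near_mem x)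
    have h1 : dist (emb (near y)) (emb (near x)) ≤ dY y + dist y x + dY x := by
      have t1 := dist_triangle (emb (near y)) y (emb (near x))
      have t2 := dist_triangle y x (emb (near x))
      rw [dist_comm (emb (near y)) y] at t1
      unfold dY
      linarith
    have h2 := dY_le_add y x
    linarith
  · have hn := near_mem x
    have hs : (sh (near x).1, (near x).2 + 1) ∈ CP := Cmp.sh hn
    apply h _ (near_mem (AT x)) _ hs
    have e : emb (sh (near x).1, (near x).2 + 1) = AT (emb (near x)) := emb_sh _ _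
    rw [e]
    have h1 : dist (AT x) (AT (emb (near x))) ≤ 7 * dY x := AT_dist _ _
    have h2 : dY (AT x) ≤ 7 * dY x := by
      refine (dY_le hs).trans ?_
      rw [e]; exact h1
    have h3 := dist_triangle (emb (near (AT x))) (AT x) (AT (emb (near x)))
    rw [dist_comm (emb (near (AT x))) (AT x)] at h3
    have h4 : dist (AT x) (emb (near (AT x))) = dY (AT x) := rfl
    linarith

lemma JT_emb {p : Om × ℤ_[2]} (hp : p ∈ CP) : JT (emb p) = p.2 := by
  have h1 : dY (emb p) ≤ 0 := by
    have := dY_le (x := emb p) hp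
    rwa [dist_self] at this
  have h2 : emb p = emb (near (emb p)) := dist_le_zero.1 h1
  have h3 := emb_injOn hp (near_mem _) h2
  unfold JT
  rw [← h3]

lemma AT_injective : Function.Injective AT := by
  intro y y' h
  unfold AT at h
  rw [Prod.mk.injEq] at h
  obtain ⟨h1, h2⟩ := h
  have h3 := neg_injective h1
  rw [h3] at h2
  exact Prod.ext (add_right_cancel h2) h3

/-! ### A smooth function with zero set the Toeplitz set -/

/-- embedding of the two-torus in the complex plane squared -/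
noncomputable def ET (y : T2) : ℂ × ℂ := ((AddCircle.toCircle y.1 : ℂ), (AddCircle.toCircle y.2 : ℂ))

lemma continuous_ET : Continuous ET :=
  (continuous_subtype_val.comp (AddCircle.continuous_toCircle.comp continuous_fst)).prodMk
    (continuous_subtype_val.comp (AddCircle.continuous_toCircle.comp continuous_snd))

lemma ET_injective : Function.Injective ET := by
  intro y y' h
  unfold ET at h
  rw [Prod.mk.injEq] at h
  have hi : Function.Injective (AddCircle.toCircle : UnitAddCircle → Circle) :=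
    AddCircle.injective_toCircle one_ne_zero
  exact Prod.ext (hi (Subtype.ext h.1)) (hi (Subtype.ext h.2))

lemma contDiff_cb : ContDiff ℝ 1 cb := by unfold cb; fun_prop
lemma contDiff_ca : ContDiff ℝ 1 ca := by unfold ca; have := contDiff_cb; fun_prop

lemma contDiff_ETpT : ContDiff ℝ 1 fun x => ET (pT x) := by
  have h1 : ContDiff ℝ 1 (fun x : ℝ => (x : ℂ)) := Complex.ofRealCLM.contDiff
  have h2 : ∀ g : ℝ × ℝ → ℝ, ContDiff ℝ 1 g →
      ContDiff ℝ 1 fun x => ((AddCircle.toCircle (g x : UnitAddCircle) : Circle) : ℂ) := by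
    intro g hg
    have e : (fun x => ((AddCircle.toCircle (g x : UnitAddCircle) : Circle) : ℂ)) =
        fun x => Complex.exp (((2 * Real.pi / 1 * g x : ℝ) : ℂ) * Complex.I) := by
      funext x
      rw [AddCircle.toCircle_apply_mk, Circle.coe_exp]
    rw [e]
    exact ((h1.comp (contDiff_const.mul hg)).mul contDiff_const).cexp
  exact (h2 _ contDiff_ca).prodMk (h2 _ contDiff_cb)

lemma exists_f : ∃ f : ℂ × ℂ → ℝ, Function.support f = (ET '' (emb '' CP))ᶜ ∧
    ContDiff ℝ 1 f ∧ Set.range f ⊆ Set.Icc 0 1 := by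
  have h : IsCompact (ET '' (emb '' CP)) := (isCompact_CP.image continuous_emb).image continuous_ET
  obtain ⟨f, h1, h2, h3⟩ := h.isClosed.isOpen_compl.exists_contDiff_support_eq (n := ⊤)
  exact ⟨f, h1, h2.of_le (by exact_mod_cast le_top), h3⟩

/-- the smooth function -/
noncomputable def Fu (x : ℝ × ℝ) : ℝ := exists_f.choose (ET (pT x))

lemma contDiff_Fu : ContDiff ℝ 1 Fu := exists_f.choose_spec.2.1.comp contDiff_ETpT

lemma Fu_nonneg (x : ℝ × ℝ) : 0 ≤ Fu x := (exists_f.choose_spec.2.2 ⟨_, rfl⟩).1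
lemma Fu_le_one (x : ℝ × ℝ) : Fu x ≤ 1 := (exists_f.choose_spec.2.2 ⟨_, rfl⟩).2

lemma Fu_eq_zero_iff (x : ℝ × ℝ) : Fu x = 0 ↔ pT x ∈ emb '' CP := by
  have h := exists_f.choose_spec.1
  have h1 : Fu x = 0 ↔ ET (pT x) ∈ ET '' (emb '' CP) := by
    rw [← not_iff_not, ← mem_compl_iff, ← h, Function.mem_support]
    rfl
  rw [h1, ET_injective.mem_set_image]

lemma Fu_congr {x y : ℝ × ℝ} (h : pT x = pT y) : Fu x = Fu y := by unfold Fu; rw [h]

lemma per_bounded {G : Type*} [NormedAddCommGroup G] {g : ℝ × ℝ → G} (hg : Continuous g)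
    (hp : ∀ x m n, g (x + gam m n) = g x) : ∃ C, ∀ x, ‖g x‖ ≤ C := by
  have hst : Continuous fun p : ℝ × ℝ => stdi p.1 p.2 := by unfold stdi; fun_prop
  have hK : IsCompact ((fun p : ℝ × ℝ => stdi p.1 p.2) '' (Icc (0 : ℝ) 1 ×ˢ Icc (0 : ℝ) 1)) :=
    (isCompact_Icc.prod isCompact_Icc).image hst
  obtain ⟨C, hC⟩ := hK.exists_bound_of_continuousOn hg.continuousOn
  refine ⟨C, fun x => ?_⟩
  have e : x = stdi (Int.fract (ca x)) (Int.fract (cb x)) + gam ⌊ca x⌋ ⌊cb x⌋ := by
    conv_lhs => rw [← stdi_ca x]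
    have h1 := Int.fract_add_floor (ca x)
    have h2 := Int.fract_add_floor (cb x)
    unfold stdi gam
    ext
    · simp only [Prod.fst_add]
      linear_combination -h1 - lam * h2
    · simp only [Prod.snd_add]
      linear_combination h1 + lami * h2
  rw [e, hp]
  exact hC _ ⟨(_, _), ⟨⟨Int.fract_nonneg _, (Int.fract_lt_one _).le⟩,
    ⟨Int.fract_nonneg _, (Int.fract_lt_one _).le⟩⟩, rfl⟩

end Pool.Agent.H57.Cen
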