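import Pool.Agent.H57.Cen.Perx

/-!
# Iterated derivatives of the map number `false` at special points
-/

namespace Pool.Agent.H57.Cen

open Filter Topology Set

/-- powers of the linear map number `false` -/
noncomputable def L2 (j : ℤ) : V →L[ℝ] V :=
  ((Aj j).comp (ContinuousLinearMap.fst ℝ (ℝ × ℝ) (E × E))).prod
    (ContinuousLinearMap.snd ℝ (ℝ × ℝ) (E × E))

lemma L2_apply (j : ℤ) (v : V) : L2 j v = (Aj j v.1, v.2) := rfl

lemma L2_zero : L2 0 = 1 := by
  refine ContinuousLinearMap.ext fun v => ?_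
  rw [L2_apply, Aj_zero]; rfl

lemma LL_false (v : V) : LL false v = (Ax v.1, v.2) := by
  rw [LL_apply]
  unfold Lw
  simp [nu, nui]

lemma LLi_false (v : V) : LLi false v = (Aj (-1) v.1, v.2) := by
  rw [LLi_apply]
  simp [nu, nui]

lemma Aj_add (i j : ℤ) (x : ℝ × ℝ) : Aj (i + j) x = Aj i (Aj j x) := by
  rw [Aj_apply, Aj_apply, Aj_apply, neg_add, zpow_add₀ lam_ne, zpow_add₀ lam_ne]
  ext <;> simp <;> ring

lemma GG_iter (n : ℕ) (p : V) : (GG false)^[n] p = Hf (L2 n (Hh.symm p)) := by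
  induction n with
  | zero => rw [Nat.cast_zero, L2_zero]; exact (Hh.apply_symm_apply p).symm
  | succ n ih =>
    rw [Function.iterate_succ_apply', ih, GG_apply]
    have e : Hh.symm (Hf (L2 n (Hh.symm p))) = L2 n (Hh.symm p) := Hh.symm_apply_apply _
    rw [e, LL_false, L2_apply, L2_apply]
    simp only
    rw [Nat.cast_succ, Aj_add_one]

lemma GGi_iter (n : ℕ) (p : V) : (GG false).symm^[n] p = Hf (L2 (-n) (Hh.symm p)) := by
  induction n with
  | zero => rw [Nat.cast_zero, neg_zero, L2_zero]; exact (Hh.apply_symm_apply p).symm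
  | succ n ih =>
    rw [Function.iterate_succ_apply', ih, GG_symm_apply]
    have e : Hh.symm (Hf (L2 (-n) (Hh.symm p))) = L2 (-n) (Hh.symm p) := Hh.symm_apply_apply _
    rw [e, LLi_false, L2_apply, L2_apply]
    simp only
    rw [← Aj_add, Nat.cast_succ, neg_add, add_comm]

lemma L2_mul_MM (j : ℤ) (m : E →L[ℝ] E) : L2 j * MM m = MM m * L2 j := by
  refine ContinuousLinearMap.ext fun v => ?_
  rw [mul_apply_eq_comp, mul_apply_eq_comp, MM_apply, MM_apply, L2_apply, L2_apply]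

lemma lat_zero : lat 0 0 = 0 := by
  unfold lat iv wi; ext <;> simp

lemma u_zero' : u 0 = 0 := by
  have h := u_of_Sm (w := 0) (p := 0) (q := 0) (by unfold Sm; simp)
  rwa [add_zero, lat_zero] at h

lemma Hf_of_u {p : V} (h : u p.2 = 0) : Hf p = p := by
  unfold Hf eta
  rw [h]
  simp

lemma symm_of_u {p : V} (h : u p.2 = 0) : Hh.symm p = p := by
  apply Hh.injective
  rw [Hh.apply_symm_apply, Hh_apply, Hf_of_u h]

lemma DH_of_u {p : V} (h : u p.2 = 0) : DH p = MM (M p) := by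
  unfold DH R cc
  rw [h]
  have : ((dtt p).smulRight (ia (Mdf (tt p) (Jx p.1) (0 : E × E).1)) : V →L[ℝ] V) = 0 := by
    refine ContinuousLinearMap.ext fun v => ?_
    simp
  rw [this, add_zero]

lemma DH_add_Gm {v : V} (h : q v ≠ 0) (m n : ℤ) (p r : ℤ × ℤ) :
    DH (v + Gm m n p r) = DH v := by
  have h1 : HasFDerivAt (fun w => Hf (w + Gm m n p r)) (DH (v + Gm m n p r)) v := by
    have h2 := hasFDerivAt_Hf (v := v + Gm m n p r) (by rw [q_add_Gm]; exact h)
    exact HasFDerivAt.comp v h2 ((hasFDerivAt_id v).add_const _)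
  have h2 : HasFDerivAt (fun w => Hf (w + Gm m n p r)) (DH v) v := by
    have h3 : (fun w => Hf (w + Gm m n p r)) = fun w => Hf w + Gm m n p r := by
      funext w; exact Hf_add_Gm w m n p r
    rw [h3]
    exact (hasFDerivAt_Hf h).add_const _
  exact h1.unique h2

lemma deriv_conj {p : V} (hu : u p.2 = 0) (hq : q p ≠ 0) (j : ℤ) {m n : ℤ}
    (hj : Aj j p.1 = p.1 + gam m n) :
    HasFDerivAt (fun w => Hf (L2 j (Hh.symm w))) (L2 j) p := by
  have h0 := symm_of_u hu
  have h1 : HasFDerivAt Hh.symm (Ring.inverse (DH p)) p := by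
    have := hasFDerivAt_symm (p := p) (by rw [h0]; exact hq)
    rwa [h0] at this
  have h2 : HasFDerivAt (fun w => L2 j (Hh.symm w)) ((L2 j).comp (Ring.inverse (DH p))) p :=
    (L2 j).hasFDerivAt.comp p h1
  have e1 : L2 j (Hh.symm p) = p + Gm m n 0 0 := by
    rw [h0, L2_apply, hj]
    unfold Gm
    rw [lat_zero]
    refine Prod.ext rfl ?_
    simp
  have h3 : HasFDerivAt Hf (DH p) (L2 j (Hh.symm p)) := by
    have := hasFDerivAt_Hf (v := p + Gm m n 0 0) (by rw [q_add_Gm]; exact hq)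
    rw [DH_add_Gm hq] at this
    rw [e1]; exact this
  have h4 := HasFDerivAt.comp (g := Hf) p h3 h2
  refine h4.congr_fderiv ?_
  have hun := isUnit_DH hq
  have e2 : (DH p) * L2 j * Ring.inverse (DH p) = L2 j := by
    have e3 : DH p * L2 j = L2 j * DH p := by rw [DH_of_u hu, L2_mul_MM]
    rw [e3, mul_assoc, Ring.mul_inverse_cancel _ hun, mul_one]
  exact e2

lemma Aj_mul_per {x : ℝ × ℝ} {k : ℤ} {s t : ℤ} (h : Aj k x = x + gam s t) (m : ℤ) :
    ∃ s' t' : ℤ, Aj (k * m) x = x + gam s' t' := by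
  have add_gam : ∀ a b c d : ℤ, gam a b + gam c d = gam (a + c) (b + d) := by
    intro a b c d
    unfold gam
    ext
    · simp only [Prod.mk_add_mk]; push_cast; ring
    · simp only [Prod.mk_add_mk]; push_cast; ring
  have hneg : ∃ s' t' : ℤ, Aj (-k) x = x + gam s' t' := by
    obtain ⟨s', t', h'⟩ := Aj_gam (-k) s t
    refine ⟨-s', -t', ?_⟩
    have h2 := congrArg (Aj (-k)) h
    rw [← Aj_add, neg_add_cancel, Aj_zero, map_add, h'] at h2
    have h3 : gam s' t' + gam (-s') (-t') = 0 := by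
      rw [add_gam]
      unfold gam
      ext <;> simp
    calc Aj (-k) x = Aj (-k) x + (gam s' t' + gam (-s') (-t')) := by rw [h3, add_zero]
      _ = x + gam (-s') (-t') := by rw [← add_assoc, ← h2]
  induction m with
  | zero =>
    refine ⟨0, 0, ?_⟩
    rw [mul_zero, Aj_zero]
    unfold gam; ext <;> simp
  | succ m ih =>
    obtain ⟨s', t', h'⟩ := ih
    obtain ⟨a, b, h3⟩ := Aj_gam k s' t'
    refine ⟨s + a, t + b, ?_⟩
    rw [mul_add, mul_one, add_comm, Aj_add, h', map_add, h, h3, ← add_gam, add_assoc]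
  | pred m ih =>
    obtain ⟨s', t', h'⟩ := ih
    obtain ⟨s₂, t₂, h₂⟩ := hneg
    obtain ⟨a, b, h3⟩ := Aj_gam (-k) s' t'
    refine ⟨s₂ + a, t₂ + b, ?_⟩
    have e : k * (-(m : ℤ) - 1) = -k + k * -(m : ℤ) := by ring
    rw [e, Aj_add, h', map_add, h₂, h3, ← add_gam, add_assoc]

lemma q_of_u {p : V} (h : Phi p.1 ≠ 0) : q p ≠ 0 := by
  unfold q
  have h1 : 0 < Phi p.1 ^ 2 := by positivity
  have h2 := Q_nonneg p.2
  linarith

lemma Dit_per {x : ℝ × ℝ} {k : ℕ} (hk : 1 ≤ k) {s t : ℤ} (h : Aj k x = x + gam s t) (m : ℕ) :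
    Dit (GG false) (DG false) (k * m) ((x, 0) : V) = L2 (k * m) ∧
      Dit (GG false).symm (DGi false) (k * m) ((x, 0) : V) = L2 (-(k * m)) := by
  have hu : u ((x, 0) : V).2 = 0 := u_zero'
  have hq : q ((x, 0) : V) ≠ 0 := q_of_u (Phi_ne_zero_of_per hk h)
  constructor
  · obtain ⟨s', t', h'⟩ := Aj_mul_per h m
    have h1 := hasFDerivAt_iter (hasFDerivAt_GG false) (k * m) ((x, 0) : V)
    have h2 := deriv_conj hu hq (k * m) h'
    have e : (⇑(GG false))^[k * m] = fun w => Hf (L2 (k * m) (Hh.symm w)) := by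
      funext w; rw [GG_iter]; push_cast; rfl
    rw [e] at h1
    exact h1.unique h2
  · obtain ⟨s', t', h'⟩ := Aj_mul_per h (-m)
    have h1 := hasFDerivAt_iter (hasFDerivAt_GG_symm false) (k * m) ((x, 0) : V)
    have h2 := deriv_conj hu hq (k * -m) h'
    have e : (⇑(GG false).symm)^[k * m] = fun w => Hf (L2 (k * -m) (Hh.symm w)) := by
      funext w; rw [GGi_iter]; push_cast; ring_nf
    rw [e] at h1
    have := h1.unique h2
    rw [this]
    congr 1
    ring

/-! ### The base point -/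

/-- the base point and its orbit -/
noncomputable def pz (j : ℤ) : V := (Aj j x0, 0)

lemma q_pz (j : ℤ) : q (pz j) = 0 := by
  unfold q pz
  simp only
  rw [Phi_Aj_zero Phi_x0]
  have : Q 0 = 0 := by
    unfold Q
    rw [u_zero']
    unfold Q0
    simp
  rw [this]; ring

lemma GG_pz (j : ℤ) : GG false (pz j) = pz (j + 1) := by
  rw [GG_apply, symm_of_zero (q_pz j), LL_false]
  have : ((Ax (pz j).1, (pz j).2) : V) = pz (j + 1) := by
    unfold pz
    rw [Aj_add_one]
  rw [this, Hf_of_q_zero (q_pz _)]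

lemma GGi_pz (j : ℤ) : (GG false).symm (pz j) = pz (j - 1) := by
  apply (GG false).injective
  rw [(GG false).apply_symm_apply, GG_pz, sub_add_cancel]

lemma DG_pz (j : ℤ) : DG false (pz j) = LL false * MM (aInf (j : ℤ_[2])) := by
  rw [DG, if_pos (q_symm_eq_zero.2 (q_pz j)), LN, NN_of_zero false (q_pz j)]
  have : Jx (pz j).1 = (j : ℤ_[2]) := by
    unfold pz
    simp only
    rw [Jx_Aj Phi_x0, Jx_x0, zero_add]
  rw [this]

lemma DGi_pz (j : ℤ) : DGi false (pz j) = MM (aInfi ((j - 1 : ℤ) : ℤ_[2])) * LLi false := by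
  have h1 := DG_mul_DGi false (pz j)
  rw [GGi_pz, DG_pz] at h1
  set a := aInf ((j - 1 : ℤ) : ℤ_[2])
  set ai := aInfi ((j - 1 : ℤ) : ℤ_[2])
  have h2 : (MM ai * LLi false) * (LL false * MM a) = 1 := by
    rw [mul_assoc, ← mul_assoc (LLi false), LLi_mul_LL, one_mul, MM_mul, aInfi_mul_aInf, MM_one]
  calc DGi false (pz j) = ((MM ai * LLi false) * (LL false * MM a)) * DGi false (pz j) := by
        rw [h2, one_mul]
    _ = (MM ai * LLi false) * ((LL false * MM a) * DGi false (pz j)) := by rw [mul_assoc]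
    _ = MM ai * LLi false := by rw [h1, mul_one]

lemma Dit_succ' (g : V → V) (D : V → V →L[ℝ] V) (n : ℕ) (p : V) :
    Dit g D (n + 1) p = D (g^[n] p) * Dit g D n p := by
  rw [add_comm, Dit_add]
  congr 1

lemma iter_pz (m : ℕ) : (GG false)^[m] (pz 0) = pz m := by
  induction m with
  | zero => rfl
  | succ m ih => rw [Function.iterate_succ_apply', ih, GG_pz]; push_cast; rfl

lemma iteri_pz (m : ℕ) : (GG false).symm^[m] (pz 0) = pz (-m) := by
  induction m with
  | zero => rfl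
  | succ m ih =>
    rw [Function.iterate_succ_apply', ih, GGi_pz]
    congr 1
    push_cast
    ring

lemma Dit_pz (m : ℕ) (h : V) : Dit (GG false) (DG false) m (pz 0) h =
    (Aj m h.1, (prodF m h.2.1, h.2.2)) := by
  induction m with
  | zero => simp [Dit, prodF, Aj_zero]
  | succ m ih =>
    rw [Dit_succ', mul_apply_eq_comp, ih, iter_pz, DG_pz, mul_apply_eq_comp, MM_apply, LL_false]
    simp only
    rw [Nat.cast_succ, Aj_add_one, prodF]
    rfl

lemma Diti_pz (m : ℕ) (h : V) : Dit (GG false).symm (DGi false) m (pz 0) h =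
    (Aj (-m) h.1, (prodB m h.2.1, h.2.2)) := by
  induction m with
  | zero => simp [Dit, prodB, Aj_zero]
  | succ m ih =>
    rw [Dit_succ', mul_apply_eq_comp, ih, iteri_pz, DGi_pz, mul_apply_eq_comp, LLi_false, MM_apply]
    simp only
    rw [← Aj_add]
    have e1 : (-1 : ℤ) + -(m : ℤ) = -((m + 1 : ℕ) : ℤ) := by push_cast; ring
    have e2 : ((-(m : ℤ) - 1 : ℤ) : ℤ_[2]) = -((m : ℤ_[2]) + 1) := by push_cast; ring
    rw [e1, e2, prodB]
    rfl

end Pool.Agent.H57.Cen
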