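import Pool.Agent.H57.Cen.Nph

/-!
# The map number `false` is not partially hyperbolic
-/

namespace Pool.Agent.H57.Cen

open Filter Topology Set

/-- A continuous family of idempotents on `V` which vanishes somewhere vanishes everywhere. -/
lemma idem_zero_or {P : V → V →L[ℝ] V} (hc : Continuous P) (hi : ∀ p, P p * P p = P p)
    {p₁ : V} (h1 : P p₁ = 0) (p : V) : P p = 0 := by
  have hcl : IsClopen {p | P p = 0} := by
    refine ⟨isClosed_eq hc continuous_const, ?_⟩
    rw [isOpen_iff_mem_nhds]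
    intro p (hp : P p = 0)
    have h2 : ∀ᶠ p' in 𝓝 p, ‖P p'‖ < 1 := by
      have : Tendsto (fun p' => ‖P p'‖) (𝓝 p) (𝓝 ‖P p‖) := (hc.norm).tendsto p
      rw [hp, norm_zero] at this
      exact this.eventually (eventually_lt_nhds one_pos)
    filter_upwards [h2] with p' h3
    have h4 : ‖P p'‖ ≤ ‖P p'‖ * ‖P p'‖ := by
      conv_lhs => rw [← hi p']
      exact norm_mul_le _ _
    have h5 := norm_nonneg (P p')
    have h6 : ‖P p'‖ = 0 := by
      by_contra hne
      have h7 : 0 < ‖P p'‖ := lt_of_le_of_ne h5 (Ne.symm hne)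
      nlinarith
    exact norm_eq_zero.1 h6
  have hu := hcl.eq_univ ⟨p₁, h1⟩
  have : p ∈ {p | P p = 0} := by rw [hu]; trivial
  exact this

/-- first basis vector -/
def e1 : V := ((1, 0), 0)
/-- second basis vector -/
def e2 : V := ((0, 1), 0)

lemma norm_e1 : ‖e1‖ = 1 := by
  unfold e1
  rw [Prod.norm_def, Prod.norm_def, Prod.norm_def]
  simp
lemma norm_e2 : ‖e2‖ = 1 := by
  unfold e2
  rw [Prod.norm_def, Prod.norm_def, Prod.norm_def]
  simp

lemma pow_growth {C r : ℝ} (hr : 0 < r) (hr1 : r < 1) {a : ℝ} {k : ℕ} (hk : 1 ≤ k)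
    (h : ∀ m : ℕ, |a| ≤ C * r ^ (k * m)) : a = 0 := by
  have h1 : Tendsto (fun m : ℕ => C * r ^ (k * m)) atTop (𝓝 (C * 0)) := by
    have h2 : Tendsto (fun m : ℕ => (r ^ k) ^ m) atTop (𝓝 0) :=
      tendsto_pow_atTop_nhds_zero_of_lt_one (by positivity) (pow_lt_one₀ hr.le hr1 (by omega))
    refine (h2.congr fun m => ?_).const_mul C
    rw [pow_mul]
  rw [mul_zero] at h1
  have h3 := ge_of_tendsto' h1 h
  exact abs_nonpos_iff.1 h3

/-- the growth contradiction -/
lemma growth_contra {T : ℕ → V →L[ℝ] V} {P : V →L[ℝ] V} {B : ℕ → (E →L[ℝ] E)} {C : ℝ}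
    (hP : P * P = P)
    (h1 : ∀ m h, P h = 0 → ‖T m h‖ ≤ C * lam ^ m * ‖h‖)
    (h2 : ∀ m h, pa (T m (P h)) = 0)
    (h3 : ∀ m v, pa (T m (ia v)) = B m v)
    (h4 : ∀ k, 1 ≤ k → ∃ v : E, ‖v‖ ≤ 1 ∧ 4 ^ k * 34 ^ (2 ^ k) ≤ ‖B (2 ^ k) v‖ ^ 2) : False := by
  have hlam : lam ^ 2 ≤ 34 := by
    have := lam_bounds
    nlinarith [this.1, this.2]
  have hC : 0 ≤ C := by
    have := h1 0 (ia (1, 1) - P (ia (1, 1))) (by
      rw [map_sub]
      have := congrArg (fun f => f (ia (1, 1))) hP
      simp only [mul_apply_eq_comp] at this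
      rw [this, sub_self])
    by_contra hcon
    push Not at hcon
    have h5 : ‖T 0 (ia (1, 1) - P (ia (1, 1)))‖ = 0 ∧ ‖ia (1, 1) - P (ia (1, 1))‖ = 0 := by
      have a1 := norm_nonneg (T 0 (ia (1, 1) - P (ia (1, 1))))
      have a2 := norm_nonneg (ia (1, 1) - P (ia (1, 1)))
      rw [pow_zero, mul_one] at this
      constructor
      · nlinarith
      · by_contra hne
        have : 0 < ‖ia (1, 1) - P (ia (1, 1))‖ := lt_of_le_of_ne a2 (Ne.symm hne)
        nlinarith
    have h6 : ia (1, 1) = P (ia (1, 1)) := sub_eq_zero.1 (norm_eq_zero.1 h5.2)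
    obtain ⟨v, hv, hv2⟩ := h4 1 le_rfl
    -- every twisted vector is then in the range of `P`
    have h7 : ∀ h, P h = h := by
      intro h
      by_contra hne
      have h8 := h1 0 (h - P h) (by
        rw [map_sub]
        have := congrArg (fun f => f h) hP
        simp only [mul_apply_eq_comp] at this
        rw [this, sub_self])
      rw [pow_zero, mul_one] at h8
      have a2 : 0 < ‖h - P h‖ := norm_pos_iff.2 (sub_ne_zero.2 (Ne.symm hne))
      have a1 := norm_nonneg (T 0 (h - P h))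
      nlinarith
    have h9 := h2 (2 ^ 1) (ia v)
    rw [h7, h3] at h9
    rw [h9, norm_zero] at hv2
    norm_num at hv2
  set K := C * (1 + ‖P‖) with hK
  have hK0 : 0 ≤ K := by positivity
  have key : ∀ k, 1 ≤ k → (4 : ℝ) ^ k ≤ K ^ 2 := by
    intro k hk
    obtain ⟨v, hv, hv2⟩ := h4 k hk
    have a1 : B (2 ^ k) v = pa (T (2 ^ k) (ia v - P (ia v))) := by
      rw [map_sub, map_sub, h2, sub_zero, h3]
    have a2 : ‖ia v - P (ia v)‖ ≤ 1 + ‖P‖ := by
      refine (norm_sub_le _ _).trans ?_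
      have b1 : ‖ia v‖ ≤ 1 := by rw [ia_norm]; exact hv
      have b2 := ContinuousLinearMap.le_opNorm P (ia v)
      have b3 := norm_nonneg P
      nlinarith
    have a3 : ‖B (2 ^ k) v‖ ≤ K * lam ^ (2 ^ k) := by
      rw [a1]
      refine (pa_norm_le _).trans ((h1 _ _ ?_).trans ?_)
      · rw [map_sub]
        have := congrArg (fun f => f (ia v)) hP
        simp only [mul_apply_eq_comp] at this
        rw [this, sub_self]
      · have hl : 0 ≤ lam ^ 2 ^ k := by have := lam_pos; positivity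
        calc C * lam ^ 2 ^ k * ‖ia v - P (ia v)‖ ≤ C * lam ^ 2 ^ k * (1 + ‖P‖) := by gcongr
          _ = K * lam ^ 2 ^ k := by rw [hK]; ring
    have a4 : ‖B (2 ^ k) v‖ ^ 2 ≤ K ^ 2 * 34 ^ (2 ^ k) := by
      calc ‖B (2 ^ k) v‖ ^ 2 ≤ (K * lam ^ (2 ^ k)) ^ 2 := by gcongr
        _ = K ^ 2 * (lam ^ 2) ^ (2 ^ k) := by ring
        _ ≤ K ^ 2 * 34 ^ (2 ^ k) := by gcongr
    have a5 : (0 : ℝ) < 34 ^ (2 ^ k) := by positivity
    have a6 := hv2.trans a4
    exact le_of_mul_le_mul_right a6 a5
  have hlim : Tendsto (fun k : ℕ => (4 : ℝ) ^ k) atTop atTop :=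
    tendsto_pow_atTop_atTop_of_one_lt (by norm_num)
  obtain ⟨k, hk1, hk2⟩ := ((hlim.eventually (eventually_gt_atTop (K ^ 2))).and
    (eventually_ge_atTop 1)).exists
  exact absurd (key k hk2) (not_le.2 hk1)

/-- derivative iterates, forward -/
noncomputable abbrev Df (n : ℕ) (p : V) : V →L[ℝ] V := Dit (GG false) (DG false) n p
/-- derivative iterates, backward -/
noncomputable abbrev Db (n : ℕ) (p : V) : V →L[ℝ] V := Dit (GG false).symm (DGi false) n p

lemma pz_zero : pz 0 = (x0, 0) := by unfold pz; rw [Aj_zero]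

/-- unstable vectors at special points point in the first direction -/
lemma range_u {P : V → V →L[ℝ] V} (hc : Continuous P) (hi : ∀ p, P p * P p = P p) {C r : ℝ}
    (hr : 0 < r) (hr1 : r < 1) (hu : ∀ m p h, P p h = h → ‖Db m p h‖ ≤ C * r ^ m * ‖h‖)
    (x : ℝ × ℝ) (h : V) : (P (x, 0) h).1.2 = 0 ∧ (P (x, 0) h).2 = 0 := by
  have key : ∀ pq : ℚ × ℚ, (P (stdi pq.1 pq.2, 0) h).1.2 = 0 ∧ (P (stdi pq.1 pq.2, 0) h).2 = 0 := by
    intro pq
    obtain ⟨k, hk, s, t, hst⟩ := rat_per pq.1 pq.2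
    set x := stdi (pq.1 : ℝ) (pq.2 : ℝ)
    set y := P (x, 0) h with hy
    have hyy : P (x, 0) y = y := congrArg (fun f => f h) (hi (x, 0))
    have hb : ∀ m : ℕ, ‖L2 (-(k * m)) y‖ ≤ C * r ^ (k * m) * ‖y‖ := by
      intro m
      have := hu (k * m) (x, 0) y hyy
      rwa [Db, (Dit_per hk hst m).2] at this
    constructor
    · apply pow_growth (C := C * ‖y‖) hr hr1 hk
      intro m
      have h1 := hb m
      rw [L2_apply, Aj_apply] at h1
      have h2 : |lam ^ (-(-((k : ℤ) * m))) * y.1.2| ≤ C * r ^ (k * m) * ‖y‖ :=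
        ((norm_snd_le _).trans (norm_fst_le _)).trans h1
      have h3 : 1 ≤ lam ^ (-(-((k : ℤ) * m))) := by
        rw [neg_neg]
        apply one_le_zpow₀
        · have := lam_bounds; linarith [this.1]
        · positivity
      rw [abs_mul, abs_of_pos (by linarith)] at h2
      have h4 := abs_nonneg y.1.2
      nlinarith
    · have h5 : ‖y.2‖ = 0 := by
        apply pow_growth (C := C * ‖y‖) hr hr1 hk
        intro m
        have h1 := hb m
        rw [L2_apply] at h1
        have h2 := (norm_snd_le _).trans h1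
        rw [abs_of_nonneg (norm_nonneg _)]
        simp only at h2
        linarith
      exact norm_eq_zero.1 h5
  have hcx : Continuous fun x : ℝ × ℝ => P (x, 0) h :=
    (hc.comp (continuous_id.prodMk continuous_const)).clm_apply continuous_const
  constructor
  · have := DenseRange.equalizer (f := fun p : ℚ × ℚ => stdi (p.1 : ℝ) (p.2 : ℝ)) dense_rat
      (g := fun x => (P (x, 0) h).1.2) (h := fun _ => 0)
      (continuous_snd.comp (continuous_fst.comp hcx)) continuous_const
      (funext fun pq => (key pq).1)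
    exact congrFun this x
  · have := DenseRange.equalizer (f := fun p : ℚ × ℚ => stdi (p.1 : ℝ) (p.2 : ℝ)) dense_rat
      (g := fun x => (P (x, 0) h).2) (h := fun _ => 0)
      (continuous_snd.comp hcx) continuous_const
      (funext fun pq => (key pq).2)
    exact congrFun this x

/-- stable vectors at special points point in the second direction -/
lemma range_s {P : V → V →L[ℝ] V} (hc : Continuous P) (hi : ∀ p, P p * P p = P p) {C r : ℝ}
    (hr : 0 < r) (hr1 : r < 1) (hu : ∀ m p h, P p h = h → ‖Df m p h‖ ≤ C * r ^ m * ‖h‖)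
    (x : ℝ × ℝ) (h : V) : (P (x, 0) h).1.1 = 0 ∧ (P (x, 0) h).2 = 0 := by
  have key : ∀ pq : ℚ × ℚ, (P (stdi pq.1 pq.2, 0) h).1.1 = 0 ∧ (P (stdi pq.1 pq.2, 0) h).2 = 0 := by
    intro pq
    obtain ⟨k, hk, s, t, hst⟩ := rat_per pq.1 pq.2
    set x := stdi (pq.1 : ℝ) (pq.2 : ℝ)
    set y := P (x, 0) h with hy
    have hyy : P (x, 0) y = y := congrArg (fun f => f h) (hi (x, 0))
    have hb : ∀ m : ℕ, ‖L2 (k * m) y‖ ≤ C * r ^ (k * m) * ‖y‖ := by
      intro m
      have := hu (k * m) (x, 0) y hyy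
      rwa [Df, (Dit_per hk hst m).1] at this
    constructor
    · apply pow_growth (C := C * ‖y‖) hr hr1 hk
      intro m
      have h1 := hb m
      rw [L2_apply, Aj_apply] at h1
      have h2 : |lam ^ ((k : ℤ) * m) * y.1.1| ≤ C * r ^ (k * m) * ‖y‖ :=
        ((norm_fst_le _).trans (norm_fst_le _)).trans h1
      have h3 : 1 ≤ lam ^ ((k : ℤ) * m) := by
        apply one_le_zpow₀
        · have := lam_bounds; linarith [this.1]
        · positivity
      rw [abs_mul, abs_of_pos (by linarith)] at h2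
      have h4 := abs_nonneg y.1.1
      nlinarith
    · have h5 : ‖y.2‖ = 0 := by
        apply pow_growth (C := C * ‖y‖) hr hr1 hk
        intro m
        have h1 := hb m
        rw [L2_apply] at h1
        have h2 := (norm_snd_le _).trans h1
        rw [abs_of_nonneg (norm_nonneg _)]
        simp only at h2
        linarith
      exact norm_eq_zero.1 h5
  have hcx : Continuous fun x : ℝ × ℝ => P (x, 0) h :=
    (hc.comp (continuous_id.prodMk continuous_const)).clm_apply continuous_const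
  constructor
  · have := DenseRange.equalizer (f := fun p : ℚ × ℚ => stdi (p.1 : ℝ) (p.2 : ℝ)) dense_rat
      (g := fun x => (P (x, 0) h).1.1) (h := fun _ => 0)
      (continuous_fst.comp (continuous_fst.comp hcx)) continuous_const
      (funext fun pq => (key pq).1)
    exact congrFun this x
  · have := DenseRange.equalizer (f := fun p : ℚ × ℚ => stdi (p.1 : ℝ) (p.2 : ℝ)) dense_rat
      (g := fun x => (P (x, 0) h).2) (h := fun _ => 0)
      (continuous_snd.comp hcx) continuous_const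
      (funext fun pq => (key pq).2)
    exact congrFun this x

end Pool.Agent.H57.Cen
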