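import Pool.Agent.H57.Cen.Nph2

/-!
# The map number `false` is not partially hyperbolic: conclusion
-/

namespace Pool.Agent.H57.Cen

open Filter Topology Set

lemma DGi_mul_DG' (p : V) : DGi false p * DG false ((GG false).symm p) = 1 := by
  have h := DGi_mul_DG false ((GG false).symm p)
  rwa [(GG false).apply_symm_apply] at h

lemma inv_back_one {P : V → V →L[ℝ] V}
    (h : ∀ p, DG false p * P p = P (GG false p) * DG false p) (p : V) :
    DGi false p * P p = P ((GG false).symm p) * DGi false p := by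
  have h1 := h ((GG false).symm p)
  rw [(GG false).apply_symm_apply] at h1
  calc DGi false p * P p = DGi false p * P p * (DG false ((GG false).symm p) * DGi false p) := by
        rw [DG_mul_DGi, mul_one]
    _ = DGi false p * (P p * DG false ((GG false).symm p)) * DGi false p := by
        simp only [mul_assoc]
    _ = (DGi false p * DG false ((GG false).symm p)) * P ((GG false).symm p) * DGi false p := by
        rw [← h1]; simp only [mul_assoc]
    _ = P ((GG false).symm p) * DGi false p := by rw [DGi_mul_DG', one_mul]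

lemma inv_back {P : V → V →L[ℝ] V}
    (h : ∀ p, DG false p * P p = P (GG false p) * DG false p) (m : ℕ) (p : V) :
    Db m p * P p = P ((GG false).symm^[m] p) * Db m p := by
  induction m with
  | zero => simp [Dit]
  | succ m ih =>
    rw [Db, Dit_succ', mul_assoc, ih, ← mul_assoc, inv_back_one h, Function.iterate_succ_apply',
      mul_assoc]

lemma Df_Db (m : ℕ) (p : V) : Df m ((GG false).symm^[m] p) * Db m p = 1 := by
  induction m with
  | zero => simp [Dit]
  | succ m ih =>
    rw [Db, Dit_succ', Df, Dit, Function.iterate_succ_apply', (GG false).apply_symm_apply,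
      mul_assoc, ← mul_assoc (DG false _), DG_mul_DGi, one_mul]
    exact ih

lemma Df_e1 (m : ℕ) : ‖Df m (pz 0) e1‖ = lam ^ m := by
  rw [Df, Dit_pz]
  have : ((Aj m e1.1, (prodF m e1.2.1, e1.2.2)) : V) = lam ^ m • e1 := by
    rw [Aj_apply]
    unfold e1
    simp
  rw [this, norm_smul, norm_e1, mul_one, norm_pow, Real.norm_of_nonneg lam_pos.le]

lemma Db_e2 (m : ℕ) : ‖Db m (pz 0) e2‖ = lam ^ m := by
  rw [Db, Diti_pz]
  have : ((Aj (-m) e2.1, (prodB m e2.2.1, e2.2.2)) : V) = lam ^ m • e2 := by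
    rw [Aj_apply]
    unfold e2
    simp
  rw [this, norm_smul, norm_e2, mul_one, norm_pow, Real.norm_of_nonneg lam_pos.le]

lemma eq_smul_e1 {y : V} (h1 : y.1.2 = 0) (h2 : y.2 = 0) : y = y.1.1 • e1 := by
  unfold e1
  refine Prod.ext (Prod.ext ?_ ?_) ?_ <;> simp [h1, h2]

lemma eq_smul_e2 {y : V} (h1 : y.1.1 = 0) (h2 : y.2 = 0) : y = y.1.2 • e2 := by
  unfold e2
  refine Prod.ext (Prod.ext ?_ ?_) ?_ <;> simp [h1, h2]

lemma one_le_lam_pow (m : ℕ) : 1 ≤ lam ^ m := by
  apply one_le_pow₀
  have := lam_bounds; linarith [this.1]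

/-- The main negative statement, in the plane of lifts. -/
theorem no_ph {Ps Pc Pu : V → V →L[ℝ] V} (hcs : Continuous Ps) (hcu : Continuous Pu)
    (hsum : ∀ p, Ps p + Pc p + Pu p = 1) (his : ∀ p, Ps p * Ps p = Ps p)
    (hic : ∀ p, Pc p * Pc p = Pc p) (hiu : ∀ p, Pu p * Pu p = Pu p)
    (invs : ∀ p, DG false p * Ps p = Ps (GG false p) * DG false p)
    (invc : ∀ p, DG false p * Pc p = Pc (GG false p) * DG false p)
    {C r : ℝ} (hC : 0 ≤ C) (hr0 : 0 < r) (hr1 : r < 1)
    (hs : ∀ m p h, Ps p h = h → ‖Df m p h‖ ≤ C * r ^ m * ‖h‖)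
    (hu : ∀ m p h, Pu p h = h → ‖Db m p h‖ ≤ C * r ^ m * ‖h‖)
    (hsc : ∀ m p h k, Ps p h = h → Pc p k = k → ‖Df m p h‖ * ‖k‖ ≤ C * r ^ m * ‖Df m p k‖ * ‖h‖)
    (hcu' : ∀ m p h k, Pc p h = h → Pu p k = k →
      ‖Df m p h‖ * ‖k‖ ≤ C * r ^ m * ‖Df m p k‖ * ‖h‖) :
    (∀ p, Ps p = 0) ∧ (∀ p, Pu p = 0) := by
  have hrm : ∀ m : ℕ, r ^ m ≤ 1 := fun m => pow_le_one₀ hr0.le hr1.le
  have hrm0 : ∀ m : ℕ, 0 ≤ r ^ m := fun m => pow_nonneg hr0.le m
  have hap : ∀ (A B : V →L[ℝ] V) (h : V), A * B = B → A (B h) = B h := fun A B h hAB =>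
    congrArg (fun f => f h) hAB
  constructor
  · by_contra hcon
    push Not at hcon
    obtain ⟨p₁, hp₁⟩ := hcon
    have h0 : Ps (pz 0) ≠ 0 := fun h => hp₁ (idem_zero_or hcs his h p₁)
    have h0' : ∃ h, Ps (pz 0) h ≠ 0 := by
      by_contra hc
      push Not at hc
      exact h0 (ContinuousLinearMap.ext hc)
    obtain ⟨h, hh⟩ := h0'
    obtain ⟨a1, a2⟩ := range_s hcs his hr0 hr1 hs x0 h
    rw [← pz_zero] at a1 a2
    set y := Ps (pz 0) h with hy
    have hye := eq_smul_e2 a1 a2
    have hc0 : y.1.2 ≠ 0 := by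
      intro hz
      rw [hz, zero_smul] at hye
      exact hh hye
    have hfix : Ps (pz 0) e2 = e2 := by
      have h1 : Ps (pz 0) y = y := hap _ _ h (his _)
      rw [hye, map_smul] at h1
      exact smul_right_injective V hc0 h1
    refine growth_contra (T := fun m => Db m (pz 0)) (P := Ps (pz 0)) (B := prodB)
      (C := C * (‖Pc (pz 0)‖ + ‖Pu (pz 0)‖)) (his _) ?_ ?_ ?_ ?_
    · intro m k hk
      have hk2 : k = Pc (pz 0) k + Pu (pz 0) k := by
        have := congrArg (fun f => f k) (hsum (pz 0))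
        simp only [add_apply, one_apply_eq_self] at this
        rw [hk, zero_add] at this
        exact this.symm
      have b1 : ‖Db m (pz 0) (Pu (pz 0) k)‖ ≤ C * lam ^ m * (‖Pu (pz 0)‖ * ‖k‖) := by
        refine (hu m _ _ (hap _ _ k (hiu _))).trans ?_
        have c1 := ContinuousLinearMap.le_opNorm (Pu (pz 0)) k
        have c2 := (hrm m).trans (one_le_lam_pow m)
        have c3 := hrm0 m
        have c4 : 0 ≤ C * lam ^ m := mul_nonneg hC (c3.trans c2)
        gcongr
      have b2 : ‖Db m (pz 0) (Pc (pz 0) k)‖ ≤ C * lam ^ m * (‖Pc (pz 0)‖ * ‖k‖) := by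
        set p := (GG false).symm^[m] (pz 0) with hp
        have c1 : Ps p (Db m (pz 0) e2) = Db m (pz 0) e2 := by
          have := congrArg (fun f => f e2) (inv_back invs m (pz 0))
          simp only [mul_apply_eq_comp] at this
          rw [← hp, hfix] at this
          exact this.symm
        have c2 : Pc p (Db m (pz 0) (Pc (pz 0) k)) = Db m (pz 0) (Pc (pz 0) k) := by
          have := congrArg (fun f => f (Pc (pz 0) k)) (inv_back invc m (pz 0))
          simp only [mul_apply_eq_comp] at this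
          rw [← hp, hap _ _ k (hic _)] at this
          exact this.symm
        have c3 := hsc m p _ _ c1 c2
        have c4 : ∀ z, Df m p (Db m (pz 0) z) = z := fun z => by
          have := congrArg (fun f => f z) (Df_Db m (pz 0))
          exact this
        rw [c4, c4, norm_e2, one_mul, Db_e2] at c3
        refine c3.trans ?_
        have c5 := ContinuousLinearMap.le_opNorm (Pc (pz 0)) k
        have c6 := hrm m
        have c7 : 0 ≤ lam ^ m := by have := lam_pos; positivity
        calc C * r ^ m * ‖Pc (pz 0) k‖ * lam ^ m ≤ C * 1 * (‖Pc (pz 0)‖ * ‖k‖) * lam ^ m := by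
              gcongr
          _ = _ := by ring
      conv_lhs => rw [hk2]
      rw [map_add]
      refine (norm_add_le _ _).trans ?_
      calc _ ≤ C * lam ^ m * (‖Pc (pz 0)‖ * ‖k‖) + C * lam ^ m * (‖Pu (pz 0)‖ * ‖k‖) :=
            add_le_add b2 b1
        _ = _ := by ring
    · intro m k
      have := (range_s hcs his hr0 hr1 hs x0 k).2
      rw [← pz_zero] at this
      rw [Db, Diti_pz, pa_apply]
      simp only
      rw [this]
      simp
    · intro m v
      rw [Db, Diti_pz, pa_apply]
      rfl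
    · intro k hk
      exact prodB_large hk
  · by_contra hcon
    push Not at hcon
    obtain ⟨p₁, hp₁⟩ := hcon
    have h0 : Pu (pz 0) ≠ 0 := fun h => hp₁ (idem_zero_or hcu hiu h p₁)
    have h0' : ∃ h, Pu (pz 0) h ≠ 0 := by
      by_contra hc
      push Not at hc
      exact h0 (ContinuousLinearMap.ext hc)
    obtain ⟨h, hh⟩ := h0'
    obtain ⟨a1, a2⟩ := range_u hcu hiu hr0 hr1 hu x0 h
    rw [← pz_zero] at a1 a2
    set y := Pu (pz 0) h with hy
    have hye := eq_smul_e1 a1 a2
    have hc0 : y.1.1 ≠ 0 := by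
      intro hz
      rw [hz, zero_smul] at hye
      exact hh hye
    have hfix : Pu (pz 0) e1 = e1 := by
      have h1 : Pu (pz 0) y = y := hap _ _ h (hiu _)
      rw [hye, map_smul] at h1
      exact smul_right_injective V hc0 h1
    refine growth_contra (T := fun m => Df m (pz 0)) (P := Pu (pz 0)) (B := prodF)
      (C := C * (‖Pc (pz 0)‖ + ‖Ps (pz 0)‖)) (hiu _) ?_ ?_ ?_ ?_
    · intro m k hk
      have hk2 : k = Pc (pz 0) k + Ps (pz 0) k := by
        have := congrArg (fun f => f k) (hsum (pz 0))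
        simp only [add_apply, one_apply_eq_self] at this
        rw [hk, add_zero, add_comm] at this
        exact this.symm
      have b1 : ‖Df m (pz 0) (Ps (pz 0) k)‖ ≤ C * lam ^ m * (‖Ps (pz 0)‖ * ‖k‖) := by
        refine (hs m _ _ (hap _ _ k (his _))).trans ?_
        have c1 := ContinuousLinearMap.le_opNorm (Ps (pz 0)) k
        have c2 := (hrm m).trans (one_le_lam_pow m)
        have c3 := hrm0 m
        have c4 : 0 ≤ C * lam ^ m := mul_nonneg hC (c3.trans c2)
        gcongr
      have b2 : ‖Df m (pz 0) (Pc (pz 0) k)‖ ≤ C * lam ^ m * (‖Pc (pz 0)‖ * ‖k‖) := by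
        have c3 := hcu' m (pz 0) _ _ (hap _ _ k (hic _)) hfix
        rw [norm_e1, mul_one, Df_e1] at c3
        refine c3.trans ?_
        have c5 := ContinuousLinearMap.le_opNorm (Pc (pz 0)) k
        have c6 := hrm m
        have c7 : 0 ≤ lam ^ m := by have := lam_pos; positivity
        calc C * r ^ m * lam ^ m * ‖Pc (pz 0) k‖ ≤ C * 1 * lam ^ m * (‖Pc (pz 0)‖ * ‖k‖) := by
              gcongr
          _ = _ := by ring
      conv_lhs => rw [hk2]
      rw [map_add]
      refine (norm_add_le _ _).trans ?_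
      calc _ ≤ C * lam ^ m * (‖Pc (pz 0)‖ * ‖k‖) + C * lam ^ m * (‖Ps (pz 0)‖ * ‖k‖) :=
            add_le_add b2 b1
        _ = _ := by ring
    · intro m k
      have := (range_u hcu hiu hr0 hr1 hu x0 k).2
      rw [← pz_zero] at this
      rw [Df, Dit_pz, pa_apply]
      simp only
      rw [this]
      simp
    · intro m v
      rw [Df, Dit_pz, pa_apply]
      rfl
    · intro k hk
      exact prodF_large hk

end Pool.Agent.H57.Cen
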