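import Pool.Agent.H57.Cen.Desc
import Pool.Agent.H57.Cen.Ano2
import Pool.Agent.H57.Cen.Nph3
import Pool.Agent.H57.Cen.Ent

/-!
# The two diffeomorphisms of the six-torus
-/

namespace Pool.Agent.H57.Cen

open Filter Topology Set

lemma ca_smul (c : ℝ) (x : ℝ × ℝ) : cb (c • x) = c * cb x ∧ ca (c • x) = c * ca x := by
  have h1 : cb (c • x) = c * cb x := by
    unfold cb; simp; ring
  refine ⟨h1, ?_⟩
  unfold ca
  rw [h1]; simp; ring

/-- standard coordinates -/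
noncomputable def ThL : V ≃ₗ[ℝ] (Fin 6 → ℝ) where
  toFun v := ![ca v.1, cb v.1, (c1 v.2).1, (c1 v.2).2, (c2 v.2).1, (c2 v.2).2]
  map_add' v w := by
    obtain ⟨h1, h2⟩ := ca_add v.1 w.1
    funext i
    fin_cases i <;> simp [h1, h2]
  map_smul' c v := by
    obtain ⟨h1, h2⟩ := ca_smul c v.1
    funext i
    fin_cases i <;> simp [h1, h2]
  invFun y := (stdi (y 0) (y 1), wi (y 2, y 3) (y 4, y 5))
  left_inv v := by
    simp only [Matrix.cons_val_zero, Matrix.cons_val_one, Matrix.cons_val]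
    rw [stdi_ca]
    exact Prod.ext rfl (wi_c v.2)
  right_inv y := by
    obtain ⟨h1, h2⟩ := ca_stdi (y 0) (y 1)
    obtain ⟨h3, h4⟩ := c_wi (y 2, y 3) (y 4, y 5)
    simp only [h1, h2, h3, h4]
    funext i
    fin_cases i <;> rfl

/-- standard coordinates, as a continuous linear equivalence -/
noncomputable def Th6 : V ≃L[ℝ] (Fin 6 → ℝ) := ThL.toContinuousLinearEquiv

lemma Th6_apply (v : V) :
    Th6 v = ![ca v.1, cb v.1, (c1 v.2).1, (c1 v.2).2, (c2 v.2).1, (c2 v.2).2] := rfl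

lemma Th6_symm_apply (y : Fin 6 → ℝ) :
    Th6.symm y = (stdi (y 0) (y 1), wi (y 2, y 3) (y 4, y 5)) := rfl

lemma Th6_symm_zv (k : Fin 6 → ℤ) : Th6.symm (zv k) = Gm (k 0) (k 1) (k 2, k 3) (k 4, k 5) := rfl

lemma Th6_Gm (m n : ℤ) (p r : ℤ × ℤ) : Th6 (Gm m n p r) = zv ![m, n, p.1, p.2, r.1, r.2] := by
  have h : Gm m n p r = Th6.symm (zv ![m, n, p.1, p.2, r.1, r.2]) := by
    rw [Th6_symm_zv]
    rfl
  rw [h, Th6.apply_symm_apply]

/-- the conjugated map in standard coordinates -/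
noncomputable def GS (b : Bool) : (Fin 6 → ℝ) ≃ₜ (Fin 6 → ℝ) :=
  (Th6.symm.toHomeomorph.trans (GG b)).trans Th6.toHomeomorph

lemma GS_apply (b : Bool) (y : Fin 6 → ℝ) : GS b y = Th6 (GG b (Th6.symm y)) := rfl
lemma GS_symm_apply (b : Bool) (y : Fin 6 → ℝ) : (GS b).symm y = Th6 ((GG b).symm (Th6.symm y)) :=
  rfl

lemma contDiff_GS (b : Bool) : ContDiff ℝ 1 (GS b) :=
  Th6.contDiff.comp ((contDiff_GG b).comp Th6.symm.contDiff)
lemma contDiff_GS_symm (b : Bool) : ContDiff ℝ 1 (GS b).symm :=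
  Th6.contDiff.comp ((contDiff_GG_symm b).comp Th6.symm.contDiff)

lemma LLi_Gm (b : Bool) (m n : ℤ) (p r : ℤ × ℤ) :
    ∃ m' n' p' r', LLi b (Gm m n p r) = Gm m' n' p' r' := by
  cases b
  · refine ⟨6 * m + n, -m, p, r, ?_⟩
    rw [LLi_false]
    unfold Gm
    simp only
    rw [Ai_gam]
  · refine ⟨6 * m + n, -m, r + 200000 • p, -p, ?_⟩
    have h : LL true (Gm (6 * m + n) (-m) (r + 200000 • p) (-p)) = Gm m n p r := by
      unfold Gm
      rw [LL_apply]
      simp only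
      rw [Ax_gam, Lw_lat]
      simp only [if_true]
      congr 1
      · congr 1 <;> ring
      · congr 1
        · simp
        · simp
    rw [← h, LLi_LL]

lemma GG_symm_add_Gm (b : Bool) (v : V) (m n : ℤ) (p r : ℤ × ℤ) :
    (GG b).symm (v + Gm m n p r) = (GG b).symm v + LLi b (Gm m n p r) := by
  rw [GG_symm_apply, GG_symm_apply, Hh_symm_add_Gm, map_add]
  obtain ⟨m', n', p', r', h⟩ := LLi_Gm b m n p r
  rw [h, Hf_add_Gm]

lemma GS_per (b : Bool) (x : Fin 6 → ℝ) (k : Fin 6 → ℤ) :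
    cov 6 (GS b (x + zv k)) = cov 6 (GS b x) := by
  rw [GS_apply, GS_apply, map_add, Th6_symm_zv, GG_add_Gm, map_add]
  obtain ⟨m', n', p', r', h⟩ := LL_Gm b (k 0) (k 1) (k 2, k 3) (k 4, k 5)
  rw [h, Th6_Gm, cov_add_zv]

lemma GS_symm_per (b : Bool) (x : Fin 6 → ℝ) (k : Fin 6 → ℤ) :
    cov 6 ((GS b).symm (x + zv k)) = cov 6 ((GS b).symm x) := by
  rw [GS_symm_apply, GS_symm_apply, map_add, Th6_symm_zv, GG_symm_add_Gm, map_add]
  obtain ⟨m', n', p', r', h⟩ := LLi_Gm b (k 0) (k 1) (k 2, k 3) (k 4, k 5)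
  rw [h, Th6_Gm, cov_add_zv]

/-- The diffeomorphisms of the six-torus. -/
noncomputable def TD (b : Bool) : TorusDiffeo 6 :=
  mkDiffeo (GS b) (contDiff_GS b) (contDiff_GS_symm b) (GS_per b) (GS_symm_per b)

lemma TD_cov (b : Bool) (x : Fin 6 → ℝ) : (TD b).toHomeo (cov 6 x) = cov 6 (GS b x) :=
  mkDiffeo_apply x

lemma TD_comm (θ : Torus 6) :
    (TD true).toHomeo ((TD false).toHomeo θ) = (TD false).toHomeo ((TD true).toHomeo θ) := by
  obtain ⟨x, rfl⟩ := cov_surjective θ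
  rw [TD_cov, TD_cov, TD_cov, TD_cov]
  simp only [GS_apply]
  rw [Th6.symm_apply_apply, Th6.symm_apply_apply, GG_comm]

/-! ### Entropy -/

lemma TD_entropy : 0 < (TD false).entropy := by
  have hφ : UniformContinuous fun θ : Torus 6 => ((θ 0, θ 1) : T2) :=
    (Pi.uniformContinuous_proj _ 0).prodMk (Pi.uniformContinuous_proj _ 1)
  have hsemi : Function.Semiconj (fun θ : Torus 6 => ((θ 0, θ 1) : T2)) (TD false).toHomeo AT := by
    intro θ
    obtain ⟨x, rfl⟩ := cov_surjective θ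
    rw [TD_cov]
    have e : ∀ v : V, (((cov 6 (Th6 v)) 0, (cov 6 (Th6 v)) 1) : T2) = pT v.1 := fun v => rfl
    have e2 : (((cov 6 x) 0, (cov 6 x) 1) : T2) = pT (Th6.symm x).1 := by
      rw [← e, Th6.apply_symm_apply]
    simp only
    rw [GS_apply, e, e2, GG_fst, AT_pT]
  have h := Dynamics.coverEntropy_image_le_of_uniformContinuous hsemi hφ univ
  have hs : Function.Surjective fun θ : Torus 6 => ((θ 0, θ 1) : T2) := fun p =>
    ⟨![p.1, p.2, 0, 0, 0, 0], rfl⟩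
  rw [image_univ_of_surjective hs] at h
  have h0 : (0 : EReal) < ((Real.log 2 : ℝ) : EReal) := by
    exact_mod_cast Real.log_pos (by norm_num)
  exact h0.trans_le (entropy_AT.trans h)

end Pool.Agent.H57.Cen
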