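import Pool.Agent.H57.Cen.Row

/-!
# Periodic points
-/

namespace Pool.Agent.H57.Cen

open Filter Topology Set

lemma Cg_all {z z' : ℤ_[2]} (h : ∀ N, Cg N z z') : z = z' := by
  have h1 : Tendsto (fun N : ℕ => (2 : ℝ) ^ (-(N : ℤ))) atTop (𝓝 0) := by
    have : Tendsto (fun N : ℕ => (1 / 2 : ℝ) ^ N) atTop (𝓝 0) :=
      tendsto_pow_atTop_nhds_zero_of_lt_one (by norm_num) (by norm_num)
    refine this.congr fun N => ?_
    rw [zpow_neg, zpow_natCast, one_div, inv_pow]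
  have h2 : ‖z - z'‖ ≤ 0 := ge_of_tendsto' h1 fun N => cg_iff_norm.1 (h N)
  exact sub_eq_zero.1 (norm_le_zero_iff.1 h2)

lemma Jx_Ax_of_zero {x : ℝ × ℝ} (h : Phi x = 0) : Jx (Ax x) = Jx x + 1 :=
  Cg_all fun N => (del_spec N x (by rw [h]; exact del_pos N)).2

lemma Phi_Ax_zero {x : ℝ × ℝ} (h : Phi x = 0) : Phi (Ax x) = 0 := by
  have h1 := (Phi_Ax_le x).1
  rw [h, mul_zero] at h1
  exact le_antisymm h1 (Phi_nonneg _)

lemma Phi_zero_of_Ax {x : ℝ × ℝ} (h : Phi (Ax x) = 0) : Phi x = 0 := by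
  have h1 := (Phi_Ax_le x).2
  rw [h, mul_zero] at h1
  exact le_antisymm h1 (Phi_nonneg _)

lemma Phi_Aj_zero {x : ℝ × ℝ} (h : Phi x = 0) (j : ℤ) : Phi (Aj j x) = 0 := by
  induction j with
  | zero => rw [Aj_zero]; exact h
  | succ j ih => rw [Aj_add_one]; exact Phi_Ax_zero ih
  | pred j ih =>
    apply Phi_zero_of_Ax
    rw [← Aj_add_one, sub_add_cancel]; exact ih

lemma Jx_Aj {x : ℝ × ℝ} (h : Phi x = 0) (j : ℤ) : Jx (Aj j x) = Jx x + (j : ℤ_[2]) := by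
  induction j with
  | zero => rw [Aj_zero]; simp
  | succ j ih =>
    rw [Aj_add_one, Jx_Ax_of_zero (Phi_Aj_zero h _), ih]
    push_cast
    ring
  | pred j ih =>
    have h1 := Jx_Ax_of_zero (Phi_Aj_zero h (-(j : ℤ) - 1))
    rw [← Aj_add_one, sub_add_cancel, ih] at h1
    have h2 : Jx (Aj (-(j : ℤ) - 1) x) = Jx x + ((-(j : ℤ) : ℤ) : ℤ_[2]) - 1 := by
      rw [h1]; ring
    rw [h2]
    push_cast
    ring

lemma Phi_ne_zero_of_per {x : ℝ × ℝ} {k : ℕ} (hk : 1 ≤ k) {m n : ℤ}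
    (h : Aj k x = x + gam m n) : Phi x ≠ 0 := by
  intro h0
  have h1 := Jx_Aj h0 k
  rw [h, Jx_add_gam] at h1
  have h2 : ((k : ℤ) : ℤ_[2]) = 0 := by
    have : Jx x + ((k : ℤ) : ℤ_[2]) = Jx x + 0 := by rw [← h1, add_zero]
    exact add_left_cancel this
  have h3 : (k : ℤ) = 0 := by exact_mod_cast h2
  omega

/-- the permutation of residues -/
def Tp (N : ℕ) : Equiv.Perm (ZMod N × ZMod N) where
  toFun p := (-p.2, p.1 + 6 * p.2)
  invFun p := (p.2 + 6 * p.1, -p.1)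
  left_inv p := by ext <;> simp
  right_inv p := by ext <;> simp

lemma Tp_apply (N : ℕ) (p : ZMod N × ZMod N) : Tp N p = (-p.2, p.1 + 6 * p.2) := rfl

lemma iter_gam (N j : ℕ) (m n : ℤ) : ∃ m' n' : ℤ, Aj j (gam m n) = gam m' n' ∧
    (Tp N ^ j) ((m : ZMod N), (n : ZMod N)) = ((m' : ZMod N), (n' : ZMod N)) := by
  induction j with
  | zero => exact ⟨m, n, by rw [Nat.cast_zero, Aj_zero], rfl⟩
  | succ j ih =>
    obtain ⟨m', n', h1, h2⟩ := ih
    refine ⟨-n', m' + 6 * n', ?_, ?_⟩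
    · rw [Nat.cast_succ, Aj_add_one, h1, Ax_gam]
    · rw [pow_succ', Equiv.Perm.mul_apply, h2, Tp_apply]
      push_cast
      rfl

lemma gam_smul_add (c : ℝ) (m n s t : ℤ) (N : ℕ) (hc : c * N = 1) :
    c • gam (m + N * s) (n + N * t) = c • gam m n + gam s t := by
  unfold gam
  ext
  · simp
    linear_combination (s + t * lam) * hc
  · simp
    linear_combination -(s + t * lami) * hc

lemma gam_per (N : ℕ) (hN : N ≠ 0) (m n : ℤ) : ∃ k : ℕ, 1 ≤ k ∧ ∃ s t : ℤ,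
    Aj k ((N : ℝ)⁻¹ • gam m n) = (N : ℝ)⁻¹ • gam m n + gam s t := by
  have : NeZero N := ⟨hN⟩
  refine ⟨orderOf (Tp N), orderOf_pos _, ?_⟩
  obtain ⟨m', n', h1, h2⟩ := iter_gam N (orderOf (Tp N)) m n
  rw [pow_orderOf_eq_one, Equiv.Perm.one_apply, Prod.mk.injEq] at h2
  obtain ⟨h3, h4⟩ := h2
  rw [ZMod.intCast_eq_intCast_iff_dvd_sub] at h3 h4
  obtain ⟨s, hs⟩ := h3
  obtain ⟨t, ht⟩ := h4
  refine ⟨s, t, ?_⟩
  rw [map_smul, h1]
  have e1 : m' = m + N * s := by linarith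
  have e2 : n' = n + N * t := by linarith
  rw [e1, e2]
  apply gam_smul_add
  exact inv_mul_cancel₀ (by exact_mod_cast hN)

lemma rat_per (a b : ℚ) : ∃ k : ℕ, 1 ≤ k ∧ ∃ s t : ℤ,
    Aj k (stdi a b) = stdi a b + gam s t := by
  have ha : (a.den : ℝ) ≠ 0 := by exact_mod_cast a.den_nz
  have hb : (b.den : ℝ) ≠ 0 := by exact_mod_cast b.den_nz
  have ea : (a : ℝ) = a.num / a.den := by exact_mod_cast (Rat.num_div_den a).symm
  have eb : (b : ℝ) = b.num / b.den := by exact_mod_cast (Rat.num_div_den b).symm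
  have e : stdi a b = ((a.den * b.den : ℕ) : ℝ)⁻¹ • gam (a.num * b.den) (b.num * a.den) := by
    rw [ea, eb]
    unfold stdi gam
    ext
    · simp
      field_simp
    · simp
      field_simp
  rw [e]
  exact gam_per _ (Nat.mul_ne_zero a.den_nz b.den_nz) _ _

lemma dense_rat : DenseRange fun p : ℚ × ℚ => stdi (p.1 : ℝ) (p.2 : ℝ) := by
  have h1 : DenseRange fun p : ℚ × ℚ => ((p.1 : ℝ), (p.2 : ℝ)) :=
    DenseRange.prodMap Rat.denseRange_cast Rat.denseRange_cast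
  have hs : Function.Surjective fun p : ℝ × ℝ => stdi p.1 p.2 := fun x => ⟨(ca x, cb x), stdi_ca x⟩
  have hc : Continuous fun p : ℝ × ℝ => stdi p.1 p.2 := by unfold stdi; fun_prop
  exact hs.denseRange.comp h1 hc

end Pool.Agent.H57.Cen
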