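import Pool.Agent.H57.Cen.Der2

/-!
# The ratio cocycle
-/

namespace Pool.Agent.H57.Cen

open Filter Topology Set

/-- the linear maps -/
noncomputable def LL (b : Bool) : V →L[ℝ] V :=
  ((Aj 1).comp (ContinuousLinearMap.fst ℝ (ℝ × ℝ) (E × E))).prod
    ((nu b • pa).prod (nui b •
      (ContinuousLinearMap.snd ℝ E E).comp (ContinuousLinearMap.snd ℝ (ℝ × ℝ) (E × E))))

lemma Aj_one (x : ℝ × ℝ) : Aj 1 x = Ax x := by
  have := Aj_add_one 0 x
  rwa [Aj_zero, zero_add] at this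

lemma LL_apply (b : Bool) (v : V) : LL b v = (Ax v.1, Lw b v.2) := by
  unfold LL Lw
  simp [Aj_one, pa_apply]

lemma q_LL_le (b : Bool) (v : V) : q (LL b v) ≤ 10 ^ 12 * q v := by
  have h1 := (Phi_Ax_le v.1).1
  have h2 := Q_Lw_le b v.2
  have h3 := Phi_nonneg (Ax v.1)
  have h4 := Phi_nonneg v.1
  rw [LL_apply]
  unfold q
  simp only
  nlinarith

lemma q_le_LL (b : Bool) (v : V) : q v ≤ 10 ^ 12 * q (LL b v) := by
  have h1 := (Phi_Ax_le v.1).2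
  have h2 := Q_le_Lw b v.2
  have h3 := Phi_nonneg (Ax v.1)
  have h4 := Phi_nonneg v.1
  rw [LL_apply]
  unfold q
  simp only
  nlinarith

lemma q_LL_ne (b : Bool) {v : V} : q (LL b v) ≠ 0 ↔ q v ≠ 0 := by
  have h1 := q_LL_le b v
  have h2 := q_le_LL b v
  have h3 := q_nonneg v
  have h4 := q_nonneg (LL b v)
  constructor
  · intro h h0
    apply h
    rw [h0] at h1
    linarith
  · intro h h0
    apply h
    rw [h0] at h2
    linarith

lemma lf_lower {s t : ℝ} (h : s ≤ t) : Bs ⌈s⌉₊ * (t - s) ≤ lf t - lf s := by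
  have hd : Differentiable ℝ lf := fun x => (hasDerivAt_lf x).differentiableAt
  refine Convex.mul_sub_le_image_sub_of_le_deriv (convex_Ici s) hd.continuous.continuousOn
    hd.differentiableOn ?_ s self_mem_Ici t h h
  intro x hx
  rw [interior_Ici] at hx
  rw [(hasDerivAt_lf x).deriv]
  exact (Bs_mono (Nat.ceil_mono (le_of_lt hx))).trans (Bs_le_kap x)

lemma lf_LL (b : Bool) {v : V} (h : q v ≠ 0) : |lf (tt (LL b v)) - lf (tt v)| ≤ 28 := by
  have hq : 0 < q v := lt_of_le_of_ne (q_nonneg v) h.symm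
  have h' := (q_LL_ne b).2 h
  have hq' : 0 < q (LL b v) := lt_of_le_of_ne (q_nonneg _) h'.symm
  rw [lf_tt, lf_tt]
  have h1 := Real.log_le_log hq' (q_LL_le b v)
  have h2 := Real.log_le_log hq (q_le_LL b v)
  rw [Real.log_mul (by norm_num) hq.ne'] at h1
  rw [Real.log_mul (by norm_num) hq'.ne'] at h2
  have h3 : Real.log (10 ^ 12) ≤ 28 := by
    rw [Real.log_le_iff_le_exp (by norm_num)]
    have h4 := Real.exp_one_gt_d9
    have h5 : Real.exp 28 = Real.exp 1 ^ 28 := by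
      rw [← Real.exp_nat_mul]; norm_num
    rw [h5]
    calc (10 : ℝ) ^ 12 ≤ 2.7182818283 ^ 28 := by norm_num
      _ ≤ Real.exp 1 ^ 28 := by gcongr
  rw [abs_le]
  constructor <;> linarith

lemma Bs_ge (n : ℕ) : 10 ^ 60 ≤ Bs n := by
  unfold Bs
  have h1 := Cb_ge
  have h2 : (1 : ℝ) ≤ Kn (n + 6) ^ 8 := one_le_pow₀ (one_le_Kn _)
  nlinarith

lemma tt_LL_aux {s t : ℝ} (h : |lf s - lf t| ≤ 28) (n : ℕ) (hn : n ≤ ⌈t⌉₊) :
    |s - t| ≤ 28 / Bs (n - 1) ∧ |s - t| ≤ 1 / 10 ^ 58 ∧ n ≤ ⌈s⌉₊ + 1 := by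
  have hB : 0 < Bs (n - 1) := lt_of_lt_of_le (by norm_num) (Bs_ge _)
  have key : ∀ a b : ℝ, a ≤ b → lf b - lf a ≤ 28 → n ≤ max ⌈a⌉₊ ⌈b⌉₊ →
      b - a ≤ 28 / Bs (n - 1) ∧ b - a ≤ 1 / 10 ^ 58 ∧ n ≤ ⌈a⌉₊ + 1 := by
    intro a b hab h1 h3
    have h2 := lf_lower hab
    have h4 := Bs_ge ⌈a⌉₊
    have h5 : (b - a) ≤ 1 / 10 ^ 58 := by
      rw [le_div_iff₀ (by norm_num)]
      nlinarith
    have h6 : n ≤ ⌈a⌉₊ + 1 := by
      have h7 : ⌈b⌉₊ ≤ ⌈a⌉₊ + 1 := by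
        apply Nat.ceil_le.2
        push_cast
        have := Nat.le_ceil a
        have : (1 : ℝ) / 10 ^ 58 ≤ 1 := by norm_num
        linarith
      omega
    refine ⟨?_, h5, h6⟩
    rw [le_div_iff₀ hB]
    have h8 := Bs_mono (show n - 1 ≤ ⌈a⌉₊ by omega)
    nlinarith
  rw [abs_le] at h
  rcases le_total s t with hst | hst
  · obtain ⟨a1, a2, a3⟩ := key s t hst (by linarith [h.1]) (by omega)
    rw [abs_sub_comm, abs_of_nonneg (by linarith)]
    exact ⟨a1, a2, a3⟩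
  · obtain ⟨a1, a2, a3⟩ := key t s hst (by linarith [h.2]) (by omega)
    rw [abs_of_nonneg (by linarith)]
    exact ⟨a1, a2, by have := Nat.ceil_mono hst; omega⟩

lemma tt_LL (b : Bool) {v : V} (h : q v ≠ 0) :
    |tt (LL b v) - tt v| ≤ 28 / Bs (⌈tt v⌉₊ - 1) ∧ |tt (LL b v) - tt v| ≤ 1 / 10 ^ 58 ∧
      ⌈tt v⌉₊ ≤ ⌈tt (LL b v)⌉₊ + 1 :=
  tt_LL_aux (lf_LL b h) _ le_rfl

lemma ceil_LL_le (b : Bool) {v : V} (h : q v ≠ 0) : tt (LL b v) ≤ ((⌈tt v⌉₊ + 1 : ℕ) : ℝ) := by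
  have h1 := (tt_LL b h).2.1
  rw [abs_le] at h1
  have h2 := Nat.le_ceil (tt v)
  have : (1 : ℝ) / 10 ^ 58 ≤ 1 := by norm_num
  push_cast
  linarith [h1.2]

open Classical in
/-- the ratio cocycle -/
noncomputable def NN (b : Bool) (v : V) : E →L[ℝ] E :=
  if q v = 0 then aInf (Jx v.1) else M (LL b v) * Mi v

lemma NN_of_zero (b : Bool) {v : V} (h : q v = 0) : NN b v = aInf (Jx v.1) := by
  unfold NN; rw [if_pos h]

lemma NN_of_ne (b : Bool) {v : V} (h : q v ≠ 0) : NN b v = M (LL b v) * Mi v := by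
  unfold NN; rw [if_neg h]

lemma NN_close (b : Bool) {v : V} (h : q v ≠ 0) :
    ‖NN b v - aT (tt v) (Jx v.1)‖ ≤ 1 / (10 ^ 58 * Kn (⌈tt v⌉₊ + 5) ^ 6) := by
  have hK : 1 ≤ Kn (⌈tt v⌉₊ + 5) := one_le_Kn _
  obtain ⟨h1, h2, h3⟩ := tt_LL b h
  rcases le_or_gt (-1) (tt v) with ht | ht
  · have hJ := (del_spec _ _ (Phi_lt_del h ht)).2
    have e1 : (LL b v).1 = Ax v.1 := by rw [LL_apply]
    have e2 : M (LL b v) = Mf (tt (LL b v)) (Jx v.1 + 1) := by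
      unfold M
      rw [e1]
      exact Mf_congr (ceil_LL_le b h) (hJ.mono (by omega))
    have e3 : NN b v - aT (tt v) (Jx v.1) =
        (Mf (tt (LL b v)) (Jx v.1 + 1) - Mf (tt v) (Jx v.1 + 1)) * Mi v := by
      rw [NN_of_ne b h, e2, sub_mul]
      rfl
    rw [e3]
    refine (norm_mul_le _ _).trans ?_
    have a1 : ‖Mf (tt (LL b v)) (Jx v.1 + 1) - Mf (tt v) (Jx v.1 + 1)‖ ≤
        Kn (⌈tt v⌉₊ + 1) * |tt (LL b v) - tt v| := by
      apply Mf_sub_norm_le (ceil_LL_le b h)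
      have := Nat.le_ceil (tt v)
      push_cast
      linarith
    have a2 := (Mi_norm_le v).trans (Kn_mono (show ⌈tt v⌉₊ ≤ ⌈tt v⌉₊ + 5 by omega))
    have a3 := Kn_mono (show ⌈tt v⌉₊ + 1 ≤ ⌈tt v⌉₊ + 5 by omega)
    have a4 : |tt (LL b v) - tt v| ≤ 28 / (10 ^ 60 * Kn (⌈tt v⌉₊ + 5) ^ 8) := by
      refine h1.trans ?_
      apply div_le_div_of_nonneg_left (by norm_num) (by positivity)
      unfold Bs
      have b1 := Cb_ge
      have b2 := Kn_mono (show ⌈tt v⌉₊ + 5 ≤ ⌈tt v⌉₊ - 1 + 6 by omega)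
      gcongr
    set K := Kn (⌈tt v⌉₊ + 5)
    calc _ ≤ (K * (28 / (10 ^ 60 * K ^ 8))) * K := by
          refine mul_le_mul (a1.trans ?_) a2 (norm_nonneg _) (by positivity)
          exact mul_le_mul a3 a4 (abs_nonneg _) (by positivity)
      _ = (28 / 10 ^ 60) * (1 / K ^ 6) := by field_simp
      _ ≤ (1 / 10 ^ 58) * (1 / K ^ 6) :=
          mul_le_mul_of_nonneg_right (by norm_num) (by positivity)
      _ = _ := by rw [one_div_mul_one_div]
  · have e1 : tt (LL b v) ≤ 0 := by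
      rw [abs_le] at h2
      have : (1 : ℝ) / 10 ^ 58 ≤ 1 := by norm_num
      linarith [h2.2]
    have e2 : NN b v - aT (tt v) (Jx v.1) = 0 := by
      rw [NN_of_ne b h]
      unfold aT M Mi
      rw [Mf_of_nonpos e1, Mf_of_nonpos (by linarith : tt v ≤ 0),
        Mfi_of_nonpos (by linarith : tt v ≤ 0), mul_one, sub_self]
    rw [e2, norm_zero]
    positivity

lemma NN_close' (b : Bool) {v : V} (h : q v ≠ 0) :
    ‖NN b v - aT (tt v) (Jx v.1)‖ ≤ 1 / 10 ^ 58 := by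
  refine (NN_close b h).trans ?_
  have hK : (1 : ℝ) ≤ Kn (⌈tt v⌉₊ + 5) ^ 6 := one_le_pow₀ (one_le_Kn _)
  apply div_le_div_of_nonneg_left (by norm_num) (by norm_num)
  nlinarith

lemma NN_norm_le (b : Bool) (v : V) : ‖NN b v‖ ≤ 2601 := by
  by_cases h : q v = 0
  · rw [NN_of_zero b h]
    exact (aInf_norm_le _).trans (by norm_num)
  · have h1 := NN_close' b h
    have h2 := aT_norm_le (tt v) (Jx v.1)
    have h3 := norm_sub_norm_le (NN b v) (aT (tt v) (Jx v.1))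
    have : (1 : ℝ) / 10 ^ 58 ≤ 1 := by norm_num
    linarith

lemma Phi_of_q_zero {v : V} (h : q v = 0) : Phi v.1 = 0 := (Q_of_q_zero h).2

lemma eventually_tt_ge {v₀ : V} (h : q v₀ = 0) (n : ℕ) :
    ∀ᶠ v in 𝓝 v₀, q v ≠ 0 → (n : ℝ) ≤ tt v := by
  have h1 : ∀ᶠ v in 𝓝 v₀, q v < Real.exp (-lf n) := by
    have := continuous_q.tendsto v₀
    rw [h] at this
    exact this.eventually (eventually_lt_nhds (Real.exp_pos _))
  filter_upwards [h1] with v hv hq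
  rw [q_eq_exp hq, Real.exp_lt_exp] at hv
  exact (strictMono_lf.lt_iff_lt.1 (by linarith)).le

lemma eventually_NN_close (b : Bool) {v₀ : V} (h : q v₀ = 0) {n : ℕ} (hn : 2 ≤ n) :
    ∀ᶠ v in 𝓝 v₀, ‖NN b v - NN b v₀‖ ≤ 16 * eps (n - 1) + 1 / (n + 1) := by
  have hP : Phi v₀.1 < del n := by rw [Phi_of_q_zero h]; exact del_pos n
  have h1 : ∀ᶠ v : V in 𝓝 v₀, Cg n (Jx v.1) (Jx v₀.1) :=
    (continuous_fst.tendsto v₀).eventually (del_spec _ _ hP).1
  filter_upwards [h1, eventually_tt_ge h n] with v hv ht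
  have he := eps_pos (n - 1)
  have hn1 : (0 : ℝ) < 1 / (n + 1) := by positivity
  rw [NN_of_zero b h]
  by_cases hq : q v = 0
  · rw [NN_of_zero b hq]
    have := aInf_close hn hv
    linarith
  · have a1 := aT_close hn (ht hq) hv
    have a2 := NN_close b hq
    have a3 : 1 / (10 ^ 58 * Kn (⌈tt v⌉₊ + 5) ^ 6) ≤ 1 / ((n : ℝ) + 1) := by
      apply div_le_div_of_nonneg_left (by norm_num) (by positivity)
      have b1 := le_Kn (⌈tt v⌉₊ + 5)
      have b2 : n ≤ ⌈tt v⌉₊ := by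
        have := (ht hq).trans (Nat.le_ceil (tt v))
        exact_mod_cast this
      have b3 : (n : ℝ) + 1 ≤ Kn (⌈tt v⌉₊ + 5) := by
        refine le_trans ?_ b1
        push_cast
        have : (n : ℝ) ≤ ⌈tt v⌉₊ := by exact_mod_cast b2
        linarith
      have b4 : 1 ≤ Kn (⌈tt v⌉₊ + 5) := one_le_Kn _
      have b5 : Kn (⌈tt v⌉₊ + 5) ≤ Kn (⌈tt v⌉₊ + 5) ^ 6 := le_self_pow₀ b4 (by norm_num)
      nlinarith
    calc ‖NN b v - aInf (Jx v₀.1)‖ =
        ‖(NN b v - aT (tt v) (Jx v.1)) + (aT (tt v) (Jx v.1) - aInf (Jx v₀.1))‖ := by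
          congr 1; abel
      _ ≤ _ := norm_add_le _ _
      _ ≤ 16 * eps (n - 1) + 1 / (n + 1) := by linarith

lemma tendsto_bound : Tendsto (fun n : ℕ => 16 * eps (n - 1) + 1 / ((n : ℝ) + 1)) atTop (𝓝 0) := by
  have h1 := (tendsto_eps.const_mul 16).add tendsto_one_div_add_atTop_nhds_zero_nat
  simpa using h1

lemma continuousAt_NN_zero (b : Bool) {v₀ : V} (h : q v₀ = 0) : ContinuousAt (NN b) v₀ := by
  rw [Metric.continuousAt_iff']
  intro ε hε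
  have h1 := (tendsto_bound.eventually (eventually_lt_nhds hε)).and (eventually_ge_atTop 2)
  obtain ⟨n, hn, hn2⟩ := h1.exists
  filter_upwards [eventually_NN_close b h hn2] with v hv
  rw [dist_eq_norm]
  exact hv.trans_lt hn

end Pool.Agent.H57.Cen
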