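import Pool.Agent.H57.Cen.Gd2

/-!
# Rows and periodicity of the derivative, iterates
-/

namespace Pool.Agent.H57.Cen

open Filter Topology Set

lemma DG_add_Gm (b : Bool) (v : V) (m n : ℤ) (p r : ℤ × ℤ) :
    DG b (v + Gm m n p r) = DG b v := by
  have h1 : HasFDerivAt (fun w => GG b (w + Gm m n p r)) (DG b (v + Gm m n p r)) v := by
    have h2 := hasFDerivAt_GG b (v + Gm m n p r)
    exact HasFDerivAt.comp v h2 ((hasFDerivAt_id v).add_const _)
  have h2 : HasFDerivAt (fun w => GG b (w + Gm m n p r)) (DG b v) v := by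
    have h3 : (fun w => GG b (w + Gm m n p r)) = fun w => GG b w + LL b (Gm m n p r) := by
      funext w; exact GG_add_Gm b w m n p r
    rw [h3]
    exact (hasFDerivAt_GG b v).add_const _
  exact h1.unique h2

lemma DG_fst (b : Bool) (p h : V) : (DG b p h).1 = Ax h.1 := by
  have h1 : HasFDerivAt (fun w => (GG b w).1)
      ((ContinuousLinearMap.fst ℝ (ℝ × ℝ) (E × E)).comp (DG b p)) p :=
    (hasFDerivAt_GG b p).fst
  have h2 : HasFDerivAt (fun w => (GG b w).1)
      ((Aj 1).comp (ContinuousLinearMap.fst ℝ (ℝ × ℝ) (E × E))) p := by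
    have e : (fun w => (GG b w).1) =
        fun w => ((Aj 1).comp (ContinuousLinearMap.fst ℝ (ℝ × ℝ) (E × E))) w := by
      funext w
      rw [GG_fst, ← Aj_one]; rfl
    rw [e]
    exact ContinuousLinearMap.hasFDerivAt _
  have h3 := congrArg (fun f => f h) (h1.unique h2)
  have h4 : (DG b p h).1 = Aj 1 h.1 := h3
  rw [h4, Aj_one]

/-- second fibre projection -/
noncomputable def pb : V →L[ℝ] E :=
  (ContinuousLinearMap.snd ℝ E E).comp (ContinuousLinearMap.snd ℝ (ℝ × ℝ) (E × E))

lemma pb_apply (v : V) : pb v = v.2.2 := rfl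

lemma DG_snd_snd (b : Bool) (p h : V) : (DG b p h).2.2 = nui b • h.2.2 := by
  have h1 : HasFDerivAt (fun w => pb (GG b w)) (pb.comp (DG b p)) p :=
    pb.hasFDerivAt.comp p (hasFDerivAt_GG b p)
  have h2 : HasFDerivAt (fun w => pb (GG b w)) (nui b • pb) p := by
    have e : (fun w => pb (GG b w)) = fun w => (nui b • pb) w := by
      funext w
      rw [pb_apply, GG_snd_snd]; rfl
    rw [e]
    exact ContinuousLinearMap.hasFDerivAt _
  have h3 := congrArg (fun f => f h) (h1.unique h2)
  exact h3

/-- derivative of the inverse -/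
noncomputable def DGi (b : Bool) (p : V) : V →L[ℝ] V := fderiv ℝ (GG b).symm p

lemma hasFDerivAt_GG_symm (b : Bool) (p : V) : HasFDerivAt (GG b).symm (DGi b p) p :=
  ((contDiff_GG_symm b).differentiable (by norm_num) p).hasFDerivAt

lemma DG_mul_DGi (b : Bool) (p : V) : DG b ((GG b).symm p) * DGi b p = 1 := by
  have h1 : HasFDerivAt (fun w => GG b ((GG b).symm w)) (DG b ((GG b).symm p) * DGi b p) p :=
    (hasFDerivAt_GG b ((GG b).symm p)).comp p (hasFDerivAt_GG_symm b p)
  have h2 : HasFDerivAt (fun w => GG b ((GG b).symm w)) (1 : V →L[ℝ] V) p := by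
    have e : (fun w => GG b ((GG b).symm w)) = id := by
      funext w; exact (GG b).apply_symm_apply w
    rw [e]
    exact hasFDerivAt_id p
  exact h1.unique h2

lemma DGi_mul_DG (b : Bool) (p : V) : DGi b (GG b p) * DG b p = 1 := by
  have h1 : HasFDerivAt (fun w => (GG b).symm (GG b w)) (DGi b (GG b p) * DG b p) p :=
    (hasFDerivAt_GG_symm b (GG b p)).comp p (hasFDerivAt_GG b p)
  have h2 : HasFDerivAt (fun w => (GG b).symm (GG b w)) (1 : V →L[ℝ] V) p := by
    have e : (fun w => (GG b).symm (GG b w)) = id := by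
      funext w; exact (GG b).symm_apply_apply w
    rw [e]
    exact hasFDerivAt_id p
  exact h1.unique h2

/-- derivative of the iterates of a map -/
noncomputable def Dit (g : V → V) (D : V → V →L[ℝ] V) : ℕ → V → V →L[ℝ] V
  | 0, _ => 1
  | n + 1, p => Dit g D n (g p) * D p

lemma hasFDerivAt_iter {g : V → V} {D : V → V →L[ℝ] V} (h : ∀ p, HasFDerivAt g (D p) p)
    (n : ℕ) (p : V) : HasFDerivAt (g^[n]) (Dit g D n p) p := by
  induction n generalizing p with
  | zero => exact hasFDerivAt_id p
  | succ n ih =>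
    rw [Function.iterate_succ]
    exact (ih (g p)).comp p (h p)

lemma Dit_add (g : V → V) (D : V → V →L[ℝ] V) (m n : ℕ) (p : V) :
    Dit g D (m + n) p = Dit g D m (g^[n] p) * Dit g D n p := by
  induction n generalizing p with
  | zero => simp [Dit]
  | succ n ih =>
    rw [← add_assoc, Dit, ih, Function.iterate_succ, Function.comp_apply, Dit, mul_assoc]

end Pool.Agent.H57.Cen
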