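import Pool.Agent.H57.Cen.Code

/-!
# The Toeplitz set
-/

namespace Pool.Agent.H57.Cen

open Filter Topology Set

/-- parity -/
def par (k : ℕ) : Bool := decide (k % 2 = 1)

lemma par_succ_ne (k : ℕ) : par (k + 1) ≠ par k := by
  unfold par
  rcases Nat.mod_two_eq_zero_or_one k with h | h
  · have : (k + 1) % 2 = 1 := by omega
    simp [h, this]
  · have : (k + 1) % 2 = 0 := by omega
    simp [h, this]

/-- the sequence `w` is compatible with the phase `z` -/
def Cmp (w : Om) (z : ℤ_[2]) : Prop :=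
  ∀ n : ℤ, z + n + 1 ≠ 0 → w n = par (z + n + 1).valuation

lemma val_of_eq {x b : ℤ_[2]} {k : ℕ} (h : x = 2 ^ k * (2 * b + 1)) : x.valuation = k ∧ x ≠ 0 := by
  have h1 : ‖x‖ = (2 : ℝ)⁻¹ ^ k := by rw [h, norm_odd]
  have hx : x ≠ 0 := by
    rintro rfl
    rw [norm_zero] at h1
    have : (0 : ℝ) < (2 : ℝ)⁻¹ ^ k := by positivity
    linarith
  refine ⟨?_, hx⟩
  obtain ⟨c, hc⟩ := exists_odd hx
  have h2 : ‖x‖ = (2 : ℝ)⁻¹ ^ x.valuation := by
    conv_lhs => rw [hc]
    rw [norm_odd]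
  rw [h1] at h2
  exact (pow_right_injective₀ (by norm_num : (0 : ℝ) < 2⁻¹) (by norm_num) h2).symm

lemma Cmp.unique {w : Om} {z z' : ℤ_[2]} (h : Cmp w z) (h' : Cmp w z') : z = z' := by
  by_contra hne
  obtain ⟨u, hu⟩ := exists_odd (sub_ne_zero.2 hne)
  set k := (z - z').valuation with hk
  set y : ℤ_[2] := -z - 1 + 2 ^ k * (2 * u + 3) with hy
  obtain ⟨e, he⟩ := cg_iff_dvd.1 (cg_res (k + 2) y)
  set n := res (k + 2) y with hn
  have e1 : z + ((n : ℤ) : ℤ_[2]) + 1 = 2 ^ k * (2 * (u + 1 - 2 * e) + 1) := by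
    push_cast
    rw [hy] at he
    rw [pow_add] at he
    linear_combination -he
  have e2 : z' + ((n : ℤ) : ℤ_[2]) + 1 = 2 ^ (k + 1) * (2 * (-e) + 1) := by
    push_cast at e1 ⊢
    rw [pow_succ]
    linear_combination e1 - hu
  obtain ⟨v1, n1⟩ := val_of_eq e1
  obtain ⟨v2, n2⟩ := val_of_eq e2
  have a1 := h n n1
  have a2 := h' n n2
  rw [v1] at a1
  rw [v2, a1] at a2
  exact par_succ_ne k a2.symm

lemma Cmp.sh {w : Om} {z : ℤ_[2]} (h : Cmp w z) : Cmp (sh w) (z + 1) := by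
  intro n hn
  have e : z + 1 + (n : ℤ_[2]) + 1 = z + ((n + 1 : ℤ) : ℤ_[2]) + 1 := by push_cast; ring
  rw [e] at hn ⊢
  exact h (n + 1) hn

/-- the inverse shift -/
def shi (w : Om) : Om := fun n => w (n - 1)

lemma sh_shi (w : Om) : Cen.sh (shi w) = w := by
  funext n; unfold Cen.sh shi; congr 1; ring

lemma Cmp.shi {w : Om} {z : ℤ_[2]} (h : Cmp w z) : Cmp (shi w) (z - 1) := by
  intro n hn
  have e : z - 1 + (n : ℤ_[2]) + 1 = z + ((n - 1 : ℤ) : ℤ_[2]) + 1 := by push_cast; ring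
  rw [e] at hn ⊢
  exact h (n - 1) hn

/-- the base point -/
noncomputable def w0 : Om := fun n => par ((n : ℤ_[2]) + 1).valuation

lemma cmp_w0 : Cmp w0 0 := by
  intro n _
  unfold w0
  rw [zero_add]

lemma isOpen_cg (n : ℕ) (z : ℤ_[2]) : IsOpen {y | Cg n y z} := by
  rw [Metric.isOpen_iff]
  intro y hy
  refine ⟨(2 : ℝ) ^ (-(n : ℤ)), by positivity, fun y' hy' => ?_⟩
  rw [Metric.mem_ball, dist_eq_norm] at hy'
  exact (cg_iff_norm.2 hy'.le).trans hy

lemma isClosed_cg (n : ℕ) (z : ℤ_[2]) : IsClosed {y | Cg n y z} := by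
  rw [← isOpen_compl_iff]
  rw [Metric.isOpen_iff]
  intro y hy
  refine ⟨(2 : ℝ) ^ (-(n : ℤ)), by positivity, fun y' hy' => ?_⟩
  rw [Metric.mem_ball, dist_eq_norm] at hy'
  intro h
  exact hy ((cg_iff_norm.2 hy'.le).symm.trans h)

/-- compatible pairs -/
def CP : Set (Om × ℤ_[2]) := {p | Cmp p.1 p.2}

lemma isClosed_CP : IsClosed CP := by
  have h : CP = ⋂ n : ℤ, {p : Om × ℤ_[2] | p.2 + n + 1 ≠ 0 → p.1 n = par (p.2 + n + 1).valuation} := by
    ext p; simp [CP, Cmp]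
  rw [h]
  apply isClosed_iInter
  intro n
  rw [← isOpen_compl_iff, isOpen_iff_mem_nhds]
  rintro ⟨w, z⟩ hp
  simp only [mem_compl_iff, mem_ofPred_eq, Classical.not_imp] at hp
  obtain ⟨hne, hw⟩ := hp
  obtain ⟨b, hb⟩ := exists_odd hne
  set k := (z + n + 1).valuation with hk
  have h1 : ∀ᶠ p : Om × ℤ_[2] in 𝓝 (w, z), p.1 n = w n := by
    have hc : Continuous fun p : Om × ℤ_[2] => p.1 n := (continuous_apply n).comp continuous_fst
    have := hc.continuousAt (x := (w, z))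
    rw [ContinuousAt, nhds_discrete Bool, tendsto_pure] at this
    exact this
  have h2 : ∀ᶠ p : Om × ℤ_[2] in 𝓝 (w, z), Cg (k + 1) p.2 z := by
    have h3 : ∀ᶠ y in 𝓝 z, Cg (k + 1) y z := (isOpen_cg (k + 1) z).mem_nhds (Cg.refl (k + 1) z)
    exact (continuous_snd.tendsto (w, z)).eventually h3
  filter_upwards [h1, h2] with p hp1 hp2
  simp only [mem_compl_iff, mem_ofPred_eq, Classical.not_imp]
  obtain ⟨c, hc⟩ := cg_iff_dvd.1 hp2
  have e : p.2 + n + 1 = 2 ^ k * (2 * (b + c) + 1) := by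
    rw [pow_succ] at hc
    linear_combination hc + hb
  obtain ⟨v1, n1⟩ := val_of_eq e
  refine ⟨n1, ?_⟩
  rw [hp1, v1]
  exact hw

lemma isCompact_CP : IsCompact CP := isClosed_CP.isCompact

/-! ### The two-torus -/

/-- the two-torus -/
abbrev T2 : Type := UnitAddCircle × UnitAddCircle

/-- second standard coordinate -/
noncomputable def cb (x : ℝ × ℝ) : ℝ := (x.1 + x.2) / (lam - lami)
/-- first standard coordinate -/
noncomputable def ca (x : ℝ × ℝ) : ℝ := x.1 - cb x * lam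

lemma lam_sub_lami_pos : 0 < lam - lami := by
  have := lam_bounds; have := lami_bounds; linarith [this.2, lam_bounds.1]

/-- the inverse coordinate map -/
noncomputable def stdi (a b : ℝ) : ℝ × ℝ := (a + b * lam, -(a + b * lami))

lemma ca_stdi (a b : ℝ) : cb (stdi a b) = b ∧ ca (stdi a b) = a := by
  have h := lam_sub_lami_pos.ne'
  have h1 : cb (stdi a b) = b := by
    unfold cb stdi; simp only
    rw [div_eq_iff h]; ring
  refine ⟨h1, ?_⟩
  unfold ca
  rw [h1]
  unfold stdi; simp only; ring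

lemma stdi_ca (x : ℝ × ℝ) : stdi (ca x) (cb x) = x := by
  have h := lam_sub_lami_pos.ne'
  have h1 : cb x * (lam - lami) = x.1 + x.2 := by unfold cb; field_simp
  unfold stdi ca
  ext
  · simp
  · simp only
    linear_combination h1

lemma continuous_cb : Continuous cb := by unfold cb; fun_prop
lemma continuous_ca : Continuous ca := by unfold ca; have := continuous_cb; fun_prop

/-- the projection onto the two-torus -/
noncomputable def pT (x : ℝ × ℝ) : T2 := ((ca x : UnitAddCircle), (cb x : UnitAddCircle))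

lemma continuous_pT : Continuous pT :=
  ((AddCircle.continuous_mk' 1).comp continuous_ca).prodMk
    ((AddCircle.continuous_mk' 1).comp continuous_cb)

lemma gam_eq_stdi (m n : ℤ) : gam m n = stdi m n := rfl

lemma ca_add (x y : ℝ × ℝ) : cb (x + y) = cb x + cb y ∧ ca (x + y) = ca x + ca y := by
  have h1 : cb (x + y) = cb x + cb y := by
    unfold cb; rw [← add_div]; congr 1; simp; ring
  refine ⟨h1, ?_⟩
  unfold ca
  rw [h1]
  simp
  ring

lemma coe_eq_coe {a b : ℝ} : (a : UnitAddCircle) = b ↔ ∃ m : ℤ, a = b + m := by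
  rw [QuotientAddGroup.eq, AddSubgroup.mem_zmultiples_iff]
  constructor
  · rintro ⟨k, hk⟩
    refine ⟨-k, ?_⟩
    simp at hk
    push_cast
    linarith
  · rintro ⟨m, hm⟩
    refine ⟨-m, ?_⟩
    simp
    linarith

lemma pT_eq_iff {x y : ℝ × ℝ} : pT x = pT y ↔ ∃ m n : ℤ, x = y + gam m n := by
  unfold pT
  rw [Prod.mk.injEq, coe_eq_coe, coe_eq_coe]
  constructor
  · rintro ⟨⟨m, hm⟩, ⟨n, hn⟩⟩
    refine ⟨m, n, ?_⟩
    rw [← stdi_ca x, ← stdi_ca y, hm, hn]
    unfold stdi gam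
    ext <;> simp <;> ring
  · rintro ⟨m, n, rfl⟩
    obtain ⟨h1, h2⟩ := ca_add y (gam m n)
    obtain ⟨h3, h4⟩ := ca_stdi m n
    rw [← gam_eq_stdi] at h3 h4
    rw [h1, h2, h3, h4]
    exact ⟨⟨m, rfl⟩, ⟨n, rfl⟩⟩

lemma pT_add_gam (x : ℝ × ℝ) (m n : ℤ) : pT (x + gam m n) = pT x :=
  pT_eq_iff.2 ⟨m, n, rfl⟩

/-- the automorphism of the two-torus -/
def AT (y : T2) : T2 := (-y.2, y.1 + 6 • y.2)

lemma AT_pT (x : ℝ × ℝ) : AT (pT x) = pT (Ax x) := by
  have h1 : Ax x = stdi (-cb x) (ca x + 6 * cb x) := by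
    conv_lhs => rw [← stdi_ca x]
    have h1 := lam_mul_lami
    have h2 := lam_add_lami
    unfold Ax stdi
    ext
    · have : lam ^ 2 = 6 * lam - 1 := by nlinarith
      simp only
      linear_combination (cb x) * this
    · have : lami ^ 2 = 6 * lami - 1 := by nlinarith
      simp only
      linear_combination -(cb x) * this
  rw [h1]
  unfold AT pT
  obtain ⟨e1, e2⟩ := ca_stdi (-cb x) (ca x + 6 * cb x)
  rw [e1, e2]
  ext
  · simp
  · have : (6 : ℝ) * cb x = 6 • cb x := by simp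
    simp only
    rw [this]
    rfl

lemma AT_dist (y y' : T2) : dist (AT y) (AT y') ≤ 7 * dist y y' := by
  have h1 : ‖y.1 - y'.1‖ ≤ ‖y - y'‖ := norm_fst_le (y - y')
  have h2 : ‖y.2 - y'.2‖ ≤ ‖y - y'‖ := norm_snd_le (y - y')
  have h0 := norm_nonneg (y - y')
  rw [dist_eq_norm, dist_eq_norm, Prod.norm_def]
  apply max_le
  · have : (AT y - AT y').1 = -(y.2 - y'.2) := by unfold AT; simp; abel
    rw [this, norm_neg]
    linarith
  · have : (AT y - AT y').2 = (y.1 - y'.1) + 6 • (y.2 - y'.2) := by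
      unfold AT
      simp only [Prod.snd_sub, smul_sub]
      abel
    rw [this]
    refine (norm_add_le _ _).trans ?_
    have h3 : ‖6 • (y.2 - y'.2)‖ ≤ 6 * ‖y.2 - y'.2‖ := by
      have := norm_nsmul_le (n := 6) (a := y.2 - y'.2)
      simpa using this
    linarith

/-- the embedding of the compatible pairs into the torus -/
noncomputable def emb (p : Om × ℤ_[2]) : T2 := pT (code p.1)

lemma continuous_emb : Continuous emb := continuous_pT.comp (continuous_code.comp continuous_fst)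

lemma emb_injOn : InjOn emb CP := by
  rintro ⟨w, z⟩ h ⟨w', z'⟩ h' he
  obtain ⟨m, n, hmn⟩ := pT_eq_iff.1 he
  obtain ⟨_, _, rfl⟩ := code_injective_mod hmn
  have : z = z' := Cmp.unique h h'
  rw [this]

lemma emb_sh (w : Om) (z : ℤ_[2]) : emb (sh w, z + 1) = AT (emb (w, z)) := by
  unfold emb
  obtain ⟨m, hm⟩ := code_sh w
  simp only
  rw [hm, pT_add_gam, AT_pT]

end Pool.Agent.H57.Cen
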